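import Mathlib

/-!
# A family of polynomials with independent first order jets at distinct points
-/

namespace Pool.Agent.TH662.IP

open Finset

section defs

variable {R : Type} [CommRing R] {n : ℕ}

/-- A linear form. -/
def ell (u : ℕ) (y : Fin n → R) : R := ∑ j : Fin n, (u : R) ^ (j : ℕ) * y j

/-- The coordinates, with default value zero. -/
def yat (y : Fin n → R) (k : ℕ) : R := if h : k < n then y ⟨k, h⟩ else 0

/-- The polynomials of the family. -/
def bf (r u e j : ℕ) (y : Fin n → R) : R :=
  if j = 0 then ell u y ^ e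
  else if j = 1 then ell u y ^ (r + 1 + e)
  else yat y (j - 1) * ell u y ^ e

/-- Their partial derivatives. -/
def bd (r u e j : ℕ) (y : Fin n → R) (q : Fin n) : R :=
  if j = 0 then (e : R) * ell u y ^ (e - 1) * (u : R) ^ (q : ℕ)
  else if j = 1 then ((r + 1 + e : ℕ) : R) * ell u y ^ (r + e) * (u : R) ^ (q : ℕ)
  else (if (q : ℕ) = j - 1 then ell u y ^ e else 0) +
    yat y (j - 1) * ((e : R) * ell u y ^ (e - 1) * (u : R) ^ (q : ℕ))

/-- The matrix of the jets. -/
def jmat (r u : ℕ) (Y : Fin (r + 1) → Fin n → R) :
    Matrix (Fin (r + 1) × Fin (n + 1)) (Fin (r + 1) × Fin (n + 1)) R :=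
  Matrix.of fun a b => Fin.cases (bf r u b.1 b.2 (Y a.1)) (fun q => bd r u b.1 b.2 (Y a.1) q) a.2

theorem jmat_zero (r u : ℕ) (Y : Fin (r + 1) → Fin n → R) (i : Fin (r + 1))
    (b : Fin (r + 1) × Fin (n + 1)) : jmat r u Y (i, 0) b = bf r u b.1 b.2 (Y i) := rfl

theorem jmat_succ (r u : ℕ) (Y : Fin (r + 1) → Fin n → R) (i : Fin (r + 1)) (q : Fin n)
    (b : Fin (r + 1) × Fin (n + 1)) : jmat r u Y (i, q.succ) b = bd r u b.1 b.2 (Y i) q := rfl

end defs

section maps

variable {R S : Type} [CommRing R] [CommRing S] {n : ℕ} (φ : R →+* S)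

theorem map_ell (u : ℕ) (y : Fin n → R) : φ (ell u y) = ell u (fun j => φ (y j)) := by
  simp [ell]

theorem map_yat (y : Fin n → R) (k : ℕ) : φ (yat y k) = yat (fun j => φ (y j)) k := by
  unfold yat
  split_ifs <;> simp

theorem map_bf (r u e j : ℕ) (y : Fin n → R) :
    φ (bf r u e j y) = bf r u e j (fun j => φ (y j)) := by
  unfold bf
  split_ifs <;> simp [map_ell, map_yat]

theorem map_bd (r u e j : ℕ) (y : Fin n → R) (q : Fin n) :
    φ (bd r u e j y q) = bd r u e j (fun j => φ (y j)) q := by
  unfold bd
  split_ifs <;> simp [map_ell, map_yat]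

end maps

/-- A polynomial of degree at most `r` with `r + 1` distinct roots is zero. -/
theorem eq_zero_of_roots {r : ℕ} (p : Polynomial ℝ) (hp : p.natDegree < r + 1)
    (s : Fin (r + 1) → ℝ) (hs : Function.Injective s) (h : ∀ i, p.eval (s i) = 0) : p = 0 := by
  by_contra h0
  have h1 : (univ.image s).val ≤ p.roots := by
    rw [Multiset.le_iff_subset (Finset.nodup _)]
    intro a ha
    rw [Finset.mem_val, Finset.mem_image] at ha
    obtain ⟨i, -, rfl⟩ := ha
    rw [Polynomial.mem_roots h0]
    exact h i
  have h2 := Multiset.card_le_card h1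
  have h3 := Polynomial.card_roots' p
  have h4 : Multiset.card (univ.image s).val = r + 1 := by
    rw [Finset.card_val, Finset.card_image_of_injective _ hs]
    simp
  omega

theorem sum_split {r n : ℕ} (f : Fin (r + 1) × Fin (n + 2) → ℝ) :
    ∑ b, f b = ∑ e, f (e, 0) + (∑ e, f (e, 1) + ∑ j : Fin n, ∑ e, f (e, j.succ.succ)) := by
  rw [Fintype.sum_prod_type_right, Fin.sum_univ_succ (n := n + 1), Fin.sum_univ_succ (n := n)]
  rfl

theorem yat_succ {n : ℕ} (y : Fin (n + 1) → ℝ) (j : Fin n) : yat y (j + 1) = y j.succ := by
  unfold yat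
  rw [dif_pos (by have := j.2; omega)]
  rfl

theorem eq_zero_of_double_roots {r : ℕ} (p : Polynomial ℝ) (hp : p.natDegree < 2 * (r + 1))
    (s : Fin (r + 1) → ℝ) (hs : Function.Injective s) (h : ∀ i, p.eval (s i) = 0)
    (h' : ∀ i, (Polynomial.derivative p).eval (s i) = 0) : p = 0 := by
  classical
  by_contra h0
  have h1 : 2 • (univ.image s).val ≤ p.roots := by
    rw [Multiset.le_iff_count]
    intro a
    rw [Multiset.count_nsmul, Polynomial.count_roots]
    by_cases ha : a ∈ univ.image s
    · rw [Finset.mem_image] at ha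
      obtain ⟨i, -, rfl⟩ := ha
      have h5 : Multiset.count (s i) (univ.image s).val ≤ 1 :=
        Multiset.nodup_iff_count_le_one.1 (Finset.nodup _) _
      have h6 : 1 < p.rootMultiplicity (s i) :=
        (Polynomial.one_lt_rootMultiplicity_iff_isRoot h0).2 ⟨h i, h' i⟩
      omega
    · have h5 : Multiset.count a (univ.image s).val = 0 := by
        rw [Multiset.count_eq_zero]
        exact ha
      rw [h5]
      simp
  have h2 := Multiset.card_le_card h1
  have h3 := Polynomial.card_roots' p
  have h4 : Multiset.card (2 • (univ.image s).val) = 2 * (r + 1) := by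
    rw [Multiset.card_nsmul, Finset.card_val, Finset.card_image_of_injective _ hs]
    simp
  omega

/-- The matrix of the jets is invertible, if the linear form takes distinct values. -/
theorem jmat_det {n : ℕ} (hn : 0 < n) (r u : ℕ) (Y : Fin (r + 1) → Fin n → ℝ)
    (hY : Function.Injective fun i => ell u (Y i)) : (jmat r u Y).det ≠ 0 := by
  classical
  intro hdet
  rw [← Matrix.exists_mulVec_eq_zero_iff] at hdet
  obtain ⟨θ, hθ, hJ⟩ := hdet
  apply hθ
  set s : Fin (r + 1) → ℝ := fun i => ell u (Y i) with hs
  obtain ⟨n, rfl⟩ : ∃ n', n = n' + 1 := ⟨n - 1, by omega⟩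
  -- the polynomials
  set g : Fin (n + 2) → Polynomial ℝ := fun j =>
    ∑ e : Fin (r + 1), Polynomial.monomial (e : ℕ) (θ (e, j)) with hg
  set p : Polynomial ℝ := g 0 + ∑ e : Fin (r + 1),
    Polynomial.monomial (r + 1 + (e : ℕ)) (θ (e, 1)) with hp
  have hgd : ∀ j, (g j).natDegree < r + 1 := by
    intro j
    have : (g j).natDegree ≤ r := by
      apply Polynomial.natDegree_sum_le_of_forall_le
      intro e _
      exact (Polynomial.natDegree_monomial_le _).trans (by omega)
    omega
  have hgc : ∀ j (e : Fin (r + 1)), (g j).coeff e = θ (e, j) := by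
    intro j e
    simp only [hg, Polynomial.finsetSum_coeff, Polynomial.coeff_monomial]
    rw [Finset.sum_eq_single e]
    · simp
    · intro b _ hb
      rw [if_neg]
      intro h
      exact hb (Fin.ext h)
    · simp
  -- the rows
  have hval : ∀ i, (p.eval (s i)) + ∑ j : Fin n, Y i j.succ * (g j.succ.succ).eval (s i) = 0 := by
    intro i
    have h1 := congrFun hJ (i, 0)
    simp only [Matrix.mulVec, dotProduct, jmat_zero, Pi.zero_apply] at h1
    rw [sum_split] at h1
    have e0 : ((0 : Fin (n + 2)) : ℕ) = 0 := rfl
    have e1 : ((1 : Fin (n + 2)) : ℕ) = 1 := rfl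
    have e2 : ∀ j : Fin n, ((j.succ.succ : Fin (n + 2)) : ℕ) = j + 1 + 1 := fun j => rfl
    have e3 : ∀ j : ℕ, (j + 1 + 1 = 1) = False := by intro j; simp
    simp only [bf, e0, e1, e2, if_true, if_false, one_ne_zero, Nat.succ_ne_zero,
      e3, Nat.add_sub_cancel, yat_succ] at h1
    simp only [hp, hg, Polynomial.eval_add, Polynomial.eval_finsetSum, Polynomial.eval_monomial]
    rw [← h1, add_assoc]
    congr 1
    · refine Finset.sum_congr rfl fun e _ => ?_
      ring
    congr 1
    · refine Finset.sum_congr rfl fun e _ => ?_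
      rw [mul_comm]
    · refine Finset.sum_congr rfl fun j _ => ?_
      rw [Finset.mul_sum]
      refine Finset.sum_congr rfl fun e _ => ?_
      simp only [hs]
      ring
  have hder : ∀ i (q : Fin (n + 1)), (u : ℝ) ^ (q : ℕ) * ((Polynomial.derivative p).eval (s i) +
      ∑ j : Fin n, Y i j.succ * (Polynomial.derivative (g j.succ.succ)).eval (s i)) +
      ∑ j : Fin n, (if (q : ℕ) = j + 1 then (g j.succ.succ).eval (s i) else 0) = 0 := by
    intro i q
    have h1 := congrFun hJ (i, q.succ)
    simp only [Matrix.mulVec, dotProduct, jmat_succ, Pi.zero_apply] at h1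
    rw [sum_split] at h1
    have e0 : ((0 : Fin (n + 2)) : ℕ) = 0 := rfl
    have e1 : ((1 : Fin (n + 2)) : ℕ) = 1 := rfl
    have e2 : ∀ j : Fin n, ((j.succ.succ : Fin (n + 2)) : ℕ) = j + 1 + 1 := fun j => rfl
    have e3 : ∀ j : ℕ, (j + 1 + 1 = 1) = False := by intro j; simp
    simp only [bd, e0, e1, e2, if_true, if_false, one_ne_zero, Nat.succ_ne_zero,
      e3, Nat.add_sub_cancel, yat_succ] at h1
    simp only [hp, hg, Polynomial.derivative_add, Polynomial.derivative_sum,
      Polynomial.derivative_monomial, Polynomial.eval_add,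
      Polynomial.eval_finsetSum, Polynomial.eval_monomial]
    refine Eq.trans ?_ h1
    rw [mul_add, mul_add, add_assoc, add_assoc]
    congr 1
    · rw [Finset.mul_sum]
      refine Finset.sum_congr rfl fun e _ => ?_
      simp only [hs]
      ring
    congr 1
    · rw [Finset.mul_sum]
      refine Finset.sum_congr rfl fun e _ => ?_
      have h4 : r + 1 + (e : ℕ) - 1 = r + e := by omega
      rw [h4]
      simp only [hs]
      ring
    · rw [Finset.mul_sum, ← Finset.sum_add_distrib]
      refine Finset.sum_congr rfl fun j _ => ?_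
      rw [Finset.mul_sum, Finset.mul_sum]
      split_ifs with hq
      · rw [← Finset.sum_add_distrib]
        refine Finset.sum_congr rfl fun e _ => ?_
        simp only [hs]
        ring
      · rw [add_zero]
        refine Finset.sum_congr rfl fun e _ => ?_
        simp only [hs]
        ring
  have hD : ∀ i, (Polynomial.derivative p).eval (s i) +
      ∑ j : Fin n, Y i j.succ * (Polynomial.derivative (g j.succ.succ)).eval (s i) = 0 := by
    intro i
    have h1 := hder i 0
    simpa using h1
  have hg0 : ∀ j : Fin n, g j.succ.succ = 0 := by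
    intro j
    apply eq_zero_of_roots _ (hgd _) s hY
    intro i
    have h1 := hder i j.succ
    rw [hD i, mul_zero, zero_add, Finset.sum_eq_single j] at h1
    · simpa using h1
    · intro b _ hb
      rw [if_neg]
      intro h
      simp only [Fin.val_succ, Nat.add_right_cancel_iff] at h
      exact hb (Fin.ext h.symm)
    · simp
  have hp0 : p = 0 := by
    apply eq_zero_of_double_roots p (r := r) _ s hY
    · intro i
      have h1 := hval i
      simpa [hg0] using h1
    · intro i
      have h1 := hD i
      simpa [hg0] using h1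
    · have : p.natDegree ≤ 2 * r + 1 := by
        apply (Polynomial.natDegree_add_le _ _).trans
        apply max_le
        · have := hgd 0; omega
        · apply Polynomial.natDegree_sum_le_of_forall_le
          intro e _
          exact (Polynomial.natDegree_monomial_le _).trans (by omega)
      omega
  funext a
  obtain ⟨e, j⟩ := a
  refine Fin.cases ?_ (fun j => Fin.cases ?_ (fun j => ?_) j) j
  · -- coefficient e of p
    have h1 : p.coeff e = θ (e, 0) := by
      rw [hp, Polynomial.coeff_add, hgc, Polynomial.finsetSum_coeff, Finset.sum_eq_zero, add_zero]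
      intro e' _
      rw [Polynomial.coeff_monomial, if_neg]
      omega
    rw [hp0, Polynomial.coeff_zero] at h1
    exact h1.symm
  · have h1 : p.coeff (r + 1 + e) = θ (e, 1) := by
      rw [hp, Polynomial.coeff_add, Polynomial.coeff_eq_zero_of_natDegree_lt
        (lt_of_lt_of_le (hgd 0) (by omega)), zero_add, Polynomial.finsetSum_coeff,
        Finset.sum_eq_single e]
      · simp
      · intro b _ hb
        rw [Polynomial.coeff_monomial, if_neg]
        intro h
        apply hb
        ext
        omega
      · simp
    rw [hp0, Polynomial.coeff_zero] at h1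
    exact h1.symm
  · have h1 := hgc j.succ.succ e
    rw [hg0, Polynomial.coeff_zero] at h1
    exact h1.symm

/-- Distinct points are separated by one of the linear forms. -/
theorem exists_dir {n r U : ℕ} (Y : Fin (r + 1) → Fin n → ℝ) (hY : Function.Injective Y)
    (hU : (r + 1) * (r + 1) * n < U) :
    ∃ u < U, Function.Injective fun i => ell u (Y i) := by
  classical
  by_contra hcon
  push Not at hcon
  -- for every u there is a bad pair
  have h1 : ∀ u : Fin U, ∃ p : Fin (r + 1) × Fin (r + 1), p.1 ≠ p.2 ∧
      ell (u : ℕ) (Y p.1) = ell (u : ℕ) (Y p.2) := by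
    intro u
    have := hcon u u.2
    rw [Function.Injective] at this
    push Not at this
    obtain ⟨i, i', h, hne⟩ := this
    exact ⟨(i, i'), hne, h⟩
  choose P hP1 hP2 using h1
  obtain ⟨p, hp⟩ : ∃ p, n < (univ.filter fun u => P u = p).card := by
    by_contra hc
    push Not at hc
    have h2 : (univ : Finset (Fin U)).card = ∑ p, (univ.filter fun u => P u = p).card :=
      Finset.card_eq_sum_card_fiberwise (fun _ _ => Finset.mem_univ _)
    have h3 : ∑ p : Fin (r + 1) × Fin (r + 1), (univ.filter fun u => P u = p).card ≤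
        ∑ _p : Fin (r + 1) × Fin (r + 1), n := Finset.sum_le_sum fun p _ => hc p
    simp only [Finset.sum_const, Finset.card_univ, Fintype.card_prod, Fintype.card_fin,
      smul_eq_mul] at h3
    rw [Finset.card_univ, Fintype.card_fin] at h2
    omega
  -- the polynomial
  have hne : p.1 ≠ p.2 := by
    have : 0 < (univ.filter fun u => P u = p).card := by omega
    rw [Finset.card_pos] at this
    obtain ⟨u, hu⟩ := this
    rw [Finset.mem_filter] at hu
    rw [← hu.2]
    exact hP1 u
  set q : Polynomial ℝ := ∑ j : Fin n, Polynomial.monomial (j : ℕ) (Y p.1 j - Y p.2 j) with hq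
  have hq0 : q = 0 := by
    by_contra h0
    have h2 : ((univ.filter fun u => P u = p).image fun u : Fin U => ((u : ℕ) : ℝ)).val ≤
        q.roots := by
      rw [Multiset.le_iff_subset (Finset.nodup _)]
      intro a ha
      rw [Finset.mem_val, Finset.mem_image] at ha
      obtain ⟨u, hu, rfl⟩ := ha
      rw [Finset.mem_filter] at hu
      rw [Polynomial.mem_roots h0, Polynomial.IsRoot, hq, Polynomial.eval_finsetSum]
      simp only [Polynomial.eval_monomial]
      have h3 := hP2 u
      rw [hu.2] at h3
      simp only [ell] at h3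
      rw [← sub_eq_zero, ← Finset.sum_sub_distrib] at h3
      rw [← h3]
      refine Finset.sum_congr rfl fun j _ => ?_
      ring
    have h4 := Multiset.card_le_card h2
    rw [Finset.card_val, Finset.card_image_of_injective] at h4
    · have h5 := Polynomial.card_roots' q
      have h6 : q.natDegree ≤ n := by
        apply Polynomial.natDegree_sum_le_of_forall_le
        intro j _
        exact (Polynomial.natDegree_monomial_le _).trans (by omega)
      omega
    · intro a b hab
      simp only [Nat.cast_inj] at hab
      exact Fin.ext hab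
  apply hne
  apply hY
  funext j
  have h7 : q.coeff j = Y p.1 j - Y p.2 j := by
    rw [hq, Polynomial.finsetSum_coeff, Finset.sum_eq_single j]
    · simp
    · intro b _ hb
      rw [Polynomial.coeff_monomial, if_neg]
      intro h
      exact hb (Fin.ext h)
    · simp
  rw [hq0, Polynomial.coeff_zero] at h7
  linarith

end Pool.Agent.TH662.IP
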