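import Mathlib
import Pool.Agent.H612.Gap

/-!
# Weighted norms of integer polynomials and algebraic dependence with bounded height
-/

namespace Pool.Agent.TH662.IP

open Finset Pool.Agent.H612

section wn

variable {σ : Type}

/-- Weighted `L1` norm. -/
noncomputable def wv (p : MvPolynomial σ ℤ) : ℕ :=
  ∑ α ∈ p.support, (p.coeff α).natAbs * 2 ^ α.degree

theorem wv_eq_of_subset {p : MvPolynomial σ ℤ} {s : Finset (σ →₀ ℕ)} (h : p.support ⊆ s) :
    wv p = ∑ α ∈ s, (p.coeff α).natAbs * 2 ^ α.degree := by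
  unfold wv
  apply Finset.sum_subset h
  intro i _ hi
  rw [MvPolynomial.notMem_support_iff.mp hi]
  simp

theorem wv_monomial (α : σ →₀ ℕ) (c : ℤ) :
    wv (MvPolynomial.monomial α c) = c.natAbs * 2 ^ α.degree := by
  classical
  have h : (MvPolynomial.monomial α c).support ⊆ {α} := MvPolynomial.support_monomial_subset
  rw [wv_eq_of_subset h]
  simp

theorem wv_zero : wv (0 : MvPolynomial σ ℤ) = 0 := by simp [wv]

theorem wv_add (p q : MvPolynomial σ ℤ) : wv (p + q) ≤ wv p + wv q := by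
  classical
  have h1 : (p + q).support ⊆ p.support ∪ q.support := MvPolynomial.support_add
  rw [wv_eq_of_subset h1, wv_eq_of_subset (Finset.subset_union_left (s₂ := q.support)),
    wv_eq_of_subset (Finset.subset_union_right (s₁ := p.support)), ← Finset.sum_add_distrib]
  apply Finset.sum_le_sum
  intro i _
  rw [MvPolynomial.coeff_add, ← Nat.add_mul]
  exact Nat.mul_le_mul_right _ (Int.natAbs_add_le _ _)

theorem wv_sum {ι : Type*} (s : Finset ι) (f : ι → MvPolynomial σ ℤ) :
    wv (∑ i ∈ s, f i) ≤ ∑ i ∈ s, wv (f i) := by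
  classical
  induction s using Finset.induction_on with
  | empty => simp [wv_zero]
  | insert a s ha ih =>
    rw [Finset.sum_insert ha, Finset.sum_insert ha]
    exact (wv_add _ _).trans (Nat.add_le_add_left ih _)

theorem wv_mul (p q : MvPolynomial σ ℤ) : wv (p * q) ≤ wv p * wv q := by
  conv_lhs => rw [MvPolynomial.as_sum p, MvPolynomial.as_sum q]
  rw [Finset.sum_mul_sum]
  refine (wv_sum _ _).trans ?_
  have : wv p * wv q = ∑ i ∈ p.support, ∑ j ∈ q.support,
      ((p.coeff i).natAbs * 2 ^ i.degree) * ((q.coeff j).natAbs * 2 ^ j.degree) := by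
    rw [wv, wv, Finset.sum_mul_sum]
  rw [this]
  apply Finset.sum_le_sum
  intro i _
  refine (wv_sum _ _).trans ?_
  apply Finset.sum_le_sum
  intro j _
  rw [MvPolynomial.monomial_mul, wv_monomial, Int.natAbs_mul, map_add, pow_add]
  apply le_of_eq
  ring

/-- The weighted norm. -/
noncomputable def wn (σ : Type) : RNorm (MvPolynomial σ ℤ) where
  ν := wv
  zero := wv_zero
  one := by
    have : (1 : MvPolynomial σ ℤ) = MvPolynomial.monomial 0 1 := rfl
    rw [this, wv_monomial]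
    simp
  neg := fun p => by
    unfold wv
    rw [MvPolynomial.support_neg]
    apply le_of_eq
    refine Finset.sum_congr rfl fun i _ => ?_
    rw [MvPolynomial.coeff_neg, Int.natAbs_neg]
  add := wv_add
  mul := wv_mul

theorem wn_C (c : ℤ) : (wn σ).ν (MvPolynomial.C c) = c.natAbs := by
  have : (MvPolynomial.C c : MvPolynomial σ ℤ) = MvPolynomial.monomial 0 c := rfl
  rw [this]
  refine (wv_monomial _ _).trans ?_
  simp

theorem wn_X (i : σ) : (wn σ).ν (MvPolynomial.X i) = 2 := by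
  have : (MvPolynomial.X i : MvPolynomial σ ℤ) = MvPolynomial.monomial (Finsupp.single i 1) 1 := rfl
  rw [this]
  refine (wv_monomial _ _).trans ?_
  rw [Finsupp.degree_single]
  simp

theorem wn_coeff_le (p : MvPolynomial σ ℤ) (α : σ →₀ ℕ) :
    (p.coeff α).natAbs * 2 ^ α.degree ≤ (wn σ).ν p := by
  change _ ≤ wv p
  by_cases h : α ∈ p.support
  · exact Finset.single_le_sum (f := fun α => (p.coeff α).natAbs * 2 ^ α.degree)
      (fun _ _ => Nat.zero_le _) h
  · rw [MvPolynomial.notMem_support_iff.mp h]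
    simp

theorem degree_le_of_wn {p : MvPolynomial σ ℤ} {l : ℕ} (h : (wn σ).ν p ≤ 2 ^ l) {α : σ →₀ ℕ}
    (hα : p.coeff α ≠ 0) : α.degree ≤ l := by
  have h1 := (wn_coeff_le p α).trans h
  have h2 : 1 ≤ (p.coeff α).natAbs := Int.natAbs_pos.2 hα
  have h3 : 2 ^ α.degree ≤ 2 ^ l := by nlinarith [Nat.zero_le (2 ^ α.degree)]
  exact (Nat.pow_le_pow_iff_right (by norm_num)).1 h3

theorem one_le_wn {p : MvPolynomial σ ℤ} (hp : p ≠ 0) : 1 ≤ (wn σ).ν p := by
  obtain ⟨α, hα⟩ := MvPolynomial.ne_zero_iff.1 hp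
  have h1 := wn_coeff_le p α
  have h2 : 1 ≤ (p.coeff α).natAbs := Int.natAbs_pos.2 hα
  have h3 : 1 ≤ 2 ^ α.degree := Nat.one_le_two_pow
  nlinarith

end wn

theorem RNorm_pow_le {R : Type} [CommRing R] (nr : RNorm R) (x : R) (k : ℕ) :
    nr.ν (x ^ k) ≤ nr.ν x ^ k := by
  induction k with
  | zero => simpa using nr.one
  | succ k ih =>
    rw [pow_succ, pow_succ]
    exact (nr.mul _ _).trans (Nat.mul_le_mul_right _ ih)

attribute [local instance] Matrix.seminormedAddCommGroup

open Classical in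
/-- Algebraic dependence of `m + 1` rational functions in `m` variables, with bounded height. -/
theorem dependence {σ : Type} [Fintype σ] (m : ℕ) (hm : Fintype.card σ = m) (l : ℕ)
    (f : Option σ → MvPolynomial σ ℤ) (D : MvPolynomial σ ℤ) (hf : ∀ o, (wn σ).ν (f o) ≤ 2 ^ l)
    (hD : (wn σ).ν D ≤ 2 ^ l) :
    ∃ P : MvPolynomial (Option σ) ℤ, P ≠ 0 ∧
      (wn _).ν P ≤ 2 ^ ((m + 1) * (2 * (l * (m + 1) + 1) ^ m) * (l + 3)) ∧
      ∀ z : σ → ℝ, MvPolynomial.aeval z D ≠ 0 →
        MvPolynomial.aeval (fun o => MvPolynomial.aeval z (f o) / MvPolynomial.aeval z D) P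
          = 0 := by
  set Δ : ℕ := 2 * (l * (m + 1) + 1) ^ m with hΔ
  have hΔ1 : 1 ≤ Δ := by
    have : 1 ≤ (l * (m + 1) + 1) ^ m := Nat.one_le_pow _ _ (by omega)
    omega
  set M : ℕ := (m + 1) * Δ with hM
  -- the products
  set T : (Option σ → Fin Δ) → MvPolynomial σ ℤ := fun e =>
    (∏ o, f o ^ (e o : ℕ)) * D ^ (M - ∑ o, (e o : ℕ)) with hT
  have hcard : Fintype.card (Option σ) = m + 1 := by rw [Fintype.card_option, hm]
  have hsum : ∀ e : Option σ → Fin Δ, ∑ o, (e o : ℕ) ≤ M := by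
    intro e
    calc ∑ o, (e o : ℕ) ≤ ∑ _o : Option σ, Δ := Finset.sum_le_sum fun o _ => (e o).2.le
      _ = M := by rw [Finset.sum_const, Finset.card_univ, hcard, smul_eq_mul]
  have hTn : ∀ e, (wn σ).ν (T e) ≤ 2 ^ (l * M) := by
    intro e
    refine ((wn σ).mul _ _).trans ?_
    have h1 : (wn σ).ν (∏ o, f o ^ (e o : ℕ)) ≤ ∏ o, (2 ^ l) ^ (e o : ℕ) := by
      refine ((wn σ).prod _ _).trans ?_
      apply Finset.prod_le_prod'
      intro o _
      exact (RNorm_pow_le _ _ _).trans (Nat.pow_le_pow_left (hf o) _)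
    have h2 : (wn σ).ν (D ^ (M - ∑ o, (e o : ℕ))) ≤ (2 ^ l) ^ (M - ∑ o, (e o : ℕ)) :=
      (RNorm_pow_le _ _ _).trans (Nat.pow_le_pow_left hD _)
    refine (Nat.mul_le_mul h1 h2).trans ?_
    rw [Finset.prod_pow_eq_pow_sum, ← pow_add, Nat.add_sub_cancel' (hsum e), ← pow_mul]
  -- the matrix
  let toF : (σ → Fin (l * M + 1)) → (σ →₀ ℕ) := fun α => Finsupp.equivFunOnFinite.symm
    fun i => (α i : ℕ)
  let Am : Matrix (σ → Fin (l * M + 1)) (Option σ → Fin Δ) ℤ :=
    Matrix.of fun α e => (T e).coeff (toF α)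
  have hc1 : Fintype.card (σ → Fin (l * M + 1)) = (l * M + 1) ^ m := by
    rw [Fintype.card_fun, hm, Fintype.card_fin]
  have hc2 : Fintype.card (Option σ → Fin Δ) = Δ ^ (m + 1) := by
    rw [Fintype.card_fun, hcard, Fintype.card_fin]
  have hc3 : 2 * (l * M + 1) ^ m ≤ Δ ^ (m + 1) := by
    have h1 : l * M + 1 ≤ (l * (m + 1) + 1) * Δ := by
      calc l * M + 1 = l * (m + 1) * Δ + 1 := by rw [hM]; ring
        _ ≤ l * (m + 1) * Δ + Δ := Nat.add_le_add_left hΔ1 _
        _ = (l * (m + 1) + 1) * Δ := by ring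
    calc 2 * (l * M + 1) ^ m ≤ 2 * ((l * (m + 1) + 1) * Δ) ^ m :=
          Nat.mul_le_mul_left _ (Nat.pow_le_pow_left h1 _)
      _ = (2 * (l * (m + 1) + 1) ^ m) * Δ ^ m := by rw [mul_pow]; ring
      _ = Δ ^ (m + 1) := by rw [← hΔ, pow_succ]; ring
  have hpos1 : 0 < (l * M + 1) ^ m := Nat.pow_pos (by omega)
  obtain ⟨t, ht0, htA, htn⟩ := Int.Matrix.exists_ne_zero_int_vec_norm_le Am
    (by rw [hc1, hc2]; omega) (by rw [hc1]; exact hpos1)
  have hA : ‖Am‖ ≤ 2 ^ (l * M) := by
    rw [Matrix.norm_le_iff (by positivity)]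
    intro α e
    have h1 := (wn_coeff_le (T e) (toF α)).trans (hTn e)
    have h2 : ((T e).coeff (toF α)).natAbs ≤ 2 ^ (l * M) := by
      have : 0 < 2 ^ (toF α).degree := Nat.pow_pos (by norm_num)
      exact (Nat.le_mul_of_pos_right _ this).trans h1
    rw [Int.norm_eq_abs]
    change |(((T e).coeff (toF α) : ℤ) : ℝ)| ≤ _
    rw [← Int.cast_abs, Int.abs_eq_natAbs]
    exact_mod_cast h2
  have htn' : ∀ e, (t e).natAbs ≤ Δ ^ (m + 1) * 2 ^ (l * M) := by
    intro e
    have h1 : ‖t e‖ ≤ ‖t‖ := norm_le_pi_norm t e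
    have h2 : ((Fintype.card (Option σ → Fin Δ) : ℝ) * max 1 ‖Am‖) ^
        ((Fintype.card (σ → Fin (l * M + 1)) : ℝ) /
          ((Fintype.card (Option σ → Fin Δ) : ℝ) - (Fintype.card (σ → Fin (l * M + 1)) : ℝ))) ≤
        (Δ ^ (m + 1) * 2 ^ (l * M) : ℝ) := by
      rw [hc1, hc2]
      have e1 : (1 : ℝ) ≤ ((Δ ^ (m + 1) : ℕ) : ℝ) * max 1 ‖Am‖ := by
        have a1 : (1 : ℝ) ≤ ((Δ ^ (m + 1) : ℕ) : ℝ) := by
          exact_mod_cast Nat.one_le_pow _ _ hΔ1
        have a2 : (1 : ℝ) ≤ max 1 ‖Am‖ := le_max_left _ _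
        nlinarith
      have c3 : (2 * ((l * M + 1) ^ m : ℕ) : ℝ) ≤ ((Δ ^ (m + 1) : ℕ) : ℝ) := by
        exact_mod_cast hc3
      have p1 : (0 : ℝ) < (((l * M + 1) ^ m : ℕ) : ℝ) := by exact_mod_cast hpos1
      have e2 : (((l * M + 1) ^ m : ℕ) : ℝ) /
          (((Δ ^ (m + 1) : ℕ) : ℝ) - (((l * M + 1) ^ m : ℕ) : ℝ)) ≤ 1 := by
        rw [div_le_one (by linarith)]
        linarith
      calc _ ≤ (((Δ ^ (m + 1) : ℕ) : ℝ) * max 1 ‖Am‖) ^ (1 : ℝ) :=
            Real.rpow_le_rpow_of_exponent_le e1 e2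
        _ = ((Δ ^ (m + 1) : ℕ) : ℝ) * max 1 ‖Am‖ := Real.rpow_one _
        _ ≤ ((Δ ^ (m + 1) : ℕ) : ℝ) * 2 ^ (l * M) := by
          apply mul_le_mul_of_nonneg_left _ (by positivity)
          apply max_le _ hA
          exact one_le_pow₀ (by norm_num)
        _ = (Δ ^ (m + 1) * 2 ^ (l * M) : ℝ) := by push_cast; ring
    have h3 := h1.trans (htn.trans h2)
    rw [Int.norm_eq_abs, ← Int.cast_abs, Int.abs_eq_natAbs] at h3
    exact_mod_cast h3
  -- the polynomial
  let toG : (Option σ → Fin Δ) → (Option σ →₀ ℕ) := fun e => Finsupp.equivFunOnFinite.symm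
    fun i => (e i : ℕ)
  have toG_inj : Function.Injective toG := by
    intro e e' h
    have h1 := Finsupp.equivFunOnFinite.symm.injective h
    funext i
    exact Fin.ext (congrFun h1 i)
  refine ⟨∑ e, MvPolynomial.monomial (toG e) (t e), ?_, ?_, ?_⟩
  · obtain ⟨e, he⟩ := Function.ne_iff.1 ht0
    intro h0
    apply he
    have h1 : (∑ e, MvPolynomial.monomial (toG e) (t e)).coeff (toG e) = t e := by
      rw [MvPolynomial.coeff_sum, Finset.sum_eq_single e]
      · simp
      · intro b _ hb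
        rw [MvPolynomial.coeff_monomial, if_neg]
        exact fun h => hb (toG_inj h)
      · simp
    rw [h0] at h1
    simpa using h1.symm
  · have hdeg : ∀ e, (toG e).degree ≤ M := by
      intro e
      rw [Finsupp.degree_eq_sum]
      exact hsum e
    calc (wn _).ν (∑ e, MvPolynomial.monomial (toG e) (t e))
        ≤ ∑ e, (wn _).ν (MvPolynomial.monomial (toG e) (t e)) := (wn _).sum _ _
      _ ≤ ∑ _e : Option σ → Fin Δ, (Δ ^ (m + 1) * 2 ^ (l * M)) * 2 ^ M := by
        apply Finset.sum_le_sum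
        intro e _
        refine le_trans (le_of_eq (wv_monomial _ _)) ?_
        exact Nat.mul_le_mul (htn' e) (Nat.pow_le_pow_right (by norm_num) (hdeg e))
      _ = Δ ^ (m + 1) * Δ ^ (m + 1) * 2 ^ (l * M + M) := by
        rw [Finset.sum_const, Finset.card_univ, hc2, smul_eq_mul, pow_add]
        ring
      _ ≤ 2 ^ M * 2 ^ M * 2 ^ (l * M + M) := by
        have h1 : Δ ^ (m + 1) ≤ 2 ^ M := by
          rw [hM, mul_comm, pow_mul]
          exact Nat.pow_le_pow_left Nat.lt_two_pow_self.le _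
        exact Nat.mul_le_mul_right _ (Nat.mul_le_mul h1 h1)
      _ = 2 ^ ((m + 1) * Δ * (l + 3)) := by
        rw [← pow_add, ← pow_add]
        congr 1
        rw [hM]
        ring
  · intro z hz
    -- the identity of polynomials
    have key : ∑ e, MvPolynomial.C (t e) * T e = 0 := by
      apply MvPolynomial.ext
      intro α
      rw [MvPolynomial.coeff_sum, MvPolynomial.coeff_zero]
      simp only [MvPolynomial.coeff_C_mul]
      by_cases hα : ∀ i, α i < l * M + 1
      · have h1 := congrFun htA (fun i => ⟨α i, hα i⟩)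
        rw [Matrix.mulVec, Pi.zero_apply] at h1
        rw [← h1]
        simp only [dotProduct]
        refine Finset.sum_congr rfl fun e _ => ?_
        have h2 : toF (fun i => ⟨α i, hα i⟩) = α := by
          ext i
          simp [toF]
        change _ = (T e).coeff (toF _) * t e
        rw [h2, mul_comm]
      · push Not at hα
        obtain ⟨i, hi⟩ := hα
        refine Finset.sum_eq_zero fun e _ => ?_
        have h2 : (T e).coeff α = 0 := by
          by_contra h3
          have h4 := degree_le_of_wn (hTn e) h3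
          have h5 : α i ≤ α.degree := by
            rw [Finsupp.degree_eq_sum]
            exact Finset.single_le_sum (f := fun i => α i) (fun _ _ => Nat.zero_le _)
              (Finset.mem_univ i)
          omega
        rw [h2, mul_zero]
    have key2 : ∑ e, (t e : ℝ) * MvPolynomial.aeval z (T e) = 0 := by
      have := congrArg (MvPolynomial.aeval z) key
      rw [map_sum, map_zero] at this
      rw [← this]
      refine Finset.sum_congr rfl fun e _ => ?_
      rw [map_mul (MvPolynomial.aeval z) (MvPolynomial.C (t e)) (T e), MvPolynomial.aeval_C,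
        algebraMap_int_eq, eq_intCast]
    rw [map_sum]
    have h6 : ∀ e : Option σ → Fin Δ, MvPolynomial.aeval
        (fun o => MvPolynomial.aeval z (f o) / MvPolynomial.aeval z D)
          (MvPolynomial.monomial (toG e) (t e)) =
        (t e : ℝ) * MvPolynomial.aeval z (T e) / (MvPolynomial.aeval z D) ^ M := by
      intro e
      rw [MvPolynomial.aeval_monomial, Finsupp.prod_fintype _ _ (fun i => pow_zero _)]
      simp only [hT, map_mul, map_prod, map_pow]
      have h7 : ∀ o, (MvPolynomial.aeval z (f o) / MvPolynomial.aeval z D : ℝ) ^ (toG e o) =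
          (MvPolynomial.aeval z (f o)) ^ (e o : ℕ) / (MvPolynomial.aeval z D) ^ (e o : ℕ) := by
        intro o
        rw [div_pow]
        rfl
      rw [Finset.prod_congr rfl fun o _ => h7 o, Finset.prod_div_distrib,
        Finset.prod_pow_eq_pow_sum]
      have h8 : (MvPolynomial.aeval z D : ℝ) ^ M = (MvPolynomial.aeval z D) ^ (∑ o, (e o : ℕ)) *
          (MvPolynomial.aeval z D) ^ (M - ∑ o, (e o : ℕ)) := by
        rw [← pow_add, Nat.add_sub_cancel' (hsum e)]
      have h9 : (MvPolynomial.aeval z D : ℝ) ^ (M - ∑ o, (e o : ℕ)) ≠ 0 := pow_ne_zero _ hz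
      have h10 : (MvPolynomial.aeval z D : ℝ) ^ (∑ o, (e o : ℕ)) ≠ 0 := pow_ne_zero _ hz
      rw [h8, ← mul_assoc, mul_div_mul_right _ _ h9, mul_div_assoc]
      congr 1
    rw [Finset.sum_congr rfl fun e _ => h6 e, ← Finset.sum_div, key2, zero_div]

end Pool.Agent.TH662.IP
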