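import Mathlib
import Pool.Agent.TH662.IP.Jets
import Pool.Agent.TH662.IP.WN

/-!
# The objective function
-/

namespace Pool.Agent.TH662.IP

open Finset Pool.Agent.H612

/-- Systems: a list of signed sums of products of three variables. -/
abbrev Sys := List (List (Bool × ℕ × ℕ × ℕ))

section defs

variable {R : Type} [CommRing R] {n : ℕ}

/-- The vector `(a, x, y)`. -/
def vg (a : R) (x y : Fin n → R) (k : ℕ) : R :=
  if k = 0 then a else if k - 1 < n then yat x (k - 1) else yat y (k - 1 - n)

/-- A sign. -/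
def sg (b : Bool) : R := if b then 1 else -1

/-- The value of a signed sum of triple products. -/
def EE (l : List (Bool × ℕ × ℕ × ℕ)) (V : ℕ → R) : R :=
  (l.map fun q => sg q.1 * (V q.2.1 * V q.2.2.1 * V q.2.2.2)).sum

/-- Directional derivative. -/
def dEE (l : List (Bool × ℕ × ℕ × ℕ)) (V dV : ℕ → R) : R :=
  (l.map fun q => sg q.1 * (dV q.2.1 * V q.2.2.1 * V q.2.2.2 + V q.2.1 * dV q.2.2.1 * V q.2.2.2 +
    V q.2.1 * V q.2.2.1 * dV q.2.2.2)).sum

/-- The sum of the squares. -/
def FF (S : Sys) (V : ℕ → R) : R := (S.map fun l => EE l V ^ 2).sum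

/-- Directional derivative. -/
def dFF (S : Sys) (V dV : ℕ → R) : R := (S.map fun l => 2 * EE l V * dEE l V dV).sum

/-- Unit vectors. -/
def uv (j k : ℕ) : R := if k = j then 1 else 0

/-- The weight. -/
def WW (y : Fin n → R) : R := 1 + ∑ j, y j ^ 2

/-- The cut-off. -/
def hh (x : Fin n → R) : R := yat x 0 ^ 2 * (1 - ∑ j, x j ^ 2)

/-- Its partial derivatives. -/
def dhh (x : Fin n → R) (j : Fin n) : R :=
  (if (j : ℕ) = 0 then 2 * yat x 0 * (1 - ∑ j, x j ^ 2) else 0) - yat x 0 ^ 2 * (2 * x j)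

/-- The objective. -/
def Psi (S : Sys) (k : ℕ) (x y : Fin n → R) (ρ : R) : R :=
  hh x * FF S (vg 1 x y) + ρ * WW y ^ k

/-- Partial derivatives with respect to `x`. -/
def dxP (S : Sys) (x y : Fin n → R) (j : Fin n) : R :=
  dhh x j * FF S (vg 1 x y) + hh x * dFF S (vg 1 x y) (uv (1 + j))

/-- Partial derivatives with respect to `y`. -/
def dyP (S : Sys) (k : ℕ) (x y : Fin n → R) (ρ : R) (q : Fin n) : R :=
  hh x * dFF S (vg 1 x y) (uv (1 + n + q)) + ρ * ((k : R) * WW y ^ (k - 1) * (2 * y q))

end defs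

section maps

variable {R S : Type} [CommRing R] [CommRing S] {n : ℕ} (φ : R →+* S)

theorem map_vg (a : R) (x y : Fin n → R) (k : ℕ) :
    φ (vg a x y k) = vg (φ a) (fun j => φ (x j)) (fun j => φ (y j)) k := by
  unfold vg
  split_ifs <;> simp [map_yat]

theorem map_sg (b : Bool) : φ (sg b) = sg b := by
  unfold sg
  split_ifs <;> simp

theorem map_uv (j k : ℕ) : φ (uv j k) = uv j k := by
  unfold uv
  split_ifs <;> simp

theorem map_EE (l : List (Bool × ℕ × ℕ × ℕ)) (V : ℕ → R) :
    φ (EE l V) = EE l (fun k => φ (V k)) := by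
  unfold EE
  rw [map_list_sum, List.map_map]
  congr 1
  refine List.map_congr_left fun q _ => ?_
  simp [map_sg]

theorem map_dEE (l : List (Bool × ℕ × ℕ × ℕ)) (V dV : ℕ → R) :
    φ (dEE l V dV) = dEE l (fun k => φ (V k)) (fun k => φ (dV k)) := by
  unfold dEE
  rw [map_list_sum, List.map_map]
  congr 1
  refine List.map_congr_left fun q _ => ?_
  simp [map_sg]

theorem map_FF (T : Sys) (V : ℕ → R) : φ (FF T V) = FF T (fun k => φ (V k)) := by
  unfold FF
  rw [map_list_sum, List.map_map]
  congr 1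
  refine List.map_congr_left fun q _ => ?_
  simp [map_EE]

theorem map_dFF (T : Sys) (V dV : ℕ → R) :
    φ (dFF T V dV) = dFF T (fun k => φ (V k)) (fun k => φ (dV k)) := by
  unfold dFF
  rw [map_list_sum, List.map_map]
  congr 1
  refine List.map_congr_left fun q _ => ?_
  simp [map_EE, map_dEE, map_ofNat]

theorem map_WW (y : Fin n → R) : φ (WW y) = WW (fun j => φ (y j)) := by
  simp [WW]

theorem map_hh (x : Fin n → R) : φ (hh x) = hh (fun j => φ (x j)) := by
  simp [hh, map_yat]

theorem map_dhh (x : Fin n → R) (j : Fin n) : φ (dhh x j) = dhh (fun j => φ (x j)) j := by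
  unfold dhh
  split_ifs <;> simp [map_yat, map_ofNat]

theorem map_Psi (T : Sys) (k : ℕ) (x y : Fin n → R) (ρ : R) :
    φ (Psi T k x y ρ) = Psi T k (fun j => φ (x j)) (fun j => φ (y j)) (φ ρ) := by
  unfold Psi
  rw [map_add, map_mul, map_mul, map_pow, map_hh, map_FF, map_WW]
  simp only [map_vg, map_one]

theorem map_dxP (T : Sys) (x y : Fin n → R) (j : Fin n) :
    φ (dxP T x y j) = dxP T (fun j => φ (x j)) (fun j => φ (y j)) j := by
  unfold dxP
  rw [map_add, map_mul, map_mul, map_dhh, map_FF, map_hh, map_dFF]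
  simp only [map_vg, map_one, map_uv]

theorem map_dyP (T : Sys) (k : ℕ) (x y : Fin n → R) (ρ : R) (q : Fin n) :
    φ (dyP T k x y ρ q) = dyP T k (fun j => φ (x j)) (fun j => φ (y j)) (φ ρ) q := by
  unfold dyP
  simp only [map_add, map_mul, map_pow, map_hh, map_dFF, map_vg, map_one, map_uv, map_WW,
    map_natCast, map_ofNat]

end maps

/-! ### Derivatives -/

section deriv

variable {n : ℕ}

theorem hasDerivAt_EE (l : List (Bool × ℕ × ℕ × ℕ)) (V : ℝ → ℕ → ℝ) (dV : ℕ → ℝ) (s : ℝ)
    (h : ∀ k, HasDerivAt (fun s => V s k) (dV k) s) :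
    HasDerivAt (fun s => EE l (V s)) (dEE l (V s) dV) s := by
  induction l with
  | nil => simpa [EE, dEE] using hasDerivAt_const s (0 : ℝ)
  | cons q l ih =>
    have h1 := (((h q.2.1).mul (h q.2.2.1)).mul (h q.2.2.2)).const_mul (sg q.1)
    have h2 := h1.add ih
    refine (h2.congr_of_eventuallyEq ?_).congr_deriv ?_
    · exact Filter.Eventually.of_forall fun s => by simp [EE]
    · simp only [dEE, List.map_cons, List.sum_cons, Pi.mul_apply]
      ring

theorem hasDerivAt_FF (S : Sys) (V : ℝ → ℕ → ℝ) (dV : ℕ → ℝ) (s : ℝ)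
    (h : ∀ k, HasDerivAt (fun s => V s k) (dV k) s) :
    HasDerivAt (fun s => FF S (V s)) (dFF S (V s) dV) s := by
  induction S with
  | nil => simpa [FF, dFF] using hasDerivAt_const s (0 : ℝ)
  | cons l S ih =>
    have h1 := (hasDerivAt_EE l V dV s h).pow 2
    have h2 := h1.add ih
    refine (h2.congr_of_eventuallyEq ?_).congr_deriv ?_
    · exact Filter.Eventually.of_forall fun s => by simp [FF]
    · simp only [dFF, List.map_cons, List.sum_cons]
      ring

theorem dEE_lin (l : List (Bool × ℕ × ℕ × ℕ)) (V : ℕ → ℝ) {ι : Type} (s : Finset ι) (v : ι → ℝ)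
    (e : ι → ℕ → ℝ) : dEE l V (fun k => ∑ j ∈ s, v j * e j k) = ∑ j ∈ s, v j * dEE l V (e j) := by
  induction l with
  | nil => simp [dEE]
  | cons q l ih =>
    have h1 : ∀ dV : ℕ → ℝ, dEE (q :: l) V dV = sg q.1 * (dV q.2.1 * V q.2.2.1 * V q.2.2.2 +
        V q.2.1 * dV q.2.2.1 * V q.2.2.2 + V q.2.1 * V q.2.2.1 * dV q.2.2.2) + dEE l V dV :=
      fun dV => by simp [dEE]
    rw [h1, ih]
    simp only [h1, mul_add, Finset.sum_add_distrib]
    congr 1
    simp only [Finset.sum_mul, Finset.mul_sum]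
    congr 1
    congr 1
    all_goals
      refine Finset.sum_congr rfl fun j _ => ?_
      ring

theorem dFF_lin (S : Sys) (V : ℕ → ℝ) {ι : Type} (s : Finset ι) (v : ι → ℝ)
    (e : ι → ℕ → ℝ) : dFF S V (fun k => ∑ j ∈ s, v j * e j k) = ∑ j ∈ s, v j * dFF S V (e j) := by
  induction S with
  | nil => simp [dFF]
  | cons l S ih =>
    have h1 : ∀ dV : ℕ → ℝ, dFF (l :: S) V dV = 2 * EE l V * dEE l V dV + dFF S V dV :=
      fun dV => by simp [dFF]
    rw [h1, ih, dEE_lin]
    simp only [h1, mul_add, Finset.sum_add_distrib, Finset.mul_sum]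
    congr 1
    refine Finset.sum_congr rfl fun j _ => ?_
    ring

theorem yat_add_smul (x v : Fin n → ℝ) (s : ℝ) (k : ℕ) :
    yat (x + s • v) k = yat x k + s * yat v k := by
  unfold yat
  split_ifs <;> simp

theorem yat_eq_sum (v : Fin n → ℝ) (k : ℕ) :
    yat v k = ∑ j : Fin n, v j * (if k = j then 1 else 0) := by
  unfold yat
  split_ifs with h
  · rw [Finset.sum_eq_single ⟨k, h⟩]
    · simp
    · intro b _ hb
      rw [if_neg, mul_zero]
      intro h2
      exact hb (Fin.ext h2.symm)
    · simp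
  · symm
    refine Finset.sum_eq_zero fun j _ => ?_
    rw [if_neg, mul_zero]
    intro h2
    exact h (h2 ▸ j.2)

theorem hasDerivAt_lin (a b s : ℝ) : HasDerivAt (fun s : ℝ => a + s * b) b s := by
  have := ((hasDerivAt_id s).mul_const b).const_add a
  simpa using this

/-- Derivative of the objective in the direction of `x`. -/
theorem hasDerivAt_Psi_x (S : Sys) (k : ℕ) (x v y : Fin n → ℝ) (ρ s : ℝ) :
    HasDerivAt (fun s : ℝ => Psi S k (x + s • v) y ρ) (∑ j, v j * dxP S (x + s • v) y j) s := by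
  have hV : ∀ i, HasDerivAt (fun s : ℝ => vg (1 : ℝ) (x + s • v) y i)
      (∑ j : Fin n, v j * uv (1 + (j : ℕ)) i) s := by
    intro i
    unfold vg
    by_cases h0 : i = 0
    · subst h0
      simp only [if_true]
      have : ∑ j : Fin n, v j * (uv (1 + (j : ℕ)) 0 : ℝ) = 0 := by
        refine Finset.sum_eq_zero fun j _ => ?_
        unfold uv
        rw [if_neg (by omega), mul_zero]
      rw [this]
      exact hasDerivAt_const _ _
    · simp only [h0, if_false]
      by_cases h1 : i - 1 < n
      · simp only [h1, if_true, yat_add_smul]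
        have : ∑ j : Fin n, v j * (uv (1 + (j : ℕ)) i : ℝ) = yat v (i - 1) := by
          rw [yat_eq_sum]
          refine Finset.sum_congr rfl fun j _ => ?_
          unfold uv
          congr 1
          by_cases h2 : i = 1 + j
          · rw [if_pos h2, if_pos (by omega)]
          · rw [if_neg h2, if_neg (by omega)]
        rw [this]
        exact hasDerivAt_lin _ _ _
      · simp only [h1, if_false]
        have : ∑ j : Fin n, v j * (uv (1 + (j : ℕ)) i : ℝ) = 0 := by
          refine Finset.sum_eq_zero fun j _ => ?_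
          unfold uv
          rw [if_neg (by omega), mul_zero]
        rw [this]
        exact hasDerivAt_const _ _
  have hF := hasDerivAt_FF S (fun s => vg (1 : ℝ) (x + s • v) y) _ s hV
  rw [dFF_lin] at hF
  have hx : ∀ j, HasDerivAt (fun s : ℝ => (x + s • v) j) (v j) s := by
    intro j
    simp only [Pi.add_apply, Pi.smul_apply, smul_eq_mul]
    exact hasDerivAt_lin _ _ _
  have hx0 : HasDerivAt (fun s : ℝ => yat (x + s • v) 0) (yat v 0) s := by
    simp only [yat_add_smul]
    exact hasDerivAt_lin _ _ _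
  have hsq : HasDerivAt (fun s : ℝ => ∑ j, (x + s • v) j ^ 2)
      (∑ j, 2 * (x + s • v) j * v j) s := by
    have := HasDerivAt.fun_sum (u := Finset.univ) fun j (_ : j ∈ Finset.univ) => (hx j).pow 2
    refine this.congr_deriv ?_
    refine Finset.sum_congr rfl fun j _ => ?_
    ring
  have hh' : HasDerivAt (fun s : ℝ => hh (x + s • v)) (∑ j, v j * dhh (x + s • v) j) s := by
    have h3 := (hx0.pow 2).mul (hsq.const_sub 1)
    refine (h3.congr_of_eventuallyEq ?_).congr_deriv ?_
    · exact Filter.Eventually.of_forall fun s => by simp [hh]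
    · simp only [dhh, mul_sub, Finset.sum_sub_distrib]
      have h4 : ∑ j : Fin n, v j * (if (j : ℕ) = 0 then
          2 * yat (x + s • v) 0 * (1 - ∑ j, (x + s • v) j ^ 2) else 0) =
          yat v 0 * (2 * yat (x + s • v) 0 * (1 - ∑ j, (x + s • v) j ^ 2)) := by
        rw [yat_eq_sum v, Finset.sum_mul]
        refine Finset.sum_congr rfl fun j _ => ?_
        by_cases h5 : (j : ℕ) = 0
        · rw [if_pos h5, if_pos h5.symm]
          ring
        · rw [if_neg h5, if_neg (Ne.symm h5)]
          ring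
      simp only [mul_sub] at h4
      rw [h4]
      simp only [Finset.mul_sum, Pi.pow_apply]
      have h6 : ∑ j : Fin n, v j * (yat (x + s • v) 0 ^ 2 * (2 * (x + s • v) j)) =
          ∑ j, yat (x + s • v) 0 ^ 2 * (2 * (x + s • v) j * v j) :=
        Finset.sum_congr rfl fun j _ => by ring
      rw [h6, ← Finset.mul_sum, ← Finset.mul_sum, ← Finset.mul_sum, ← Finset.mul_sum]
      ring
  have hfin := (hh'.mul hF).add_const (ρ * WW y ^ k)
  refine (hfin.congr_of_eventuallyEq ?_).congr_deriv ?_
  · exact Filter.Eventually.of_forall fun s => by simp [Psi]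
  · simp only [dxP, mul_add, Finset.sum_add_distrib, Finset.sum_mul, Finset.mul_sum]
    congr 1
    · exact Finset.sum_congr rfl fun j _ => by ring
    · exact Finset.sum_congr rfl fun j _ => by ring

/-- Derivative of the objective along the coordinate lines of `y`. -/
theorem hasDerivAt_Psi_y (S : Sys) (k : ℕ) (x y : Fin n → ℝ) (ρ : ℝ) (q : Fin n) :
    HasDerivAt (fun s : ℝ => Psi S k x (y + s • (Pi.single q (1 : ℝ) : Fin n → ℝ)) ρ)
      (dyP S k x y ρ q) 0 := by
  have y0 : y + (0 : ℝ) • (Pi.single q (1 : ℝ) : Fin n → ℝ) = y := by simp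
  have hyat : ∀ k, yat (Pi.single q (1 : ℝ) : Fin n → ℝ) k = if k = q then 1 else 0 := by
    intro k
    unfold yat
    by_cases h : k < n
    · rw [dif_pos h, Pi.single_apply]
      simp only [Fin.ext_iff]
    · rw [dif_neg h, if_neg]
      intro h2
      exact h (h2 ▸ q.2)
  have hV : ∀ i, HasDerivAt (fun s : ℝ => vg (1 : ℝ) x (y + s • (Pi.single q (1 : ℝ) : Fin n → ℝ)) i)
      (uv (1 + n + (q : ℕ)) i) 0 := by
    intro i
    unfold vg
    by_cases h0 : i = 0
    · subst h0
      simp only [if_true]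
      rw [uv, if_neg (by omega)]
      exact hasDerivAt_const _ _
    · simp only [h0, if_false]
      by_cases h1 : i - 1 < n
      · simp only [h1, if_true]
        rw [uv, if_neg (by omega)]
        exact hasDerivAt_const _ _
      · simp only [h1, if_false, yat_add_smul]
        have : (uv (1 + n + (q : ℕ)) i : ℝ) = yat (Pi.single q (1 : ℝ) : Fin n → ℝ) (i - 1 - n) := by
          rw [hyat, uv]
          by_cases h2 : i = 1 + n + q
          · rw [if_pos h2, if_pos (by omega)]
          · rw [if_neg h2, if_neg (by omega)]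
        rw [this]
        exact hasDerivAt_lin _ _ _
  have hF := hasDerivAt_FF S (fun s => vg (1 : ℝ) x (y + s • (Pi.single q (1 : ℝ) : Fin n → ℝ))) _ 0 hV
  have hsq : HasDerivAt (fun s : ℝ => WW (y + s • (Pi.single q (1 : ℝ) : Fin n → ℝ))) (2 * y q) 0 := by
    have hx : ∀ j, HasDerivAt (fun s : ℝ => (y + s • (Pi.single q (1 : ℝ) : Fin n → ℝ)) j)
        ((Pi.single q (1 : ℝ) : Fin n → ℝ) j) 0 := by
      intro j
      simp only [Pi.add_apply, Pi.smul_apply, smul_eq_mul]
      exact hasDerivAt_lin _ _ _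
    have := (HasDerivAt.fun_sum (u := Finset.univ) fun j (_ : j ∈ Finset.univ) =>
      (hx j).pow 2).const_add 1
    refine this.congr_deriv ?_
    rw [Finset.sum_eq_single q]
    · simp
    · intro b _ hb
      simp [hb]
    · simp
  have hfin := (hF.const_mul (hh x)).add ((hsq.pow k).const_mul ρ)
  refine (hfin.congr_of_eventuallyEq ?_).congr_deriv ?_
  · exact Filter.Eventually.of_forall fun s => by simp [Psi]
  · simp only [dyP, y0]

end deriv

end Pool.Agent.TH662.IP
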