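import Mathlib
import Pool.Agent.TH662.IP.Sys

/-!
# The parameters as rational functions of the critical points
-/

namespace Pool.Agent.TH662.IP

open Finset Pool.Agent.H612

/-- Indices of the perturbation. -/
abbrev AA (n U : ℕ) := Fin (n + 1) × Fin U × Fin (n + 1) × Fin (n + 1)

/-- Indices of all parameters. -/
abbrev SS (n U : ℕ) := AA n U ⊕ (Fin n ⊕ Unit)

section defs

variable {R : Type} [CommRing R] {n U : ℕ}

/-- The perturbation. -/
def qth (θ : AA n U → R) (y : Fin n → R) : R :=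
  ∑ a : AA n U, θ a * bf (a.1 : ℕ) (a.2.1 : ℕ) (a.2.2.1 : ℕ) (a.2.2.2 : ℕ) y

/-- Its partial derivatives. -/
def dqth (θ : AA n U → R) (y : Fin n → R) (q : Fin n) : R :=
  ∑ a : AA n U, θ a * bd (a.1 : ℕ) (a.2.1 : ℕ) (a.2.2.1 : ℕ) (a.2.2.2 : ℕ) y q

/-- Inclusion of the indices. -/
def em (r : Fin (n + 1)) (i : Fin ((r : ℕ) + 1)) : Fin (n + 1) := ⟨i, by have := i.2; have := r.2; omega⟩

/-- The index belongs to the block. -/
def inb (r : Fin (n + 1)) (u : Fin U) (a : AA n U) : Prop :=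
  a.1 = r ∧ a.2.1 = u ∧ (a.2.2.1 : ℕ) ≤ r

instance (r : Fin (n + 1)) (u : Fin U) (a : AA n U) : Decidable (inb r u a) :=
  inferInstanceAs (Decidable (_ ∧ _ ∧ _))

variable (Z : SS n U → R) (r : Fin (n + 1)) (u : Fin U)

/-- The points. -/
def yO (i : Fin ((r : ℕ) + 1)) (q : Fin n) : R := Z (Sum.inl (r, u, em r i, q.succ))

/-- The multipliers and the value. -/
def zO (i : Fin ((r : ℕ) + 1)) : R := Z (Sum.inl (r, u, em r i, 0))

/-- The multipliers. -/
def laO (i : Fin ((r : ℕ) + 1)) : R :=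
  if (i : ℕ) < r then zO Z r u i else
    1 - ∑ i' : Fin ((r : ℕ) + 1), if (i' : ℕ) < r then zO Z r u i' else 0

/-- The value. -/
def tO : R := zO Z r u (Fin.last _)

/-- The point `x`. -/
def xO (j : Fin n) : R := Z (Sum.inr (Sum.inl j))

/-- The parameter `ρ`. -/
def rO : R := Z (Sum.inr (Sum.inr ()))

/-- The parameters outside of the block. -/
def nth (a : AA n U) : R := if inb r u a then 0 else Z (Sum.inl a)

variable (S : Sys) (k : ℕ)

/-- The parameters `c`. -/
def cN (j : Fin n) : R :=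
  -∑ i, laO Z r u i * dxP S (xO Z) (yO Z r u i) j

/-- The right hand side. -/
def rhsN (a : Fin ((r : ℕ) + 1) × Fin (n + 1)) : R :=
  Fin.cases (tO Z r u - Psi S k (xO Z) (yO Z r u a.1) (rO Z) - qth (nth Z r u) (yO Z r u a.1) -
      ∑ j, cN Z r u S j * xO Z j)
    (fun q => -dyP S k (xO Z) (yO Z r u a.1) (rO Z) q - dqth (nth Z r u) (yO Z r u a.1) q) a.2

/-- The denominator. -/
def dN : R := (jmat (r : ℕ) (u : ℕ) (yO Z r u)).det

/-- The numerators of the parameters of the block. -/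
def bN (b : Fin ((r : ℕ) + 1) × Fin (n + 1)) : R :=
  (jmat (r : ℕ) (u : ℕ) (yO Z r u)).adjugate.mulVec (rhsN Z r u S k) b

/-- All numerators. -/
def fN (κ : SS n U) : Option (SS n U) → R
  | none => dN Z r u * Z κ
  | some (Sum.inl a) => if h : inb r u a then
      bN Z r u S k (⟨a.2.2.1, Nat.lt_succ_of_le h.2.2⟩, a.2.2.2) else dN Z r u * Z (Sum.inl a)
  | some (Sum.inr (Sum.inl j)) => dN Z r u * cN Z r u S j
  | some (Sum.inr (Sum.inr ())) => dN Z r u * rO Z

end defs

section maps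

variable {R R' : Type} [CommRing R] [CommRing R'] {n U : ℕ} (φ : R →+* R')
  (Z : SS n U → R) (r : Fin (n + 1)) (u : Fin U) (S : Sys) (k : ℕ)

theorem map_qth (θ : AA n U → R) (y : Fin n → R) :
    φ (qth θ y) = qth (fun a => φ (θ a)) (fun j => φ (y j)) := by
  unfold qth
  rw [map_sum]
  exact Finset.sum_congr rfl fun a _ => by rw [map_mul, map_bf]

theorem map_dqth (θ : AA n U → R) (y : Fin n → R) (q : Fin n) :
    φ (dqth θ y q) = dqth (fun a => φ (θ a)) (fun j => φ (y j)) q := by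
  unfold dqth
  rw [map_sum]
  exact Finset.sum_congr rfl fun a _ => by rw [map_mul, map_bd]

theorem map_laO (i : Fin ((r : ℕ) + 1)) : φ (laO Z r u i) = laO (fun s => φ (Z s)) r u i := by
  unfold laO
  split_ifs
  · rfl
  · rw [map_sub, map_one, map_sum]
    congr 1
    refine Finset.sum_congr rfl fun i' _ => ?_
    split_ifs
    · rfl
    · exact map_zero φ

theorem map_cN (j : Fin n) : φ (cN Z r u S j) = cN (fun s => φ (Z s)) r u S j := by
  unfold cN
  rw [map_neg, map_sum]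
  congr 1
  refine Finset.sum_congr rfl fun i _ => ?_
  rw [map_mul, map_laO, map_dxP]
  rfl

theorem map_nth (a : AA n U) : φ (nth Z r u a) = nth (fun s => φ (Z s)) r u a := by
  unfold nth
  split_ifs
  · exact map_zero φ
  · rfl

theorem map_rhsN (a : Fin ((r : ℕ) + 1) × Fin (n + 1)) :
    φ (rhsN Z r u S k a) = rhsN (fun s => φ (Z s)) r u S k a := by
  obtain ⟨i, b⟩ := a
  unfold rhsN
  refine Fin.cases ?_ (fun q => ?_) b
  · simp only [Fin.cases_zero]
    rw [map_sub, map_sub, map_sub, map_Psi, map_qth, map_sum]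
    simp only [map_nth, map_mul, map_cN]
    rfl
  · simp only [Fin.cases_succ]
    rw [map_sub, map_neg, map_dyP, map_dqth]
    simp only [map_nth]
    rfl

theorem map_jmat (r u : ℕ) (Y : Fin (r + 1) → Fin n → R) :
    φ.mapMatrix (jmat r u Y) = jmat r u (fun i j => φ (Y i j)) := by
  ext ⟨i, a⟩ b
  rw [RingHom.mapMatrix_apply, Matrix.map_apply]
  refine Fin.cases ?_ (fun q => ?_) a
  · rw [jmat_zero, jmat_zero, map_bf]
  · rw [jmat_succ, jmat_succ, map_bd]

theorem map_dN : φ (dN Z r u) = dN (fun s => φ (Z s)) r u := by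
  unfold dN
  rw [RingHom.map_det, map_jmat]
  rfl

theorem map_bN (b : Fin ((r : ℕ) + 1) × Fin (n + 1)) :
    φ (bN Z r u S k b) = bN (fun s => φ (Z s)) r u S k b := by
  unfold bN Matrix.mulVec dotProduct
  rw [map_sum]
  refine Finset.sum_congr rfl fun a _ => ?_
  rw [map_mul, map_rhsN]
  congr 1
  have h1 := RingHom.map_adjugate φ (jmat (r : ℕ) (u : ℕ) (yO Z r u))
  rw [map_jmat] at h1
  have h2 := congrFun (congrFun h1 b) a
  rw [RingHom.mapMatrix_apply, Matrix.map_apply] at h2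
  exact h2

theorem map_fN (κ : SS n U) (o : Option (SS n U)) :
    φ (fN Z r u S k κ o) = fN (fun s => φ (Z s)) r u S k κ o := by
  match o with
  | none => simp only [fN, map_mul, map_dN]
  | some (Sum.inl a) =>
    simp only [fN]
    split_ifs
    · exact map_bN φ Z r u S k _
    · rw [map_mul, map_dN]
  | some (Sum.inr (Sum.inl j)) => simp only [fN, map_mul, map_dN, map_cN]
  | some (Sum.inr (Sum.inr ())) =>
    simp only [fN, map_mul, map_dN]
    rfl

end maps

section real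

variable {n U : ℕ}

/-- Critical points of the perturbed problem. -/
structure Crit (S : Sys) (k : ℕ) (r : ℕ) (θ : AA n U → ℝ) (c : Fin n → ℝ) (ρ : ℝ)
    (x : Fin n → ℝ) (Y : Fin (r + 1) → Fin n → ℝ) (la : Fin (r + 1) → ℝ) (t : ℝ) : Prop where
  val : ∀ i, Psi S k x (Y i) ρ + qth θ (Y i) + ∑ j, c j * x j = t
  dy : ∀ i q, dyP S k x (Y i) ρ q + dqth θ (Y i) q = 0
  dx : ∀ j, ∑ i, la i * dxP S x (Y i) j + c j = 0
  one : ∑ i, la i = 1

/-- The vector of all coordinates of a critical point. -/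
noncomputable def zvec (r : Fin (n + 1)) (u : Fin U) (θ : AA n U → ℝ) (ρ : ℝ)
    (x : Fin n → ℝ) (Y : Fin ((r : ℕ) + 1) → Fin n → ℝ) (la : Fin ((r : ℕ) + 1) → ℝ) (t : ℝ) :
    SS n U → ℝ
  | Sum.inl a => if h : inb r u a then
      Fin.cases (if (a.2.2.1 : ℕ) < r then la ⟨a.2.2.1, Nat.lt_succ_of_le h.2.2⟩ else t)
        (fun q => Y ⟨a.2.2.1, Nat.lt_succ_of_le h.2.2⟩ q) a.2.2.2
      else θ a
  | Sum.inr (Sum.inl j) => x j
  | Sum.inr (Sum.inr ()) => ρ

/-- The parameters. -/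
def par (θ : AA n U → ℝ) (c : Fin n → ℝ) (ρ : ℝ) : SS n U → ℝ
  | Sum.inl a => θ a
  | Sum.inr (Sum.inl j) => c j
  | Sum.inr (Sum.inr ()) => ρ

variable {S : Sys} {k : ℕ} {r : Fin (n + 1)} {u : Fin U} {θ : AA n U → ℝ} {c : Fin n → ℝ} {ρ : ℝ}
    {x : Fin n → ℝ} {Y : Fin ((r : ℕ) + 1) → Fin n → ℝ} {la : Fin ((r : ℕ) + 1) → ℝ} {t : ℝ}

theorem inb_em (i : Fin ((r : ℕ) + 1)) (b : Fin (n + 1)) : inb r u (r, u, em r i, b) :=
  ⟨rfl, rfl, Nat.lt_succ_iff.1 i.2⟩

theorem yO_zvec (i : Fin ((r : ℕ) + 1)) (q : Fin n) :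
    yO (zvec r u θ ρ x Y la t) r u i q = Y i q := by
  exact (dif_pos (inb_em (u := u) i q.succ)).trans rfl

theorem zO_zvec (i : Fin ((r : ℕ) + 1)) :
    zO (zvec r u θ ρ x Y la t) r u i = if (i : ℕ) < r then la i else t := by
  exact (dif_pos (inb_em (u := u) i 0)).trans rfl

theorem tO_zvec : tO (zvec r u θ ρ x Y la t) r u = t := by
  unfold tO
  rw [zO_zvec, if_neg (by simp)]

theorem xO_zvec (j : Fin n) : xO (zvec r u θ ρ x Y la t) j = x j := rfl

theorem rO_zvec : rO (zvec r u θ ρ x Y la t) = ρ := rfl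

theorem laO_zvec (h : ∑ i, la i = 1) (i : Fin ((r : ℕ) + 1)) :
    laO (zvec r u θ ρ x Y la t) r u i = la i := by
  unfold laO
  simp only [zO_zvec]
  by_cases hi : (i : ℕ) < r
  · rw [if_pos hi, if_pos hi]
  · rw [if_neg hi]
    have hil : i = Fin.last _ := by
      apply Fin.ext
      have := i.2
      simp only [Fin.val_last]
      omega
    rw [← h, Fin.sum_univ_castSucc, Fin.sum_univ_castSucc (n := (r : ℕ))]
    have h1 : ∑ i' : Fin (r : ℕ), (if ((Fin.castSucc i' : Fin ((r : ℕ) + 1)) : ℕ) < r then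
        (if ((Fin.castSucc i' : Fin ((r : ℕ) + 1)) : ℕ) < r then la (Fin.castSucc i') else t)
        else 0) = ∑ i' : Fin (r : ℕ), la (Fin.castSucc i') := by
      refine Finset.sum_congr rfl fun i' _ => ?_
      have : ((Fin.castSucc i' : Fin ((r : ℕ) + 1)) : ℕ) < r := by simp
      rw [if_pos this, if_pos this]
    rw [h1, hil]
    simp

theorem nth_zvec (a : AA n U) :
    nth (zvec r u θ ρ x Y la t) r u a = if inb r u a then 0 else θ a := by
  unfold nth zvec
  by_cases h : inb r u a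
  · rw [if_pos h, if_pos h]
  · rw [if_neg h, if_neg h]
    simp only [h, dif_neg, not_false_iff]

theorem sum_block (r : Fin (n + 1)) (u : Fin U) (g : AA n U → ℝ) :
    ∑ a, g a = ∑ a, (if inb r u a then 0 else g a) +
      ∑ b : Fin ((r : ℕ) + 1) × Fin (n + 1), g (r, u, em r b.1, b.2) := by
  classical
  have h1 : ∑ a, g a = ∑ a, (if inb r u a then 0 else g a) +
      ∑ a, (if inb r u a then g a else 0) := by
    rw [← Finset.sum_add_distrib]
    refine Finset.sum_congr rfl fun a _ => ?_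
    split_ifs <;> simp
  rw [h1]
  congr 1
  rw [← Finset.sum_filter]
  let e : Fin ((r : ℕ) + 1) × Fin (n + 1) ↪ AA n U :=
    ⟨fun b => (r, u, em r b.1, b.2), by
      rintro ⟨i, b⟩ ⟨i', b'⟩ h
      simp only [Prod.mk.injEq, true_and] at h
      obtain ⟨h2, h3⟩ := h
      have h4 : i = i' := by
        apply Fin.ext
        exact congrArg (fun z : Fin (n + 1) => (z : ℕ)) h2
      rw [h4, h3]⟩
  have h2 : Finset.univ.filter (fun a => inb r u a) = Finset.univ.map e := by
    ext a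
    rw [Finset.mem_filter, Finset.mem_map]
    constructor
    · rintro ⟨-, h⟩
      obtain ⟨r', u', i, b⟩ := a
      obtain ⟨h3, h4, h5⟩ := h
      simp only at h3 h4 h5
      subst h3
      subst h4
      exact ⟨(⟨i, Nat.lt_succ_of_le h5⟩, b), Finset.mem_univ _, rfl⟩
    · rintro ⟨b, -, rfl⟩
      exact ⟨Finset.mem_univ _, inb_em _ _⟩
  rw [h2, Finset.sum_map]
  rfl

theorem cN_zvec (h : Crit S k r θ c ρ x Y la t) (j : Fin n) :
    cN (zvec r u θ ρ x Y la t) r u S j = c j := by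
  unfold cN
  have h1 := h.dx j
  have h2 : ∑ i, laO (zvec r u θ ρ x Y la t) r u i *
      dxP S (xO (zvec r u θ ρ x Y la t)) (yO (zvec r u θ ρ x Y la t) r u i) j =
      ∑ i, la i * dxP S x (Y i) j := by
    refine Finset.sum_congr rfl fun i _ => ?_
    rw [laO_zvec h.one]
    have h3 : yO (zvec r u θ ρ x Y la t) r u i = Y i := funext fun q => yO_zvec i q
    rw [h3]
    rfl
  rw [h2]
  linarith

theorem bN_zvec (h : Crit S k r θ c ρ x Y la t) (b : Fin ((r : ℕ) + 1) × Fin (n + 1)) :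
    bN (zvec r u θ ρ x Y la t) r u S k b = dN (zvec r u θ ρ x Y la t) r u *
      θ (r, u, em r b.1, b.2) := by
  have hY : yO (zvec r u θ ρ x Y la t) r u = Y := funext fun i => funext fun q => yO_zvec i q
  have hc : ∀ j, cN (zvec r u θ ρ x Y la t) r u S j = c j := cN_zvec h
  have hx : xO (zvec r u θ ρ x Y la t) = x := rfl
  have hρ : rO (zvec r u θ ρ x Y la t) = ρ := rfl
  have hJ : rhsN (zvec r u θ ρ x Y la t) r u S k =
      (jmat (r : ℕ) (u : ℕ) Y).mulVec fun b => θ (r, u, em r b.1, b.2) := by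
    funext a
    obtain ⟨i, a⟩ := a
    unfold rhsN Matrix.mulVec dotProduct
    simp only [hY, hc, hx, hρ, tO_zvec]
    refine Fin.cases ?_ (fun q => ?_) a
    · simp only [Fin.cases_zero, jmat_zero]
      have h1 := h.val i
      have h2 : qth θ (Y i) = qth (nth (zvec r u θ ρ x Y la t) r u) (Y i) +
          ∑ b : Fin ((r : ℕ) + 1) × Fin (n + 1),
            bf (r : ℕ) (u : ℕ) (b.1 : ℕ) (b.2 : ℕ) (Y i) * θ (r, u, em r b.1, b.2) := by
        unfold qth
        rw [sum_block r u]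
        congr 1
        · refine Finset.sum_congr rfl fun a _ => ?_
          rw [nth_zvec]
          split_ifs <;> simp
        · refine Finset.sum_congr rfl fun a _ => ?_
          exact mul_comm _ _
      linarith
    · simp only [Fin.cases_succ, jmat_succ]
      have h1 := h.dy i q
      have h2 : dqth θ (Y i) q = dqth (nth (zvec r u θ ρ x Y la t) r u) (Y i) q +
          ∑ b : Fin ((r : ℕ) + 1) × Fin (n + 1),
            bd (r : ℕ) (u : ℕ) (b.1 : ℕ) (b.2 : ℕ) (Y i) q * θ (r, u, em r b.1, b.2) := by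
        unfold dqth
        rw [sum_block r u]
        congr 1
        · refine Finset.sum_congr rfl fun a _ => ?_
          rw [nth_zvec]
          split_ifs <;> simp
        · refine Finset.sum_congr rfl fun a _ => ?_
          exact mul_comm _ _
      linarith
  unfold bN dN
  rw [hJ, hY, Matrix.mulVec_mulVec, Matrix.adjugate_mul, Matrix.smul_mulVec, Matrix.one_mulVec]
  rfl

theorem fN_zvec (h : Crit S k r θ c ρ x Y la t) (κ : SS n U) (o : Option (SS n U)) :
    fN (zvec r u θ ρ x Y la t) r u S k κ o = dN (zvec r u θ ρ x Y la t) r u *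
      o.elim (zvec r u θ ρ x Y la t κ) (par θ c ρ) := by
  match o with
  | none => rfl
  | some (Sum.inl a) =>
    simp only [fN, Option.elim, par]
    by_cases hb : inb r u a
    · rw [dif_pos hb, bN_zvec h]
      congr 2
      obtain ⟨r', u', i, b⟩ := a
      obtain ⟨h3, h4, h5⟩ := hb
      simp only at h3 h4 h5
      subst h3
      subst h4
      rfl
    · rw [dif_neg hb]
      congr 1
      simp only [zvec, hb, dif_neg, not_false_iff]
  | some (Sum.inr (Sum.inl j)) =>
    simp only [fN, Option.elim, par, cN_zvec h]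
  | some (Sum.inr (Sum.inr ())) => rfl

/-- The algebraic relation between the parameters and a coordinate of the critical point. -/
theorem relation_aux (S : Sys) (k : ℕ) (r : Fin (n + 1)) (u : Fin U) (κ : SS n U) (m l : ℕ)
    (hm : Fintype.card (SS n U) = m)
    (hf : ∀ o, (wn (SS n U)).ν (fN MvPolynomial.X r u S k κ o) ≤ 2 ^ l)
    (hD : (wn (SS n U)).ν (dN (MvPolynomial.X : SS n U → MvPolynomial (SS n U) ℤ) r u) ≤ 2 ^ l) :
    ∃ P : MvPolynomial (Option (SS n U)) ℤ, P ≠ 0 ∧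
      (wn _).ν P ≤ 2 ^ ((m + 1) * (2 * (l * (m + 1) + 1) ^ m) * (l + 3)) ∧
      ∀ (θ : AA n U → ℝ) (c : Fin n → ℝ) (ρ : ℝ) (x : Fin n → ℝ)
        (Y : Fin ((r : ℕ) + 1) → Fin n → ℝ) (la : Fin ((r : ℕ) + 1) → ℝ) (t : ℝ),
        Crit S k r θ c ρ x Y la t → (jmat (r : ℕ) (u : ℕ) Y).det ≠ 0 →
        MvPolynomial.aeval (fun o : Option (SS n U) =>
          o.elim (zvec r u θ ρ x Y la t κ) (par θ c ρ)) P = 0 := by
  obtain ⟨P, hP0, hPn, hP⟩ := dependence m hm l (fN MvPolynomial.X r u S k κ)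
    (dN MvPolynomial.X r u) hf hD
  refine ⟨P, hP0, hPn, fun θ c ρ x Y la t hc hdet => ?_⟩
  have h1 : ∀ (W : SS n U → ℝ), (fun s => (MvPolynomial.aeval W : MvPolynomial (SS n U) ℤ →ₐ[ℤ] ℝ)
      (MvPolynomial.X s)) = W := fun W => funext fun s => MvPolynomial.aeval_X W s
  have hd : MvPolynomial.aeval (zvec r u θ ρ x Y la t)
      (dN (MvPolynomial.X : SS n U → MvPolynomial (SS n U) ℤ) r u) =
      dN (zvec r u θ ρ x Y la t) r u := by
    have := map_dN (MvPolynomial.aeval (zvec r u θ ρ x Y la t) :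
      MvPolynomial (SS n U) ℤ →ₐ[ℤ] ℝ).toRingHom MvPolynomial.X r u
    refine this.trans ?_
    congr 1
    exact h1 _
  have hY : yO (zvec r u θ ρ x Y la t) r u = Y := funext fun i => funext fun q => yO_zvec i q
  have hd0 : dN (zvec r u θ ρ x Y la t) r u ≠ 0 := by
    unfold dN
    rw [hY]
    exact hdet
  have hff : ∀ o, MvPolynomial.aeval (zvec r u θ ρ x Y la t)
      (fN (MvPolynomial.X : SS n U → MvPolynomial (SS n U) ℤ) r u S k κ o) =
      fN (zvec r u θ ρ x Y la t) r u S k κ o := by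
    intro o
    have := map_fN (MvPolynomial.aeval (zvec r u θ ρ x Y la t) :
      MvPolynomial (SS n U) ℤ →ₐ[ℤ] ℝ).toRingHom MvPolynomial.X r u S k κ o
    refine this.trans ?_
    congr 1
    exact h1 _
  have h2 := hP (zvec r u θ ρ x Y la t) (by rw [hd]; exact hd0)
  rw [← h2]
  congr 2
  funext o
  rw [hff, hd, fN_zvec hc, mul_div_cancel_left₀ _ hd0]

end real

end Pool.Agent.TH662.IP
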