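import Mathlib
import Pool.Agent.TH662.IP.Rel

/-!
# Bounds for the norms
-/

set_option linter.unusedSectionVars false

namespace Pool.Agent.TH662.IP

open Finset Pool.Agent.H612

/-- Levels of size. -/
def lv (M i a : ℕ) : Prop := a ≤ 2 ^ (M ^ i)

section lv

variable {M i i' j a b e : ℕ}

theorem lv.mono (h : lv M i a) (hM : 64 ≤ M) (hij : i ≤ j) : lv M j a :=
  h.trans (Nat.pow_le_pow_right (by norm_num) (Nat.pow_le_pow_right (by omega) hij))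

theorem lv.le (h : lv M i b) (hab : a ≤ b) : lv M i a := hab.trans h

theorem lv_two_mul (hM : 64 ≤ M) (i : ℕ) : 2 * M ^ i ≤ M ^ (i + 1) := by
  rw [pow_succ, mul_comm]
  exact Nat.mul_le_mul_left _ (by omega)

theorem lv.mul (ha : lv M i a) (hb : lv M i b) (hM : 64 ≤ M) : lv M (i + 1) (a * b) := by
  unfold lv at *
  calc a * b ≤ 2 ^ (M ^ i) * 2 ^ (M ^ i) := Nat.mul_le_mul ha hb
    _ = 2 ^ (2 * M ^ i) := by rw [← pow_add]; congr 1; ring
    _ ≤ 2 ^ (M ^ (i + 1)) := Nat.pow_le_pow_right (by norm_num) (lv_two_mul hM i)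

theorem lv.add (ha : lv M i a) (hb : lv M i b) (hM : 64 ≤ M) : lv M (i + 1) (a + b) := by
  unfold lv at *
  have h1 : 1 ≤ M ^ i := Nat.one_le_pow _ _ (by omega)
  calc a + b ≤ 2 * 2 ^ (M ^ i) := by omega
    _ = 2 ^ (M ^ i + 1) := by rw [pow_succ]; ring
    _ ≤ 2 ^ (M ^ (i + 1)) := Nat.pow_le_pow_right (by norm_num)
      (le_trans (by omega) (lv_two_mul hM i))

theorem lv.pow (ha : lv M i a) (he : e ≤ M ^ j) : lv M (i + j) (a ^ e) := by
  unfold lv at *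
  calc a ^ e ≤ (2 ^ (M ^ i)) ^ e := Nat.pow_le_pow_left ha _
    _ = 2 ^ (M ^ i * e) := by rw [pow_mul]
    _ ≤ 2 ^ (M ^ (i + j)) := by
      apply Nat.pow_le_pow_right (by norm_num)
      rw [pow_add]
      exact Nat.mul_le_mul_left _ he

theorem M10 (hM : 64 ≤ M) : M ^ 10 ≤ 2 ^ M := by
  induction M, hM using Nat.le_induction with
  | base => norm_num
  | succ M hM ih =>
    have h1 : (M + 1) ^ 10 ≤ 2 * M ^ 10 := by
      have h2 : ((M + 1 : ℕ) : ℝ) ^ 10 ≤ 2 * (M : ℝ) ^ 10 := by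
        have h3 : (64 : ℝ) ≤ M := by exact_mod_cast hM
        have h4 : ((M + 1 : ℕ) : ℝ) ≤ (65 / 64) * M := by push_cast; linarith
        calc ((M + 1 : ℕ) : ℝ) ^ 10 ≤ ((65 / 64) * M) ^ 10 := pow_le_pow_left₀ (by positivity) h4 _
          _ = (65 / 64) ^ 10 * (M : ℝ) ^ 10 := by rw [mul_pow]
          _ ≤ 2 * (M : ℝ) ^ 10 := by
            apply mul_le_mul_of_nonneg_right _ (by positivity)
            norm_num
      exact_mod_cast h2
    rw [pow_succ 2 M]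
    omega

theorem lv_small (hM : 64 ≤ M) (h : a ≤ M ^ 10) : lv M 1 a := by
  unfold lv
  rw [pow_one]
  exact h.trans (M10 hM)

theorem lv_of_le (hM : 64 ≤ M) {c : ℕ} (hc : c ≤ 10) (h : a ≤ M ^ c) : lv M 1 a :=
  lv_small hM (h.trans (Nat.pow_le_pow_right (by omega) hc))

theorem lv_two : lv M 0 2 := by unfold lv; simp

theorem lv.sum {ι : Type*} {s : Finset ι} {f : ι → ℕ} (hf : ∀ i ∈ s, lv M i' (f i))
    (hs : s.card ≤ M ^ 10) (hM : 64 ≤ M) (hi : 1 ≤ i') : lv M (i' + 1) (∑ i ∈ s, f i) := by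
  have h1 : ∑ i ∈ s, f i ≤ s.card * 2 ^ (M ^ i') := by
    rw [← smul_eq_mul]
    exact Finset.sum_le_card_nsmul _ _ _ hf
  refine lv.le ?_ h1
  refine lv.mul ((lv_small hM hs).mono hM hi) ?_ hM
  exact le_refl _

theorem lv.prod {ι : Type*} {s : Finset ι} {f : ι → ℕ} (hf : ∀ i ∈ s, lv M i' (f i))
    (hs : s.card ≤ M ^ j) : lv M (i' + j) (∏ i ∈ s, f i) := by
  have h1 : ∏ i ∈ s, f i ≤ (2 ^ (M ^ i')) ^ s.card := Finset.prod_le_pow_card _ _ _ hf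
  exact lv.le (lv.pow (le_refl _) hs) h1

end lv

/-- The parameters are bounded. -/
structure Bd (n U k : ℕ) (S : Sys) (M : ℕ) : Prop where
  M64 : 64 ≤ M
  hn : n + 1 ≤ M
  hU : U ≤ M
  hk : k ≤ M
  hS : S.length ≤ M
  hl : ∀ l ∈ S, l.length ≤ M

section bounds

variable {R : Type} [CommRing R] (nr : RNorm R) {n U k M : ℕ} {S : Sys}

theorem nu_list_sum {ι : Type*} (l : List ι) (f : ι → R) (B : ℕ) (h : ∀ i ∈ l, nr.ν (f i) ≤ B) :
    nr.ν (l.map f).sum ≤ l.length * B := by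
  induction l with
  | nil => simp [nr.zero]
  | cons a l ih =>
    rw [List.map_cons, List.sum_cons, List.length_cons, Nat.add_mul, add_comm (l.length * B)]
    refine (nr.add _ _).trans (Nat.add_le_add ?_ (ih fun i hi => h i (List.mem_cons_of_mem _ hi)))
    simpa using h a List.mem_cons_self

theorem nu_mul_le {x y : R} {a b : ℕ} (hx : nr.ν x ≤ a) (hy : nr.ν y ≤ b) :
    nr.ν (x * y) ≤ a * b := (nr.mul _ _).trans (Nat.mul_le_mul hx hy)

theorem nu_add_le {x y : R} {a b : ℕ} (hx : nr.ν x ≤ a) (hy : nr.ν y ≤ b) :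
    nr.ν (x + y) ≤ a + b := (nr.add _ _).trans (Nat.add_le_add hx hy)

theorem nu_sub_le {x y : R} {a b : ℕ} (hx : nr.ν x ≤ a) (hy : nr.ν y ≤ b) :
    nr.ν (x - y) ≤ a + b := (nr.sub _ _).trans (Nat.add_le_add hx hy)

theorem nu_pow_le {x : R} {a : ℕ} (hx : nr.ν x ≤ a) (e : ℕ) :
    nr.ν (x ^ e) ≤ a ^ e := (RNorm_pow_le nr _ _).trans (Nat.pow_le_pow_left hx _)

theorem nu_two : nr.ν (2 : R) ≤ 2 := by
  have := nr.natCast 2
  simpa using this

theorem nu_sg (b : Bool) : nr.ν (sg b : R) ≤ 1 := by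
  unfold sg
  split_ifs
  · exact nr.one
  · exact (nr.neg 1).trans nr.one

theorem nu_yat {y : Fin n → R} (h : ∀ j, nr.ν (y j) ≤ 2) (k : ℕ) : nr.ν (yat y k) ≤ 2 := by
  unfold yat
  split_ifs
  · exact h _
  · rw [nr.zero]; omega

theorem nu_vg {x y : Fin n → R} (hx : ∀ j, nr.ν (x j) ≤ 2) (hy : ∀ j, nr.ν (y j) ≤ 2) (k : ℕ) :
    nr.ν (vg 1 x y k) ≤ 2 := by
  unfold vg
  split_ifs
  · exact nr.one.trans (by omega)
  · exact nu_yat nr hx _
  · exact nu_yat nr hy _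

theorem nu_uv (j k : ℕ) : nr.ν (uv j k : R) ≤ 2 := by
  unfold uv
  split_ifs
  · exact nr.one.trans (by omega)
  · rw [nr.zero]; omega

theorem nu_EE {V : ℕ → R} (hV : ∀ k, nr.ν (V k) ≤ 2) (l : List (Bool × ℕ × ℕ × ℕ)) :
    nr.ν (EE l V) ≤ l.length * 8 := by
  unfold EE
  apply nu_list_sum
  intro q _
  have := nu_mul_le nr (nu_sg nr q.1) (nu_mul_le nr (nu_mul_le nr (hV q.2.1) (hV q.2.2.1))
    (hV q.2.2.2))
  simpa using this

theorem nu_dEE {V dV : ℕ → R} (hV : ∀ k, nr.ν (V k) ≤ 2) (hdV : ∀ k, nr.ν (dV k) ≤ 2)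
    (l : List (Bool × ℕ × ℕ × ℕ)) : nr.ν (dEE l V dV) ≤ l.length * 24 := by
  unfold dEE
  apply nu_list_sum
  intro q _
  have := nu_mul_le nr (nu_sg nr q.1) (nu_add_le nr (nu_add_le nr
    (nu_mul_le nr (nu_mul_le nr (hdV q.2.1) (hV q.2.2.1)) (hV q.2.2.2))
    (nu_mul_le nr (nu_mul_le nr (hV q.2.1) (hdV q.2.2.1)) (hV q.2.2.2)))
    (nu_mul_le nr (nu_mul_le nr (hV q.2.1) (hV q.2.2.1)) (hdV q.2.2.2)))
  simpa using this

variable (hB : Bd n U k S M)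
include hB

theorem nu_FF {V : ℕ → R} (hV : ∀ k, nr.ν (V k) ≤ 2) : nr.ν (FF S V) ≤ M ^ 5 := by
  have h64 := hB.M64
  have h1 : nr.ν (FF S V) ≤ S.length * (M * 8) ^ 2 := by
    unfold FF
    apply nu_list_sum
    intro l hl
    apply nu_pow_le
    exact (nu_EE nr hV l).trans (Nat.mul_le_mul_right _ (hB.hl l hl))
  calc _ ≤ S.length * (M * 8) ^ 2 := h1
    _ ≤ M * (M * M) ^ 2 := Nat.mul_le_mul hB.hS (Nat.pow_le_pow_left
        (Nat.mul_le_mul_left _ (by omega)) _)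
    _ = M ^ 5 := by ring

theorem nu_dFF {V dV : ℕ → R} (hV : ∀ k, nr.ν (V k) ≤ 2) (hdV : ∀ k, nr.ν (dV k) ≤ 2) :
    nr.ν (dFF S V dV) ≤ M ^ 6 := by
  have h64 := hB.M64
  have h1 : nr.ν (dFF S V dV) ≤ S.length * (2 * (M * 8) * (M * 24)) := by
    unfold dFF
    apply nu_list_sum
    intro l hl
    exact nu_mul_le nr (nu_mul_le nr (nu_two nr) ((nu_EE nr hV l).trans
      (Nat.mul_le_mul_right _ (hB.hl l hl)))) ((nu_dEE nr hV hdV l).trans
      (Nat.mul_le_mul_right _ (hB.hl l hl)))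
  calc _ ≤ S.length * (2 * (M * 8) * (M * 24)) := h1
    _ ≤ M * (M * (M * M) * (M * M)) := Nat.mul_le_mul hB.hS (Nat.mul_le_mul
        (Nat.mul_le_mul (by omega) (Nat.mul_le_mul_left _ (by omega)))
        (Nat.mul_le_mul_left _ (by omega)))
    _ = M ^ 6 := by ring

theorem nu_sq_sum {y : Fin n → R} (hy : ∀ j, nr.ν (y j) ≤ 2) :
    nr.ν (∑ j, y j ^ 2) ≤ 4 * n := by
  refine (nr.sum _ _).trans ?_
  calc ∑ j, nr.ν (y j ^ 2) ≤ ∑ _j : Fin n, 4 := Finset.sum_le_sum fun j _ =>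
        (nu_pow_le nr (hy j) 2)
    _ = 4 * n := by simp [mul_comm]

theorem nu_WW {y : Fin n → R} (hy : ∀ j, nr.ν (y j) ≤ 2) : nr.ν (WW y) ≤ M ^ 2 := by
  have h64 := hB.M64
  have hn := hB.hn
  have := nu_add_le nr nr.one (nu_sq_sum nr hB hy)
  refine this.trans ?_
  rw [pow_two]
  calc 1 + 4 * n ≤ 64 * M := by omega
    _ ≤ M * M := Nat.mul_le_mul_right _ h64

theorem nu_hh {x : Fin n → R} (hx : ∀ j, nr.ν (x j) ≤ 2) : nr.ν (hh x) ≤ M ^ 2 := by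
  have h64 := hB.M64
  have hn := hB.hn
  have := nu_mul_le nr (nu_pow_le nr (nu_yat nr hx 0) 2) (nu_sub_le nr nr.one
    (nu_sq_sum nr hB hx))
  refine this.trans ?_
  rw [pow_two M]
  calc 2 ^ 2 * (1 + 4 * n) ≤ 64 * M := by omega
    _ ≤ M * M := Nat.mul_le_mul_right _ h64

theorem nu_dhh {x : Fin n → R} (hx : ∀ j, nr.ν (x j) ≤ 2) (j : Fin n) :
    nr.ν (dhh x j) ≤ M ^ 2 := by
  have h64 := hB.M64
  have hn := hB.hn
  have h1 : nr.ν (if (j : ℕ) = 0 then 2 * yat x 0 * (1 - ∑ j, x j ^ 2) else 0) ≤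
      2 * 2 * (1 + 4 * n) := by
    split_ifs
    · exact nu_mul_le nr (nu_mul_le nr (nu_two nr) (nu_yat nr hx 0)) (nu_sub_le nr nr.one
        (nu_sq_sum nr hB hx))
    · rw [nr.zero]; omega
  have := nu_sub_le nr h1 (nu_mul_le nr (nu_pow_le nr (nu_yat nr hx 0) 2)
    (nu_mul_le nr (nu_two nr) (hx j)))
  refine this.trans ?_
  rw [pow_two M]
  calc 2 * 2 * (1 + 4 * n) + 2 ^ 2 * (2 * 2) ≤ 64 * M := by omega
    _ ≤ M * M := Nat.mul_le_mul_right _ h64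

theorem nu_dxP {x y : Fin n → R} (hx : ∀ j, nr.ν (x j) ≤ 2) (hy : ∀ j, nr.ν (y j) ≤ 2)
    (j : Fin n) : nr.ν (dxP S x y j) ≤ M ^ 9 := by
  have h64 := hB.M64
  have := nu_add_le nr (nu_mul_le nr (nu_dhh nr hB hx j) (nu_FF nr hB (nu_vg nr hx hy)))
    (nu_mul_le nr (nu_hh nr hB hx) (nu_dFF nr hB (nu_vg nr hx hy) (nu_uv nr (1 + (j : ℕ)))))
  refine this.trans ?_
  calc M ^ 2 * M ^ 5 + M ^ 2 * M ^ 6 = M ^ 7 * (1 + M) := by ring
    _ ≤ M ^ 7 * (M * M) := Nat.mul_le_mul_left _ (by nlinarith)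
    _ = M ^ 9 := by ring

theorem lv_WWk {y : Fin n → R} (hy : ∀ j, nr.ν (y j) ≤ 2) {e : ℕ} (he : e ≤ M) :
    lv M 2 (nr.ν (WW y ^ e)) := by
  have h64 := hB.M64
  refine lv.le (lv.pow (i := 1) (j := 1) (lv_of_le h64 (by norm_num : 2 ≤ 10) le_rfl)
    (by rwa [pow_one])) (nu_pow_le nr (nu_WW nr hB hy) e)

theorem lv_Psi {x y : Fin n → R} {ρ : R} (hx : ∀ j, nr.ν (x j) ≤ 2) (hy : ∀ j, nr.ν (y j) ≤ 2)
    (hρ : nr.ν ρ ≤ 2) : lv M 4 (nr.ν (Psi S k x y ρ)) := by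
  have h64 := hB.M64
  have h1 : lv M 1 (nr.ν (hh x * FF S (vg 1 x y))) :=
    lv.le (lv_of_le h64 (by norm_num : 7 ≤ 10) (le_of_eq (by ring : M ^ 2 * M ^ 5 = M ^ 7)))
      (nu_mul_le nr (nu_hh nr hB hx) (nu_FF nr hB (nu_vg nr hx hy)))
  have h2 : lv M 3 (nr.ν (ρ * WW y ^ k)) :=
    lv.le (lv.mul ((lv_two.mono h64 (Nat.zero_le 2)).le hρ) (lv_WWk nr hB hy hB.hk) h64)
      (nr.mul _ _)
  exact lv.le (lv.add (h1.mono h64 (by norm_num)) h2 h64) (nr.add _ _)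

theorem lv_dyP {x y : Fin n → R} {ρ : R} (hx : ∀ j, nr.ν (x j) ≤ 2) (hy : ∀ j, nr.ν (y j) ≤ 2)
    (hρ : nr.ν ρ ≤ 2) (q : Fin n) : lv M 6 (nr.ν (dyP S k x y ρ q)) := by
  have h64 := hB.M64
  have h1 : lv M 1 (nr.ν (hh x * dFF S (vg 1 x y) (uv (1 + n + (q : ℕ))))) :=
    lv.le (lv_of_le h64 (by norm_num : 8 ≤ 10) (le_of_eq (by ring : M ^ 2 * M ^ 6 = M ^ 8)))
      (nu_mul_le nr (nu_hh nr hB hx) (nu_dFF nr hB (nu_vg nr hx hy) (nu_uv nr _)))
  have hk1 : k - 1 ≤ M := le_trans (Nat.sub_le _ _) hB.hk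
  have hkM : lv M 2 (nr.ν ((k : R))) := by
    refine ((lv_of_le h64 (by norm_num : 1 ≤ 10) ?_).mono h64 (by norm_num))
    rw [pow_one]
    exact (nr.natCast k).trans hB.hk
  have h2 : lv M 3 (nr.ν ((k : R) * WW y ^ (k - 1))) :=
    lv.le (lv.mul hkM (lv_WWk nr hB hy hk1) h64) (nr.mul _ _)
  have h3 : lv M 3 (nr.ν (2 * y q)) :=
    ((lv_of_le h64 (by norm_num : 1 ≤ 10) (by rw [pow_one]; omega : 2 * 2 ≤ M ^ 1)).mono h64
      (by norm_num)).le (nu_mul_le nr (nu_two nr) (hy q))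
  have h4 : lv M 4 (nr.ν ((k : R) * WW y ^ (k - 1) * (2 * y q))) :=
    lv.le (lv.mul h2 h3 h64) (nr.mul _ _)
  have h5 : lv M 5 (nr.ν (ρ * ((k : R) * WW y ^ (k - 1) * (2 * y q)))) :=
    lv.le (lv.mul ((lv_two.mono h64 (Nat.zero_le 4)).le hρ) h4 h64) (nr.mul _ _)
  exact lv.le (lv.add (h1.mono h64 (by norm_num)) h5 h64) (nr.add _ _)

theorem lv_upow {u : ℕ} (hu : u ≤ M) {j : ℕ} (hj : j ≤ M) : lv M 2 (nr.ν ((u : R) ^ j)) := by
  have h64 := hB.M64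
  refine lv.le (lv.pow (i := 1) (j := 1) (lv_of_le h64 (by norm_num : 1 ≤ 10) ?_)
    (by rwa [pow_one])) (nu_pow_le nr (nr.natCast u) j)
  rwa [pow_one]

theorem lv_ell {u : ℕ} (hu : u ≤ M) {y : Fin n → R} (hy : ∀ j, nr.ν (y j) ≤ 2) :
    lv M 4 (nr.ν (ell u y)) := by
  have h64 := hB.M64
  have hn := hB.hn
  unfold ell
  refine lv.le (lv.sum (s := Finset.univ) (i' := 3)
    (f := fun j : Fin n => nr.ν ((u : R) ^ (j : ℕ) * y j)) ?_ ?_ h64 (by norm_num))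
    (nr.sum _ _)
  · intro j _
    refine lv.le (lv.mul (lv_upow nr hB hu (j := (j : ℕ)) (by have := j.2; omega))
      ((lv_two.mono h64 (Nat.zero_le 2)).le (hy j)) h64) (nr.mul _ _)
  · rw [Finset.card_univ, Fintype.card_fin]
    calc n ≤ M := by omega
      _ = M ^ 1 := (pow_one M).symm
      _ ≤ M ^ 10 := Nat.pow_le_pow_right (by omega) (by norm_num)

theorem lv_ellpow {u : ℕ} (hu : u ≤ M) {y : Fin n → R} (hy : ∀ j, nr.ν (y j) ≤ 2) {e : ℕ}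
    (he : e ≤ M ^ 2) : lv M 6 (nr.ν (ell u y ^ e)) :=
  lv.le (lv.pow (lv_ell nr hB hu hy) he) (RNorm_pow_le nr _ _)

theorem le_M2 (h64 : 64 ≤ M) {e : ℕ} (he : e ≤ 2 * M) : e ≤ M ^ 2 := by
  rw [pow_two]
  exact he.trans (Nat.mul_le_mul_right _ (by omega))

theorem lv_bf {r u e j : ℕ} (hr : r ≤ n) (he : e ≤ n) (hu : u ≤ M) {y : Fin n → R}
    (hy : ∀ j, nr.ν (y j) ≤ 2) : lv M 7 (nr.ν (bf r u e j y)) := by
  have h64 := hB.M64
  have hn := hB.hn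
  unfold bf
  split_ifs
  · exact (lv_ellpow nr hB hu hy (le_M2 hB h64 (by omega))).mono h64 (by norm_num)
  · exact (lv_ellpow nr hB hu hy (le_M2 hB h64 (by omega))).mono h64 (by norm_num)
  · exact lv.le (lv.mul ((lv_two.mono h64 (Nat.zero_le 6)).le (nu_yat nr hy _))
      (lv_ellpow nr hB hu hy (le_M2 hB h64 (by omega))) h64) (nr.mul _ _)

theorem lv_bd {r u e j : ℕ} (hr : r ≤ n) (he : e ≤ n) (hu : u ≤ M) {y : Fin n → R}
    (hy : ∀ j, nr.ν (y j) ≤ 2) (q : Fin n) : lv M 10 (nr.ν (bd r u e j y q)) := by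
  have h64 := hB.M64
  have hn := hB.hn
  have key : ∀ a b : ℕ, a ≤ 2 * M → b ≤ 2 * M →
      lv M 8 (nr.ν ((a : R) * ell u y ^ b * (u : R) ^ (q : ℕ))) := by
    intro a b ha hb
    have h1 : lv M 6 (nr.ν (a : R)) := by
      refine (lv_of_le h64 (by norm_num : 2 ≤ 10) ?_).mono h64 (by norm_num)
      exact (nr.natCast a).trans (le_M2 hB h64 ha)
    have h2 := lv.le (lv.mul h1 (lv_ellpow nr hB hu hy (le_M2 hB h64 hb)) h64) (nr.mul _ _)
    exact lv.le (lv.mul h2 ((lv_upow nr hB hu (j := (q : ℕ)) (by have := q.2; omega)).mono h64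
      (by norm_num)) h64) (nr.mul _ _)
  unfold bd
  split_ifs
  · exact (key e (e - 1) (by omega) (by omega)).mono h64 (by norm_num)
  · exact (key (r + 1 + e) (r + e) (by omega) (by omega)).mono h64 (by norm_num)
  · refine lv.le (lv.add (i := 9) ((lv_ellpow nr hB hu hy
      (le_M2 hB h64 (by omega))).mono h64 (by norm_num)) ?_ h64) (nr.add _ _)
    exact lv.le (lv.mul ((lv_two.mono h64 (Nat.zero_le 8)).le (nu_yat nr hy _))
      (key e (e - 1) (by omega) (by omega)) h64) (nr.mul _ _)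
  · rw [zero_add]
    exact (lv.le (lv.mul ((lv_two.mono h64 (Nat.zero_le 8)).le (nu_yat nr hy _))
      (key e (e - 1) (by omega) (by omega)) h64) (nr.mul _ _)).mono h64 (by norm_num)

theorem card_AA : Fintype.card (AA n U) ≤ M ^ 4 := by
  simp only [Fintype.card_prod, Fintype.card_fin]
  have hn := hB.hn
  have hU := hB.hU
  calc (n + 1) * (U * ((n + 1) * (n + 1))) ≤ M * (M * (M * M)) :=
        Nat.mul_le_mul hn (Nat.mul_le_mul hU (Nat.mul_le_mul hn hn))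
    _ = M ^ 4 := by ring

theorem card_SS : Fintype.card (SS n U) + 1 ≤ M ^ 5 := by
  have h1 := card_AA hB
  have hn := hB.hn
  have h64 := hB.M64
  rw [Fintype.card_sum, Fintype.card_sum, Fintype.card_fin, Fintype.card_unit]
  have h2 : M ≤ M ^ 4 := by
    calc M = M ^ 1 := (pow_one M).symm
      _ ≤ M ^ 4 := Nat.pow_le_pow_right (by omega) (by norm_num)
  calc Fintype.card (AA n U) + (n + 1) + 1 ≤ M ^ 4 + M ^ 4 + M ^ 4 := by omega
    _ ≤ M ^ 4 * M := by nlinarith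
    _ = M ^ 5 := by ring

theorem pow_le_10 {c a : ℕ} (hc : c ≤ 10) (h : a ≤ M ^ c) : a ≤ M ^ 10 := by
  have h64 := hB.M64
  exact h.trans (Nat.pow_le_pow_right (by omega) hc)

theorem lv_qth {θ : AA n U → R} (hθ : ∀ a, nr.ν (θ a) ≤ 2) {y : Fin n → R}
    (hy : ∀ j, nr.ν (y j) ≤ 2) : lv M 9 (nr.ν (qth θ y)) := by
  have h64 := hB.M64
  unfold qth
  refine lv.le (lv.sum (s := Finset.univ) (i' := 8)
    (f := fun a : AA n U => nr.ν (θ a * bf (a.1 : ℕ) (a.2.1 : ℕ) (a.2.2.1 : ℕ)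
      (a.2.2.2 : ℕ) y)) ?_ ?_ h64 (by norm_num)) (nr.sum _ _)
  · intro a _
    exact lv.le (lv.mul ((lv_two.mono h64 (Nat.zero_le 7)).le (hθ a))
      (lv_bf nr hB (Nat.lt_succ_iff.1 a.1.2) (Nat.lt_succ_iff.1 a.2.2.1.2)
        (a.2.1.2.le.trans hB.hU) hy) h64) (nr.mul _ _)
  · exact pow_le_10 hB (by norm_num) (card_AA hB)

theorem lv_dqth {θ : AA n U → R} (hθ : ∀ a, nr.ν (θ a) ≤ 2) {y : Fin n → R}
    (hy : ∀ j, nr.ν (y j) ≤ 2) (q : Fin n) : lv M 12 (nr.ν (dqth θ y q)) := by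
  have h64 := hB.M64
  unfold dqth
  refine lv.le (lv.sum (s := Finset.univ) (i' := 11)
    (f := fun a : AA n U => nr.ν (θ a * bd (a.1 : ℕ) (a.2.1 : ℕ) (a.2.2.1 : ℕ)
      (a.2.2.2 : ℕ) y q)) ?_ ?_ h64 (by norm_num)) (nr.sum _ _)
  · intro a _
    exact lv.le (lv.mul ((lv_two.mono h64 (Nat.zero_le 10)).le (hθ a))
      (lv_bd nr hB (Nat.lt_succ_iff.1 a.1.2) (Nat.lt_succ_iff.1 a.2.2.1.2)
        (a.2.1.2.le.trans hB.hU) hy q) h64) (nr.mul _ _)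
  · exact pow_le_10 hB (by norm_num) (card_AA hB)

variable {Z : SS n U → R} (hZ : ∀ s, nr.ν (Z s) ≤ 2) (r : Fin (n + 1)) (u : Fin U)
include hZ

theorem card_r : Fintype.card (Fin ((r : ℕ) + 1)) ≤ M := by
  rw [Fintype.card_fin]
  have := r.2
  have := hB.hn
  omega

theorem card_r_le {c : ℕ} (hc : 1 ≤ c) : (Finset.univ : Finset (Fin ((r : ℕ) + 1))).card ≤ M ^ c := by
  have h64 := hB.M64
  rw [Finset.card_univ]
  calc _ ≤ M := card_r nr hB hZ r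
    _ = M ^ 1 := (pow_one M).symm
    _ ≤ M ^ c := Nat.pow_le_pow_right (by omega) hc

theorem lv_laO (i : Fin ((r : ℕ) + 1)) : lv M 2 (nr.ν (laO Z r u i)) := by
  have h64 := hB.M64
  unfold laO
  split_ifs
  · exact (lv_two.mono h64 (Nat.zero_le 2)).le (hZ _)
  · have h1 : nr.ν (∑ i' : Fin ((r : ℕ) + 1), if (i' : ℕ) < r then zO Z r u i' else 0) ≤
        M * 2 := by
      refine (nr.sum _ _).trans ?_
      calc _ ≤ ∑ _i' : Fin ((r : ℕ) + 1), 2 := Finset.sum_le_sum fun i' _ => by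
            split_ifs
            · exact hZ _
            · rw [nr.zero]; omega
        _ = Fintype.card (Fin ((r : ℕ) + 1)) * 2 := by simp
        _ ≤ M * 2 := Nat.mul_le_mul_right _ (card_r nr hB hZ r)
    refine (lv_of_le h64 (by norm_num : 2 ≤ 10) ?_).mono h64 (by norm_num)
    refine (nu_sub_le nr nr.one h1).trans ?_
    rw [pow_two]
    calc 1 + M * 2 ≤ 64 * M := by omega
      _ ≤ M * M := Nat.mul_le_mul_right _ h64

theorem lv_cN (j : Fin n) : lv M 4 (nr.ν (cN Z r u S j)) := by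
  have h64 := hB.M64
  unfold cN
  refine lv.le ?_ (nr.neg _)
  refine lv.le (lv.sum (s := Finset.univ) (i' := 3)
    (f := fun i => nr.ν (laO Z r u i * dxP S (xO Z) (yO Z r u i) j)) ?_
    (card_r_le nr hB hZ r (by norm_num)) h64 (by norm_num)) (nr.sum _ _)
  intro i _
  refine lv.le (lv.mul (lv_laO nr hB hZ r u i) ((lv_of_le h64 (by norm_num : 9 ≤ 10)
    (nu_dxP nr hB (fun j => hZ _) (fun j => hZ _) j)).mono h64 (by norm_num)) h64) (nr.mul _ _)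

theorem nu_nth (a : AA n U) : nr.ν (nth Z r u a) ≤ 2 := by
  unfold nth
  split_ifs
  · rw [nr.zero]; omega
  · exact hZ _

theorem lv_rhsN (a : Fin ((r : ℕ) + 1) × Fin (n + 1)) : lv M 13 (nr.ν (rhsN Z r u S k a)) := by
  have h64 := hB.M64
  obtain ⟨i, b⟩ := a
  unfold rhsN
  refine Fin.cases ?_ (fun q => ?_) b
  · simp only [Fin.cases_zero]
    have h1 : lv M 5 (nr.ν (tO Z r u - Psi S k (xO Z) (yO Z r u i) (rO Z))) :=
      lv.le (lv.add ((lv_two.mono h64 (Nat.zero_le 4)).le (hZ _))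
        (lv_Psi nr hB (fun j => hZ _) (fun j => hZ _) (hZ _)) h64) (nr.sub _ _)
    have h2 := lv.le (lv.add (h1.mono h64 (by norm_num : 5 ≤ 9))
      (lv_qth nr hB (nu_nth nr hB hZ r u) (y := yO Z r u i) (fun j => hZ _)) h64) (nr.sub _ _)
    have h3 : lv M 6 (nr.ν (∑ j, cN Z r u S j * xO Z j)) := by
      refine lv.le (lv.sum (s := Finset.univ) (i' := 5)
        (f := fun j => nr.ν (cN Z r u S j * xO Z j)) ?_ ?_ h64 (by norm_num)) (nr.sum _ _)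
      · intro j _
        exact lv.le (lv.mul (lv_cN nr hB hZ r u j) ((lv_two.mono h64 (Nat.zero_le 4)).le (hZ _))
          h64) (nr.mul _ _)
      · rw [Finset.card_univ, Fintype.card_fin]
        have := hB.hn
        exact pow_le_10 hB (by norm_num : 1 ≤ 10) (by rw [pow_one]; omega)
    exact (lv.le (lv.add h2 (h3.mono h64 (by norm_num)) h64) (nr.sub _ _)).mono h64 (by norm_num)
  · simp only [Fin.cases_succ]
    refine lv.le (lv.add (i := 12) ?_ (lv_dqth nr hB (nu_nth nr hB hZ r u)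
      (y := yO Z r u i) (fun j => hZ _) q) h64) (nr.sub _ _)
    exact ((lv_dyP nr hB (fun j => hZ _) (fun j => hZ _) (hZ _) q).le (nr.neg _)).mono h64
      (by norm_num)

theorem lv_jmat (a b : Fin ((r : ℕ) + 1) × Fin (n + 1)) :
    lv M 10 (nr.ν (jmat (r : ℕ) (u : ℕ) (yO Z r u) a b)) := by
  have h64 := hB.M64
  obtain ⟨i, a⟩ := a
  have h1 : (b.1 : ℕ) ≤ n := by
    have := b.1.2
    have := r.2
    omega
  refine Fin.cases ?_ (fun q => ?_) a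
  · rw [jmat_zero]
    exact (lv_bf nr hB (Nat.lt_succ_iff.1 r.2) h1 (u.2.le.trans hB.hU) (fun j => hZ _)).mono h64
      (by norm_num)
  · rw [jmat_succ]
    exact lv_bd nr hB (Nat.lt_succ_iff.1 r.2) h1 (u.2.le.trans hB.hU) (fun j => hZ _) q

theorem card_idx : (Finset.univ : Finset (Fin ((r : ℕ) + 1) × Fin (n + 1))).card ≤ M ^ 2 := by
  rw [Finset.card_univ, Fintype.card_prod, pow_two]
  refine Nat.mul_le_mul (card_r nr hB hZ r) ?_
  rw [Fintype.card_fin]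
  exact hB.hn

theorem lv_det (A : Matrix (Fin ((r : ℕ) + 1) × Fin (n + 1)) (Fin ((r : ℕ) + 1) × Fin (n + 1)) R)
    (hA : ∀ a b, lv M 10 (nr.ν (A a b))) : lv M 13 (nr.ν A.det) := by
  have h64 := hB.M64
  refine lv.le (lv.prod (s := Finset.univ) (i' := 11) (j := 2) (f := fun i => ∑ j, nr.ν (A i j))
    ?_ (card_idx nr hB hZ r)) (nr.det_le A)
  intro i _
  refine lv.sum (i' := 10) (fun j _ => hA i j) ?_ h64 (by norm_num)
  exact pow_le_10 hB (by norm_num) (card_idx nr hB hZ r)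

theorem lv_dN : lv M 13 (nr.ν (dN Z r u)) := lv_det nr hB hZ r _ (lv_jmat nr hB hZ r u)

theorem lv_bN (b : Fin ((r : ℕ) + 1) × Fin (n + 1)) : lv M 15 (nr.ν (bN Z r u S k b)) := by
  classical
  have h64 := hB.M64
  unfold bN Matrix.mulVec dotProduct
  refine lv.le (lv.sum (s := Finset.univ) (i' := 14)
    (f := fun a => nr.ν ((jmat (r : ℕ) (u : ℕ) (yO Z r u)).adjugate b a * rhsN Z r u S k a))
    ?_ ?_ h64 (by norm_num)) (nr.sum _ _)
  · intro a _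
    refine lv.le (lv.mul (i := 13) ?_ (lv_rhsN nr hB hZ r u a) h64) (nr.mul _ _)
    rw [Matrix.adjugate_apply]
    refine lv_det nr hB hZ r _ fun c d => ?_
    rw [Matrix.updateRow_apply]
    split_ifs
    · rw [Pi.single_apply]
      split_ifs
      · exact (lv_two.mono h64 (Nat.zero_le 10)).le (nr.one.trans (by omega))
      · rw [nr.zero]
        exact Nat.zero_le _
    · exact lv_jmat nr hB hZ r u c d
  · exact pow_le_10 hB (by norm_num) (card_idx nr hB hZ r)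

theorem lv_fN (κ : SS n U) (o : Option (SS n U)) : lv M 15 (nr.ν (fN Z r u S k κ o)) := by
  have h64 := hB.M64
  have h2 : ∀ s, lv M 13 (nr.ν (Z s)) := fun s => (lv_two.mono h64 (Nat.zero_le 13)).le (hZ s)
  have hd := lv_dN nr hB hZ r u
  match o with
  | none => exact (lv.le (lv.mul hd (h2 κ) h64) (nr.mul _ _)).mono h64 (by norm_num)
  | some (Sum.inl a) =>
    simp only [fN]
    split_ifs
    · exact lv_bN nr hB hZ r u _
    · exact (lv.le (lv.mul hd (h2 _) h64) (nr.mul _ _)).mono h64 (by norm_num)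
  | some (Sum.inr (Sum.inl j)) =>
    exact (lv.le (lv.mul hd ((lv_cN nr hB hZ r u j).mono h64 (by norm_num)) h64)
      (nr.mul _ _)).mono h64 (by norm_num)
  | some (Sum.inr (Sum.inr ())) =>
    exact (lv.le (lv.mul hd (h2 _) h64) (nr.mul _ _)).mono h64 (by norm_num)

end bounds

/-- The algebraic relation between the parameters and a coordinate of the critical point. -/
theorem relation {n U k M : ℕ} {S : Sys} (hB : Bd n U k S M) (r : Fin (n + 1)) (u : Fin U)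
    (κ : SS n U) :
    ∃ P : MvPolynomial (Option (SS n U)) ℤ, P ≠ 0 ∧ (wn _).ν P ≤ 2 ^ (2 ^ (M ^ 9)) ∧
      ∀ (θ : AA n U → ℝ) (c : Fin n → ℝ) (ρ : ℝ) (x : Fin n → ℝ)
        (Y : Fin ((r : ℕ) + 1) → Fin n → ℝ) (la : Fin ((r : ℕ) + 1) → ℝ) (t : ℝ),
        Crit S k r θ c ρ x Y la t → (jmat (r : ℕ) (u : ℕ) Y).det ≠ 0 →
        MvPolynomial.aeval (fun o : Option (SS n U) =>
          o.elim (zvec r u θ ρ x Y la t κ) (par θ c ρ)) P = 0 := by
  have h64 := hB.M64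
  have hX : ∀ s : SS n U, (wn (SS n U)).ν (MvPolynomial.X s) ≤ 2 := fun s => (wn_X s).le
  obtain ⟨P, h0, hn, hP⟩ := relation_aux S k r u κ (Fintype.card (SS n U)) (M ^ 15) rfl
    (lv_fN (wn _) hB hX r u κ) ((lv_dN (wn _) hB hX r u).mono h64 (by norm_num))
  refine ⟨P, h0, hn.trans ?_, hP⟩
  apply Nat.pow_le_pow_right (by norm_num)
  set m := Fintype.card (SS n U) with hm
  have hm1 : m + 1 ≤ M ^ 5 := card_SS hB
  have hM2 : M ≤ 2 ^ M := Nat.lt_two_pow_self.le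
  have hpw : ∀ c ≤ 64, M ^ c ≤ 2 ^ (M ^ 2) := by
    intro c hc
    calc M ^ c ≤ (2 ^ M) ^ c := Nat.pow_le_pow_left hM2 _
      _ = 2 ^ (M * c) := by rw [pow_mul]
      _ ≤ 2 ^ (M ^ 2) := by
        apply Nat.pow_le_pow_right (by norm_num)
        rw [pow_two]
        exact Nat.mul_le_mul_left _ (by omega)
  have e1 : M ^ 15 * (m + 1) + 1 ≤ M ^ 21 := by
    calc M ^ 15 * (m + 1) + 1 ≤ M ^ 15 * M ^ 5 + M ^ 20 :=
          Nat.add_le_add (Nat.mul_le_mul_left _ hm1) (Nat.one_le_pow _ _ (by omega))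
      _ = M ^ 20 * 2 := by ring
      _ ≤ M ^ 20 * M := Nat.mul_le_mul_left _ (by omega)
      _ = M ^ 21 := by ring
  have e2 : 2 * (M ^ 15 * (m + 1) + 1) ^ m ≤ 2 * 2 ^ (M ^ 7) := by
    apply Nat.mul_le_mul_left
    calc (M ^ 15 * (m + 1) + 1) ^ m ≤ (M ^ 21) ^ m := Nat.pow_le_pow_left e1 _
      _ ≤ (2 ^ (M ^ 2)) ^ m := Nat.pow_le_pow_left (hpw 21 (by norm_num)) _
      _ ≤ (2 ^ (M ^ 2)) ^ (M ^ 5) := Nat.pow_le_pow_right (Nat.pow_pos (by norm_num)) (by omega)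
      _ = 2 ^ (M ^ 7) := by rw [← pow_mul, ← pow_add]
  have e3 : M ^ 15 + 3 ≤ 2 ^ (M ^ 2) := by
    calc M ^ 15 + 3 ≤ M ^ 15 * 64 := by
          have : 1 ≤ M ^ 15 := Nat.one_le_pow _ _ (by omega)
          omega
      _ ≤ M ^ 15 * M := Nat.mul_le_mul_left _ h64
      _ = M ^ 16 := by ring
      _ ≤ _ := hpw 16 (by norm_num)
  calc (m + 1) * (2 * (M ^ 15 * (m + 1) + 1) ^ m) * (M ^ 15 + 3)
      ≤ 2 ^ (M ^ 2) * (2 * 2 ^ (M ^ 7)) * 2 ^ (M ^ 2) :=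
        Nat.mul_le_mul (Nat.mul_le_mul (hm1.trans (hpw 5 (by norm_num))) e2) e3
    _ = 2 ^ (M ^ 2 + 1 + M ^ 7 + M ^ 2) := by rw [pow_add, pow_add, pow_add]; ring
    _ ≤ 2 ^ (M ^ 9) := by
      apply Nat.pow_le_pow_right (by norm_num)
      have a1 : M ^ 2 ≤ M ^ 7 := Nat.pow_le_pow_right (by omega) (by norm_num)
      have a2 : 1 ≤ M ^ 7 := Nat.one_le_pow _ _ (by omega)
      calc M ^ 2 + 1 + M ^ 7 + M ^ 2 ≤ M ^ 7 * 4 := by omega
        _ ≤ M ^ 7 * (M * M) := Nat.mul_le_mul_left _ (by nlinarith)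
        _ = M ^ 9 := by ring

end Pool.Agent.TH662.IP
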