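import Mathlib

/-!
# First order conditions for a maximum of minima
-/

namespace Pool.Agent.TH662.IP

open Finset Filter Topology

variable {n : ℕ}

/-- The convex hull of a compact set of `ℝⁿ` is compact. -/
theorem isCompact_convexHull' {K : Set (Fin n → ℝ)} (hK : IsCompact K) :
    IsCompact (convexHull ℝ K) := by
  classical
  rcases K.eq_empty_or_nonempty with rfl | ⟨k0, hk0⟩
  · simp
  have h1 : IsCompact ((stdSimplex ℝ (Fin (n + 1))) ×ˢ
      (Set.pi Set.univ (fun _ : Fin (n + 1) => K))) :=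
    (isCompact_stdSimplex ℝ (Fin (n + 1))).prod (isCompact_univ_pi fun _ => hK)
  have h2 : Continuous (fun p : (Fin (n + 1) → ℝ) × (Fin (n + 1) → (Fin n → ℝ)) =>
      ∑ i, p.1 i • p.2 i) := by fun_prop
  have h3 := h1.image h2
  convert h3 using 1
  apply Set.eq_of_subset_of_subset
  · intro x hx
    obtain ⟨ι, hι, z, w, hz, hz2, hw, hw1, hx2⟩ := eq_pos_convex_span_of_mem_convexHull hx
    have hcard : Fintype.card ι ≤ n + 1 := by
      have h4 := hz2.card_le_finrank_succ
      have h5 : Module.finrank ℝ (vectorSpan ℝ (Set.range z)) ≤ n := by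
        have := Submodule.finrank_le (vectorSpan ℝ (Set.range z))
        simpa using this
      omega
    obtain ⟨e⟩ : Nonempty (ι ↪ Fin (n + 1)) := by
      apply Function.Embedding.nonempty_of_card_le
      simpa using hcard
    refine ⟨(fun j => if h : ∃ i, e i = j then w h.choose else 0,
      fun j => if h : ∃ i, e i = j then z h.choose else k0), ⟨?_, ?_⟩, ?_⟩
    · constructor
      · intro j
        simp only
        split_ifs with h
        · exact (hw _).le
        · exact le_refl _
      · rw [← hw1]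
        have h6 : ∀ i : ι, (if h : ∃ i', e i' = e i then w h.choose else 0) = w i := by
          intro i
          have h7 : ∃ i', e i' = e i := ⟨i, rfl⟩
          rw [dif_pos h7]
          congr 1
          exact e.injective h7.choose_spec
        have h8 : ∑ j ∈ univ.map e, (if h : ∃ i', e i' = j then w h.choose else 0) = ∑ i, w i := by
          rw [Finset.sum_map]
          exact Finset.sum_congr rfl fun i _ => h6 i
        rw [← h8]
        symm
        apply Finset.sum_subset (Finset.subset_univ _)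
        intro j _ hj
        rw [dif_neg]
        rintro ⟨i, rfl⟩
        exact hj (Finset.mem_map_of_mem _ (Finset.mem_univ _))
    · intro j _
      simp only
      split_ifs with h
      · exact hz ⟨_, rfl⟩
      · exact hk0
    · simp only
      rw [← hx2]
      have h6 : ∀ i : ι, (if h : ∃ i', e i' = e i then w h.choose else 0) •
          (if h : ∃ i', e i' = e i then z h.choose else k0) = w i • z i := by
        intro i
        have h7 : ∃ i', e i' = e i := ⟨i, rfl⟩
        rw [dif_pos h7, dif_pos h7]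
        have : h7.choose = i := e.injective h7.choose_spec
        rw [this]
      have h8 : ∑ j ∈ univ.map e, (if h : ∃ i', e i' = j then w h.choose else 0) •
          (if h : ∃ i', e i' = j then z h.choose else k0) = ∑ i, w i • z i := by
        rw [Finset.sum_map]
        exact Finset.sum_congr rfl fun i _ => h6 i
      rw [← h8]
      symm
      apply Finset.sum_subset (Finset.subset_univ _)
      intro j _ hj
      rw [dif_neg, zero_smul]
      rintro ⟨i, rfl⟩
      exact hj (Finset.mem_map_of_mem _ (Finset.mem_univ _))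
  · rintro _ ⟨⟨w, z⟩, ⟨hw, hz⟩, rfl⟩
    simp only at hw hz ⊢
    apply (convex_convexHull ℝ K).sum_mem (fun i _ => hw.1 i) hw.2
    intro i _
    exact subset_convexHull ℝ K (hz i (Set.mem_univ _))

/-- First order conditions at a maximum `x0` of the function `x ↦ min_y f(x, y)`. -/
theorem kkt {m : ℕ} (f : (Fin n → ℝ) → (Fin m → ℝ) → ℝ)
    (D : (Fin n → ℝ) → (Fin m → ℝ) → (Fin n → ℝ))
    (hf : Continuous (fun p : (Fin n → ℝ) × (Fin m → ℝ) => f p.1 p.2))
    (hDc : Continuous (fun p : (Fin n → ℝ) × (Fin m → ℝ) => D p.1 p.2))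
    (hD : ∀ x v y (s : ℝ), HasDerivAt (fun s : ℝ => f (x + s • v) y)
      (∑ j, v j * D (x + s • v) y j) s)
    (x0 : Fin n → ℝ) (c : ℝ) (hmin : ∀ y, c ≤ f x0 y) (τ : ℝ) (hτ : 0 < τ)
    (hmax : ∀ x, ‖x - x0‖ ≤ τ → ∃ y, f x y ≤ c)
    (R : ℝ) (hR : ∀ x, ‖x - x0‖ ≤ τ → ∀ y, f x y ≤ c → ‖y‖ ≤ R) :
    ∃ r ≤ n, ∃ (y : Fin (r + 1) → (Fin m → ℝ)) (w : Fin (r + 1) → ℝ), Function.Injective y ∧
      (∀ i, f x0 (y i) = c) ∧ ∑ i, w i = 1 ∧ ∀ j, ∑ i, w i * D x0 (y i) j = 0 := by
  classical
  set Y : Set (Fin m → ℝ) := {y | f x0 y = c} with hY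
  have hYc : IsCompact Y := by
    have h1 : IsClosed Y := by
      apply isClosed_eq _ continuous_const
      exact hf.comp (Continuous.prodMk_right x0)
    apply Metric.isCompact_of_isClosed_isBounded h1
    rw [isBounded_iff_forall_norm_le]
    exact ⟨R, fun y hy => hR x0 (by simpa using hτ.le) y (le_of_eq hy)⟩
  set K : Set (Fin n → ℝ) := (D x0) '' Y with hK
  have hKc : IsCompact K := hYc.image (hDc.comp (Continuous.prodMk_right x0))
  have hmem : (0 : Fin n → ℝ) ∈ convexHull ℝ K := by
    by_contra h0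
    obtain ⟨φ, u, hu0, hu⟩ := geometric_hahn_banach_point_closed (convex_convexHull ℝ K)
      (isCompact_convexHull' hKc).isClosed h0
    rw [map_zero] at hu0
    set v : Fin n → ℝ := fun j => φ (Pi.single j 1) with hv
    have hφ : ∀ d : Fin n → ℝ, φ d = ∑ j, v j * d j := by
      intro d
      have h2 : d = ∑ j, d j • (Pi.single j (1 : ℝ) : Fin n → ℝ) := by
        ext i
        simp [Finset.sum_apply, Pi.single_apply]
      conv_lhs => rw [h2]
      rw [map_sum]
      refine Finset.sum_congr rfl fun j _ => ?_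
      rw [map_smul, smul_eq_mul, mul_comm]
    have hpos : ∀ y ∈ Y, u < ∑ j, v j * D x0 y j := by
      intro y hy
      rw [← hφ]
      exact hu _ (subset_convexHull ℝ K ⟨y, hy, rfl⟩)
    -- sequences
    set ε : ℕ → ℝ := fun k => τ * (1 / ((k : ℝ) + 1)) / (‖v‖ + 1) with hε
    have hv0 : 0 ≤ ‖v‖ := norm_nonneg v
    have hεpos : ∀ k, 0 < ε k := fun k => by positivity
    have hεle : ∀ k, ε k * ‖v‖ ≤ τ := by
      intro k
      have h3 : 1 / ((k : ℝ) + 1) ≤ 1 := by
        rw [div_le_one (by positivity)]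
        have : (0 : ℝ) ≤ k := Nat.cast_nonneg k
        linarith
      have h3' : τ * (1 / ((k : ℝ) + 1)) ≤ τ := by
        calc τ * (1 / ((k : ℝ) + 1)) ≤ τ * 1 := mul_le_mul_of_nonneg_left h3 hτ.le
          _ = τ := mul_one τ
      have h4 : ε k ≤ τ / (‖v‖ + 1) := div_le_div_of_nonneg_right h3' (by positivity)
      calc ε k * ‖v‖ ≤ τ / (‖v‖ + 1) * ‖v‖ := mul_le_mul_of_nonneg_right h4 hv0
        _ ≤ τ := by
          rw [div_mul_eq_mul_div, div_le_iff₀ (by positivity)]
          nlinarith
    have hε0 : Tendsto ε atTop (𝓝 0) := by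
      have h5 : Tendsto (fun k : ℕ => 1 / ((k : ℝ) + 1)) atTop (𝓝 0) :=
        tendsto_one_div_add_atTop_nhds_zero_nat
      have h6 := (h5.const_mul τ).div_const (‖v‖ + 1)
      rwa [mul_zero, zero_div] at h6
    have hnx : ∀ k, ‖x0 + ε k • v - x0‖ ≤ τ := by
      intro k
      rw [add_sub_cancel_left, norm_smul, Real.norm_of_nonneg (hεpos k).le]
      exact hεle k
    choose yk hyk using fun k => hmax (x0 + ε k • v) (hnx k)
    have hykR : ∀ k, yk k ∈ Metric.closedBall (0 : Fin m → ℝ) R := by
      intro k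
      rw [mem_closedBall_zero_iff]
      exact hR (x0 + ε k • v) (hnx k) _ (hyk k)
    obtain ⟨y', -, ψ, hψ, hlim⟩ := (isCompact_closedBall (0 : Fin m → ℝ) R).tendsto_subseq hykR
    have hεψ : Tendsto (fun k => ε (ψ k)) atTop (𝓝 0) := hε0.comp hψ.tendsto_atTop
    -- y' is a minimizer
    have hx : Tendsto (fun k => x0 + ε (ψ k) • v) atTop (𝓝 x0) := by
      have := (tendsto_const_nhds (x := x0)).add (hεψ.smul_const v)
      simpa using this
    have hy' : y' ∈ Y := by
      have h7 : Tendsto (fun k => f (x0 + ε (ψ k) • v) (yk (ψ k))) atTop (𝓝 (f x0 y')) :=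
        (hf.tendsto (x0, y')).comp (hx.prodMk_nhds hlim)
      have h8 : f x0 y' ≤ c := le_of_tendsto' h7 fun k => hyk (ψ k)
      exact le_antisymm h8 (hmin y')
    -- mean value theorem
    have hmv : ∀ k, ∃ ξ ∈ Set.Ioo 0 (ε k), ∑ j, v j * D (x0 + ξ • v) (yk k) j ≤ 0 := by
      intro k
      obtain ⟨ξ, hξ, h9⟩ := exists_hasDerivAt_eq_slope (fun s : ℝ => f (x0 + s • v) (yk k))
        (fun s => ∑ j, v j * D (x0 + s • v) (yk k) j) (hεpos k)
        (fun s _ => (hD x0 v (yk k) s).continuousAt.continuousWithinAt)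
        (fun s _ => hD x0 v (yk k) s)
      refine ⟨ξ, hξ, ?_⟩
      rw [h9]
      apply div_nonpos_of_nonpos_of_nonneg
      · have h10 := hyk k
        have h11 := hmin (yk k)
        simp only [zero_smul, add_zero]
        linarith
      · linarith [hεpos k]
    choose ξ hξ hle using hmv
    have hξ0 : Tendsto (fun k => ξ (ψ k)) atTop (𝓝 0) := by
      apply squeeze_zero (fun k => (hξ (ψ k)).1.le) (fun k => (hξ (ψ k)).2.le) hεψ
    have hx2 : Tendsto (fun k => x0 + ξ (ψ k) • v) atTop (𝓝 x0) := by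
      have := (tendsto_const_nhds (x := x0)).add (hξ0.smul_const v)
      simpa using this
    have h12 : Tendsto (fun k => D (x0 + ξ (ψ k) • v) (yk (ψ k))) atTop (𝓝 (D x0 y')) :=
      (hDc.tendsto (x0, y')).comp (hx2.prodMk_nhds hlim)
    have h13 : Tendsto (fun k => ∑ j, v j * D (x0 + ξ (ψ k) • v) (yk (ψ k)) j) atTop
        (𝓝 (∑ j, v j * D x0 y' j)) := by
      apply tendsto_finsetSum
      intro j _
      exact ((tendsto_pi_nhds.1 h12) j).const_mul _
    have h14 : ∑ j, v j * D x0 y' j ≤ 0 := le_of_tendsto' h13 fun k => hle (ψ k)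
    have := hpos y' hy'
    linarith
  obtain ⟨ι, hι, z, w, hz, hz2, hw, hw1, hx2⟩ := eq_pos_convex_span_of_mem_convexHull hmem
  have hcard : Fintype.card ι ≤ n + 1 := by
    have h4 := hz2.card_le_finrank_succ
    have h5 : Module.finrank ℝ (vectorSpan ℝ (Set.range z)) ≤ n := by
      have := Submodule.finrank_le (vectorSpan ℝ (Set.range z))
      simpa using this
    omega
  have hcard0 : 0 < Fintype.card ι := by
    rw [Fintype.card_pos_iff]
    by_contra hne
    rw [not_nonempty_iff] at hne
    simp at hw1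
  obtain ⟨r, hr⟩ : ∃ r, Fintype.card ι = r + 1 := ⟨Fintype.card ι - 1, by omega⟩
  let e : Fin (r + 1) ≃ ι := (Fintype.equivFinOfCardEq hr).symm
  have hzK : ∀ i, ∃ y ∈ Y, D x0 y = z i := fun i => hz ⟨i, rfl⟩
  choose yy hyY hyD using hzK
  refine ⟨r, by omega, fun i => yy (e i), fun i => w (e i), ?_, ?_, ?_, ?_⟩
  · intro i i' hii
    have h1 : z (e i) = z (e i') := by
      rw [← hyD, ← hyD]
      exact congrArg (D x0) hii
    exact e.injective (hz2.injective h1)
  · intro i
    exact hyY (e i)
  · rw [← hw1]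
    exact Equiv.sum_comp e w
  · intro j
    have h2 : ∑ i, w i * z i j = 0 := by
      have := congrFun hx2 j
      simpa [Finset.sum_apply] using this
    rw [← h2, ← Equiv.sum_comp e (fun i => w i * z i j)]
    refine Finset.sum_congr rfl fun i _ => ?_
    rw [hyD]

end Pool.Agent.TH662.IP
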