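import Mathlib
import Pool.Agent.TH662.IP.Bnd

/-!
# Substitution of a generic direction
-/

namespace Pool.Agent.TH662.IP

open Finset Pool.Agent.H612

/-! ### Weighted norms of polynomials in one variable -/

section wp

variable {R : Type} [CommRing R] (nr : RNorm R)

/-- Weighted norm. -/
noncomputable def wpv (p : Polynomial R) : ℕ := ∑ i ∈ p.support, nr.ν (p.coeff i) * 2 ^ i

theorem wpv_eq_of_subset {p : Polynomial R} {s : Finset ℕ} (h : p.support ⊆ s) :
    wpv nr p = ∑ i ∈ s, nr.ν (p.coeff i) * 2 ^ i := by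
  unfold wpv
  apply Finset.sum_subset h
  intro i _ hi
  rw [Polynomial.notMem_support_iff.mp hi, nr.zero, Nat.zero_mul]

theorem wpv_monomial (i : ℕ) (a : R) : wpv nr (Polynomial.monomial i a) = nr.ν a * 2 ^ i := by
  have h : (Polynomial.monomial i a).support ⊆ {i} := Polynomial.support_monomial_subset i a
  rw [wpv_eq_of_subset nr h]
  simp

theorem wpv_zero : wpv nr 0 = 0 := by simp [wpv]

theorem wpv_add (p q : Polynomial R) : wpv nr (p + q) ≤ wpv nr p + wpv nr q := by
  classical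
  have h1 : (p + q).support ⊆ p.support ∪ q.support := Polynomial.support_add
  rw [wpv_eq_of_subset nr h1, wpv_eq_of_subset nr (Finset.subset_union_left (s₂ := q.support)),
    wpv_eq_of_subset nr (Finset.subset_union_right (s₁ := p.support)), ← Finset.sum_add_distrib]
  apply Finset.sum_le_sum
  intro i _
  rw [Polynomial.coeff_add, ← Nat.add_mul]
  exact Nat.mul_le_mul_right _ (nr.add _ _)

theorem wpv_sum {ι : Type*} (s : Finset ι) (f : ι → Polynomial R) :
    wpv nr (∑ i ∈ s, f i) ≤ ∑ i ∈ s, wpv nr (f i) := by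
  classical
  induction s using Finset.induction_on with
  | empty => simp [wpv_zero]
  | insert a s ha ih =>
    rw [Finset.sum_insert ha, Finset.sum_insert ha]
    exact (wpv_add nr _ _).trans (Nat.add_le_add_left ih _)

theorem wpv_mul (p q : Polynomial R) : wpv nr (p * q) ≤ wpv nr p * wpv nr q := by
  conv_lhs => rw [Polynomial.as_sum_support p, Polynomial.as_sum_support q]
  rw [Finset.sum_mul_sum]
  refine (wpv_sum nr _ _).trans ?_
  have : wpv nr p * wpv nr q = ∑ i ∈ p.support, ∑ j ∈ q.support,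
      (nr.ν (p.coeff i) * 2 ^ i) * (nr.ν (q.coeff j) * 2 ^ j) := by
    rw [wpv, wpv, Finset.sum_mul_sum]
  rw [this]
  apply Finset.sum_le_sum
  intro i _
  refine (wpv_sum nr _ _).trans ?_
  apply Finset.sum_le_sum
  intro j _
  rw [Polynomial.monomial_mul_monomial, wpv_monomial, pow_add]
  calc nr.ν (p.coeff i * q.coeff j) * (2 ^ i * 2 ^ j)
      ≤ (nr.ν (p.coeff i) * nr.ν (q.coeff j)) * (2 ^ i * 2 ^ j) :=
        Nat.mul_le_mul_right _ (nr.mul _ _)
    _ = _ := by ring

/-- The weighted norm on polynomials. -/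
noncomputable def wp : RNorm (Polynomial R) where
  ν := wpv nr
  zero := wpv_zero nr
  one := by
    have : (1 : Polynomial R) = Polynomial.monomial 0 1 := rfl
    rw [this, wpv_monomial]
    simpa using nr.one
  neg := fun p => by
    unfold wpv
    rw [Polynomial.support_neg]
    apply Finset.sum_le_sum
    intro i _
    rw [Polynomial.coeff_neg]
    exact Nat.mul_le_mul_right _ (nr.neg _)
  add := wpv_add nr
  mul := wpv_mul nr

theorem wp_C (a : R) : (wp nr).ν (Polynomial.C a) = nr.ν a := by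
  have : Polynomial.C a = Polynomial.monomial 0 a := rfl
  rw [this]
  refine (wpv_monomial nr _ _).trans ?_
  simp

theorem wp_X : (wp nr).ν (Polynomial.X : Polynomial R) ≤ 2 := by
  have : (Polynomial.X : Polynomial R) = Polynomial.monomial 1 1 := rfl
  rw [this]
  refine (wpv_monomial nr _ _).le.trans ?_
  have := nr.one
  omega

theorem wp_coeff (p : Polynomial R) (i : ℕ) : nr.ν (p.coeff i) * 2 ^ i ≤ (wp nr).ν p := by
  change _ ≤ wpv nr p
  by_cases h : i ∈ p.support
  · exact Finset.single_le_sum (f := fun i => nr.ν (p.coeff i) * 2 ^ i)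
      (fun _ _ => Nat.zero_le _) h
  · rw [Polynomial.notMem_support_iff.mp h, nr.zero, Nat.zero_mul]
    exact Nat.zero_le _

theorem wp_coeff_le (p : Polynomial R) (i : ℕ) : nr.ν (p.coeff i) ≤ (wp nr).ν p :=
  (Nat.le_mul_of_pos_right _ (Nat.pow_pos (by norm_num))).trans (wp_coeff nr p i)

theorem wp_sum_le (p : Polynomial R) : ∑ i ∈ p.support, nr.ν (p.coeff i) ≤ (wp nr).ν p := by
  change _ ≤ wpv nr p
  exact Finset.sum_le_sum fun i _ => Nat.le_mul_of_pos_right _ (Nat.pow_pos (by norm_num))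

/-- The norm does not vanish on nonzero elements. -/
def Fai : Prop := ∀ c : R, c ≠ 0 → 1 ≤ nr.ν c

variable {nr}

theorem Fai.wp (h : Fai nr) : Fai (wp nr) := by
  intro p hp
  have h1 : p.coeff p.natDegree ≠ 0 := by
    rw [Polynomial.coeff_natDegree]
    exact Polynomial.leadingCoeff_ne_zero.2 hp
  exact (h _ h1).trans (wp_coeff_le nr p _)

theorem Fai.index_le (h : Fai nr) {p : Polynomial R} {i l : ℕ} (hi : p.coeff i ≠ 0)
    (hp : (IP.wp nr).ν p ≤ 2 ^ l) : i ≤ l := by
  have h1 := (wp_coeff nr p i).trans hp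
  have h2 := h _ hi
  have h3 : 2 ^ i ≤ 2 ^ l := (Nat.le_mul_of_pos_left _ h2).trans h1
  exact (Nat.pow_le_pow_iff_right (by norm_num)).1 h3

theorem fai_int : Fai RNorm.int := fun a ha => Int.natAbs_pos.2 ha

end wp

/-! ### Evaluation at small numbers -/

theorem eval_small (s : Finset ℕ) (g : ℕ → ℝ) (i0 : ℕ) (hi0 : i0 ∈ s)
    (hmin : ∀ i ∈ s, i0 ≤ i) (a A t : ℝ) (h0 : a ≤ |g i0|) (hA : ∑ i ∈ s, |g i| ≤ A)
    (ht0 : 0 < t) (ht1 : t ≤ 1) (ht : 2 * (t * A) ≤ a) :
    t ^ i0 * (a / 2) ≤ |∑ i ∈ s, g i * t ^ i| := by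
  classical
  rw [← Finset.add_sum_erase s _ hi0]
  have h1 : |∑ i ∈ s.erase i0, g i * t ^ i| ≤ t ^ i0 * (t * A) := by
    calc |∑ i ∈ s.erase i0, g i * t ^ i| ≤ ∑ i ∈ s.erase i0, |g i * t ^ i| :=
          Finset.abs_sum_le_sum_abs _ _
      _ ≤ ∑ i ∈ s.erase i0, |g i| * (t ^ i0 * t) := by
        apply Finset.sum_le_sum
        intro i hi
        rw [abs_mul, abs_of_pos (pow_pos ht0 i)]
        apply mul_le_mul_of_nonneg_left _ (abs_nonneg _)
        rw [← pow_succ]
        apply pow_le_pow_of_le_one ht0.le ht1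
        have h2 := hmin i (Finset.mem_of_mem_erase hi)
        have h3 := Finset.ne_of_mem_erase hi
        omega
      _ = (∑ i ∈ s.erase i0, |g i|) * (t ^ i0 * t) := by rw [Finset.sum_mul]
      _ ≤ A * (t ^ i0 * t) := by
        apply mul_le_mul_of_nonneg_right _ (by positivity)
        refine le_trans ?_ hA
        exact Finset.sum_le_sum_of_subset_of_nonneg (Finset.erase_subset _ _)
          fun _ _ _ => abs_nonneg _
      _ = t ^ i0 * (t * A) := by ring
  have h4 : t ^ i0 * a ≤ |g i0 * t ^ i0| := by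
    rw [abs_mul, abs_of_pos (pow_pos ht0 i0), mul_comm]
    exact mul_le_mul_of_nonneg_right h0 (by positivity)
  have h5 : |g i0 * t ^ i0| - |∑ i ∈ s.erase i0, g i * t ^ i| ≤
      |g i0 * t ^ i0 + ∑ i ∈ s.erase i0, g i * t ^ i| := by
    have := abs_sub_abs_le_abs_sub (g i0 * t ^ i0) (-∑ i ∈ s.erase i0, g i * t ^ i)
    rwa [abs_neg, sub_neg_eq_add] at this
  have h6 : t ^ i0 * (t * A) ≤ t ^ i0 * (a / 2) := by
    apply mul_le_mul_of_nonneg_left _ (by positivity)
    linarith
  have h7 : t ^ i0 * (a / 2) = t ^ i0 * a - t ^ i0 * (a / 2) := by ring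
  linarith

/-- Evaluation of a polynomial at a small number, if its coefficients are bounded from below. -/
theorem poly_small {R : Type} [CommRing R] {nr : RNorm R} (hf : Fai nr) (φ : R →+* ℝ)
    (hφ : ∀ a, |φ a| ≤ nr.ν a) {l : ℕ} {a : ℝ} (ha : 0 < a)
    (hlow : ∀ c : R, c ≠ 0 → nr.ν c ≤ 2 ^ l → a ≤ |φ c|) (p : Polynomial R) (hp : p ≠ 0)
    (hpn : (wp nr).ν p ≤ 2 ^ l) (t : ℝ) (ht0 : 0 < t) (ht1 : t ≤ 1) (ht : 2 * (t * 2 ^ l) ≤ a) :
    t ^ l * (a / 2) ≤ |p.eval₂ φ t| := by
  have hne : p.support.Nonempty := Polynomial.support_nonempty.2 hp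
  set i0 := p.support.min' hne with hi0
  have h1 : i0 ∈ p.support := Finset.min'_mem _ _
  have h2 : p.coeff i0 ≠ 0 := Polynomial.mem_support_iff.1 h1
  have h3 : i0 ≤ l := hf.index_le h2 hpn
  rw [Polynomial.eval₂_eq_sum, Polynomial.sum_def]
  have h4 := eval_small p.support (fun i => φ (p.coeff i)) i0 h1
    (fun i hi => Finset.min'_le _ _ hi) a (2 ^ l) t
    (hlow _ h2 ((wp_coeff_le nr p i0).trans hpn)) (by
      calc ∑ i ∈ p.support, |φ (p.coeff i)| ≤ ∑ i ∈ p.support, (nr.ν (p.coeff i) : ℝ) :=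
            Finset.sum_le_sum fun i _ => hφ _
        _ = ((∑ i ∈ p.support, nr.ν (p.coeff i) : ℕ) : ℝ) := by push_cast; rfl
        _ ≤ 2 ^ l := by exact_mod_cast (wp_sum_le nr p).trans hpn) ht0 ht1 ht
  refine le_trans ?_ h4
  apply mul_le_mul_of_nonneg_right _ (by positivity)
  exact pow_le_pow_of_le_one ht0.le ht1 h3

theorem abs_eval₂_le {R : Type} [CommRing R] (nr : RNorm R) (φ : R →+* ℝ)
    (hφ : ∀ a, |φ a| ≤ nr.ν a) (t : ℝ) (ht : |t| ≤ 2) (p : Polynomial R) :
    |p.eval₂ φ t| ≤ (wp nr).ν p := by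
  rw [Polynomial.eval₂_eq_sum, Polynomial.sum_def]
  refine (Finset.abs_sum_le_sum_abs _ _).trans ?_
  change _ ≤ ((wpv nr p : ℕ) : ℝ)
  unfold wpv
  push_cast
  apply Finset.sum_le_sum
  intro i _
  rw [abs_mul, abs_pow]
  exact mul_le_mul (hφ _) (pow_le_pow_left₀ (abs_nonneg _) ht _) (by positivity)
    (Nat.cast_nonneg _)

/-! ### Substitution -/

theorem sum_pow_le_pow {ι : Type*} (s : Finset ι) (f : ι → ℕ) {G : ℕ} (hG : 1 ≤ G) :
    ∑ i ∈ s, f i ^ G ≤ (∑ i ∈ s, f i) ^ G := by
  classical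
  have h2 : ∀ a b : ℕ, a ^ G + b ^ G ≤ (a + b) ^ G := by
    intro a b
    induction G, hG using Nat.le_induction with
    | base => simp
    | succ G _ ih =>
      calc a ^ (G + 1) + b ^ (G + 1) ≤ (a ^ G + b ^ G) * (a + b) := by
            rw [pow_succ, pow_succ]
            nlinarith [Nat.zero_le (a ^ G * b), Nat.zero_le (b ^ G * a)]
        _ ≤ (a + b) ^ G * (a + b) := Nat.mul_le_mul_right _ ih
        _ = (a + b) ^ (G + 1) := by rw [pow_succ]
  induction s using Finset.induction_on with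
  | empty => simp
  | insert a s ha ih =>
    rw [Finset.sum_insert ha, Finset.sum_insert ha]
    exact (Nat.add_le_add_left ih _).trans (h2 _ _)

/-- The norm of a substitution. -/
theorem nu_subst {σ R : Type} [CommRing R] (nr : RNorm R) (g : σ → R) {G : ℕ} (hG : 1 ≤ G)
    (hg : ∀ i, nr.ν (g i) ≤ 2 ^ G) (P : MvPolynomial σ ℤ) :
    nr.ν (MvPolynomial.aeval g P) ≤ ((wn σ).ν P) ^ G := by
  have h1 : MvPolynomial.aeval g P = ∑ α ∈ P.support,
      ((P.coeff α : ℤ) : R) * ∏ i ∈ α.support, g i ^ α i := by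
    rw [MvPolynomial.aeval_def, MvPolynomial.eval₂_eq]
    simp
  rw [h1]
  refine (nr.sum _ _).trans ?_
  refine le_trans ?_ (sum_pow_le_pow P.support
    (fun α => (P.coeff α).natAbs * 2 ^ α.degree) hG)
  apply Finset.sum_le_sum
  intro α hα
  have h2 : nr.ν (∏ i ∈ α.support, g i ^ α i) ≤ (2 ^ α.degree) ^ G := by
    refine (nr.prod _ _).trans ?_
    calc ∏ i ∈ α.support, nr.ν (g i ^ α i) ≤ ∏ i ∈ α.support, (2 ^ G) ^ α i :=
          Finset.prod_le_prod' fun i _ => (RNorm_pow_le nr _ _).trans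
            (Nat.pow_le_pow_left (hg i) _)
      _ = (2 ^ α.degree) ^ G := by
        rw [Finset.prod_pow_eq_pow_sum, ← pow_mul, ← pow_mul, mul_comm, Finsupp.degree_apply]
  refine (nr.mul _ _).trans ?_
  refine (Nat.mul_le_mul (nr.intCast _) h2).trans ?_
  rw [mul_pow]
  apply Nat.mul_le_mul_right
  have h3 : 1 ≤ (P.coeff α).natAbs := Int.natAbs_pos.2 (MvPolynomial.mem_support_iff.1 hα)
  calc (P.coeff α).natAbs = (P.coeff α).natAbs ^ 1 := (pow_one _).symm
    _ ≤ _ := Nat.pow_le_pow_right h3 hG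

/-- Polynomials in `T`, `ρ`, `s`. -/
abbrev R3 := Polynomial (Polynomial (Polynomial ℤ))

/-- The norm. -/
noncomputable def n3 : RNorm R3 := wp (wp (wp RNorm.int))

theorem fai3 : Fai n3 := ((fai_int.wp).wp).wp

/-- Evaluation. -/
noncomputable def E3 (T ρ s : ℝ) : R3 →+* ℝ :=
  Polynomial.eval₂RingHom (Polynomial.eval₂RingHom (Polynomial.eval₂RingHom
    (Int.castRingHom ℝ) T) ρ) s

section grid

variable {n U : ℕ}

/-- The images of the variables. -/
noncomputable def im3 (w : AA n U ⊕ Fin n → ℕ) : Option (SS n U) → R3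
  | none => Polynomial.C (Polynomial.C Polynomial.X)
  | some (Sum.inl a) => (w (Sum.inl a) : R3) * Polynomial.X
  | some (Sum.inr (Sum.inl j)) => (w (Sum.inr j) : R3) * Polynomial.X
  | some (Sum.inr (Sum.inr ())) => Polynomial.C Polynomial.X

theorem nu_im3 (w : AA n U ⊕ Fin n → ℕ) {g : ℕ} (hw : ∀ i, w i ≤ 2 ^ g) (o : Option (SS n U)) :
    n3.ν (im3 w o) ≤ 2 ^ (g + 1) := by
  have h2 : 2 ≤ 2 ^ (g + 1) := by
    calc 2 = 2 ^ 1 := (pow_one 2).symm
      _ ≤ 2 ^ (g + 1) := Nat.pow_le_pow_right (by norm_num) (by omega)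
  match o with
  | none =>
    refine le_trans ?_ h2
    unfold im3 n3
    rw [wp_C, wp_C]
    exact wp_X _
  | some (Sum.inl a) =>
    rw [pow_succ]
    exact nu_mul_le n3 ((n3.natCast _).trans (hw _)) (wp_X _)
  | some (Sum.inr (Sum.inl j)) =>
    rw [pow_succ]
    exact nu_mul_le n3 ((n3.natCast _).trans (hw _)) (wp_X _)
  | some (Sum.inr (Sum.inr ())) =>
    refine le_trans ?_ h2
    unfold im3 n3
    rw [wp_C]
    exact wp_X _

theorem E3_im3 (w : AA n U ⊕ Fin n → ℕ) (T ρ s : ℝ) (o : Option (SS n U)) :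
    E3 T ρ s (im3 w o) = o.elim T (par (fun a => s * w (Sum.inl a))
      (fun j => s * w (Sum.inr j)) ρ) := by
  match o with
  | none => simp [im3, E3]
  | some (Sum.inl a) => simp [im3, E3, par, mul_comm]
  | some (Sum.inr (Sum.inl j)) => simp [im3, E3, par, mul_comm]
  | some (Sum.inr (Sum.inr ())) => simp [im3, E3, par]

theorem E3_aeval (w : AA n U ⊕ Fin n → ℕ) (T ρ s : ℝ) (P : MvPolynomial (Option (SS n U)) ℤ) :
    E3 T ρ s (MvPolynomial.aeval (im3 w) P) = MvPolynomial.aeval (fun o : Option (SS n U) =>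
      o.elim T (par (fun a => s * w (Sum.inl a)) (fun j => s * w (Sum.inr j)) ρ)) P := by
  have h3 : (E3 T ρ s).comp
      (MvPolynomial.aeval (im3 w) : MvPolynomial (Option (SS n U)) ℤ →ₐ[ℤ] R3).toRingHom =
      (MvPolynomial.aeval (fun o : Option (SS n U) =>
        o.elim T (par (fun a => s * w (Sum.inl a)) (fun j => s * w (Sum.inr j)) ρ)) :
        MvPolynomial (Option (SS n U)) ℤ →ₐ[ℤ] ℝ).toRingHom := by
    apply MvPolynomial.ringHom_ext
    · intro c
      simp
    · intro o
      have := E3_im3 w T ρ s o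
      simpa using this
  exact congrArg (fun f => f P) h3

/-- Existence of a generic direction. -/
theorem exists_dir3 (P : MvPolynomial (Option (SS n U)) ℤ) (hP : P ≠ 0) (d : ℕ)
    (hd : P.totalDegree ≤ d) :
    ∃ w : AA n U ⊕ Fin n → ℕ, (∀ i, w i ≤ d) ∧ MvPolynomial.aeval (im3 w) P ≠ 0 := by
  classical
  let img : Option (SS n U) → MvPolynomial (AA n U ⊕ Fin n) R3 := fun o =>
    match o with
    | none => MvPolynomial.C (Polynomial.C (Polynomial.C Polynomial.X))
    | some (Sum.inl a) => MvPolynomial.C Polynomial.X * MvPolynomial.X (Sum.inl a)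
    | some (Sum.inr (Sum.inl j)) => MvPolynomial.C Polynomial.X * MvPolynomial.X (Sum.inr j)
    | some (Sum.inr (Sum.inr ())) => MvPolynomial.C (Polynomial.C Polynomial.X)
  let Ψ : MvPolynomial (Option (SS n U)) ℤ →ₐ[ℤ] MvPolynomial (AA n U ⊕ Fin n) R3 :=
    MvPolynomial.aeval img
  -- left inverse
  let Q : Type := MvPolynomial (Option (SS n U)) ℤ
  let back0 : R3 →+* MvPolynomial (Option (SS n U)) ℤ :=
    Polynomial.eval₂RingHom (Polynomial.eval₂RingHom (Polynomial.eval₂RingHom
      (Int.castRingHom (MvPolynomial (Option (SS n U)) ℤ)) (MvPolynomial.X none))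
      (MvPolynomial.X (some (Sum.inr (Sum.inr ()))))) 1
  let back : MvPolynomial (AA n U ⊕ Fin n) R3 →+* MvPolynomial (Option (SS n U)) ℤ :=
    MvPolynomial.eval₂Hom back0 (fun i => MvPolynomial.X (some (i.elim (fun a => Sum.inl a)
      (fun j => Sum.inr (Sum.inl j)))))
  have hback : ∀ p, back (Ψ p) = p := by
    intro p
    have h1 : (back.comp Ψ.toRingHom) = RingHom.id _ := by
      apply MvPolynomial.ringHom_ext
      · intro c
        simp
      · intro o
        match o with
        | none => simp [back, Ψ, img, back0]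
        | some (Sum.inl a) => simp [back, Ψ, img, back0]
        | some (Sum.inr (Sum.inl j)) => simp [back, Ψ, img, back0]
        | some (Sum.inr (Sum.inr ())) => simp [back, Ψ, img, back0]
    exact congrArg (fun f => f p) h1
  have hΨ : Ψ P ≠ 0 := by
    intro h
    apply hP
    rw [← hback P, h, map_zero]
  have himg : ∀ o, (img o).totalDegree ≤ 1 := by
    intro o
    match o with
    | none => simp only [img]; rw [MvPolynomial.totalDegree_C]; omega
    | some (Sum.inl a) =>
      simp only [img]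
      refine (MvPolynomial.totalDegree_mul _ _).trans ?_
      rw [MvPolynomial.totalDegree_C, MvPolynomial.totalDegree_X]
    | some (Sum.inr (Sum.inl j)) =>
      simp only [img]
      refine (MvPolynomial.totalDegree_mul _ _).trans ?_
      rw [MvPolynomial.totalDegree_C, MvPolynomial.totalDegree_X]
    | some (Sum.inr (Sum.inr ())) => simp only [img]; rw [MvPolynomial.totalDegree_C]; omega
  have hdeg : (Ψ P).totalDegree ≤ d := by
    simp only [Ψ]
    rw [MvPolynomial.aeval_def, MvPolynomial.eval₂_eq]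
    apply MvPolynomial.totalDegree_finsetSum_le
    intro α hα
    refine (MvPolynomial.totalDegree_mul _ _).trans ?_
    have h1 : (algebraMap ℤ (MvPolynomial (AA n U ⊕ Fin n) R3) (P.coeff α)).totalDegree = 0 := by
      rw [IsScalarTower.algebraMap_apply ℤ R3 (MvPolynomial (AA n U ⊕ Fin n) R3)]
      exact MvPolynomial.totalDegree_C _
    rw [h1, zero_add]
    refine (MvPolynomial.totalDegree_finsetProd _ _).trans ?_
    have h2 : ∀ i ∈ α.support, (img i ^ α i).totalDegree ≤ α i := by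
      intro i _
      refine (MvPolynomial.totalDegree_pow _ _).trans ?_
      have := himg i
      nlinarith
    refine (Finset.sum_le_sum h2).trans ?_
    have h3 := MvPolynomial.le_totalDegree hα
    exact h3.trans hd
  by_contra hcon
  push Not at hcon
  apply hΨ
  apply MvPolynomial.eq_zero_of_eval_zero_at_prod_finset (Ψ P)
    (fun _ => (Finset.range (d + 1)).image (fun m : ℕ => (m : R3)))
  · intro i
    rw [Finset.card_image_of_injective _ Nat.cast_injective, Finset.card_range]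
    exact Nat.lt_succ_of_le ((MvPolynomial.degreeOf_le_totalDegree _ _).trans hdeg)
  · intro x hx
    have h1 : ∀ i, ∃ m : ℕ, m ≤ d ∧ (m : R3) = x i := by
      intro i
      obtain ⟨m, hm, hm2⟩ := Finset.mem_image.1 (hx i)
      exact ⟨m, Nat.lt_succ_iff.1 (Finset.mem_range.1 hm), hm2⟩
    choose w hw hwx using h1
    have h2 := hcon w hw
    rw [← h2]
    have h3 : ((MvPolynomial.eval x).comp Ψ.toRingHom) =
        (MvPolynomial.aeval (im3 w) : MvPolynomial (Option (SS n U)) ℤ →ₐ[ℤ] R3).toRingHom := by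
      apply MvPolynomial.ringHom_ext
      · intro c
        simp
      · intro o
        match o with
        | none => simp [Ψ, img, im3]
        | some (Sum.inl a) => simp [Ψ, img, im3, hwx, mul_comm]
        | some (Sum.inr (Sum.inl j)) => simp [Ψ, img, im3, hwx, mul_comm]
        | some (Sum.inr (Sum.inr ())) => simp [Ψ, img, im3]
    exact congrArg (fun f => f P) h3

end grid

end Pool.Agent.TH662.IP
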