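import Mathlib
import Pool.Agent.TH662.IP.Sub

/-!
# A generic direction and the algebraic relation for it
-/

namespace Pool.Agent.TH662.IP

open Finset Pool.Agent.H612

theorem totalDegree_le_of_wn {σ : Type} {p : MvPolynomial σ ℤ} {l : ℕ}
    (h : (wn σ).ν p ≤ 2 ^ l) : p.totalDegree ≤ l := by
  rw [MvPolynomial.totalDegree]
  apply Finset.sup_le
  intro α hα
  exact degree_le_of_wn h (MvPolynomial.mem_support_iff.1 hα)

theorem exists_package {n U k M : ℕ} {S : Sys} (hB : Bd n U k S M) :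
    ∃ w : AA n U ⊕ Fin n → ℕ, (∀ i, w i < 2 ^ (M ^ 11)) ∧
      ∃ Q : R3, Q ≠ 0 ∧ n3.ν Q ≤ 2 ^ (2 ^ (M ^ 12)) ∧
        ∀ (r : Fin (n + 1)) (u : Fin U) (κ : SS n U), ∃ p : ℝ → ℝ → Polynomial ℝ,
          (∀ T ρ s, E3 T ρ s Q ≠ 0 → (p ρ s).eval T ≠ 0) ∧
          ∀ (ρ s : ℝ) (x : Fin n → ℝ) (Y : Fin ((r : ℕ) + 1) → Fin n → ℝ)
            (la : Fin ((r : ℕ) + 1) → ℝ) (t : ℝ),
            Crit S k r (fun a => s * w (Sum.inl a)) (fun j => s * w (Sum.inr j)) ρ x Y la t →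
            (jmat (r : ℕ) (u : ℕ) Y).det ≠ 0 →
            (p ρ s).eval (zvec r u (fun a => s * w (Sum.inl a)) ρ x Y la t κ) = 0 := by
  classical
  have h64 := hB.M64
  choose P hP0 hPn hP using fun q : Fin (n + 1) × Fin U × SS n U => relation hB q.1 q.2.1 q.2.2
  set Pr : MvPolynomial (Option (SS n U)) ℤ := ∏ q, P q with hPr
  have hPr0 : Pr ≠ 0 := Finset.prod_ne_zero_iff.2 fun q _ => hP0 q
  have hcard : Fintype.card (Fin (n + 1) × Fin U × SS n U) ≤ M ^ 7 := by
    rw [Fintype.card_prod, Fintype.card_prod, Fintype.card_fin, Fintype.card_fin]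
    calc (n + 1) * (U * Fintype.card (SS n U)) ≤ M * (M * M ^ 5) :=
          Nat.mul_le_mul hB.hn (Nat.mul_le_mul hB.hU (by have := card_SS hB; omega))
      _ = M ^ 7 := by ring
  have hM2 : M ≤ 2 ^ M := Nat.lt_two_pow_self.le
  have hpw : ∀ c ≤ 64, M ^ c ≤ 2 ^ (M ^ 2) := by
    intro c hc
    calc M ^ c ≤ (2 ^ M) ^ c := Nat.pow_le_pow_left hM2 _
      _ = 2 ^ (M * c) := by rw [pow_mul]
      _ ≤ 2 ^ (M ^ 2) := by
        apply Nat.pow_le_pow_right (by norm_num)
        rw [pow_two]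
        exact Nat.mul_le_mul_left _ (by omega)
  have hPrn : (wn _).ν Pr ≤ 2 ^ (2 ^ (M ^ 10)) := by
    refine ((wn _).prod _ _).trans ?_
    calc ∏ q, (wn _).ν (P q) ≤ (2 ^ (2 ^ (M ^ 9))) ^ (Finset.univ : Finset (Fin (n + 1) × Fin U ×
          SS n U)).card := Finset.prod_le_pow_card _ _ _ fun q _ => hPn q
      _ ≤ (2 ^ (2 ^ (M ^ 9))) ^ (M ^ 7) :=
          Nat.pow_le_pow_right (Nat.pow_pos (by norm_num)) (by rw [Finset.card_univ]; exact hcard)
      _ = 2 ^ (2 ^ (M ^ 9) * M ^ 7) := by rw [← pow_mul]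
      _ ≤ 2 ^ (2 ^ (M ^ 10)) := by
        apply Nat.pow_le_pow_right (by norm_num)
        calc 2 ^ (M ^ 9) * M ^ 7 ≤ 2 ^ (M ^ 9) * 2 ^ (M ^ 2) :=
              Nat.mul_le_mul_left _ (hpw 7 (by norm_num))
          _ = 2 ^ (M ^ 9 + M ^ 2) := by rw [pow_add]
          _ ≤ 2 ^ (M ^ 10) := by
            apply Nat.pow_le_pow_right (by norm_num)
            have a1 : M ^ 2 ≤ M ^ 9 := Nat.pow_le_pow_right (by omega) (by norm_num)
            calc M ^ 9 + M ^ 2 ≤ M ^ 9 * 2 := by omega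
              _ ≤ M ^ 9 * M := Nat.mul_le_mul_left _ (by omega)
              _ = M ^ 10 := by ring
  obtain ⟨w, hw, hw0⟩ := exists_dir3 Pr hPr0 _ (totalDegree_le_of_wn hPrn)
  have a10 : 1 ≤ M ^ 10 := Nat.one_le_pow _ _ (by omega)
  refine ⟨w, ?_, MvPolynomial.aeval (im3 w) Pr, hw0, ?_, ?_⟩
  · intro i
    refine (hw i).trans_lt ?_
    apply Nat.pow_lt_pow_right (by norm_num)
    exact Nat.pow_lt_pow_right (by omega) (by norm_num)
  · refine (nu_subst n3 (im3 w) (G := M ^ 10 + 1) (by omega)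
      (nu_im3 w (g := M ^ 10) hw) Pr).trans ?_
    calc ((wn _).ν Pr) ^ (M ^ 10 + 1) ≤ (2 ^ (2 ^ (M ^ 10))) ^ (M ^ 10 + 1) :=
          Nat.pow_le_pow_left hPrn _
      _ = 2 ^ (2 ^ (M ^ 10) * (M ^ 10 + 1)) := by rw [← pow_mul]
      _ ≤ 2 ^ (2 ^ (M ^ 12)) := by
        apply Nat.pow_le_pow_right (by norm_num)
        have a2 : M ^ 10 + 1 ≤ 2 ^ (M ^ 10) := Nat.lt_two_pow_self
        calc 2 ^ (M ^ 10) * (M ^ 10 + 1) ≤ 2 ^ (M ^ 10) * 2 ^ (M ^ 10) :=
              Nat.mul_le_mul_left _ a2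
          _ = 2 ^ (M ^ 10 * 2) := by rw [← pow_add]; congr 1; ring
          _ ≤ 2 ^ (M ^ 12) := by
            apply Nat.pow_le_pow_right (by norm_num)
            calc M ^ 10 * 2 ≤ M ^ 10 * (M * M) := Nat.mul_le_mul_left _ (by nlinarith)
              _ = M ^ 12 := by ring
  · intro r u κ
    -- the univariate polynomial
    let pp : ℝ → ℝ → (Option (SS n U) → Polynomial ℝ) := fun ρ s o =>
      o.elim Polynomial.X fun i => Polynomial.C (par (fun a => s * w (Sum.inl a))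
        (fun j => s * w (Sum.inr j)) ρ i)
    have hev : ∀ ρ s T, ∀ P' : MvPolynomial (Option (SS n U)) ℤ,
        (MvPolynomial.aeval (pp ρ s) P').eval T = MvPolynomial.aeval (fun o : Option (SS n U) =>
          o.elim T (par (fun a => s * w (Sum.inl a)) (fun j => s * w (Sum.inr j)) ρ)) P' := by
      intro ρ s T P'
      have h3 : (Polynomial.evalRingHom T).comp
          (MvPolynomial.aeval (pp ρ s) : MvPolynomial (Option (SS n U)) ℤ →ₐ[ℤ]
            Polynomial ℝ).toRingHom =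
          (MvPolynomial.aeval (fun o : Option (SS n U) =>
            o.elim T (par (fun a => s * w (Sum.inl a)) (fun j => s * w (Sum.inr j)) ρ)) :
            MvPolynomial (Option (SS n U)) ℤ →ₐ[ℤ] ℝ).toRingHom := by
        apply MvPolynomial.ringHom_ext
        · intro c
          simp
        · intro o
          match o with
          | none => simp [pp]
          | some i => simp [pp]
      exact congrArg (fun f => f P') h3
    refine ⟨fun ρ s => MvPolynomial.aeval (pp ρ s) (P (r, u, κ)), ?_, ?_⟩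
    · intro T ρ s h
      rw [E3_aeval, hPr, map_prod, Finset.prod_ne_zero_iff] at h
      rw [hev]
      exact h (r, u, κ) (Finset.mem_univ _)
    · intro ρ s x Y la t hc hd
      rw [hev]
      exact hP (r, u, κ) _ _ ρ x Y la t hc hd

end Pool.Agent.TH662.IP
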