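import Mathlib
import Pool.Agent.TH662.IP.Pack
import Pool.Agent.TH662.IP.KKT

/-!
# The value of the max-min problem
-/

namespace Pool.Agent.TH662.IP

open Finset Filter Topology Pool.Agent.H612

variable {n : ℕ}

/-- `v` is the value of the problem `max_{x ∈ K} min_y f(x, y)`. -/
def IsVal (K : Set (Fin n → ℝ)) (f : (Fin n → ℝ) → (Fin n → ℝ) → ℝ) (v : ℝ) : Prop :=
  (∃ x ∈ K, ∀ y, v ≤ f x y) ∧ ∀ x ∈ K, ∃ y, f x y ≤ v

theorem IsVal.le {K : Set (Fin n → ℝ)} {f g : (Fin n → ℝ) → (Fin n → ℝ) → ℝ} {v v' c : ℝ}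
    (hf : IsVal K f v) (hg : IsVal K g v') (hc : 0 ≤ c) (h : ∀ x ∈ K, ∀ y, f x y ≤ c * g x y) :
    v ≤ c * v' := by
  obtain ⟨x, hx, h1⟩ := hf.1
  obtain ⟨y, h2⟩ := hg.2 x hx
  exact (h1 y).trans ((h x hx y).trans (mul_le_mul_of_nonneg_left h2 hc))

theorem exists_val {K : Set (Fin n → ℝ)} (hK : IsCompact K) (hne : K.Nonempty)
    (f : (Fin n → ℝ) → (Fin n → ℝ) → ℝ)
    (hf : Continuous (fun p : (Fin n → ℝ) × (Fin n → ℝ) => f p.1 p.2))
    (hco : ∀ M, ∃ R, ∀ x ∈ K, ∀ y, f x y ≤ M → ‖y‖ ≤ R) : ∃ v, IsVal K f v := by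
  obtain ⟨x1, hx1, hmax1⟩ := hK.exists_isMaxOn hne
    (hf.comp (Continuous.prodMk_left (0 : Fin n → ℝ))).continuousOn
  obtain ⟨R, hR⟩ := hco (f x1 0)
  have hBc : IsCompact (Metric.closedBall (0 : Fin n → ℝ) (max R 0)) := isCompact_closedBall _ _
  have h0B : (0 : Fin n → ℝ) ∈ Metric.closedBall (0 : Fin n → ℝ) (max R 0) := by simp
  have hG : Continuous fun x => sInf (f x '' Metric.closedBall (0 : Fin n → ℝ) (max R 0)) :=
    hBc.continuous_sInf hf
  obtain ⟨xs, hxs, hmax⟩ := hK.exists_isMaxOn hne hG.continuousOn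
  have hcont : ∀ x, ContinuousOn (f x) (Metric.closedBall (0 : Fin n → ℝ) (max R 0)) := fun x =>
    (hf.comp (Continuous.prodMk_right x)).continuousOn
  refine ⟨sInf (f xs '' Metric.closedBall (0 : Fin n → ℝ) (max R 0)), ⟨xs, hxs, fun y => ?_⟩,
    fun x hx => ?_⟩
  · have hbdd : BddBelow (f xs '' Metric.closedBall (0 : Fin n → ℝ) (max R 0)) :=
      (hBc.image_of_continuousOn (hcont xs)).bddBelow
    by_cases hy : y ∈ Metric.closedBall (0 : Fin n → ℝ) (max R 0)
    · exact csInf_le hbdd ⟨y, hy, rfl⟩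
    · have h1 : f x1 0 < f xs y := by
        by_contra h
        push Not at h
        apply hy
        rw [mem_closedBall_zero_iff]
        exact (hR xs hxs y h).trans (le_max_left _ _)
      have h2 : f xs 0 ≤ f x1 0 := hmax1 hxs
      have h3 : sInf (f xs '' Metric.closedBall (0 : Fin n → ℝ) (max R 0)) ≤ f xs 0 :=
        csInf_le hbdd ⟨0, h0B, rfl⟩
      linarith
  · obtain ⟨y, -, hy⟩ := hBc.exists_sInf_image_eq ⟨0, h0B⟩ (hcont x)
    refine ⟨y, ?_⟩
    rw [← hy]
    exact hmax hx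

/-! ### Continuity -/

section cont

variable {X : Type} [TopologicalSpace X]

theorem continuous_yat {y : X → Fin n → ℝ} (hy : Continuous y) (k : ℕ) :
    Continuous fun p => yat (y p) k := by
  unfold yat
  split_ifs
  · exact (continuous_apply _).comp hy
  · exact continuous_const

theorem continuous_vg {x y : X → Fin n → ℝ} (hx : Continuous x) (hy : Continuous y) (k : ℕ) :
    Continuous fun p => vg (1 : ℝ) (x p) (y p) k := by
  unfold vg
  split_ifs
  · exact continuous_const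
  · exact continuous_yat hx _
  · exact continuous_yat hy _

theorem continuous_EE {V : X → ℕ → ℝ} (hV : ∀ k, Continuous fun p => V p k)
    (l : List (Bool × ℕ × ℕ × ℕ)) : Continuous fun p => EE l (V p) := by
  induction l with
  | nil => simpa [EE] using continuous_const
  | cons q l ih =>
    have : (fun p => EE (q :: l) (V p)) = fun p => sg q.1 * (V p q.2.1 * V p q.2.2.1 *
        V p q.2.2.2) + EE l (V p) := by
      funext p
      simp [EE]
    rw [this]
    exact (continuous_const.mul (((hV _).mul (hV _)).mul (hV _))).add ih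

theorem continuous_dEE {V dV : X → ℕ → ℝ} (hV : ∀ k, Continuous fun p => V p k)
    (hdV : ∀ k, Continuous fun p => dV p k)
    (l : List (Bool × ℕ × ℕ × ℕ)) : Continuous fun p => dEE l (V p) (dV p) := by
  induction l with
  | nil => simpa [dEE] using continuous_const
  | cons q l ih =>
    have : (fun p => dEE (q :: l) (V p) (dV p)) = fun p => sg q.1 *
        (dV p q.2.1 * V p q.2.2.1 * V p q.2.2.2 + V p q.2.1 * dV p q.2.2.1 * V p q.2.2.2 +
          V p q.2.1 * V p q.2.2.1 * dV p q.2.2.2) + dEE l (V p) (dV p) := by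
      funext p
      simp [dEE]
    rw [this]
    exact (continuous_const.mul (((((hdV _).mul (hV _)).mul (hV _)).add
      (((hV _).mul (hdV _)).mul (hV _))).add (((hV _).mul (hV _)).mul (hdV _)))).add ih

theorem continuous_FF {V : X → ℕ → ℝ} (hV : ∀ k, Continuous fun p => V p k) (S : Sys) :
    Continuous fun p => FF S (V p) := by
  induction S with
  | nil => simpa [FF] using continuous_const
  | cons l S ih =>
    have : (fun p => FF (l :: S) (V p)) = fun p => EE l (V p) ^ 2 + FF S (V p) := by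
      funext p
      simp [FF]
    rw [this]
    exact ((continuous_EE hV l).pow 2).add ih

theorem continuous_dFF {V dV : X → ℕ → ℝ} (hV : ∀ k, Continuous fun p => V p k)
    (hdV : ∀ k, Continuous fun p => dV p k) (S : Sys) :
    Continuous fun p => dFF S (V p) (dV p) := by
  induction S with
  | nil => simpa [dFF] using continuous_const
  | cons l S ih =>
    have : (fun p => dFF (l :: S) (V p) (dV p)) = fun p =>
        2 * EE l (V p) * dEE l (V p) (dV p) + dFF S (V p) (dV p) := by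
      funext p
      simp [dFF]
    rw [this]
    exact ((continuous_const.mul (continuous_EE hV l)).mul (continuous_dEE hV hdV l)).add ih

theorem continuous_sqs {y : X → Fin n → ℝ} (hy : Continuous y) :
    Continuous fun p => ∑ j, y p j ^ 2 :=
  continuous_finsetSum _ fun j _ => ((continuous_apply j).comp hy).pow 2

theorem continuous_WW {y : X → Fin n → ℝ} (hy : Continuous y) : Continuous fun p => WW (y p) :=
  continuous_const.add (continuous_sqs hy)

theorem continuous_hh {x : X → Fin n → ℝ} (hx : Continuous x) : Continuous fun p => hh (x p) :=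
  ((continuous_yat hx 0).pow 2).mul (continuous_const.sub (continuous_sqs hx))

theorem continuous_dhh {x : X → Fin n → ℝ} (hx : Continuous x) (j : Fin n) :
    Continuous fun p => dhh (x p) j := by
  unfold dhh
  have h1 : Continuous fun p => yat (x p) 0 ^ 2 * (2 * x p j) :=
    ((continuous_yat hx 0).pow 2).mul (continuous_const.mul ((continuous_apply j).comp hx))
  split_ifs
  · exact ((continuous_const.mul (continuous_yat hx 0)).mul
      (continuous_const.sub (continuous_sqs hx))).sub h1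
  · exact continuous_const.sub h1

theorem continuous_Psi {x y : X → Fin n → ℝ} {ρ : X → ℝ} (hx : Continuous x)
    (hy : Continuous y) (hρ : Continuous ρ) (S : Sys) (k : ℕ) :
    Continuous fun p => Psi S k (x p) (y p) (ρ p) :=
  ((continuous_hh hx).mul (continuous_FF (fun k => continuous_vg hx hy k) S)).add
    (hρ.mul ((continuous_WW hy).pow k))

theorem continuous_dxP {x y : X → Fin n → ℝ} (hx : Continuous x)
    (hy : Continuous y) (S : Sys) (j : Fin n) :
    Continuous fun p => dxP S (x p) (y p) j :=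
  ((continuous_dhh hx j).mul (continuous_FF (fun k => continuous_vg hx hy k) S)).add
    ((continuous_hh hx).mul (continuous_dFF (dV := fun _ => uv (1 + (j : ℕ)))
      (fun k => continuous_vg hx hy k) (fun _ => continuous_const) S))

theorem continuous_ell {y : X → Fin n → ℝ} (hy : Continuous y) (u : ℕ) :
    Continuous fun p => ell u (y p) :=
  continuous_finsetSum _ fun j _ => continuous_const.mul ((continuous_apply j).comp hy)

theorem continuous_bf {y : X → Fin n → ℝ} (hy : Continuous y) (r u e j : ℕ) :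
    Continuous fun p => bf r u e j (y p) := by
  unfold bf
  split_ifs
  · exact (continuous_ell hy u).pow _
  · exact (continuous_ell hy u).pow _
  · exact (continuous_yat hy _).mul ((continuous_ell hy u).pow _)

theorem continuous_bd {y : X → Fin n → ℝ} (hy : Continuous y) (r u e j : ℕ) (q : Fin n) :
    Continuous fun p => bd r u e j (y p) q := by
  have h1 : ∀ (a : ℝ) (b : ℕ), Continuous fun p => a * ell u (y p) ^ b * (u : ℝ) ^ (q : ℕ) :=
    fun a b => (continuous_const.mul ((continuous_ell hy u).pow _)).mul continuous_const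
  unfold bd
  split_ifs
  · exact h1 _ _
  · exact h1 _ _
  · exact ((continuous_ell hy u).pow _).add ((continuous_yat hy _).mul (h1 _ _))
  · exact continuous_const.add ((continuous_yat hy _).mul (h1 _ _))

theorem hasDerivAt_ell (u : ℕ) (y : Fin n → ℝ) (q : Fin n) :
    HasDerivAt (fun t : ℝ => ell u (y + t • (Pi.single q (1 : ℝ) : Fin n → ℝ)))
      ((u : ℝ) ^ (q : ℕ)) 0 := by
  have h1 : (fun t : ℝ => ell u (y + t • (Pi.single q (1 : ℝ) : Fin n → ℝ))) =
      fun t => ell u y + t * (u : ℝ) ^ (q : ℕ) := by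
    funext t
    unfold ell
    simp only [Pi.add_apply, Pi.smul_apply, smul_eq_mul, mul_add, Finset.sum_add_distrib]
    congr 1
    rw [Finset.sum_eq_single q]
    · simp; ring
    · intro b _ hb
      simp [hb]
    · simp
  rw [h1]
  exact hasDerivAt_lin _ _ _

theorem hasDerivAt_bf (r u e j : ℕ) (y : Fin n → ℝ) (q : Fin n) :
    HasDerivAt (fun t : ℝ => bf r u e j (y + t • (Pi.single q (1 : ℝ) : Fin n → ℝ)))
      (bd r u e j y q) 0 := by
  have h0 := hasDerivAt_ell u y q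
  have y0 : y + (0 : ℝ) • (Pi.single q (1 : ℝ) : Fin n → ℝ) = y := by simp
  have hp : ∀ e : ℕ, HasDerivAt (fun t : ℝ => ell u (y + t • (Pi.single q (1 : ℝ) :
      Fin n → ℝ)) ^ e) ((e : ℝ) * ell u y ^ (e - 1) * (u : ℝ) ^ (q : ℕ)) 0 := by
    intro e
    have := h0.fun_pow e
    simpa only [y0] using this
  have hy1 : yat (Pi.single q (1 : ℝ) : Fin n → ℝ) (j - 1) = if (q : ℕ) = j - 1 then 1 else 0 := by
    unfold yat
    by_cases h6 : j - 1 < n
    · rw [dif_pos h6, Pi.single_apply]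
      by_cases h7 : (q : ℕ) = j - 1
      · rw [if_pos (Fin.ext h7.symm), if_pos h7]
      · rw [if_neg (fun h => h7 (congrArg Fin.val h).symm), if_neg h7]
    · rw [dif_neg h6, if_neg]
      have := q.2
      omega
  have h4 : HasDerivAt (fun t : ℝ => yat (y + t • (Pi.single q (1 : ℝ) : Fin n → ℝ)) (j - 1))
      (if (q : ℕ) = j - 1 then 1 else 0) 0 := by
    rw [← hy1]
    simp only [yat_add_smul]
    exact hasDerivAt_lin _ _ _
  have h5 := h4.mul (hp e)
  unfold bf bd
  split_ifs with h1 h2 h3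
  · exact hp e
  · have := hp (r + 1 + e)
    rwa [show r + 1 + e - 1 = r + e by omega] at this
  · refine h5.congr_deriv ?_
    rw [if_pos h3, y0, one_mul]
  · refine h5.congr_deriv ?_
    rw [if_neg h3, y0, zero_mul]

theorem continuous_qth {U : ℕ} {y : X → Fin n → ℝ} (hy : Continuous y) (θ : AA n U → ℝ) :
    Continuous fun p => qth θ (y p) :=
  continuous_finsetSum _ fun a _ => continuous_const.mul (continuous_bf hy _ _ _ _)

theorem continuous_jdet {r : ℕ} {Y : X → Fin (r + 1) → Fin n → ℝ} (hY : Continuous Y) (u : ℕ) :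
    Continuous fun p => (jmat r u (Y p)).det := by
  apply Continuous.matrix_det
  refine continuous_matrix fun a b => ?_
  obtain ⟨i, a⟩ := a
  have h1 : Continuous fun p => Y p i := (continuous_apply i).comp hY
  refine Fin.cases ?_ (fun q => ?_) a
  · simp only [jmat_zero]
    exact continuous_bf h1 _ _ _ _
  · simp only [jmat_succ]
    exact continuous_bd h1 _ _ _ _ _

end cont

/-! ### The unit ball -/

/-- The unit ball. -/
def KB (n : ℕ) : Set (Fin n → ℝ) := {x | ∑ j, x j ^ 2 ≤ 1}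

theorem norm_le_of_sq {y : Fin n → ℝ} {A : ℝ} (h : ∑ j, y j ^ 2 ≤ A ^ 2) (hA : 0 ≤ A) :
    ‖y‖ ≤ A := by
  rw [pi_norm_le_iff_of_nonneg hA]
  intro i
  rw [Real.norm_eq_abs]
  apply abs_le_of_sq_le_sq _ hA
  exact (Finset.single_le_sum (f := fun j => y j ^ 2) (fun j _ => sq_nonneg _)
    (Finset.mem_univ i)).trans h

theorem isCompact_KB : IsCompact (KB n) := by
  apply Metric.isCompact_of_isClosed_isBounded
  · exact isClosed_le (continuous_sqs continuous_id) continuous_const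
  · rw [isBounded_iff_forall_norm_le]
    refine ⟨1, fun y hy => norm_le_of_sq ?_ (by norm_num)⟩
    rw [one_pow]
    exact hy

theorem zero_mem_KB : (0 : Fin n → ℝ) ∈ KB n := by
  unfold KB
  simp

theorem hh_nonneg {x : Fin n → ℝ} (hx : x ∈ KB n) : 0 ≤ hh x := by
  unfold hh
  have : ∑ j, x j ^ 2 ≤ 1 := hx
  exact mul_nonneg (sq_nonneg _) (by linarith)

theorem FF_nonneg (S : Sys) (V : ℕ → ℝ) : 0 ≤ FF S V := by
  unfold FF
  apply List.sum_nonneg
  intro a ha
  rw [List.mem_map] at ha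
  obtain ⟨l, -, rfl⟩ := ha
  exact sq_nonneg _

theorem one_le_WW (y : Fin n → ℝ) : 1 ≤ WW y := by
  unfold WW
  have : 0 ≤ ∑ j, y j ^ 2 := Finset.sum_nonneg fun j _ => sq_nonneg _
  linarith

theorem Psi_ge {S : Sys} {k : ℕ} {x y : Fin n → ℝ} {ρ : ℝ} (hx : x ∈ KB n) :
    ρ * WW y ^ k ≤ Psi S k x y ρ := by
  unfold Psi
  have := mul_nonneg (hh_nonneg hx) (FF_nonneg S (vg 1 x y))
  linarith

theorem Psi_ge' {S : Sys} {k : ℕ} {x y : Fin n → ℝ} {ρ : ℝ} (hx : x ∈ KB n) (hρ : 0 ≤ ρ) :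
    ρ ≤ Psi S k x y ρ := by
  refine le_trans ?_ (Psi_ge hx)
  have : 1 ≤ WW y ^ k := one_le_pow₀ (one_le_WW y)
  nlinarith

/-! ### The perturbed problem -/

/-- The perturbed objective. -/
noncomputable def Pw {U : ℕ} (S : Sys) (k : ℕ) (w : AA n U ⊕ Fin n → ℕ) (ρ s : ℝ)
    (x y : Fin n → ℝ) : ℝ :=
  Psi S k x y ρ + qth (fun a => s * w (Sum.inl a)) y + ∑ j, (s * w (Sum.inr j)) * x j

/-- The perturbation is bounded. -/
def Kbd {U : ℕ} (k : ℕ) (w : AA n U ⊕ Fin n → ℕ) (Kc : ℝ) : Prop :=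
  ∀ x ∈ KB n, ∀ y : Fin n → ℝ, |qth (fun a => (w (Sum.inl a) : ℝ)) y +
    ∑ j, (w (Sum.inr j) : ℝ) * x j| ≤ Kc * WW y ^ k

theorem Pw_eq {U : ℕ} (S : Sys) (k : ℕ) (w : AA n U ⊕ Fin n → ℕ) (ρ s : ℝ) (x y : Fin n → ℝ) :
    Pw S k w ρ s x y = Psi S k x y ρ + s * (qth (fun a => (w (Sum.inl a) : ℝ)) y +
      ∑ j, (w (Sum.inr j) : ℝ) * x j) := by
  unfold Pw qth
  rw [mul_add, Finset.mul_sum, Finset.mul_sum, ← add_assoc]
  congr 1
  · congr 1
    exact Finset.sum_congr rfl fun a _ => by ring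
  · exact Finset.sum_congr rfl fun a _ => by ring

theorem Pw_bounds {U : ℕ} {S : Sys} {k : ℕ} {w : AA n U ⊕ Fin n → ℕ} {ρ s Kc : ℝ}
    (hK : Kbd k w Kc) (hρ : 0 < ρ) (hs : 0 ≤ s) {x : Fin n → ℝ} (hx : x ∈ KB n)
    (y : Fin n → ℝ) : |Pw S k w ρ s x y - Psi S k x y ρ| ≤ (s * Kc / ρ) * Psi S k x y ρ := by
  rw [Pw_eq, add_sub_cancel_left, abs_mul, abs_of_nonneg hs]
  have h1 := hK x hx y
  have h2 : ρ * WW y ^ k ≤ Psi S k x y ρ := Psi_ge hx
  have h0 : 0 ≤ Kc := by
    have h3 := (abs_nonneg _).trans (hK x hx y)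
    have h4 : 0 < WW y ^ k := pow_pos (lt_of_lt_of_le one_pos (one_le_WW y)) _
    exact nonneg_of_mul_nonneg_left h3 h4
  calc s * |qth (fun a => (w (Sum.inl a) : ℝ)) y + ∑ j, (w (Sum.inr j) : ℝ) * x j|
      ≤ s * (Kc * WW y ^ k) := mul_le_mul_of_nonneg_left h1 hs
    _ = (s * Kc / ρ) * (ρ * WW y ^ k) := by field_simp
    _ ≤ (s * Kc / ρ) * Psi S k x y ρ := mul_le_mul_of_nonneg_left h2 (by positivity)

theorem norm_bound {k : ℕ} (hk : 1 ≤ k) {y : Fin n → ℝ} {A : ℝ} (h : WW y ^ k ≤ A) :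
    ‖y‖ ≤ A := by
  have h1 := one_le_WW y
  have h2 : WW y ≤ WW y ^ k := by
    calc WW y = WW y ^ 1 := (pow_one _).symm
      _ ≤ WW y ^ k := pow_le_pow_right₀ h1 hk
  have hA : 1 ≤ A := by linarith
  apply norm_le_of_sq _ (by linarith)
  have h3 : WW y = 1 + ∑ j, y j ^ 2 := rfl
  nlinarith

theorem Pw_coercive {U : ℕ} {S : Sys} {k : ℕ} (hk : 1 ≤ k) {w : AA n U ⊕ Fin n → ℕ}
    {ρ s Kc : ℝ} (hK : Kbd k w Kc) (hρ : 0 < ρ) (hs : 0 ≤ s) (hsK : s * Kc / ρ ≤ 1 / 2)
    {M : ℝ} {x : Fin n → ℝ} (hx : x ∈ KB n) {y : Fin n → ℝ} (h : Pw S k w ρ s x y ≤ M) :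
    ‖y‖ ≤ 2 * M / ρ := by
  apply norm_bound hk
  have h1 := (abs_le.1 (Pw_bounds (S := S) hK hρ hs hx y)).1
  have h2 : ρ * WW y ^ k ≤ Psi S k x y ρ := Psi_ge hx
  have h3 : 0 ≤ Psi S k x y ρ := hρ.le.trans (Psi_ge' hx hρ.le)
  rw [le_div_iff₀ hρ]
  nlinarith

theorem continuous_Pw {U : ℕ} (S : Sys) (k : ℕ) (w : AA n U ⊕ Fin n → ℕ) (ρ s : ℝ) :
    Continuous fun p : (Fin n → ℝ) × (Fin n → ℝ) => Pw S k w ρ s p.1 p.2 :=
  ((continuous_Psi continuous_fst continuous_snd continuous_const S k).add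
    (continuous_qth continuous_snd _)).add
    (continuous_finsetSum _ fun j _ => continuous_const.mul
      ((continuous_apply j).comp continuous_fst))

theorem exists_valw {U : ℕ} (S : Sys) {k : ℕ} (hk : 1 ≤ k) {w : AA n U ⊕ Fin n → ℕ}
    {ρ s Kc : ℝ} (hK : Kbd k w Kc) (hρ : 0 < ρ) (hs : 0 ≤ s) (hsK : s * Kc / ρ ≤ 1 / 2) :
    ∃ v, IsVal (KB n) (Pw S k w ρ s) v :=
  exists_val isCompact_KB ⟨0, zero_mem_KB⟩ _ (continuous_Pw S k w ρ s) fun M =>
    ⟨2 * M / ρ, fun _ hx _ hy => Pw_coercive hk hK hρ hs hsK hx hy⟩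

theorem Pw_zero {U : ℕ} (S : Sys) (k : ℕ) (w : AA n U ⊕ Fin n → ℕ) (ρ : ℝ) (x y : Fin n → ℝ) :
    Pw S k w ρ 0 x y = Psi S k x y ρ := by
  rw [Pw_eq, zero_mul, add_zero]

/-- The critical points. -/
theorem exists_crit {U : ℕ} (hn : 0 < n) (hU : (n + 1) * (n + 1) * n < U) {S : Sys} {k : ℕ}
    (hk : 1 ≤ k) {w : AA n U ⊕ Fin n → ℕ} {ρ s Kc : ℝ} (hK : Kbd k w Kc) (hρ : 0 < ρ)
    (hs : 0 ≤ s) (hsK : s * Kc / ρ ≤ 1 / 2) {v : ℝ} (hv : IsVal (KB n) (Pw S k w ρ s) v)
    (hv2 : ρ + s * Kc < v) :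
    ∃ (r : Fin (n + 1)) (u : Fin U) (x : Fin n → ℝ) (Y : Fin ((r : ℕ) + 1) → Fin n → ℝ)
      (la : Fin ((r : ℕ) + 1) → ℝ), (∑ j, x j ^ 2 < 1) ∧ (∀ y, v ≤ Pw S k w ρ s x y) ∧
      Crit S k r (fun a => s * w (Sum.inl a)) (fun j => s * w (Sum.inr j)) ρ x Y la v ∧
      (jmat (r : ℕ) (u : ℕ) Y).det ≠ 0 := by
  obtain ⟨⟨x, hx, hmin⟩, hmax⟩ := hv
  have hx1 : ∑ j, x j ^ 2 < 1 := by
    rcases (show ∑ j, x j ^ 2 ≤ 1 from hx).lt_or_eq with h | h
    · exact h
    · exfalso
      have h1 := hmin 0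
      rw [Pw_eq] at h1
      have h2 : Psi S k x 0 ρ = ρ := by
        unfold Psi hh WW
        rw [h]
        simp
      have h3 := (abs_le.1 (hK x hx 0)).2
      have h4 : WW (0 : Fin n → ℝ) = 1 := by simp [WW]
      rw [h4, one_pow, mul_one] at h3
      have h5 := mul_le_mul_of_nonneg_left h3 hs
      linarith
  -- a neighbourhood
  have hopen : IsOpen {x : Fin n → ℝ | ∑ j, x j ^ 2 < 1} :=
    isOpen_lt (continuous_sqs continuous_id) continuous_const
  obtain ⟨τ0, hτ0, hball⟩ := Metric.isOpen_iff.1 hopen x hx1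
  have hnear : ∀ x', ‖x' - x‖ ≤ τ0 / 2 → x' ∈ KB n := by
    intro x' h
    have h1 : x' ∈ Metric.ball x τ0 := by
      rw [Metric.mem_ball, dist_eq_norm]
      linarith
    have h2 : ∑ j, x' j ^ 2 < 1 := hball h1
    exact h2.le
  let D : (Fin n → ℝ) → (Fin n → ℝ) → (Fin n → ℝ) := fun x y j =>
    dxP S x y j + s * w (Sum.inr j)
  have hDc : Continuous (fun p : (Fin n → ℝ) × (Fin n → ℝ) => D p.1 p.2) :=
    continuous_pi fun j => (continuous_dxP continuous_fst continuous_snd S j).add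
      continuous_const
  have hD : ∀ x v y (t : ℝ), HasDerivAt (fun t : ℝ => Pw S k w ρ s (x + t • v) y)
      (∑ j, v j * D (x + t • v) y j) t := by
    intro x v y t
    have h1 := hasDerivAt_Psi_x S k x v y ρ t
    have h2 : HasDerivAt (fun t : ℝ => ∑ j, (s * w (Sum.inr j)) * (x + t • v) j)
        (∑ j, (s * w (Sum.inr j)) * v j) t := by
      apply HasDerivAt.fun_sum
      intro j _
      apply HasDerivAt.const_mul
      simp only [Pi.add_apply, Pi.smul_apply, smul_eq_mul]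
      exact hasDerivAt_lin _ _ _
    have h3 := (h1.add_const (qth (fun a => s * (w (Sum.inl a) : ℝ)) y)).add h2
    refine h3.congr_deriv ?_
    rw [← Finset.sum_add_distrib]
    exact Finset.sum_congr rfl fun j _ => by simp only [D]; ring
  obtain ⟨r, hr, Y, la, hYinj, hYv, hla, hdx⟩ := kkt (Pw S k w ρ s) D
    (continuous_Pw S k w ρ s) hDc hD x v hmin (τ0 / 2) (by positivity)
    (fun x' h => hmax x' (hnear x' h)) (2 * v / ρ)
    (fun x' h y hy => Pw_coercive hk hK hρ hs hsK (hnear x' h) hy)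
  have hU' : (r + 1) * (r + 1) * n < U := by
    refine lt_of_le_of_lt ?_ hU
    apply Nat.mul_le_mul_right
    exact Nat.mul_le_mul (by omega) (by omega)
  obtain ⟨u, hu, hinj⟩ := exists_dir Y hYinj hU'
  refine ⟨⟨r, by omega⟩, ⟨u, hu⟩, x, Y, la, hx1, hmin, ⟨fun i => ?_, fun i q => ?_, fun j => ?_,
    hla⟩, jmat_det hn r u Y hinj⟩
  · exact hYv i
  · -- the derivative vanishes
    have h1 := hasDerivAt_Psi_y S k x (Y i) ρ q
    have h2 : HasDerivAt (fun t : ℝ => qth (fun a => s * (w (Sum.inl a) : ℝ))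
        (Y i + t • (Pi.single q (1 : ℝ) : Fin n → ℝ)))
        (dqth (fun a => s * (w (Sum.inl a) : ℝ)) (Y i) q) 0 := by
      unfold qth dqth
      apply HasDerivAt.fun_sum
      intro a _
      apply HasDerivAt.const_mul
      exact hasDerivAt_bf _ _ _ _ _ _
    have h3 := (h1.add h2).add_const (∑ j, (s * w (Sum.inr j)) * x j)
    have hloc : IsLocalMin ((fun t : ℝ => Psi S k x (Y i + t • (Pi.single q (1 : ℝ) :
        Fin n → ℝ)) ρ) + (fun t : ℝ => qth (fun a => s * (w (Sum.inl a) : ℝ))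
        (Y i + t • (Pi.single q (1 : ℝ) : Fin n → ℝ))) + fun _ =>
        (∑ j, (s * w (Sum.inr j)) * x j)) 0 := by
      apply Filter.Eventually.of_forall
      intro t
      have e1 := hmin (Y i + t • (Pi.single q (1 : ℝ) : Fin n → ℝ))
      rw [← hYv i] at e1
      simpa [Pw] using e1
    exact hloc.hasDerivAt_eq_zero h3
  · have h1 := hdx j
    simp only [D, mul_add, Finset.sum_add_distrib] at h1
    rw [← Finset.sum_mul, hla, one_mul] at h1
    exact h1

end Pool.Agent.TH662.IP
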