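import Mathlib
import Pool.Agent.TH662.IP.Val

/-!
# The gap theorem
-/

namespace Pool.Agent.TH662.IP

open Finset Filter Topology Pool.Agent.H612

/-- The constants. -/
noncomputable def cst (i : ℕ) : ℝ := (1 / 2) ^ (2 ^ i)

theorem cst_pos (i : ℕ) : 0 < cst i := by unfold cst; positivity

theorem cst_le_one (i : ℕ) : cst i ≤ 1 := by
  unfold cst
  exact pow_le_one₀ (by norm_num) (by norm_num)

theorem cst_succ (i : ℕ) : cst (i + 1) = cst i ^ 2 := by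
  unfold cst
  rw [← pow_mul, pow_succ]

theorem half_pow_le {a b : ℕ} (h : a ≤ b) : ((1 : ℝ) / 2) ^ b ≤ (1 / 2) ^ a :=
  pow_le_pow_of_le_one (by norm_num) (by norm_num) h

theorem two_pow_eq (a : ℕ) : (2 : ℝ) ^ a = ((1 / 2 : ℝ) ^ a)⁻¹ := by
  rw [one_div, inv_pow, inv_inv]

theorem cst_eq (i : ℕ) : cst i = (1 / 2) ^ (2 ^ i) := rfl

attribute [irreducible] cst

/-- Evaluation of polynomials in `T`, `ρ`. -/
noncomputable def E2 (T ρ : ℝ) : Polynomial (Polynomial ℤ) →+* ℝ :=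
  Polynomial.eval₂RingHom (Polynomial.eval₂RingHom (Int.castRingHom ℝ) T) ρ

/-- Evaluation of polynomials in `T`. -/
noncomputable def E1 (T : ℝ) : Polynomial ℤ →+* ℝ :=
  Polynomial.eval₂RingHom (Int.castRingHom ℝ) T

theorem abs_E1 (T : ℝ) (hT : |T| ≤ 2) (p : Polynomial ℤ) : |E1 T p| ≤ (wp RNorm.int).ν p := by
  refine abs_eval₂_le RNorm.int (Int.castRingHom ℝ) (fun a => ?_) T hT p
  change |((a : ℤ) : ℝ)| ≤ ((a.natAbs : ℕ) : ℝ)
  rw [← Int.cast_abs, Int.abs_eq_natAbs]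
  simp

theorem abs_E2 (T ρ : ℝ) (hT : |T| ≤ 2) (hρ : |ρ| ≤ 2) (p : Polynomial (Polynomial ℤ)) :
    |E2 T ρ p| ≤ (wp (wp RNorm.int)).ν p :=
  abs_eval₂_le _ _ (fun a => abs_E1 T hT a) ρ hρ p

section consts

variable {L : ℕ}

theorem lev1 (p : Polynomial ℤ) (hp : p ≠ 0) (hpn : (wp RNorm.int).ν p ≤ 2 ^ (2 ^ L)) :
    cst (L + 1) ^ (2 ^ L) * (1 / 2) ≤ |E1 (cst (L + 1)) p| := by
  refine poly_small fai_int (Int.castRingHom ℝ) (fun a => ?_) one_pos (fun c hc _ => ?_) p hp hpn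
    _ (cst_pos _) (cst_le_one _) ?_
  · change |((a : ℤ) : ℝ)| ≤ ((a.natAbs : ℕ) : ℝ)
    rw [← Int.cast_abs, Int.abs_eq_natAbs]
    simp
  · change (1 : ℝ) ≤ |((c : ℤ) : ℝ)|
    rw [← Int.cast_abs]
    exact_mod_cast Int.one_le_abs hc
  · simp only [cst_eq]
    rw [two_pow_eq, pow_succ 2 L, pow_mul, pow_two]
    have h1 : (0 : ℝ) < (1 / 2) ^ (2 ^ L) := by positivity
    have h2 : ((1 : ℝ) / 2) ^ (2 ^ L) ≤ 1 / 2 := by
      calc ((1 : ℝ) / 2) ^ (2 ^ L) ≤ (1 / 2) ^ 1 := half_pow_le Nat.one_le_two_pow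
        _ = 1 / 2 := pow_one _
    rw [mul_assoc, mul_inv_cancel₀ h1.ne', mul_one]
    linarith

theorem lev2 (hL : 1 ≤ L) (p : Polynomial (Polynomial ℤ)) (hp : p ≠ 0)
    (hpn : (wp (wp RNorm.int)).ν p ≤ 2 ^ (2 ^ L)) (ρ : ℝ) (hρ : 0 < ρ)
    (hρ2 : ρ ≤ cst (2 * L + 2)) :
    ρ ^ (2 ^ L) * (cst (L + 1) ^ (2 ^ L) * (1 / 2) / 2) ≤ |E2 (cst (L + 1)) ρ p| := by
  have hδ : |cst (L + 1)| ≤ 2 := by
    rw [abs_of_pos (cst_pos _)]
    linarith [cst_le_one (L + 1)]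
  refine poly_small fai_int.wp (E1 (cst (L + 1))) (fun a => abs_E1 _ hδ a) ?_
    (fun c hc hcn => lev1 c hc hcn) p hp hpn ρ hρ (hρ2.trans (cst_le_one _)) ?_
  · have := cst_pos (L + 1)
    positivity
  · set l := 2 ^ L with hl
    have hl2 : 2 ≤ l := by
      calc 2 = 2 ^ 1 := (pow_one 2).symm
        _ ≤ 2 ^ L := Nat.pow_le_pow_right (by norm_num) hL
    have e1 : cst (2 * L + 2) = (1 / 2) ^ (4 * (l * l)) := by
      simp only [cst_eq]
      congr 1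
      rw [hl, pow_add, two_mul, pow_add]
      ring
    have e2 : cst (L + 1) ^ l = (1 / 2) ^ (2 * (l * l)) := by
      simp only [cst_eq]
      rw [← pow_mul]
      congr 1
      rw [pow_succ, ← hl]
      ring
    rw [e2]
    have h1 : (0 : ℝ) < (1 / 2) ^ l := by positivity
    calc 2 * (ρ * 2 ^ l) ≤ 2 * ((1 / 2) ^ (4 * (l * l)) * 2 ^ l) := by
          rw [← e1]
          apply mul_le_mul_of_nonneg_left _ (by norm_num)
          exact mul_le_mul_of_nonneg_right hρ2 (by positivity)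
      _ ≤ 2 * ((1 / 2) ^ (l + (2 * (l * l) + 2)) * 2 ^ l) := by
        apply mul_le_mul_of_nonneg_left _ (by norm_num)
        apply mul_le_mul_of_nonneg_right _ (by positivity)
        apply half_pow_le
        nlinarith
      _ = (1 / 2) ^ (2 * (l * l)) * (1 / 2) := by
        rw [two_pow_eq, pow_add, pow_add]
        field_simp

theorem lev3 (hL : 1 ≤ L) (p : R3) (hp : p ≠ 0) (hpn : n3.ν p ≤ 2 ^ (2 ^ L)) :
    E3 (cst (L + 1)) (cst (2 * L + 2)) (cst (3 * L + 4)) p ≠ 0 := by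
  have hδ : |cst (L + 1)| ≤ 2 := by
    rw [abs_of_pos (cst_pos _)]
    linarith [cst_le_one (L + 1)]
  have hρ : |cst (2 * L + 2)| ≤ 2 := by
    rw [abs_of_pos (cst_pos _)]
    linarith [cst_le_one (2 * L + 2)]
  have p1 := cst_pos (L + 1)
  have p2 := cst_pos (2 * L + 2)
  have p3 := cst_pos (3 * L + 4)
  have key := poly_small (fai_int.wp).wp (E2 (cst (L + 1)) (cst (2 * L + 2)))
    (fun a => abs_E2 _ _ hδ hρ a) (l := 2 ^ L)
    (a := cst (2 * L + 2) ^ (2 ^ L) * (cst (L + 1) ^ (2 ^ L) * (1 / 2) / 2)) (by positivity)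
    (fun c hc hcn => lev2 hL c hc hcn _ p2 le_rfl) p hp hpn (cst (3 * L + 4)) p3
    (cst_le_one _) ?_
  · intro h0
    have h1 : (Polynomial.eval₂ (E2 (cst (L + 1)) (cst (2 * L + 2))) (cst (3 * L + 4)) p) = 0 :=
      h0
    rw [h1, abs_zero] at key
    have : 0 < cst (3 * L + 4) ^ (2 ^ L) *
      (cst (2 * L + 2) ^ (2 ^ L) * (cst (L + 1) ^ (2 ^ L) * (1 / 2) / 2) / 2) := by positivity
    linarith
  · set l := 2 ^ L with hl
    have hl2 : 2 ≤ l := by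
      calc 2 = 2 ^ 1 := (pow_one 2).symm
        _ ≤ 2 ^ L := Nat.pow_le_pow_right (by norm_num) hL
    have e0 : cst (3 * L + 4) = (1 / 2) ^ (16 * (l * l * l)) := by
      simp only [cst_eq]
      congr 1
      have : 3 * L + 4 = L + L + L + 4 := by ring
      rw [hl, this, pow_add, pow_add, pow_add]
      ring
    have e1 : cst (2 * L + 2) ^ l = (1 / 2) ^ (4 * (l * l * l)) := by
      simp only [cst_eq]
      rw [← pow_mul]
      congr 1
      have : 2 * L + 2 = L + L + 2 := by ring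
      rw [this, pow_add, pow_add, ← hl]
      ring
    have e2 : cst (L + 1) ^ l = (1 / 2) ^ (2 * (l * l)) := by
      simp only [cst_eq]
      rw [← pow_mul]
      congr 1
      rw [pow_succ, ← hl]
      ring
    rw [e0, e1, e2]
    calc (2 : ℝ) * ((1 / 2) ^ (16 * (l * l * l)) * 2 ^ l)
        ≤ 2 * ((1 / 2) ^ (l + (4 * (l * l * l) + 2 * (l * l) + 3)) * 2 ^ l) := by
          apply mul_le_mul_of_nonneg_left _ (by norm_num)
          apply mul_le_mul_of_nonneg_right _ (by positivity)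
          apply half_pow_le
          have h3 : 2 * (l * l) ≤ l * l * l := Nat.mul_le_mul_right _ (Nat.mul_le_mul_right _ hl2) |>.trans' (by nlinarith)
          have h4 : 2 * l ≤ l * l := Nat.mul_le_mul_right _ hl2
          omega
      _ = (1 / 2) ^ (4 * (l * l * l)) * ((1 / 2) ^ (2 * (l * l)) * (1 / 2) / 2) := by
        rw [two_pow_eq, pow_add, pow_add, pow_add]
        have h1 : ((1 : ℝ) / 2) ^ l ≠ 0 := by positivity
        field_simp

end consts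

/-! ### Limits -/

theorem trail {R : Type} [CommRing R] (Q : Polynomial R) (ψ : ℝ → R →+* ℝ) (ψ0 : R →+* ℝ)
    (hψ : ∀ c, Tendsto (fun s => ψ s c) (𝓝[>] 0) (𝓝 (ψ0 c)))
    (hev : ∀ᶠ s in 𝓝[>] (0 : ℝ), Q.eval₂ (ψ s) s = 0) : ψ0 Q.trailingCoeff = 0 := by
  by_cases hQ : Q = 0
  · rw [hQ]
    simp
  set i0 := Q.natTrailingDegree with hi0
  have hid : Tendsto (fun s : ℝ => s) (𝓝[>] 0) (𝓝 0) := tendsto_id.mono_left nhdsWithin_le_nhds
  have h1 : Tendsto (fun s : ℝ => ∑ i ∈ Q.support, ψ s (Q.coeff i) * s ^ (i - i0)) (𝓝[>] 0)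
      (𝓝 (∑ i ∈ Q.support, ψ0 (Q.coeff i) * 0 ^ (i - i0))) := by
    apply tendsto_finsetSum
    intro i _
    exact (hψ _).mul (hid.pow _)
  have h2 : ∑ i ∈ Q.support, ψ0 (Q.coeff i) * (0 : ℝ) ^ (i - i0) = ψ0 Q.trailingCoeff := by
    rw [Finset.sum_eq_single i0]
    · rw [Nat.sub_self, pow_zero, mul_one]
      rfl
    · intro i hi hne
      have h3 : i0 ≤ i := Polynomial.natTrailingDegree_le_of_mem_supp i hi
      rw [zero_pow (by omega), mul_zero]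
    · intro h
      exact absurd (Polynomial.natTrailingDegree_mem_support_of_nonzero hQ) h
  rw [h2] at h1
  have h4 : Tendsto (fun s : ℝ => ∑ i ∈ Q.support, ψ s (Q.coeff i) * s ^ (i - i0)) (𝓝[>] 0)
      (𝓝 0) := by
    refine (tendsto_const_nhds (x := (0 : ℝ))).congr' ?_
    filter_upwards [hev, self_mem_nhdsWithin] with s hs hs0
    have hs0' : (0 : ℝ) < s := hs0
    rw [Polynomial.eval₂_eq_sum, Polynomial.sum_def] at hs
    have h5 : s ^ i0 * ∑ i ∈ Q.support, ψ s (Q.coeff i) * s ^ (i - i0) = 0 := by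
      rw [← hs, Finset.mul_sum]
      refine Finset.sum_congr rfl fun i hi => ?_
      have h3 : i0 ≤ i := Polynomial.natTrailingDegree_le_of_mem_supp i hi
      have h6 : s ^ i = s ^ i0 * s ^ (i - i0) := by
        rw [← pow_add]
        congr 1
        omega
      rw [h6]
      ring
    have h7 : s ^ i0 ≠ 0 := pow_ne_zero _ hs0'.ne'
    exact ((mul_eq_zero.1 h5).resolve_left h7).symm
  exact tendsto_nhds_unique h1 h4

theorem continuous_E1 (p : Polynomial ℤ) : Continuous fun T => E1 T p := by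
  unfold E1
  simp only [Polynomial.coe_eval₂RingHom, Polynomial.eval₂_eq_sum_range]
  fun_prop

theorem continuous_E2 (ρ : ℝ) (p : Polynomial (Polynomial ℤ)) :
    Continuous fun T => E2 T ρ p := by
  unfold E2
  simp only [Polynomial.coe_eval₂RingHom]
  have : (fun T => Polynomial.eval₂ (Polynomial.eval₂RingHom (Int.castRingHom ℝ) T) ρ p) =
      fun T => ∑ i ∈ range (p.natDegree + 1), E1 T (p.coeff i) * ρ ^ i := by
    funext T
    rw [Polynomial.eval₂_eq_sum_range]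
    rfl
  rw [this]
  exact continuous_finsetSum _ fun i _ => (continuous_E1 _).mul continuous_const

section gap

variable {n U k M : ℕ} {S : Sys}

/-- The direction and the algebraic relation. -/
structure Pkg (n U k M : ℕ) (S : Sys) (w : AA n U ⊕ Fin n → ℕ) (Q : R3) : Prop where
  ne : Q ≠ 0
  nn : n3.ν Q ≤ 2 ^ (2 ^ (M ^ 12))
  rel : ∀ (r : Fin (n + 1)) (u : Fin U) (κ : SS n U), ∃ p : ℝ → ℝ → Polynomial ℝ,
    (∀ T ρ s, E3 T ρ s Q ≠ 0 → (p ρ s).eval T ≠ 0) ∧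
    ∀ (ρ s : ℝ) (x : Fin n → ℝ) (Y : Fin ((r : ℕ) + 1) → Fin n → ℝ)
      (la : Fin ((r : ℕ) + 1) → ℝ) (t : ℝ),
      Crit S k r (fun a => s * w (Sum.inl a)) (fun j => s * w (Sum.inr j)) ρ x Y la t →
      (jmat (r : ℕ) (u : ℕ) Y).det ≠ 0 →
      (p ρ s).eval (zvec r u (fun a => s * w (Sum.inl a)) ρ x Y la t κ) = 0

/-- The general assumptions. -/
structure Hyp (n U k M : ℕ) (S : Sys) : Prop where
  hB : Bd n U k S M
  hn : 0 < n
  hU : (n + 1) * (n + 1) * n < U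
  hk : 2 * n + 3 ≤ k

variable {w : AA n U ⊕ Fin n → ℕ} {Q : R3} {Kc : ℝ}

theorem Hyp.k1 (h : Hyp n U k M S) : 1 ≤ k := by
  have := h.hk
  omega

theorem Hyp.M64 (h : Hyp n U k M S) : 64 ≤ M := h.hB.M64

/-- The value of the perturbed problem satisfies the relation. -/
theorem rel_val (h : Hyp n U k M S) (hQ : Pkg n U k M S w Q) (hK : Kbd k w Kc) {ρ s v : ℝ}
    (hρ : 0 < ρ) (hs : 0 ≤ s) (hsK : s * Kc / ρ ≤ 1 / 2)
    (hv : IsVal (KB n) (Pw S k w ρ s) v) (hv2 : ρ + s * Kc < v) : E3 v ρ s Q = 0 := by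
  obtain ⟨r, u, x, Y, la, -, -, hc, hd⟩ := exists_crit h.hn h.hU h.k1 hK hρ hs hsK hv hv2
  obtain ⟨p, hp1, hp2⟩ := hQ.rel r u (Sum.inl (r, u, r, 0))
  by_contra hne
  apply hp1 v ρ s hne
  have h1 := hp2 ρ s x Y la v hc hd
  have h2 : zvec r u (fun a => s * (w (Sum.inl a) : ℝ)) ρ x Y la v (Sum.inl (r, u, r, 0)) = v := by
    have h3 : tO (zvec r u (fun a => s * (w (Sum.inl a) : ℝ)) ρ x Y la v) r u = v := tO_zvec
    have h4 : em r (Fin.last _) = r := by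
      apply Fin.ext
      rfl
    unfold tO zO at h3
    rwa [h4] at h3
  rwa [h2] at h1

theorem val_le (hK : Kbd k w Kc) {ρ s v V : ℝ} (hρ : 0 < ρ) (hs : 0 ≤ s)
    (hK0 : 0 ≤ Kc) (hv : IsVal (KB n) (Pw S k w ρ s) v) (hV : IsVal (KB n)
      (fun x y => Psi S k x y ρ) V) : v ≤ (1 + s * Kc / ρ) * V := by
  refine hv.le hV (by positivity) fun x hx y => ?_
  have := (abs_le.1 (Pw_bounds (S := S) hK hρ hs hx y)).2
  linarith

theorem val_ge (hK : Kbd k w Kc) {ρ s v V : ℝ} (hρ : 0 < ρ) (hs : 0 ≤ s)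
    (hsK : s * Kc / ρ ≤ 1 / 2) (hv : IsVal (KB n) (Pw S k w ρ s) v)
    (hV : IsVal (KB n) (fun x y => Psi S k x y ρ) V) : (1 - s * Kc / ρ) * V ≤ v := by
  have h0 : 0 < 1 - s * Kc / ρ := by linarith
  have := hV.le hv (c := (1 - s * Kc / ρ)⁻¹) (by positivity) fun x hx y => by
    have h1 := (abs_le.1 (Pw_bounds (S := S) hK hρ hs hx y)).1
    rw [inv_mul_eq_div, le_div_iff₀ h0]
    linarith
  rwa [inv_mul_eq_div, le_div_iff₀ h0, mul_comm] at this

/-- The relation for the value of the unperturbed problem. -/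
theorem rel_val0 (h : Hyp n U k M S) (hQ : Pkg n U k M S w Q) (hK : Kbd k w Kc) (hK0 : 0 ≤ Kc)
    {ρ V : ℝ} (hρ : 0 < ρ) (hV : IsVal (KB n) (fun x y => Psi S k x y ρ) V) (hV2 : ρ < V) :
    E2 V ρ Q.trailingCoeff = 0 := by
  have hex : ∀ s : ℝ, ∃ v, 0 < s → s * Kc / ρ ≤ 1 / 2 → IsVal (KB n) (Pw S k w ρ s) v := by
    intro s
    by_cases h1 : 0 < s ∧ s * Kc / ρ ≤ 1 / 2
    · obtain ⟨v, hv⟩ := exists_valw S h.k1 hK hρ h1.1.le h1.2
      exact ⟨v, fun _ _ => hv⟩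
    · exact ⟨0, fun h2 h3 => absurd ⟨h2, h3⟩ h1⟩
  choose v hv using hex
  have hid : Tendsto (fun s : ℝ => s) (𝓝[>] 0) (𝓝 0) := tendsto_id.mono_left nhdsWithin_le_nhds
  have hsK : Tendsto (fun s : ℝ => s * Kc / ρ) (𝓝[>] 0) (𝓝 0) := by
    have := (hid.mul_const Kc).div_const ρ
    simpa using this
  have hev1 : ∀ᶠ s in 𝓝[>] (0 : ℝ), s * Kc / ρ ≤ 1 / 2 :=
    (hsK.eventually (gt_mem_nhds (by norm_num : (0 : ℝ) < 1 / 2))).mono fun s hs => hs.le
  have hlim : Tendsto v (𝓝[>] 0) (𝓝 V) := by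
    have h1 : Tendsto (fun s : ℝ => (1 - s * Kc / ρ) * V) (𝓝[>] 0) (𝓝 V) := by
      have := (hsK.const_sub 1).mul_const V
      simpa using this
    have h2 : Tendsto (fun s : ℝ => (1 + s * Kc / ρ) * V) (𝓝[>] 0) (𝓝 V) := by
      have := (hsK.const_add 1).mul_const V
      simpa using this
    refine tendsto_of_tendsto_of_tendsto_of_le_of_le' h1 h2 ?_ ?_
    · filter_upwards [hev1, self_mem_nhdsWithin] with s hs hs0
      exact val_ge hK hρ (le_of_lt hs0) hs (hv s hs0 hs) hV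
    · filter_upwards [hev1, self_mem_nhdsWithin] with s hs hs0
      exact val_le hK hρ (le_of_lt hs0) hK0 (hv s hs0 hs) hV
  refine trail Q (fun s => E2 (v s) ρ) (E2 V ρ) (fun c => ?_) ?_
  · exact ((continuous_E2 ρ c).tendsto V).comp hlim
  · have h3 : Tendsto (fun s : ℝ => v s - s * Kc) (𝓝[>] 0) (𝓝 V) := by
      have := hlim.sub (hid.mul_const Kc)
      simpa using this
    filter_upwards [hev1, self_mem_nhdsWithin, h3.eventually (lt_mem_nhds hV2)] with s hs hs0 hs1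
    exact rel_val h hQ hK hρ (le_of_lt hs0) hs (hv s hs0 hs) (by linarith)

/-- The sentence is true. -/
def HX (n : ℕ) (S : Sys) : Prop :=
  ∃ x ∈ KB n, 0 < hh x ∧ ∃ c : ℝ, 0 < c ∧ ∀ y : Fin n → ℝ, c ≤ FF S (vg 1 x y)

/-- The sentence is false. -/
def HN (n : ℕ) (S : Sys) : Prop :=
  ∀ x ∈ KB n, 0 < hh x → ∃ y : Fin n → ℝ, FF S (vg 1 x y) = 0

theorem exists_val0 (S : Sys) {k : ℕ} (hk : 1 ≤ k) {ρ : ℝ} (hρ : 0 < ρ) :
    ∃ V, IsVal (KB n) (fun x y => Psi S k x y ρ) V := by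
  have hK : Kbd k (fun _ : AA n 0 ⊕ Fin n => 0) 0 := by
    intro x _ y
    simp [qth]
  obtain ⟨v, hv⟩ := exists_valw S hk hK hρ (le_refl (0 : ℝ)) (by norm_num)
  refine ⟨v, ?_⟩
  have : Pw S k (fun _ : AA n 0 ⊕ Fin n => 0) ρ 0 = fun x y => Psi S k x y ρ := by
    funext x y
    exact Pw_zero S k _ ρ x y
  rwa [this] at hv

theorem val_mono {ρ ρ' V V' : ℝ} (hρ : ρ ≤ ρ')
    (hV : IsVal (KB n) (fun x y => Psi S k x y ρ) V)
    (hV' : IsVal (KB n) (fun x y => Psi S k x y ρ') V') : V ≤ V' := by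
  have := hV.le hV' (c := 1) (by norm_num) fun x _ y => by
    rw [one_mul]
    unfold Psi
    have h1 : 0 < WW y ^ k := pow_pos (lt_of_lt_of_le one_pos (one_le_WW y)) _
    nlinarith
  rwa [one_mul] at this

theorem val_scale {ρ ρ' V V' : ℝ} (h0 : 0 < ρ) (hρ : ρ ≤ ρ')
    (hV : IsVal (KB n) (fun x y => Psi S k x y ρ) V)
    (hV' : IsVal (KB n) (fun x y => Psi S k x y ρ') V') : V' ≤ (ρ' / ρ) * V := by
  refine hV'.le hV (div_nonneg (h0.le.trans hρ) h0.le) fun x hx y => ?_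
  have h1 : 0 < WW y ^ k := pow_pos (lt_of_lt_of_le one_pos (one_le_WW y)) _
  have h2 := mul_nonneg (hh_nonneg hx) (FF_nonneg S (vg 1 x y))
  have h3 : 1 ≤ ρ' / ρ := by rwa [one_le_div h0]
  unfold Psi
  have h4 : ρ' / ρ * (ρ * WW y ^ k) = ρ' * WW y ^ k := by field_simp
  nlinarith

theorem rho_le_val {ρ V : ℝ} (hρ : 0 < ρ) (hV : IsVal (KB n) (fun x y => Psi S k x y ρ) V) :
    ρ ≤ V := by
  obtain ⟨y, hy⟩ := hV.2 0 zero_mem_KB
  exact (Psi_ge' zero_mem_KB hρ.le).trans hy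

/-- The value is bounded from below, if the sentence is true. -/
theorem gap_true (h : Hyp n U k M S) (hQ : Pkg n U k M S w Q) (hK : Kbd k w Kc) (hK0 : 0 ≤ Kc)
    (hX : HX n S) {ρ V : ℝ} (hρ : 0 < ρ) (hV : IsVal (KB n) (fun x y => Psi S k x y ρ) V) :
    2 * cst (M ^ 12 + 1) ≤ V := by
  obtain ⟨x0, hx0, hh0, c, hc, hF⟩ := hX
  have hex : ∀ ρ : ℝ, ∃ V, 0 < ρ → IsVal (KB n) (fun x y => Psi S k x y ρ) V := by
    intro ρ
    by_cases h1 : 0 < ρ
    · obtain ⟨v, hv⟩ := exists_val0 (n := n) S h.k1 h1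
      exact ⟨v, fun _ => hv⟩
    · exact ⟨0, fun h2 => absurd h2 h1⟩
  choose W hW using hex
  have hlow : ∀ ρ, 0 < ρ → hh x0 * c ≤ W ρ := by
    intro ρ hρ
    obtain ⟨y, hy⟩ := (hW ρ hρ).2 x0 hx0
    refine le_trans ?_ hy
    have h1 : 0 < WW y ^ k := pow_pos (lt_of_lt_of_le one_pos (one_le_WW y)) _
    have h2 := mul_le_mul_of_nonneg_left (hF y) hh0.le
    simp only [Psi]
    nlinarith [mul_pos hρ h1]
  -- the limit
  set Winf := sInf (W '' Set.Ioi 0) with hWinf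
  have hbdd : BddBelow (W '' Set.Ioi 0) := ⟨hh x0 * c, by
    rintro _ ⟨ρ, hρ, rfl⟩
    exact hlow ρ hρ⟩
  have hne : (W '' Set.Ioi 0).Nonempty := ⟨W 1, 1, Set.mem_Ioi.2 one_pos, rfl⟩
  have hinf_le : ∀ ρ, 0 < ρ → Winf ≤ W ρ := fun ρ hρ => csInf_le hbdd ⟨ρ, hρ, rfl⟩
  have hWpos : hh x0 * c ≤ Winf := le_csInf hne (by
    rintro _ ⟨ρ, hρ, rfl⟩
    exact hlow ρ hρ)
  have hc0 : 0 < hh x0 * c := mul_pos hh0 hc
  have hlim : Tendsto W (𝓝[>] 0) (𝓝 Winf) := by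
    rw [tendsto_order]
    constructor
    · intro a ha
      filter_upwards [self_mem_nhdsWithin] with ρ hρ
      exact lt_of_lt_of_le ha (hinf_le ρ hρ)
    · intro a ha
      obtain ⟨_, ⟨ρ1, hρ1, rfl⟩, h2⟩ := exists_lt_of_csInf_lt hne ha
      filter_upwards [Ioc_mem_nhdsGT (show (0 : ℝ) < ρ1 from hρ1)] with ρ hρ
      exact lt_of_le_of_lt (val_mono hρ.2 (hW ρ hρ.1) (hW ρ1 hρ1)) h2
  -- the relation
  set χ := Q.trailingCoeff with hχ
  have hχ0 : χ ≠ 0 := by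
    rw [hχ, Ne, Polynomial.trailingCoeff_eq_zero]
    exact hQ.ne
  have hχn : (wp (wp RNorm.int)).ν χ ≤ 2 ^ (2 ^ (M ^ 12)) := (wp_coeff_le _ Q _).trans hQ.nn
  have hrel : E1 Winf χ.trailingCoeff = 0 := by
    refine trail χ (fun ρ => E1 (W ρ)) (E1 Winf) (fun c => ?_) ?_
    · exact ((continuous_E1 c).tendsto Winf).comp hlim
    · filter_upwards [Ioo_mem_nhdsGT hc0] with ρ hρ
      exact rel_val0 h hQ hK hK0 hρ.1 (hW ρ hρ.1) (lt_of_lt_of_le hρ.2 (hlow ρ hρ.1))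
  have hP0 : χ.trailingCoeff ≠ 0 := by
    rw [Ne, Polynomial.trailingCoeff_eq_zero]
    exact hχ0
  have hPn : (wp RNorm.int).ν χ.trailingCoeff ≤ 2 ^ (2 ^ (M ^ 12)) :=
    (wp_coeff_le _ χ _).trans hχn
  have hPn' : RNorm.int.poly.ν χ.trailingCoeff ≤ 2 ^ (2 ^ (M ^ 12)) := by
    refine le_trans ?_ hPn
    exact wp_sum_le _ _
  have hWi : 0 < Winf := hc0.trans_le hWpos
  have h1 := root_lower χ.trailingCoeff hP0 Winf hWi.ne' hrel
  rw [abs_of_pos hWi] at h1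
  have h2 : (1 : ℝ) ≤ Winf * 2 ^ (2 ^ (M ^ 12)) := by
    refine h1.trans (mul_le_mul_of_nonneg_left ?_ hWi.le)
    exact_mod_cast hPn'
  have h3 : (1 / 2 : ℝ) ^ (2 ^ (M ^ 12)) ≤ Winf := by
    rw [two_pow_eq] at h2
    have h4 : (0 : ℝ) < (1 / 2) ^ (2 ^ (M ^ 12)) := by positivity
    rwa [← div_eq_mul_inv, one_le_div h4] at h2
  have h5 : 2 * cst (M ^ 12 + 1) ≤ (1 / 2 : ℝ) ^ (2 ^ (M ^ 12)) := by
    simp only [cst_eq]
    rw [pow_succ 2 (M ^ 12), pow_mul, pow_two]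
    have h1 : (0 : ℝ) < (1 / 2) ^ (2 ^ (M ^ 12)) := by positivity
    have h2 : ((1 : ℝ) / 2) ^ (2 ^ (M ^ 12)) ≤ 1 / 2 := by
      calc ((1 : ℝ) / 2) ^ (2 ^ (M ^ 12)) ≤ (1 / 2) ^ 1 := half_pow_le Nat.one_le_two_pow
        _ = 1 / 2 := pow_one _
    nlinarith
  have h6 : V = W ρ := le_antisymm (val_mono le_rfl hV (hW ρ hρ)) (val_mono le_rfl (hW ρ hρ) hV)
  rw [h6]
  exact h5.trans (h3.trans (hinf_le ρ hρ))

/-- The value is small, if the sentence is false. -/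
theorem gap_false (h : Hyp n U k M S) (hQ : Pkg n U k M S w Q) (hK : Kbd k w Kc) (hK0 : 0 ≤ Kc)
    (hN : HN n S) {V : ℝ}
    (hV : IsVal (KB n) (fun x y => Psi S k x y (cst (2 * M ^ 12 + 2))) V) :
    V < cst (M ^ 12 + 1) := by
  by_contra hcon
  push Not at hcon
  have hex : ∀ ρ : ℝ, ∃ V, 0 < ρ → IsVal (KB n) (fun x y => Psi S k x y ρ) V := by
    intro ρ
    by_cases h1 : 0 < ρ
    · obtain ⟨v, hv⟩ := exists_val0 (n := n) S h.k1 h1
      exact ⟨v, fun _ => hv⟩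
    · exact ⟨0, fun h2 => absurd h2 h1⟩
  choose W hW using hex
  set δ := cst (M ^ 12 + 1) with hδ
  set ρs := cst (2 * M ^ 12 + 2) with hρs
  have hδ0 : 0 < δ := cst_pos _
  have hρ0 : 0 < ρs := cst_pos _
  have hVW : V = W ρs :=
    le_antisymm (val_mono le_rfl hV (hW ρs hρ0)) (val_mono le_rfl (hW ρs hρ0) hV)
  -- small values for small parameters
  have hsmall : ∃ ρ1, 0 < ρ1 ∧ ρ1 ≤ ρs ∧ W ρ1 < δ := by
    by_contra hno
    push Not at hno
    have hseq : ∀ m : ℕ, ∃ x ∈ KB n, ∀ y, δ ≤ Psi S k x y (ρs / (m + 1)) := by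
      intro m
      have h1 : 0 < ρs / ((m : ℝ) + 1) := by positivity
      have h2 : ρs / ((m : ℝ) + 1) ≤ ρs := by
        apply div_le_self hρ0.le
        have : (0 : ℝ) ≤ m := Nat.cast_nonneg m
        linarith
      obtain ⟨x, hx, h3⟩ := (hW _ h1).1
      exact ⟨x, hx, fun y => (hno _ h1 h2).trans (h3 y)⟩
    choose xs hxs hxy using hseq
    obtain ⟨x, hx, φ, hφ, hlim⟩ := isCompact_KB.tendsto_subseq hxs
    have hρlim : Tendsto (fun m : ℕ => ρs / ((φ m : ℝ) + 1)) atTop (𝓝 0) := by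
      have h5 : Tendsto (fun k : ℕ => 1 / ((k : ℝ) + 1)) atTop (𝓝 0) :=
        tendsto_one_div_add_atTop_nhds_zero_nat
      have h6 := (h5.comp hφ.tendsto_atTop).const_mul ρs
      rw [mul_zero] at h6
      refine h6.congr fun m => ?_
      simp only [Function.comp]
      ring
    have hfin : ∀ y, δ ≤ hh x * FF S (vg 1 x y) := by
      intro y
      have h7 : Continuous fun p : (Fin n → ℝ) × ℝ => Psi S k p.1 y p.2 :=
        continuous_Psi continuous_fst continuous_const continuous_snd S k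
      have hp : Tendsto (fun m => (xs (φ m), ρs / ((φ m : ℝ) + 1))) atTop (𝓝 (x, (0 : ℝ))) :=
        hlim.prodMk_nhds hρlim
      have h8 := (h7.tendsto (x, (0 : ℝ))).comp hp
      have h9 : Psi S k x y 0 = hh x * FF S (vg 1 x y) := by
        unfold Psi
        ring
      rw [← h9]
      exact ge_of_tendsto' h8 fun m => hxy (φ m) y
    have hpos : 0 < hh x := by
      have h1 := hfin 0
      have h2 := FF_nonneg S (vg 1 x (0 : Fin n → ℝ))
      rcases (hh_nonneg hx).lt_or_eq with h3 | h3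
      · exact h3
      · rw [← h3, zero_mul] at h1
        linarith
    obtain ⟨y, hy⟩ := hN x hx hpos
    have h1 := hfin y
    rw [hy, mul_zero] at h1
    linarith
  obtain ⟨ρ1, hρ1, hρ1s, hW1⟩ := hsmall
  -- continuity
  have hcont : ContinuousOn W (Set.Icc ρ1 ρs) := by
    intro ρ hρ
    have hρp : 0 < ρ := lt_of_lt_of_le hρ1 hρ.1
    apply ContinuousAt.continuousWithinAt
    have hWρ : 0 < W ρ := lt_of_lt_of_le hρp (rho_le_val hρp (hW ρ hρp))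
    have hb : ∀ᶠ ρ' in 𝓝 ρ, (min (ρ' / ρ) 1) * W ρ ≤ W ρ' ∧ W ρ' ≤ (max (ρ' / ρ) 1) * W ρ := by
      filter_upwards [lt_mem_nhds hρp] with ρ' hρ'
      rcases le_total ρ ρ' with hle | hle
      · have h1 : 1 ≤ ρ' / ρ := by rwa [one_le_div hρp]
        rw [min_eq_right h1, max_eq_left h1, one_mul]
        exact ⟨val_mono hle (hW ρ hρp) (hW ρ' hρ'), val_scale hρp hle (hW ρ hρp) (hW ρ' hρ')⟩
      · have h1 : ρ' / ρ ≤ 1 := by rwa [div_le_one hρp]
        rw [min_eq_left h1, max_eq_right h1, one_mul]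
        refine ⟨?_, val_mono hle (hW ρ' hρ') (hW ρ hρp)⟩
        have h2 := val_scale hρ' hle (hW ρ' hρ') (hW ρ hρp)
        calc ρ' / ρ * W ρ ≤ ρ' / ρ * (ρ / ρ' * W ρ') :=
              mul_le_mul_of_nonneg_left h2 (by positivity)
          _ = W ρ' := by field_simp
    have h3 : Tendsto (fun ρ' : ℝ => ρ' / ρ) (𝓝 ρ) (𝓝 1) := by
      have := (tendsto_id (x := 𝓝 ρ)).div_const ρ
      simpa [div_self hρp.ne'] using this
    have h4 : Tendsto (fun ρ' : ℝ => (min (ρ' / ρ) 1) * W ρ) (𝓝 ρ) (𝓝 (W ρ)) := by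
      have := (h3.min (tendsto_const_nhds (x := (1 : ℝ)))).mul_const (W ρ)
      simpa using this
    have h5 : Tendsto (fun ρ' : ℝ => (max (ρ' / ρ) 1) * W ρ) (𝓝 ρ) (𝓝 (W ρ)) := by
      have := (h3.max (tendsto_const_nhds (x := (1 : ℝ)))).mul_const (W ρ)
      simpa using this
    exact tendsto_of_tendsto_of_tendsto_of_le_of_le' h4 h5 (hb.mono fun _ h => h.1)
      (hb.mono fun _ h => h.2)
  obtain ⟨ρ0, hρ0I, hρ0W⟩ := intermediate_value_Icc hρ1s hcont ⟨hW1.le, by rw [← hVW]; exact hcon⟩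
  have hρ0p : 0 < ρ0 := lt_of_lt_of_le hρ1 hρ0I.1
  -- the relation
  set χ := Q.trailingCoeff with hχ
  have hχ0 : χ ≠ 0 := by
    rw [hχ, Ne, Polynomial.trailingCoeff_eq_zero]
    exact hQ.ne
  have hχn : (wp (wp RNorm.int)).ν χ ≤ 2 ^ (2 ^ (M ^ 12)) := (wp_coeff_le _ Q _).trans hQ.nn
  have hL : 1 ≤ M ^ 12 := Nat.one_le_pow _ _ (by have := h.M64; omega)
  have h1 := lev2 hL χ hχ0 hχn ρ0 hρ0p hρ0I.2
  have hlt : ρs < δ := by
    rw [hρs, hδ]
    simp only [cst_eq]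
    apply pow_lt_pow_right_of_lt_one₀ (by norm_num) (by norm_num)
    apply Nat.pow_lt_pow_right (by norm_num)
    omega
  have h2 : E2 (W ρ0) ρ0 χ = 0 :=
    rel_val0 h hQ hK hK0 hρ0p (hW ρ0 hρ0p) (by rw [hρ0W]; exact lt_of_le_of_lt hρ0I.2 hlt)
  rw [hρ0W] at h2
  rw [← hδ, h2, abs_zero] at h1
  have : 0 < ρ0 ^ (2 ^ (M ^ 12)) * (δ ^ (2 ^ (M ^ 12)) * (1 / 2) / 2) := by positivity
  linarith

end gap

end Pool.Agent.TH662.IP
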