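import Mathlib
import Pool.Agent.H612.Gal
import Pool.Agent.TH662.IP.Rel

/-!
# The objective function as a term
-/

namespace Pool.Agent.TH662.IP

open Finset Pool.Agent.NPC Pool.Agent.NPC.ER Pool.Agent.NPC.H612

theorem list_sum_range (f : ℕ → ℝ) (n : ℕ) : ((List.range n).map f).sum = ∑ i : Fin n, f i := by
  rw [← Finset.sum_range]
  induction n with
  | zero => simp
  | succ n ih => rw [List.range_succ, List.map_append, List.sum_append, Finset.sum_range_succ, ih]; simp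

/-- Sum over an initial segment. -/
def sumR (n : ℕ) (f : ℕ → Tm) : Tm := sumT ((List.range n).map f)

theorem eval_sumR (v : ℕ → ℝ) (n : ℕ) (f : ℕ → Tm) :
    (sumR n f).eval v = ∑ i : Fin n, (f i).eval v := by
  unfold sumR
  rw [eval_sumT, List.map_map, ← list_sum_range (fun i => (f i).eval v)]
  rfl

/-- Powers. -/
def powT (B e : ℕ) (t : Tm) : Tm := prodT ((List.range (min e B)).map fun _ => t)

theorem eval_powT (v : ℕ → ℝ) {B e : ℕ} (h : e ≤ B) (t : Tm) :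
    (powT B e t).eval v = t.eval v ^ e := by
  unfold powT
  rw [eval_prodT, min_eq_left h, List.map_map]
  have : ∀ l : List ℕ, (l.map ((Tm.eval v) ∘ fun _ => t)).prod = t.eval v ^ l.length := by
    intro l
    induction l with
    | nil => simp
    | cons a l ih =>
      rw [List.map_cons, List.prod_cons, ih, List.length_cons, pow_succ, mul_comm]
      rfl
  rw [this, List.length_range]

/-- Numbers. -/
def nT (m : ℕ) : Tm := natT m.bits

theorem eval_nT (v : ℕ → ℝ) (m : ℕ) : (nT m).eval v = m := by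
  unfold nT
  rw [eval_natT, valB_bits]

theorem eval_twoT (v : ℕ → ℝ) : twoT.eval v = 2 := by
  simp [twoT, Tm.eval]
  norm_num

/-- Difference. -/
def subT (s t : Tm) : Tm := Tm.add s (Tm.neg t)

theorem eval_subT (v : ℕ → ℝ) (s t : Tm) : (subT s t).eval v = s.eval v - t.eval v := by
  simp [subT, Tm.eval, sub_eq_add_neg]

/-- Sign. -/
def sgT (b : Bool) : Tm := if b then Tm.one else Tm.neg Tm.one

theorem eval_sgT (v : ℕ → ℝ) (b : Bool) : (sgT b).eval v = sg b := by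
  cases b <;> simp [sgT, sg, Tm.eval]

/-- The coordinates. -/
def yatT (n : ℕ) (yT : ℕ → Tm) (k : ℕ) : Tm := if k < n then yT k else Tm.zero

/-- The vector of the variables. -/
def vgT (n : ℕ) (aT : Tm) (xT yT : ℕ → Tm) (k : ℕ) : Tm :=
  if k = 0 then aT else if k - 1 < n then yatT n xT (k - 1) else yatT n yT (k - 1 - n)

/-- Signed sums of products. -/
def EET (l : List (Bool × ℕ × ℕ × ℕ)) (V : ℕ → Tm) : Tm :=
  sumT (l.map fun q => Tm.mul (sgT q.1) (Tm.mul (Tm.mul (V q.2.1) (V q.2.2.1)) (V q.2.2.2)))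

/-- Their derivatives. -/
def dEET (l : List (Bool × ℕ × ℕ × ℕ)) (V dV : ℕ → Tm) : Tm :=
  sumT (l.map fun q => Tm.mul (sgT q.1) (Tm.add (Tm.add
    (Tm.mul (Tm.mul (dV q.2.1) (V q.2.2.1)) (V q.2.2.2))
    (Tm.mul (Tm.mul (V q.2.1) (dV q.2.2.1)) (V q.2.2.2)))
    (Tm.mul (Tm.mul (V q.2.1) (V q.2.2.1)) (dV q.2.2.2))))

/-- Sum of squares. -/
def FFT (S : Sys) (V : ℕ → Tm) : Tm := sumT (S.map fun l => Tm.mul (EET l V) (EET l V))

/-- Derivative of the sum of squares. -/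
def dFFT (S : Sys) (V dV : ℕ → Tm) : Tm :=
  sumT (S.map fun l => Tm.mul (Tm.mul twoT (EET l V)) (dEET l V dV))

/-- Unit vectors. -/
def uvT (j k : ℕ) : Tm := if k = j then Tm.one else Tm.zero

/-- Sum of the squares of the coordinates. -/
def sqT (n : ℕ) (xT : ℕ → Tm) : Tm := sumR n fun j => Tm.mul (xT j) (xT j)

/-- The weight. -/
def WWT (n : ℕ) (yT : ℕ → Tm) : Tm := Tm.add Tm.one (sqT n yT)

/-- The cut-off. -/
def hhT (n : ℕ) (xT : ℕ → Tm) : Tm :=
  Tm.mul (Tm.mul (yatT n xT 0) (yatT n xT 0)) (subT Tm.one (sqT n xT))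

/-- Its derivatives. -/
def dhhT (n : ℕ) (xT : ℕ → Tm) (j : ℕ) : Tm :=
  subT (if j = 0 then Tm.mul (Tm.mul twoT (yatT n xT 0)) (subT Tm.one (sqT n xT)) else Tm.zero)
    (Tm.mul (Tm.mul (yatT n xT 0) (yatT n xT 0)) (Tm.mul twoT (xT j)))

/-- The objective. -/
def PsiT (n k : ℕ) (S : Sys) (xT yT : ℕ → Tm) (ρT : Tm) : Tm :=
  Tm.add (Tm.mul (hhT n xT) (FFT S (vgT n Tm.one xT yT))) (Tm.mul ρT (powT k k (WWT n yT)))

/-- Derivatives with respect to `x`. -/
def dxPT (n : ℕ) (S : Sys) (xT yT : ℕ → Tm) (j : ℕ) : Tm :=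
  Tm.add (Tm.mul (dhhT n xT j) (FFT S (vgT n Tm.one xT yT)))
    (Tm.mul (hhT n xT) (dFFT S (vgT n Tm.one xT yT) (uvT (1 + j))))

/-- Derivatives with respect to `y`. -/
def dyPT (n k : ℕ) (S : Sys) (xT yT : ℕ → Tm) (ρT : Tm) (q : ℕ) : Tm :=
  Tm.add (Tm.mul (hhT n xT) (dFFT S (vgT n Tm.one xT yT) (uvT (1 + n + q))))
    (Tm.mul ρT (Tm.mul (Tm.mul (nT k) (powT k (k - 1) (WWT n yT))) (Tm.mul twoT (yT q))))

/-- The linear forms. -/
def ellT (n u : ℕ) (yT : ℕ → Tm) : Tm := sumR n fun j => Tm.mul (powT n j (nT u)) (yT j)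

/-- The polynomials of the family. -/
def bfT (n r u e j : ℕ) (yT : ℕ → Tm) : Tm :=
  if j = 0 then powT (2 * n + 1) e (ellT n u yT)
  else if j = 1 then powT (2 * n + 1) (r + 1 + e) (ellT n u yT)
  else Tm.mul (yatT n yT (j - 1)) (powT (2 * n + 1) e (ellT n u yT))

/-- Their derivatives. -/
def bdT (n r u e j : ℕ) (yT : ℕ → Tm) (q : ℕ) : Tm :=
  if j = 0 then Tm.mul (Tm.mul (nT e) (powT (2 * n + 1) (e - 1) (ellT n u yT)))
    (powT n q (nT u))
  else if j = 1 then Tm.mul (Tm.mul (nT (r + 1 + e))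
    (powT (2 * n + 1) (r + e) (ellT n u yT))) (powT n q (nT u))
  else Tm.add (if q = j - 1 then powT (2 * n + 1) e (ellT n u yT) else Tm.zero)
    (Tm.mul (yatT n yT (j - 1)) (Tm.mul (Tm.mul (nT e)
      (powT (2 * n + 1) (e - 1) (ellT n u yT))) (powT n q (nT u))))

/-- Index of a parameter. -/
def aidx (n U r u e j : ℕ) : ℕ := ((r * U + u) * (n + 1) + e) * (n + 1) + j

/-- The perturbation. -/
def qthT (n U : ℕ) (θT : ℕ → Tm) (yT : ℕ → Tm) : Tm :=
  sumR (n + 1) fun r => sumR U fun u => sumR (n + 1) fun e => sumR (n + 1) fun j =>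
    Tm.mul (θT (aidx n U r u e j)) (bfT n r u e j yT)

/-- Its derivatives. -/
def dqthT (n U : ℕ) (θT : ℕ → Tm) (yT : ℕ → Tm) (q : ℕ) : Tm :=
  sumR (n + 1) fun r => sumR U fun u => sumR (n + 1) fun e => sumR (n + 1) fun j =>
    Tm.mul (θT (aidx n U r u e j)) (bdT n r u e j yT q)

section eval

variable {n U : ℕ} {v : ℕ → ℝ} {aT ρT : Tm} {xT yT : ℕ → Tm} {x y : Fin n → ℝ} {a ρ : ℝ}

theorem eval_yatT (hy : ∀ j : Fin n, (yT j).eval v = y j) (k : ℕ) :
    (yatT n yT k).eval v = yat y k := by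
  unfold yatT yat
  by_cases h : k < n
  · rw [if_pos h, dif_pos h]
    exact hy ⟨k, h⟩
  · rw [if_neg h, dif_neg h]
    rfl

theorem eval_vgT (ha : aT.eval v = a) (hx : ∀ j : Fin n, (xT j).eval v = x j)
    (hy : ∀ j : Fin n, (yT j).eval v = y j) (k : ℕ) :
    (vgT n aT xT yT k).eval v = vg a x y k := by
  unfold vgT vg
  split_ifs
  · exact ha
  · exact eval_yatT hx _
  · exact eval_yatT hy _

theorem eval_EET {V : ℕ → Tm} {W : ℕ → ℝ} (h : ∀ k, (V k).eval v = W k)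
    (l : List (Bool × ℕ × ℕ × ℕ)) : (EET l V).eval v = EE l W := by
  unfold EET EE
  rw [eval_sumT, List.map_map]
  congr 1
  refine List.map_congr_left fun q _ => ?_
  simp only [Function.comp, Tm.eval, eval_sgT, h]

theorem eval_dEET {V dV : ℕ → Tm} {W dW : ℕ → ℝ} (h : ∀ k, (V k).eval v = W k)
    (h' : ∀ k, (dV k).eval v = dW k)
    (l : List (Bool × ℕ × ℕ × ℕ)) : (dEET l V dV).eval v = dEE l W dW := by
  unfold dEET dEE
  rw [eval_sumT, List.map_map]
  congr 1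
  refine List.map_congr_left fun q _ => ?_
  simp only [Function.comp, Tm.eval, eval_sgT, h, h']

theorem eval_FFT {V : ℕ → Tm} {W : ℕ → ℝ} (h : ∀ k, (V k).eval v = W k) (S : Sys) :
    (FFT S V).eval v = FF S W := by
  unfold FFT FF
  rw [eval_sumT, List.map_map]
  congr 1
  refine List.map_congr_left fun q _ => ?_
  simp only [Function.comp, Tm.eval, eval_EET h]
  ring

theorem eval_dFFT {V dV : ℕ → Tm} {W dW : ℕ → ℝ} (h : ∀ k, (V k).eval v = W k)
    (h' : ∀ k, (dV k).eval v = dW k) (S : Sys) :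
    (dFFT S V dV).eval v = dFF S W dW := by
  unfold dFFT dFF
  rw [eval_sumT, List.map_map]
  congr 1
  refine List.map_congr_left fun q _ => ?_
  simp only [Function.comp, Tm.eval, eval_EET h, eval_dEET h h', eval_twoT]

theorem eval_uvT (j k : ℕ) : (uvT j k).eval v = uv j k := by
  unfold uvT uv
  split_ifs <;> rfl

theorem eval_sqT (hy : ∀ j : Fin n, (yT j).eval v = y j) :
    (sqT n yT).eval v = ∑ j, y j ^ 2 := by
  unfold sqT
  rw [eval_sumR]
  refine Finset.sum_congr rfl fun j _ => ?_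
  simp only [Tm.eval, hy]
  ring

theorem eval_WWT (hy : ∀ j : Fin n, (yT j).eval v = y j) : (WWT n yT).eval v = WW y := by
  unfold WWT WW
  rw [Tm.eval, eval_sqT hy]
  rfl

theorem eval_hhT (hx : ∀ j : Fin n, (xT j).eval v = x j) : (hhT n xT).eval v = hh x := by
  unfold hhT hh
  rw [Tm.eval, Tm.eval, eval_yatT hx, eval_subT, eval_sqT hx, Tm.eval, pow_two]

theorem eval_dhhT (hx : ∀ j : Fin n, (xT j).eval v = x j) (j : Fin n) :
    (dhhT n xT j).eval v = dhh x j := by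
  unfold dhhT dhh
  rw [eval_subT]
  congr 1
  · split_ifs
    · rw [Tm.eval, Tm.eval, eval_yatT hx, eval_subT, eval_sqT hx, Tm.eval, eval_twoT]
    · rfl
  · rw [Tm.eval, Tm.eval, Tm.eval, eval_yatT hx, eval_twoT, hx, pow_two]

theorem eval_PsiT (hx : ∀ j : Fin n, (xT j).eval v = x j)
    (hy : ∀ j : Fin n, (yT j).eval v = y j) (hρ : ρT.eval v = ρ) (k : ℕ) (S : Sys) :
    (PsiT n k S xT yT ρT).eval v = Psi S k x y ρ := by
  unfold PsiT Psi
  rw [Tm.eval, Tm.eval, Tm.eval, eval_hhT hx, eval_FFT (eval_vgT (a := 1) rfl hx hy), hρ,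
    eval_powT v le_rfl, eval_WWT hy]

theorem eval_dxPT (hx : ∀ j : Fin n, (xT j).eval v = x j)
    (hy : ∀ j : Fin n, (yT j).eval v = y j) (S : Sys) (j : Fin n) :
    (dxPT n S xT yT j).eval v = dxP S x y j := by
  unfold dxPT dxP
  rw [Tm.eval, Tm.eval, Tm.eval, eval_hhT hx, eval_dhhT hx,
    eval_FFT (eval_vgT (a := 1) rfl hx hy), eval_dFFT (eval_vgT (a := 1) rfl hx hy)
      (eval_uvT _)]

theorem eval_dyPT (hx : ∀ j : Fin n, (xT j).eval v = x j)
    (hy : ∀ j : Fin n, (yT j).eval v = y j) (hρ : ρT.eval v = ρ) (k : ℕ) (S : Sys) (q : Fin n) :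
    (dyPT n k S xT yT ρT q).eval v = dyP S k x y ρ q := by
  unfold dyPT dyP
  simp only [Tm.eval, eval_hhT hx, eval_dFFT (eval_vgT (a := 1) (aT := Tm.one) rfl hx hy)
      (eval_uvT _), hρ, eval_nT, eval_powT v (Nat.sub_le k 1), eval_WWT hy, eval_twoT, hy]

theorem eval_ellT (hy : ∀ j : Fin n, (yT j).eval v = y j) (u : ℕ) :
    (ellT n u yT).eval v = ell u y := by
  unfold ellT ell
  rw [eval_sumR]
  refine Finset.sum_congr rfl fun j _ => ?_
  rw [Tm.eval, eval_powT v j.2.le, eval_nT, hy]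

theorem eval_bfT (hy : ∀ j : Fin n, (yT j).eval v = y j) {r u e j : ℕ} (hr : r ≤ n)
    (he : e ≤ n) : (bfT n r u e j yT).eval v = bf r u e j y := by
  unfold bfT bf
  split_ifs
  · rw [eval_powT v (by omega), eval_ellT hy]
  · rw [eval_powT v (by omega), eval_ellT hy]
  · rw [Tm.eval, eval_powT v (by omega), eval_ellT hy, eval_yatT hy]

theorem eval_bdT (hy : ∀ j : Fin n, (yT j).eval v = y j) {r u e j : ℕ} (hr : r ≤ n)
    (he : e ≤ n) (q : Fin n) : (bdT n r u e j yT q).eval v = bd r u e j y q := by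
  unfold bdT bd
  have h1 : (powT n (q : ℕ) (nT u)).eval v = (u : ℝ) ^ (q : ℕ) := by
    rw [eval_powT v q.2.le, eval_nT]
  split_ifs
  · rw [Tm.eval, Tm.eval, eval_powT v (by omega), eval_ellT hy, eval_nT, h1]
  · rw [Tm.eval, Tm.eval, eval_powT v (by omega), eval_ellT hy, eval_nT, h1]
  · rw [Tm.eval, Tm.eval, Tm.eval, Tm.eval, eval_powT v (by omega), eval_powT v (by omega),
      eval_ellT hy, eval_nT, h1, eval_yatT hy]
  · rw [Tm.eval, Tm.eval, Tm.eval, Tm.eval, Tm.eval, h1, eval_powT v (by omega : e - 1 ≤ _),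
      eval_ellT hy, eval_nT, eval_yatT hy]

/-- Index of a parameter. -/
def aid (a : AA n U) : ℕ := aidx n U a.1 a.2.1 a.2.2.1 a.2.2.2

theorem eval_qthT (hy : ∀ j : Fin n, (yT j).eval v = y j) {θT : ℕ → Tm} {θ : AA n U → ℝ}
    (hθ : ∀ a, (θT (aid a)).eval v = θ a) : (qthT n U θT yT).eval v = qth θ y := by
  unfold qthT qth
  simp only [Fintype.sum_prod_type, eval_sumR]
  refine Finset.sum_congr rfl fun r _ => Finset.sum_congr rfl fun u _ =>
    Finset.sum_congr rfl fun e _ => Finset.sum_congr rfl fun j _ => ?_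
  rw [Tm.eval, eval_bfT hy (Nat.lt_succ_iff.1 r.2) (Nat.lt_succ_iff.1 e.2)]
  congr 1
  exact hθ (r, u, e, j)

theorem eval_dqthT (hy : ∀ j : Fin n, (yT j).eval v = y j) {θT : ℕ → Tm} {θ : AA n U → ℝ}
    (hθ : ∀ a, (θT (aid a)).eval v = θ a) (q : Fin n) :
    (dqthT n U θT yT q).eval v = dqth θ y q := by
  unfold dqthT dqth
  simp only [Fintype.sum_prod_type, eval_sumR]
  refine Finset.sum_congr rfl fun r _ => Finset.sum_congr rfl fun u _ =>
    Finset.sum_congr rfl fun e _ => Finset.sum_congr rfl fun j _ => ?_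
  rw [Tm.eval, eval_bdT hy (Nat.lt_succ_iff.1 r.2) (Nat.lt_succ_iff.1 e.2)]
  congr 1
  exact hθ (r, u, e, j)

end eval

end Pool.Agent.TH662.IP
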