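import Mathlib
import Pool.Agent.TH662.IP.Tms
import Pool.Agent.TH662.IP.Gap

/-!
# The formula
-/

namespace Pool.Agent.TH662.IP

open Finset Pool.Agent.NPC Pool.Agent.NPC.ER Pool.Agent.NPC.H612

/-! ### Layout of the coordinates -/

/-- Start of the constants. -/
def oA (n : ℕ) : ℕ := 2 * n + 2

/-- Start of the multipliers. -/
def oL (n L : ℕ) : ℕ := oA n + (3 * L + 5)

/-- Start of the flags. -/
def oF (n L : ℕ) : ℕ := oL n L + (n + 1)

/-- Start of the points. -/
def oY (n L : ℕ) : ℕ := oF n L + (n + 1)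

/-- Start of the bits. -/
def oB (n L : ℕ) : ℕ := oY n L + (n + 1) * n

/-- Number of the parameters `θ`. -/
def cA (n U : ℕ) : ℕ := (n + 1) * U * (n + 1) * (n + 1)

/-- Number of all coordinates. -/
def NT (n U g L : ℕ) : ℕ := oB n L + (cA n U + n) * g

theorem aidx_lt {n U : ℕ} (a : AA n U) : aid a < cA n U := by
  obtain ⟨⟨r, hr⟩, ⟨u, hu⟩, ⟨e, he⟩, ⟨j, hj⟩⟩ := a
  unfold aid aidx cA
  simp only
  have h1 : r * U + u < (n + 1) * U := by
    calc r * U + u < r * U + U := by omega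
      _ = (r + 1) * U := by ring
      _ ≤ (n + 1) * U := Nat.mul_le_mul_right _ (by omega)
  have h2 : (r * U + u) * (n + 1) + e < (n + 1) * U * (n + 1) := by
    calc (r * U + u) * (n + 1) + e < (r * U + u) * (n + 1) + (n + 1) := by omega
      _ = (r * U + u + 1) * (n + 1) := by ring
      _ ≤ (n + 1) * U * (n + 1) := Nat.mul_le_mul_right _ (by omega)
  calc ((r * U + u) * (n + 1) + e) * (n + 1) + j
      < ((r * U + u) * (n + 1) + e) * (n + 1) + (n + 1) := by omega
    _ = ((r * U + u) * (n + 1) + e + 1) * (n + 1) := by ring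
    _ ≤ (n + 1) * U * (n + 1) * (n + 1) := Nat.mul_le_mul_right _ (by omega)

theorem idx_lt {i A n j : ℕ} (hi : i < A) (hj : j < n) : i * n + j < A * n := by
  calc i * n + j < i * n + n := by omega
    _ = (i + 1) * n := by ring
    _ ≤ A * n := Nat.mul_le_mul_right _ (by omega)

section terms

variable (n U k g L : ℕ) (S : Sys)

/-- The constants as terms. -/
def tA (i : ℕ) : Tm := Tm.var (oA n + i)

/-- The coordinates of the points. -/
def tY (i j : ℕ) : Tm := Tm.var (oY n L + i * n + j)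

/-- The flags. -/
def tF (i : ℕ) : Tm := Tm.var (oF n L + i)

/-- The multipliers. -/
def tL (i : ℕ) : Tm := Tm.var (oL n L + i)

/-- The numbers given by the bits. -/
def tW (a : ℕ) : Tm := sumR g fun i => Tm.mul (powT g i twoT) (Tm.var (oB n L + a * g + i))

/-- The parameters. -/
def tθ (a : ℕ) : Tm := Tm.mul (tA n (3 * L + 4)) (tW n g L a)

/-- The first part of the formula. -/
def dF : Fm :=
  conj [conj ((List.range ((cA n U + n) * g)).map fun b =>
      Fm.eq (Tm.mul (Tm.var (oB n L + b)) (Tm.var (oB n L + b))) (Tm.var (oB n L + b))),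
    conj ((List.range (n + 1)).map fun i => Fm.eq (Tm.mul (tF n L i) (tF n L i)) (tF n L i)),
    Fm.eq (Tm.mul twoT (tA n 0)) Tm.one,
    conj ((List.range (3 * L + 4)).map fun i =>
      Fm.eq (tA n (i + 1)) (Tm.mul (tA n i) (tA n i))),
    Fm.lt (sqT n Tm.var) Tm.one,
    conj ((List.range (n + 1)).map fun i => conj ((List.range n).map fun j =>
      Fm.eq (Tm.mul (subT Tm.one (tF n L i)) (tY n L i j)) Tm.zero)),
    conj ((List.range (n + 1)).map fun i =>
      Fm.eq (Tm.mul (subT Tm.one (tF n L i)) (tL n L i)) Tm.zero),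
    conj ((List.range (n + 1)).map fun i => Fm.eq (Tm.mul (tF n L i) (subT (Tm.add (Tm.add
      (PsiT n k S Tm.var (tY n L i) (tA n (2 * L + 2))) (qthT n U (tθ n g L) (tY n L i)))
      (sumR n fun j => Tm.mul (tθ n g L (cA n U + j)) (Tm.var j))) (Tm.var (2 * n + 1))))
      Tm.zero),
    conj ((List.range (n + 1)).map fun i => conj ((List.range n).map fun q =>
      Fm.eq (Tm.mul (tF n L i) (Tm.add (dyPT n k S Tm.var (tY n L i) (tA n (2 * L + 2)) q)
        (dqthT n U (tθ n g L) (tY n L i) q))) Tm.zero)),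
    conj ((List.range n).map fun j => Fm.eq (Tm.add (sumR (n + 1) fun i =>
      Tm.mul (tL n L i) (dxPT n S Tm.var (tY n L i) j)) (tθ n g L (cA n U + j))) Tm.zero),
    Fm.eq (sumR (n + 1) (tL n L)) Tm.one]

/-- The second part of the formula. -/
def cF : Fm :=
  Fm.or (conj (Fm.eq (Tm.var (2 * n)) Tm.zero ::
      (List.range n).map fun j => Fm.eq (Tm.var (n + j)) Tm.zero))
    (Fm.and (Fm.lt Tm.zero (Tm.var (2 * n))) (Fm.lt
      (Tm.add (Tm.mul (Tm.mul (powT (2 * k) (2 * k - 6) (Tm.var (2 * n))) (hhT n Tm.var))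
        (FFT S (vgT n (Tm.var (2 * n)) (fun j => Tm.mul (Tm.var (2 * n)) (Tm.var j))
          (fun j => Tm.var (n + j)))))
        (Tm.mul (tA n (2 * L + 2)) (powT k k (Tm.add (Tm.mul (Tm.var (2 * n)) (Tm.var (2 * n)))
          (sqT n fun j => Tm.var (n + j))))))
      (Tm.mul (tA n (L + 1)) (powT (2 * k) (2 * k) (Tm.var (2 * n))))))

/-- The formula. -/
def isoF : Fm := Fm.and (dF n U k g L S) (cF n k L S)

end terms

section sem

variable {n U k g L : ℕ} {S : Sys}

/-- The point `x`. -/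
def xV (n : ℕ) (v : ℕ → ℝ) (j : Fin n) : ℝ := v j

/-- The points `y`. -/
def YV (n L : ℕ) (v : ℕ → ℝ) (i : ℕ) (q : Fin n) : ℝ := v (oY n L + i * n + q)

/-- The numbers given by the bits. -/
noncomputable def wV (n g L : ℕ) (v : ℕ → ℝ) (a : ℕ) : ℝ :=
  ∑ i : Fin g, 2 ^ (i : ℕ) * v (oB n L + a * g + i)

/-- The parameters. -/
noncomputable def θV (n g L : ℕ) (v : ℕ → ℝ) (a : ℕ) : ℝ :=
  v (oA n + (3 * L + 4)) * wV n g L v a

/-- Meaning of the first part of the formula. -/
structure SemD (n U k g L : ℕ) (S : Sys) (v : ℕ → ℝ) : Prop where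
  bits : ∀ b < (cA n U + n) * g, v (oB n L + b) * v (oB n L + b) = v (oB n L + b)
  flags : ∀ i < n + 1, v (oF n L + i) * v (oF n L + i) = v (oF n L + i)
  ch0 : 2 * v (oA n + 0) = 1
  ch : ∀ i < 3 * L + 4, v (oA n + (i + 1)) = v (oA n + i) * v (oA n + i)
  ball : ∑ j, xV n v j ^ 2 < 1
  yz : ∀ i < n + 1, ∀ j < n, (1 - v (oF n L + i)) * v (oY n L + i * n + j) = 0
  lz : ∀ i < n + 1, (1 - v (oF n L + i)) * v (oL n L + i) = 0
  val : ∀ i < n + 1, v (oF n L + i) * (Psi S k (xV n v) (YV n L v i) (v (oA n + (2 * L + 2))) +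
    qth (fun a : AA n U => θV n g L v (aid a)) (YV n L v i) +
    ∑ j : Fin n, θV n g L v (cA n U + j) * xV n v j - v (2 * n + 1)) = 0
  dy : ∀ i < n + 1, ∀ q : Fin n, v (oF n L + i) *
    (dyP S k (xV n v) (YV n L v i) (v (oA n + (2 * L + 2))) q +
      dqth (fun a : AA n U => θV n g L v (aid a)) (YV n L v i) q) = 0
  dx : ∀ j : Fin n, ∑ i : Fin (n + 1), v (oL n L + i) * dxP S (xV n v) (YV n L v i) j +
    θV n g L v (cA n U + j) = 0
  one : ∑ i : Fin (n + 1), v (oL n L + i) = 1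

theorem ev_Y (v : ℕ → ℝ) (i : ℕ) (j : Fin n) : (tY n L i j).eval v = YV n L v i j := rfl

theorem ev_X (v : ℕ → ℝ) (j : Fin n) : (Tm.var (j : ℕ)).eval v = xV n v j := rfl

theorem ev_W (v : ℕ → ℝ) (a : ℕ) : (tW n g L a).eval v = wV n g L v a := by
  unfold tW wV
  rw [eval_sumR]
  refine Finset.sum_congr rfl fun i _ => ?_
  rw [Tm.eval, eval_powT v i.2.le, eval_twoT]
  rfl

theorem ev_θ (v : ℕ → ℝ) (a : ℕ) : (tθ n g L a).eval v = θV n g L v a := by
  unfold tθ θV
  rw [Tm.eval, ev_W]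
  rfl

theorem holds_conj_range (v : ℕ → ℝ) (m : ℕ) (f : ℕ → Fm) :
    (conj ((List.range m).map f)).Holds v ↔ ∀ i < m, (f i).Holds v := by
  rw [holds_conj]
  simp

theorem holds_dF (v : ℕ → ℝ) : (dF n U k g L S).Holds v ↔ SemD n U k g L S v := by
  unfold dF
  rw [holds_conj]
  simp only [List.mem_cons, List.not_mem_nil, or_false, forall_eq_or_imp, forall_eq,
    holds_conj_range, Fm.Holds]
  have hY : ∀ i, ∀ j : Fin n, (tY n L i j).eval v = YV n L v i j := fun i j => rfl
  have hX : ∀ j : Fin n, (Tm.var (j : ℕ)).eval v = xV n v j := fun j => rfl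
  have e1 : ∀ i, (PsiT n k S Tm.var (tY n L i) (tA n (2 * L + 2))).eval v =
      Psi S k (xV n v) (YV n L v i) (v (oA n + (2 * L + 2))) := fun i =>
    eval_PsiT hX (hY i) rfl k S
  have e2 : ∀ i, (qthT n U (tθ n g L) (tY n L i)).eval v =
      qth (fun a : AA n U => θV n g L v (aid a)) (YV n L v i) := fun i =>
    eval_qthT (hY i) fun a => ev_θ v _
  have e3 : (sumR n fun j => Tm.mul (tθ n g L (cA n U + j)) (Tm.var j)).eval v =
      ∑ j : Fin n, θV n g L v (cA n U + j) * xV n v j := by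
    rw [eval_sumR]
    refine Finset.sum_congr rfl fun j _ => ?_
    rw [Tm.eval, ev_θ]
    rfl
  have e4 : ∀ i, ∀ q : Fin n, (dyPT n k S Tm.var (tY n L i) (tA n (2 * L + 2)) q).eval v =
      dyP S k (xV n v) (YV n L v i) (v (oA n + (2 * L + 2))) q := fun i q =>
    eval_dyPT hX (hY i) rfl k S q
  have e5 : ∀ i, ∀ q : Fin n, (dqthT n U (tθ n g L) (tY n L i) q).eval v =
      dqth (fun a : AA n U => θV n g L v (aid a)) (YV n L v i) q := fun i q =>
    eval_dqthT (hY i) (fun a => ev_θ v _) q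
  have e6 : ∀ j : Fin n, (sumR (n + 1) fun i =>
      Tm.mul (tL n L i) (dxPT n S Tm.var (tY n L i) j)).eval v =
      ∑ i : Fin (n + 1), v (oL n L + i) * dxP S (xV n v) (YV n L v i) j := by
    intro j
    rw [eval_sumR]
    refine Finset.sum_congr rfl fun i _ => ?_
    rw [Tm.eval, eval_dxPT hX (hY i)]
    rfl
  have e7 : (sumR (n + 1) (tL n L)).eval v = ∑ i : Fin (n + 1), v (oL n L + i) := by
    rw [eval_sumR]
    rfl
  have e8 : (sqT n Tm.var).eval v = ∑ j, xV n v j ^ 2 := eval_sqT hX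
  have a1 : ∀ i, (tA n i).eval v = v (oA n + i) := fun i => rfl
  have a2 : ∀ i, (tF n L i).eval v = v (oF n L + i) := fun i => rfl
  have a3 : ∀ i, (tL n L i).eval v = v (oL n L + i) := fun i => rfl
  have a4 : ∀ i j, (tY n L i j).eval v = v (oY n L + i * n + j) := fun i j => rfl
  constructor
  · rintro ⟨h1, h2, h3, h4, h5, h6, h7, h8, h9, h10, h11⟩
    refine ⟨h1, h2, ?_, h4, ?_, ?_, ?_, ?_, ?_, ?_, ?_⟩
    · simpa only [Tm.eval, eval_twoT, a1] using h3
    · rwa [e8] at h5
    · intro i hi j hj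
      have := h6 i hi j hj
      simpa only [Tm.eval, eval_subT, a2, a4] using this
    · intro i hi
      have := h7 i hi
      simpa only [Tm.eval, eval_subT, a2, a3] using this
    · intro i hi
      have := h8 i hi
      simpa only [Tm.eval, eval_subT, e1, e2, e3, a2] using this
    · intro i hi q
      have := h9 i hi q q.2
      simpa only [Tm.eval, e4, e5, a2] using this
    · intro j
      have := h10 j j.2
      simpa only [Tm.eval, e6, ev_θ] using this
    · rw [e7] at h11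
      exact h11
  · intro h
    refine ⟨h.bits, h.flags, ?_, h.ch, ?_, ?_, ?_, ?_, ?_, ?_, ?_⟩
    · simpa only [Tm.eval, eval_twoT, a1] using h.ch0
    · rw [e8]
      exact h.ball
    · intro i hi j hj
      have := h.yz i hi j hj
      simpa only [Tm.eval, eval_subT, a2, a4] using this
    · intro i hi
      have := h.lz i hi
      simpa only [Tm.eval, eval_subT, a2, a3] using this
    · intro i hi
      have := h.val i hi
      simpa only [Tm.eval, eval_subT, e1, e2, e3, a2] using this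
    · intro i hi q hq
      have := h.dy i hi ⟨q, hq⟩
      have e4' := e4 i ⟨q, hq⟩
      have e5' := e5 i ⟨q, hq⟩
      simp only at e4' e5'
      simpa only [Tm.eval, e4', e5', a2] using this
    · intro j hj
      have := h.dx ⟨j, hj⟩
      have e6' := e6 ⟨j, hj⟩
      simp only at e6'
      simpa only [Tm.eval, e6', ev_θ] using this
    · rw [e7]
      exact h.one

theorem EE_homog (s : ℝ) (l : List (Bool × ℕ × ℕ × ℕ)) (V : ℕ → ℝ) :
    EE l (fun k => s * V k) = s ^ 3 * EE l V := by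
  unfold EE
  induction l with
  | nil => simp
  | cons q l ih =>
    rw [List.map_cons, List.sum_cons, ih, List.map_cons, List.sum_cons]
    ring

theorem FF_homog (s : ℝ) (S : Sys) (V : ℕ → ℝ) :
    FF S (fun k => s * V k) = s ^ 6 * FF S V := by
  unfold FF
  induction S with
  | nil => simp
  | cons l S ih =>
    rw [List.map_cons, List.sum_cons, ih, List.map_cons, List.sum_cons, EE_homog]
    ring

theorem yat_smul (s : ℝ) (y : Fin n → ℝ) (k : ℕ) : yat (fun j => s * y j) k = s * yat y k := by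
  unfold yat
  split_ifs
  · rfl
  · rw [mul_zero]

theorem vg_homog (s : ℝ) (x y : Fin n → ℝ) (k : ℕ) :
    vg s (fun j => s * x j) (fun j => s * y j) k = s * vg 1 x y k := by
  unfold vg
  split_ifs
  · rw [mul_one]
  · exact yat_smul s x _
  · exact yat_smul s y _

/-- The vector `v`. -/
def vV (n : ℕ) (v : ℕ → ℝ) (j : Fin n) : ℝ := v (n + j)

theorem cone_eq (hk : 3 ≤ k) (s ρ : ℝ) (hs : s ≠ 0) (x v : Fin n → ℝ) :
    s ^ (2 * k - 6) * hh x * FF S (vg s (fun j => s * x j) v) +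
      ρ * (s * s + ∑ j, v j ^ 2) ^ k = s ^ (2 * k) * Psi S k x (fun j => v j / s) ρ := by
  have h1 : vg s (fun j => s * x j) v = fun i => s * vg 1 x (fun j => v j / s) i := by
    funext i
    rw [← vg_homog]
    congr 1
    funext j
    field_simp
  have h2 : s * s + ∑ j, v j ^ 2 = s ^ 2 * WW (fun j => v j / s) := by
    unfold WW
    rw [mul_add, Finset.mul_sum]
    congr 1
    · ring
    · refine Finset.sum_congr rfl fun j _ => ?_
      field_simp
  rw [h1, FF_homog, h2, Psi, mul_pow, ← pow_mul]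
  have h3 : s ^ (2 * k) = s ^ (2 * k - 6) * s ^ 6 := by
    rw [← pow_add]
    congr 1
    omega
  rw [mul_add, h3]
  generalize s ^ (2 * k - 6) = A
  ring

theorem holds_cF (hk : 3 ≤ k) (v : ℕ → ℝ) : (cF n k L S).Holds v ↔
    ((v (2 * n) = 0 ∧ ∀ j < n, v (n + j) = 0) ∨
      (0 < v (2 * n) ∧ Psi S k (xV n v) (fun j => vV n v j / v (2 * n)) (v (oA n + (2 * L + 2))) <
        v (oA n + (L + 1)))) := by
  unfold cF
  have hX : ∀ j : Fin n, (Tm.var (j : ℕ)).eval v = xV n v j := fun j => rfl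
  have hV : ∀ j : Fin n, (Tm.var (n + (j : ℕ))).eval v = vV n v j := fun j => rfl
  have hsX : ∀ j : Fin n, (Tm.mul (Tm.var (2 * n)) (Tm.var (j : ℕ))).eval v =
      v (2 * n) * xV n v j := fun j => rfl
  rw [Fm.Holds, Fm.Holds, Fm.Holds, Fm.Holds, holds_conj]
  simp only [List.mem_cons, List.mem_map, List.mem_range, forall_eq_or_imp,
    forall_exists_index, and_imp, forall_apply_eq_imp_iff₂]
  refine or_congr Iff.rfl (and_congr_right fun hs => ?_)
  have hs' : 0 < v (2 * n) := hs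
  have a1 : ∀ i, (tA n i).eval v = v (oA n + i) := fun i => rfl
  have e1 : (FFT S (vgT n (Tm.var (2 * n)) (fun j => Tm.mul (Tm.var (2 * n)) (Tm.var j))
      (fun j => Tm.var (n + j)))).eval v = FF S (vg (v (2 * n)) (fun j => v (2 * n) * xV n v j)
        (vV n v)) := eval_FFT (eval_vgT rfl hsX hV) S
  have e2 : (hhT n Tm.var).eval v = hh (xV n v) := eval_hhT hX
  have e3 : (sqT n fun j => Tm.var (n + j)).eval v = ∑ j, vV n v j ^ 2 := eval_sqT hV
  have e4 : (powT (2 * k) (2 * k - 6) (Tm.var (2 * n))).eval v = v (2 * n) ^ (2 * k - 6) :=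
    eval_powT v (Nat.sub_le _ _) _
  have e5 : (powT (2 * k) (2 * k) (Tm.var (2 * n))).eval v = v (2 * n) ^ (2 * k) :=
    eval_powT v le_rfl _
  have e6 : (powT k k (Tm.add (Tm.mul (Tm.var (2 * n)) (Tm.var (2 * n)))
      (sqT n fun j => Tm.var (n + j)))).eval v =
      (v (2 * n) * v (2 * n) + ∑ j, vV n v j ^ 2) ^ k := by
    rw [eval_powT v le_rfl, Tm.eval, e3]
    rfl
  have e7 : (Tm.add (Tm.mul (Tm.mul (powT (2 * k) (2 * k - 6) (Tm.var (2 * n)))
      (hhT n Tm.var)) (FFT S (vgT n (Tm.var (2 * n)) (fun j => Tm.mul (Tm.var (2 * n)) (Tm.var j))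
          (fun j => Tm.var (n + j)))))
        (Tm.mul (tA n (2 * L + 2)) (powT k k (Tm.add (Tm.mul (Tm.var (2 * n)) (Tm.var (2 * n)))
          (sqT n fun j => Tm.var (n + j)))))).eval v = v (2 * n) ^ (2 * k) *
        Psi S k (xV n v) (fun j => vV n v j / v (2 * n)) (v (oA n + (2 * L + 2))) := by
    rw [← cone_eq hk _ _ hs'.ne']
    simp only [Tm.eval, e1, e2, e4, e6, a1]
  have e8 : (Tm.mul (tA n (L + 1)) (powT (2 * k) (2 * k) (Tm.var (2 * n)))).eval v =
      v (2 * n) ^ (2 * k) * v (oA n + (L + 1)) := by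
    rw [Tm.eval, e5, a1, mul_comm]
  rw [e7, e8]
  exact mul_lt_mul_iff_of_pos_left (pow_pos hs' _)

end sem

end Pool.Agent.TH662.IP
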