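import Mathlib
import Pool.Agent.TH662.IP.Gap

/-!
# Completeness, soundness and isolation
-/

namespace Pool.Agent.TH662.IP

open Finset Filter Topology Pool.Agent.H612

variable {n U k M : ℕ} {S : Sys}

theorem abs_le_WW (y : Fin n → ℝ) (j : Fin n) : |y j| ≤ WW y := by
  unfold WW
  have h1 : y j ^ 2 ≤ ∑ j, y j ^ 2 :=
    Finset.single_le_sum (f := fun j => y j ^ 2) (fun j _ => sq_nonneg _) (Finset.mem_univ j)
  have h2 : |y j| ≤ 1 + y j ^ 2 := by
    rw [← sq_abs]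
    nlinarith [sq_nonneg (|y j| - 1), abs_nonneg (y j)]
  linarith

theorem abs_yat_le (y : Fin n → ℝ) (i : ℕ) : |yat y i| ≤ WW y := by
  unfold yat
  split_ifs
  · exact abs_le_WW y _
  · rw [abs_zero]
    linarith [one_le_WW y]

theorem abs_ell_le (hB : Bd n U k S M) {u : ℕ} (hu : u ≤ M) (y : Fin n → ℝ) :
    |ell u y| ≤ 2 ^ (M ^ 3) * WW y := by
  have h64 := hB.M64
  have hn := hB.hn
  unfold ell
  refine (Finset.abs_sum_le_sum_abs _ _).trans ?_
  have h1 : ∀ j : Fin n, |(u : ℝ) ^ (j : ℕ) * y j| ≤ 2 ^ (M ^ 2) * WW y := by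
    intro j
    rw [abs_mul]
    apply mul_le_mul _ (abs_le_WW y j) (abs_nonneg _) (by positivity)
    rw [abs_pow, Nat.abs_cast]
    have h2 : u ^ (j : ℕ) ≤ 2 ^ (M ^ 2) := by
      have := lv.pow (M := M) (i := 1) (j := 1) (a := u) (e := (j : ℕ))
        (lv_of_le h64 (by norm_num : 1 ≤ 10) (by rwa [pow_one]))
        (by rw [pow_one]; have := j.2; omega)
      exact this
    exact_mod_cast h2
  refine (Finset.sum_le_sum fun j _ => h1 j).trans ?_
  rw [Finset.sum_const, Finset.card_univ, Fintype.card_fin, nsmul_eq_mul, ← mul_assoc]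
  apply mul_le_mul_of_nonneg_right _ (by linarith [one_le_WW y])
  have h3 : n * 2 ^ (M ^ 2) ≤ 2 ^ (M ^ 3) := by
    have : lv M 2 n := (lv_of_le h64 (by norm_num : 1 ≤ 10) (by rw [pow_one]; omega)).mono h64
      (by norm_num)
    exact lv.mul this (le_refl _) h64
  exact_mod_cast h3

theorem abs_bf_le (hB : Bd n U k S M) {r u e j : ℕ} (hr : r ≤ n) (he : e ≤ n) (hu : u ≤ M)
    (hk : 2 * n + 3 ≤ k) (y : Fin n → ℝ) : |bf r u e j y| ≤ 2 ^ (M ^ 5) * WW y ^ k := by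
  have h64 := hB.M64
  have hn := hB.hn
  have hW := one_le_WW y
  have hW0 : 0 < WW y := by linarith
  have key : ∀ a ≤ 2 * M, |ell u y ^ a| ≤ 2 ^ (M ^ 5) * WW y ^ a := by
    intro a ha
    rw [abs_pow]
    calc |ell u y| ^ a ≤ (2 ^ (M ^ 3) * WW y) ^ a :=
          pow_le_pow_left₀ (abs_nonneg _) (abs_ell_le hB hu y) _
      _ = (2 ^ (M ^ 3)) ^ a * WW y ^ a := by rw [mul_pow]
      _ ≤ 2 ^ (M ^ 5) * WW y ^ a := by
        apply mul_le_mul_of_nonneg_right _ (by positivity)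
        have : (2 ^ (M ^ 3)) ^ a ≤ 2 ^ (M ^ 5) :=
          lv.pow (M := M) (i := 3) (j := 2) (le_refl _) (by rw [pow_two]; nlinarith)
        exact_mod_cast this
  unfold bf
  split_ifs
  · refine (key e (by omega)).trans ?_
    apply mul_le_mul_of_nonneg_left _ (by positivity)
    exact pow_le_pow_right₀ hW (by omega)
  · refine (key (r + 1 + e) (by omega)).trans ?_
    apply mul_le_mul_of_nonneg_left _ (by positivity)
    exact pow_le_pow_right₀ hW (by omega)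
  · rw [abs_mul]
    calc |yat y (j - 1)| * |ell u y ^ e| ≤ WW y * (2 ^ (M ^ 5) * WW y ^ e) :=
          mul_le_mul (abs_yat_le y _) (key e (by omega)) (abs_nonneg _) hW0.le
      _ = 2 ^ (M ^ 5) * WW y ^ (e + 1) := by ring
      _ ≤ 2 ^ (M ^ 5) * WW y ^ k := by
        apply mul_le_mul_of_nonneg_left _ (by positivity)
        exact pow_le_pow_right₀ hW (by omega)

theorem kbd (h : Hyp n U k M S) {w : AA n U ⊕ Fin n → ℕ} (hw : ∀ i, w i < 2 ^ (M ^ 11)) :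
    Kbd k w (2 ^ (M ^ 12)) := by
  intro x hx y
  have hB := h.hB
  have h64 := hB.M64
  have hn := hB.hn
  have hW := one_le_WW y
  have hWk : 1 ≤ WW y ^ k := one_le_pow₀ hW
  have hwr : ∀ i, (w i : ℝ) ≤ 2 ^ (M ^ 11) := fun i => by exact_mod_cast (hw i).le
  have h1 : |qth (fun a => (w (Sum.inl a) : ℝ)) y| ≤
      (M ^ 4 * (2 ^ (M ^ 11) * 2 ^ (M ^ 5)) : ℝ) * WW y ^ k := by
    unfold qth
    refine (Finset.abs_sum_le_sum_abs _ _).trans ?_
    have h2 : ∀ a : AA n U, |(w (Sum.inl a) : ℝ) * bf (a.1 : ℕ) (a.2.1 : ℕ) (a.2.2.1 : ℕ)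
        (a.2.2.2 : ℕ) y| ≤ 2 ^ (M ^ 11) * (2 ^ (M ^ 5) * WW y ^ k) := by
      intro a
      rw [abs_mul, Nat.abs_cast]
      exact mul_le_mul (hwr _) (abs_bf_le hB (Nat.lt_succ_iff.1 a.1.2)
        (Nat.lt_succ_iff.1 a.2.2.1.2) (a.2.1.2.le.trans hB.hU) h.hk y) (abs_nonneg _)
        (by positivity)
    refine (Finset.sum_le_sum fun a _ => h2 a).trans ?_
    rw [Finset.sum_const, Finset.card_univ, nsmul_eq_mul]
    have h3 : (Fintype.card (AA n U) : ℝ) ≤ (M : ℝ) ^ 4 := by exact_mod_cast card_AA hB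
    calc (Fintype.card (AA n U) : ℝ) * (2 ^ (M ^ 11) * (2 ^ (M ^ 5) * WW y ^ k))
        ≤ (M : ℝ) ^ 4 * (2 ^ (M ^ 11) * (2 ^ (M ^ 5) * WW y ^ k)) :=
          mul_le_mul_of_nonneg_right h3 (by positivity)
      _ = _ := by ring
  have h4 : |∑ j, (w (Sum.inr j) : ℝ) * x j| ≤ (M * 2 ^ (M ^ 11) : ℝ) * WW y ^ k := by
    refine (Finset.abs_sum_le_sum_abs _ _).trans ?_
    have hx1 : ∀ j, |x j| ≤ 1 := by
      intro j
      have hx' : ∑ j, x j ^ 2 ≤ 1 ^ 2 := by rw [one_pow]; exact hx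
      apply abs_le_of_sq_le_sq _ (by norm_num)
      refine le_trans ?_ hx'
      exact Finset.single_le_sum (f := fun j => x j ^ 2) (fun j _ => sq_nonneg _)
        (Finset.mem_univ j)
    have h2 : ∀ j, |(w (Sum.inr j) : ℝ) * x j| ≤ 2 ^ (M ^ 11) := by
      intro j
      rw [abs_mul, Nat.abs_cast]
      calc (w (Sum.inr j) : ℝ) * |x j| ≤ 2 ^ (M ^ 11) * 1 :=
            mul_le_mul (hwr _) (hx1 j) (abs_nonneg _) (by positivity)
        _ = 2 ^ (M ^ 11) := mul_one _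
    refine (Finset.sum_le_sum fun j _ => h2 j).trans ?_
    rw [Finset.sum_const, Finset.card_univ, Fintype.card_fin, nsmul_eq_mul]
    have h3 : (n : ℝ) ≤ M := by exact_mod_cast (by omega : n ≤ M)
    calc (n : ℝ) * 2 ^ (M ^ 11) ≤ M * 2 ^ (M ^ 11) :=
          mul_le_mul_of_nonneg_right h3 (by positivity)
      _ = (M * 2 ^ (M ^ 11) : ℝ) * 1 := (mul_one _).symm
      _ ≤ _ := mul_le_mul_of_nonneg_left hWk (by positivity)
  refine (abs_add_le _ _).trans ((add_le_add h1 h4).trans ?_)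
  rw [← add_mul]
  apply mul_le_mul_of_nonneg_right _ (by positivity)
  have h5 : M ^ 4 * (2 ^ (M ^ 11) * 2 ^ (M ^ 5)) + M * 2 ^ (M ^ 11) ≤ 2 ^ (M ^ 12) := by
    have a4 : M ^ 4 ≤ 2 ^ M := (Nat.pow_le_pow_right (by omega) (by norm_num : 4 ≤ 10)).trans
      (M10 h64)
    have a1 : M ≤ 2 ^ M := Nat.lt_two_pow_self.le
    have b1 : 1 ≤ M ^ 5 := Nat.one_le_pow _ _ (by omega)
    have b5 : M ≤ M ^ 5 := by
      calc M = M ^ 1 := (pow_one M).symm
        _ ≤ M ^ 5 := Nat.pow_le_pow_right (by omega) (by norm_num)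
    have b11 : M ^ 5 ≤ M ^ 11 := Nat.pow_le_pow_right (by omega) (by norm_num)
    calc M ^ 4 * (2 ^ (M ^ 11) * 2 ^ (M ^ 5)) + M * 2 ^ (M ^ 11)
        ≤ 2 ^ M * (2 ^ (M ^ 11) * 2 ^ (M ^ 5)) + 2 ^ M * (2 ^ (M ^ 11) * 2 ^ (M ^ 5)) := by
          apply Nat.add_le_add (Nat.mul_le_mul_right _ a4)
          apply Nat.mul_le_mul a1
          exact Nat.le_mul_of_pos_right _ (Nat.pow_pos (by norm_num))
      _ = 2 ^ (M + (M ^ 11 + M ^ 5) + 1) := by
        rw [pow_succ, pow_add, pow_add]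
        ring
      _ ≤ 2 ^ (M ^ 12) := by
        apply Nat.pow_le_pow_right (by norm_num)
        calc M + (M ^ 11 + M ^ 5) + 1 ≤ M ^ 11 * 64 := by omega
          _ ≤ M ^ 11 * M := Nat.mul_le_mul_left _ h64
          _ = M ^ 12 := by ring
  exact_mod_cast h5

theorem eta_small (hM : 64 ≤ M) :
    cst (3 * M ^ 12 + 4) * 2 ^ (M ^ 12) / cst (2 * M ^ 12 + 2) ≤ 1 / 4 := by
  set L := M ^ 12 with hL
  have hL1 : 1 ≤ L := Nat.one_le_pow _ _ (by omega)
  set l := 2 ^ L with hl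
  have hl2 : 2 ≤ l := by
    calc 2 = 2 ^ 1 := (pow_one 2).symm
      _ ≤ 2 ^ L := Nat.pow_le_pow_right (by norm_num) hL1
  have hLl : L ≤ l := Nat.lt_two_pow_self.le
  have e0 : cst (3 * L + 4) = (1 / 2) ^ (16 * (l * l * l)) := by
    simp only [cst_eq]
    congr 1
    have : 3 * L + 4 = L + L + L + 4 := by ring
    rw [hl, this, pow_add, pow_add, pow_add]
    ring
  have e1 : cst (2 * L + 2) = (1 / 2) ^ (4 * (l * l)) := by
    simp only [cst_eq]
    congr 1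
    rw [hl, pow_add, two_mul, pow_add]
    ring
  rw [div_le_iff₀ (cst_pos _), e0, e1]
  calc ((1 : ℝ) / 2) ^ (16 * (l * l * l)) * 2 ^ L
      ≤ (1 / 2) ^ (4 * (l * l) + 2 + L) * 2 ^ L := by
        apply mul_le_mul_of_nonneg_right _ (by positivity)
        apply half_pow_le
        have h3 : 2 * (l * l) ≤ l * l * l := by nlinarith
        have h4 : 2 * l ≤ l * l := Nat.mul_le_mul_right _ hl2
        omega
    _ = 1 / 4 * (1 / 2) ^ (4 * (l * l)) := by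
        rw [two_pow_eq, pow_add, pow_add]
        have h1 : ((1 : ℝ) / 2) ^ L ≠ 0 := by positivity
        field_simp
        norm_num

theorem rho_lt_delta (M : ℕ) : cst (2 * M ^ 12 + 2) < cst (M ^ 12 + 1) := by
  simp only [cst_eq]
  apply pow_lt_pow_right_of_lt_one₀ (by norm_num) (by norm_num)
  apply Nat.pow_lt_pow_right (by norm_num)
  omega

/-- If the sentence is true, there is a good critical point. -/
theorem complete (h : Hyp n U k M S) (hX : HX n S) :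
    ∃ w : AA n U ⊕ Fin n → ℕ, (∀ i, w i < 2 ^ (M ^ 11)) ∧
      ∃ (r : Fin (n + 1)) (u : Fin U) (x : Fin n → ℝ) (Y : Fin ((r : ℕ) + 1) → Fin n → ℝ)
        (la : Fin ((r : ℕ) + 1) → ℝ) (t : ℝ), (∑ j, x j ^ 2 < 1) ∧
        (∀ y, cst (M ^ 12 + 1) ≤ Psi S k x y (cst (2 * M ^ 12 + 2))) ∧
        Crit S k r (fun a => cst (3 * M ^ 12 + 4) * w (Sum.inl a))
          (fun j => cst (3 * M ^ 12 + 4) * w (Sum.inr j)) (cst (2 * M ^ 12 + 2)) x Y la t ∧
        (jmat (r : ℕ) (u : ℕ) Y).det ≠ 0 ∧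
        ∀ κ : SS n U, ∃ p : Polynomial ℝ, p ≠ 0 ∧
          ∀ (x' : Fin n → ℝ) (Y' : Fin ((r : ℕ) + 1) → Fin n → ℝ)
            (la' : Fin ((r : ℕ) + 1) → ℝ) (t' : ℝ),
            Crit S k r (fun a => cst (3 * M ^ 12 + 4) * w (Sum.inl a))
              (fun j => cst (3 * M ^ 12 + 4) * w (Sum.inr j)) (cst (2 * M ^ 12 + 2))
              x' Y' la' t' → (jmat (r : ℕ) (u : ℕ) Y').det ≠ 0 →
            p.eval (zvec r u (fun a => cst (3 * M ^ 12 + 4) * w (Sum.inl a))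
              (cst (2 * M ^ 12 + 2)) x' Y' la' t' κ) = 0 := by
  have h64 := h.M64
  obtain ⟨w, hw, Q, hQ0, hQn, hQr⟩ := exists_package h.hB
  have hpk : Pkg n U k M S w Q := ⟨hQ0, hQn, hQr⟩
  have hK := kbd h hw
  have hK0 : (0 : ℝ) ≤ 2 ^ (M ^ 12) := by positivity
  set δ := cst (M ^ 12 + 1) with hδ
  set ρs := cst (2 * M ^ 12 + 2) with hρs
  set η := cst (3 * M ^ 12 + 4) with hη
  have hδ0 : 0 < δ := cst_pos _
  have hρ0 : 0 < ρs := cst_pos _
  have hη0 : 0 < η := cst_pos _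
  have hsm : η * 2 ^ (M ^ 12) / ρs ≤ 1 / 4 := eta_small h64
  have hlt : ρs < δ := rho_lt_delta M
  obtain ⟨V, hV⟩ := exists_val0 (n := n) S h.k1 hρ0
  obtain ⟨v, hv⟩ := exists_valw S h.k1 hK hρ0 hη0.le (hsm.trans (by norm_num))
  have h1 : 2 * δ ≤ V := gap_true h hpk hK hK0 hX hρ0 hV
  have h2 := val_ge hK hρ0 hη0.le (hsm.trans (by norm_num)) hv hV
  have h3 : 3 / 2 * δ ≤ v := by nlinarith
  have h4 : η * 2 ^ (M ^ 12) ≤ 1 / 4 * ρs := by rwa [div_le_iff₀ hρ0] at hsm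
  obtain ⟨r, u, x, Y, la, hx1, hmin, hc, hd⟩ := exists_crit h.hn h.hU h.k1 hK hρ0 hη0.le
    (hsm.trans (by norm_num)) hv (by linarith)
  have hxK : x ∈ KB n := hx1.le
  refine ⟨w, hw, r, u, x, Y, la, v, hx1, fun y => ?_, hc, hd, fun κ => ?_⟩
  · have h5 := hmin y
    have h6 := (abs_le.1 (Pw_bounds (S := S) hK hρ0 hη0.le hxK y)).2
    have h7 : 0 ≤ Psi S k x y ρs := hρ0.le.trans (Psi_ge' hxK hρ0.le)
    nlinarith
  · obtain ⟨p, hp1, hp2⟩ := hQr r u κ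
    refine ⟨p ρs η, ?_, fun x' Y' la' t' hc' hd' => hp2 ρs η x' Y' la' t' hc' hd'⟩
    have h8 := hp1 δ ρs η (lev3 (Nat.one_le_pow _ _ (by omega)) Q hQ0 hQn)
    intro h9
    rw [h9] at h8
    simp at h8

/-- If there is a point with large values, the sentence is true. -/
theorem sound (h : Hyp n U k M S) {x : Fin n → ℝ} (hx : x ∈ KB n)
    (hy : ∀ y, cst (M ^ 12 + 1) ≤ Psi S k x y (cst (2 * M ^ 12 + 2))) : ¬ HN n S := by
  intro hN
  obtain ⟨w, hw, Q, hQ0, hQn, hQr⟩ := exists_package h.hB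
  have hpk : Pkg n U k M S w Q := ⟨hQ0, hQn, hQr⟩
  have hK := kbd h hw
  have hK0 : (0 : ℝ) ≤ 2 ^ (M ^ 12) := by positivity
  obtain ⟨V, hV⟩ := exists_val0 (n := n) S h.k1 (cst_pos (2 * M ^ 12 + 2))
  have h1 := gap_false h hpk hK hK0 hN hV
  obtain ⟨y, h2⟩ := hV.2 x hx
  have h3 := hy y
  linarith

theorem root_sep (p : Polynomial ℝ) (hp : p ≠ 0) (z : ℝ) :
    ∃ ε > 0, ∀ z', |z' - z| < ε → p.eval z' = 0 → z' = z := by
  classical
  have hfin : (↑(p.roots.toFinset.erase z) : Set ℝ).Finite := Finset.finite_toSet _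
  have hcl : IsClosed (↑(p.roots.toFinset.erase z) : Set ℝ) := hfin.isClosed
  have hz : z ∈ (↑(p.roots.toFinset.erase z) : Set ℝ)ᶜ := by simp
  obtain ⟨ε, hε, hb⟩ := Metric.isOpen_iff.1 hcl.isOpen_compl z hz
  refine ⟨ε, hε, fun z' h1 h2 => ?_⟩
  by_contra hne
  have h3 : z' ∈ Metric.ball z ε := by
    rw [Metric.mem_ball, Real.dist_eq]
    exact h1
  apply hb h3
  rw [Finset.mem_coe, Finset.mem_erase, Multiset.mem_toFinset, Polynomial.mem_roots hp]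
  exact ⟨hne, h2⟩

/-- The critical point is isolated. -/
theorem isolated {r : Fin (n + 1)} {u : Fin U} {θ : AA n U → ℝ} {c : Fin n → ℝ} {ρ : ℝ}
    {x : Fin n → ℝ} {Y : Fin ((r : ℕ) + 1) → Fin n → ℝ} {la : Fin ((r : ℕ) + 1) → ℝ} {t : ℝ}
    (hc : Crit S k r θ c ρ x Y la t) (hd : (jmat (r : ℕ) (u : ℕ) Y).det ≠ 0)
    (hp : ∀ κ : SS n U, ∃ p : Polynomial ℝ, p ≠ 0 ∧
      ∀ (x' : Fin n → ℝ) (Y' : Fin ((r : ℕ) + 1) → Fin n → ℝ)
        (la' : Fin ((r : ℕ) + 1) → ℝ) (t' : ℝ), Crit S k r θ c ρ x' Y' la' t' →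
        (jmat (r : ℕ) (u : ℕ) Y').det ≠ 0 → p.eval (zvec r u θ ρ x' Y' la' t' κ) = 0) :
    ∃ ε > 0, ∀ (x' : Fin n → ℝ) (Y' : Fin ((r : ℕ) + 1) → Fin n → ℝ)
        (la' : Fin ((r : ℕ) + 1) → ℝ) (t' : ℝ), Crit S k r θ c ρ x' Y' la' t' →
        (∀ j, |x' j - x j| < ε) → (∀ i q, |Y' i q - Y i q| < ε) → (∀ i, |la' i - la i| < ε) →
        |t' - t| < ε → x' = x ∧ Y' = Y ∧ la' = la ∧ t' = t := by
  classical
  choose p hp0 hp1 using hp
  choose ε hε hsep using fun κ => root_sep (p κ) (hp0 κ) (zvec r u θ ρ x Y la t κ)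
  have hdc : Continuous fun Y' : Fin ((r : ℕ) + 1) → Fin n → ℝ =>
      (jmat (r : ℕ) (u : ℕ) Y').det := continuous_jdet continuous_id u
  have hopen : IsOpen {Y' : Fin ((r : ℕ) + 1) → Fin n → ℝ | (jmat (r : ℕ) (u : ℕ) Y').det ≠ 0} :=
    isOpen_ne_fun hdc continuous_const
  obtain ⟨ε1, hε1, hb⟩ := Metric.isOpen_iff.1 hopen Y hd
  obtain ⟨ε2, hε2, hle⟩ : ∃ ε2 > 0, ∀ κ, ε2 ≤ ε κ := by
    by_cases hne : Nonempty (SS n U)
    · obtain ⟨κ0, hκ0⟩ := Finite.exists_min ε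
      exact ⟨ε κ0, hε κ0, hκ0⟩
    · exact ⟨1, one_pos, fun κ => absurd ⟨κ⟩ hne⟩
  refine ⟨min ε1 ε2, lt_min hε1 hε2, fun x' Y' la' t' hc' h1 h2 h3 h4 => ?_⟩
  have hd' : (jmat (r : ℕ) (u : ℕ) Y').det ≠ 0 := by
    apply hb
    rw [Metric.mem_ball, dist_pi_lt_iff hε1]
    intro i
    rw [dist_pi_lt_iff hε1]
    intro q
    rw [Real.dist_eq]
    exact (h2 i q).trans_le (min_le_left _ _)
  have hz : zvec r u θ ρ x' Y' la' t' = zvec r u θ ρ x Y la t := by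
    funext κ
    apply hsep κ _ _ (hp1 κ x' Y' la' t' hc' hd')
    have hlt : min ε1 ε2 ≤ ε κ := (min_le_right _ _).trans (hle κ)
    match κ with
    | Sum.inl a =>
      by_cases hb : inb r u a
      · obtain ⟨r', u', i, b⟩ := a
        obtain ⟨h5, h6, h7⟩ := hb
        simp only at h5 h6 h7
        subst h5
        subst h6
        have hbb : inb r' u' (r', u', i, b) := ⟨rfl, rfl, h7⟩
        simp only [zvec, dif_pos hbb]
        refine lt_of_lt_of_le ?_ hlt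
        refine Fin.cases ?_ (fun q => ?_) b
        · simp only [Fin.cases_zero]
          split_ifs
          · exact h3 _
          · exact h4
        · simp only [Fin.cases_succ]
          exact h2 _ _
      · simp only [zvec, dif_neg hb, sub_self, abs_zero]
        exact hε _
    | Sum.inr (Sum.inl j) => exact (h1 j).trans_le hlt
    | Sum.inr (Sum.inr ()) =>
      simp only [zvec, sub_self, abs_zero]
      exact hε _
  refine ⟨funext fun j => ?_, funext fun i => funext fun q => ?_, funext fun i => ?_, ?_⟩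
  · have h5 := xO_zvec (r := r) (u := u) (θ := θ) (ρ := ρ) (x := x') (Y := Y') (la := la')
      (t := t') j
    rw [← h5, hz]
    rfl
  · have h5 := yO_zvec (r := r) (u := u) (θ := θ) (ρ := ρ) (x := x') (Y := Y') (la := la')
      (t := t') i q
    rw [← h5, hz, yO_zvec]
  · have h5 := laO_zvec (r := r) (u := u) (θ := θ) (ρ := ρ) (x := x') (Y := Y') (la := la')
      (t := t') hc'.one i
    rw [← h5, hz, laO_zvec hc.one]
  · have h5 := tO_zvec (r := r) (u := u) (θ := θ) (ρ := ρ) (x := x') (Y := Y') (la := la')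
      (t := t')
    rw [← h5, hz, tO_zvec]

end Pool.Agent.TH662.IP
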