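import Mathlib
import Pool.Agent.TH662.IP.Form
import Pool.Agent.TH662.IP.Iso

/-!
# Isolated points of the set defined by the formula
-/

namespace Pool.Agent.TH662.IP

open Finset Pool.Agent.NPC Pool.Agent.NPC.ER Pool.Agent.NPC.H612

/-- Extension by zero. -/
def ex0 {N : ℕ} (z : Fin N → ℝ) (k : ℕ) : ℝ := if h : k < N then z ⟨k, h⟩ else 0

/-- The set defined by a formula. -/
def SP (N : ℕ) (φ : Fm) : Set (Fin N → ℝ) := {z | φ.Holds (ex0 z)}

/-- Existence of an isolated point, in terms of coordinates. -/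
def IsoP (N : ℕ) (φ : Fm) : Prop :=
  ∃ z ∈ SP N φ, ∃ ε > 0, ∀ z' ∈ SP N φ, (∀ k, |z' k - z k| < ε) → z' = z

theorem ex0_lt {N : ℕ} (z : Fin N → ℝ) {k : ℕ} (h : k < N) : ex0 z k = z ⟨k, h⟩ := dif_pos h

section layout

variable (n U g L : ℕ)

theorem lay1 : oA n = 2 * n + 2 := rfl
theorem lay2 : oL n L = oA n + (3 * L + 5) := rfl
theorem lay3 : oF n L = oL n L + (n + 1) := rfl
theorem lay4 : oY n L = oF n L + (n + 1) := rfl
theorem lay5 : oB n L = oY n L + (n + 1) * n := rfl
theorem lay6 : NT n U g L = oB n L + (cA n U + n) * g := rfl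

end layout

section congr

variable {n U k g L : ℕ} {S : Sys} {v v' : ℕ → ℝ}

theorem xV_congr (h : ∀ i < n, v i = v' i) : xV n v = xV n v' := funext fun j => h j j.2

theorem YV_congr {i : ℕ} (h : ∀ j < n, v (oY n L + i * n + j) = v' (oY n L + i * n + j)) :
    YV n L v i = YV n L v' i := funext fun j => h j j.2

theorem wV_congr {a : ℕ} (h : ∀ i < g, v (oB n L + a * g + i) = v' (oB n L + a * g + i)) :
    wV n g L v a = wV n g L v' a := by
  unfold wV
  refine Finset.sum_congr rfl fun i _ => ?_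
  rw [h i i.2]

theorem SemD.congr (hs : SemD n U k g L S v)
    (h : ∀ i < NT n U g L, (i < n ∨ 2 * n < i) → v i = v' i) : SemD n U k g L S v' := by
  have l1 := lay1 n
  have l2 := lay2 n L
  have l3 := lay3 n L
  have l4 := lay4 n L
  have l5 := lay5 n L
  have l6 := lay6 n U g L
  have hb : ∀ b < (cA n U + n) * g, v (oB n L + b) = v' (oB n L + b) := fun b hb =>
    h _ (by omega) (by omega)
  have hF : ∀ i < n + 1, v (oF n L + i) = v' (oF n L + i) := fun i hi =>
    h _ (by omega) (by omega)
  have hL : ∀ i < n + 1, v (oL n L + i) = v' (oL n L + i) := fun i hi =>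
    h _ (by omega) (by omega)
  have hA : ∀ i < 3 * L + 5, v (oA n + i) = v' (oA n + i) := fun i hi =>
    h _ (by omega) (by omega)
  have hY : ∀ i < n + 1, ∀ j < n, v (oY n L + i * n + j) = v' (oY n L + i * n + j) := by
    intro i hi j hj
    have := idx_lt hi hj
    exact h _ (by omega) (by omega)
  have hx : xV n v = xV n v' := xV_congr fun i hi => h i (by omega) (Or.inl hi)
  have hYV : ∀ i < n + 1, YV n L v i = YV n L v' i := fun i hi => YV_congr (hY i hi)
  have hw : ∀ a < cA n U + n, wV n g L v a = wV n g L v' a := by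
    intro a ha
    apply wV_congr
    intro i hi
    rw [add_assoc]
    exact hb _ (idx_lt ha hi)
  have hθ : ∀ a < cA n U + n, θV n g L v a = θV n g L v' a := by
    intro a ha
    unfold θV
    rw [hA _ (by omega), hw a ha]
  have hθ1 : (fun a : AA n U => θV n g L v (aid a)) = fun a => θV n g L v' (aid a) :=
    funext fun a => hθ _ (by have := aidx_lt a; omega)
  have ht : v (2 * n + 1) = v' (2 * n + 1) := h _ (by omega) (by omega)
  refine ⟨fun b hb' => ?_, fun i hi => ?_, ?_, fun i hi => ?_, ?_, fun i hi j hj => ?_,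
    fun i hi => ?_, fun i hi => ?_, fun i hi q => ?_, fun j => ?_, ?_⟩
  · rw [← hb b hb']
    exact hs.bits b hb'
  · rw [← hF i hi]
    exact hs.flags i hi
  · rw [← hA 0 (by omega)]
    exact hs.ch0
  · rw [← hA i (by omega), ← hA (i + 1) (by omega)]
    exact hs.ch i hi
  · rw [← hx]
    exact hs.ball
  · rw [← hF i hi, ← hY i hi j hj]
    exact hs.yz i hi j hj
  · rw [← hF i hi, ← hL i hi]
    exact hs.lz i hi
  · have h1 := hs.val i hi
    rw [hF i hi, hx, hYV i hi, hA _ (by omega), hθ1, ht] at h1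
    have h2 : ∑ j : Fin n, θV n g L v (cA n U + j) * xV n v' j =
        ∑ j : Fin n, θV n g L v' (cA n U + j) * xV n v' j :=
      Finset.sum_congr rfl fun j _ => by rw [hθ _ (by have := j.2; omega)]
    rw [h2] at h1
    exact h1
  · have h1 := hs.dy i hi q
    rw [hF i hi, hx, hYV i hi, hA _ (by omega), hθ1] at h1
    exact h1
  · have h1 := hs.dx j
    rw [hθ _ (by have := j.2; omega), hx] at h1
    have h2 : ∑ i : Fin (n + 1), v (oL n L + i) * dxP S (xV n v') (YV n L v i) j =
        ∑ i : Fin (n + 1), v' (oL n L + i) * dxP S (xV n v') (YV n L v' i) j :=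
      Finset.sum_congr rfl fun i _ => by rw [hL i i.2, hYV i i.2]
    rw [h2] at h1
    exact h1
  · have h1 := hs.one
    rw [← h1]
    exact Finset.sum_congr rfl fun i _ => (hL i i.2).symm

theorem SemD.chain (hs : SemD n U k g L S v) : ∀ i ≤ 3 * L + 4, v (oA n + i) = cst i := by
  intro i
  induction i with
  | zero =>
    intro _
    have h1 := hs.ch0
    have h2 : cst 0 = 1 / 2 := by rw [cst_eq]; norm_num
    rw [h2]
    linarith
  | succ i ih =>
    intro hi
    rw [hs.ch i (by omega), ih (by omega), cst_succ]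
    ring

end congr

section sound

variable {n U k M : ℕ} {S : Sys}

theorem sound_iso (h : Hyp n U k M S)
    (hi : IsoP (NT n U (M ^ 11) (M ^ 12)) (isoF n U k (M ^ 11) (M ^ 12) S)) : ¬ HN n S := by
  classical
  set g := M ^ 11 with hg
  set L := M ^ 12 with hL
  obtain ⟨z, hz, ε, hε, hiso⟩ := hi
  have l1 := lay1 n
  have l2 := lay2 n L
  have l3 := lay3 n L
  have l4 := lay4 n L
  have l5 := lay5 n L
  have l6 := lay6 n U g L
  have hk3 : 3 ≤ k := by have := h.hk; omega
  have hz' : (isoF n U k g L S).Holds (ex0 z) := hz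
  unfold isoF at hz'
  rw [Fm.Holds, holds_dF, holds_cF hk3] at hz'
  obtain ⟨hD, hC⟩ := hz'
  have hch := hD.chain
  -- moving the last coordinates
  have key : ∀ (a : ℝ) (b : Fin n → ℝ), 0 < a → (∀ τ : ℝ, 0 < τ →
      0 < ex0 z (2 * n) + τ * a ∧ Psi S k (xV n (ex0 z)) (fun j => (ex0 z (n + j) + τ * b j) /
        (ex0 z (2 * n) + τ * a)) (cst (2 * L + 2)) < cst (L + 1)) → False := by
    intro a b ha hcon
    have hsum : 0 ≤ ∑ j, |b j| := Finset.sum_nonneg fun j _ => abs_nonneg _
    set τ := ε / (2 * (1 + a + ∑ j, |b j|)) with hτ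
    have hden : 0 < 2 * (1 + a + ∑ j, |b j|) := by linarith
    have hτ0 : 0 < τ := div_pos hε hden
    have hτε : τ * (1 + a + ∑ j, |b j|) = ε / 2 := by
      rw [hτ]
      field_simp
    let z' : Fin (NT n U g L) → ℝ := fun i =>
      if (i : ℕ) = 2 * n then ex0 z (2 * n) + τ * a
      else if h2 : n ≤ (i : ℕ) ∧ (i : ℕ) < 2 * n then
        ex0 z i + τ * b ⟨(i : ℕ) - n, by omega⟩ else z i
    have hz1 : ∀ i, (i < n ∨ 2 * n < i) → ex0 z' i = ex0 z i := by
      intro i hi
      unfold ex0
      by_cases h1 : i < NT n U g L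
      · rw [dif_pos h1, dif_pos h1]
        simp only [z']
        rw [if_neg (by omega), dif_neg (by omega)]
      · rw [dif_neg h1, dif_neg h1]
    have hz2 : ex0 z' (2 * n) = ex0 z (2 * n) + τ * a := by
      rw [ex0_lt z' (by omega)]
      simp only [z', if_true]
    have hz3 : ∀ j : Fin n, ex0 z' (n + j) = ex0 z (n + j) + τ * b j := by
      intro j
      have hj := j.2
      rw [ex0_lt z' (by omega)]
      simp only [z']
      rw [if_neg (by omega), dif_pos (by omega)]
      congr 3
      apply Fin.ext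
      simp
    have hmem : z' ∈ SP (NT n U g L) (isoF n U k g L S) := by
      change (isoF n U k g L S).Holds (ex0 z')
      unfold isoF
      rw [Fm.Holds, holds_dF, holds_cF hk3]
      refine ⟨hD.congr fun i _ hi => (hz1 i hi).symm, Or.inr ?_⟩
      obtain ⟨h1, h2⟩ := hcon τ hτ0
      have hx : xV n (ex0 z') = xV n (ex0 z) := xV_congr fun i hi => hz1 i (Or.inl hi)
      have hv : (fun j => vV n (ex0 z') j / ex0 z' (2 * n)) = fun j : Fin n =>
          (ex0 z (n + j) + τ * b j) / (ex0 z (2 * n) + τ * a) := by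
        funext j
        unfold vV
        rw [hz3, hz2]
      rw [hx, hv, hz1 (oA n + (2 * L + 2)) (by omega), hz1 (oA n + (L + 1)) (by omega),
        hch (2 * L + 2) (by omega), hch (L + 1) (by omega), hz2]
      exact ⟨h1, h2⟩
    have hclose : ∀ i, |z' i - z i| < ε := by
      intro i
      simp only [z']
      have hb : ∀ c : ℝ, |c| ≤ 1 + a + ∑ j, |b j| → |τ * c| < ε := by
        intro c hc
        rw [abs_mul, abs_of_pos hτ0]
        calc τ * |c| ≤ τ * (1 + a + ∑ j, |b j|) := mul_le_mul_of_nonneg_left hc hτ0.le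
          _ = ε / 2 := hτε
          _ < ε := by linarith
      split_ifs with h1 h2
      · have h3 : ex0 z (2 * n) = z i := by
          rw [ex0_lt z (by omega)]
          congr 1
          exact Fin.ext h1.symm
        rw [h3, add_sub_cancel_left]
        apply hb
        rw [abs_of_pos ha]
        linarith
      · have h3 : ex0 z (i : ℕ) = z i := ex0_lt z i.2
        rw [h3, add_sub_cancel_left]
        apply hb
        have := Finset.single_le_sum (f := fun j => |b j|) (fun j _ => abs_nonneg _)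
          (Finset.mem_univ (⟨(i : ℕ) - n, by omega⟩ : Fin n))
        linarith
      · rw [sub_self, abs_zero]
        exact hε
    have heq := hiso z' hmem hclose
    rw [heq] at hz2
    have : 0 < τ * a := mul_pos hτ0 ha
    linarith
  rw [hch (2 * L + 2) (by omega), hch (L + 1) (by omega)] at hC
  rcases hC with ⟨hs0, hv0⟩ | ⟨hs, hPsi⟩
  · -- the point is at level zero
    apply sound h (x := xV n (ex0 z)) hD.ball.le
    intro y
    by_contra hlt
    push Not at hlt
    refine key 1 y one_pos fun τ hτ => ⟨by rw [hs0]; linarith, ?_⟩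
    have : (fun j : Fin n => (ex0 z (n + j) + τ * y j) / (ex0 z (2 * n) + τ * 1)) = y := by
      funext j
      rw [hs0, hv0 j j.2, zero_add, zero_add, mul_one, mul_div_cancel_left₀ _ hτ.ne']
    rw [this]
    exact hlt
  · exfalso
    refine key (ex0 z (2 * n)) (fun j => ex0 z (n + j)) hs fun τ hτ => ⟨by nlinarith, ?_⟩
    have : (fun j : Fin n => (ex0 z (n + j) + τ * ex0 z (n + j)) /
        (ex0 z (2 * n) + τ * ex0 z (2 * n))) = fun j => vV n (ex0 z) j / ex0 z (2 * n) := by
      funext j
      unfold vV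
      have h1 : (1 + τ) ≠ 0 := by positivity
      rw [show ex0 z (n + j) + τ * ex0 z (n + j) = (1 + τ) * ex0 z (n + j) by ring,
        show ex0 z (2 * n) + τ * ex0 z (2 * n) = (1 + τ) * ex0 z (2 * n) by ring,
        mul_div_mul_left _ _ h1]
    rw [this]
    exact hPsi

end sound

/-! ### Completeness -/

theorem aid_inj {n U : ℕ} : Function.Injective (aid : AA n U → ℕ) := by
  rintro ⟨⟨r, hr⟩, ⟨u, hu⟩, ⟨e, he⟩, ⟨j, hj⟩⟩ ⟨⟨r', hr'⟩, ⟨u', hu'⟩, ⟨e', he'⟩, ⟨j', hj'⟩⟩ h
  unfold aid aidx at h
  simp only at h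
  obtain ⟨h1, h2⟩ := gN_inj hj hj' h
  obtain ⟨h3, h4⟩ := gN_inj he he' h1
  obtain ⟨h5, h6⟩ := gN_inj hu hu' h3
  subst h2 h4 h5 h6
  rfl

theorem sum_testBit (w g : ℕ) : (∑ i : Fin g, 2 ^ (i : ℕ) * (if w.testBit i then (1 : ℝ) else 0)) =
    ((w % 2 ^ g : ℕ) : ℝ) := by
  rw [← Finset.sum_range (f := fun i => (2 : ℝ) ^ i * (if w.testBit i then (1 : ℝ) else 0))]
  induction g with
  | zero => simp [Nat.mod_one]
  | succ g ih =>
    rw [Finset.sum_range_succ, ih, Nat.mod_pow_succ, Nat.testBit_eq_decide_div_mod_eq]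
    push_cast
    congr 2
    rcases Nat.mod_two_eq_zero_or_one (w / 2 ^ g) with h | h
    · simp [h]
    · simp [h]

section v0

variable (n L g : ℕ) (x : Fin n → ℝ) (t : ℝ) (r : ℕ) (la : ℕ → ℝ) (Yf : ℕ → Fin n → ℝ)
  (w : ℕ → ℕ)

/-- The coordinates of the isolated point. -/
noncomputable def V0 (k : ℕ) : ℝ :=
  if h : k < n then x ⟨k, h⟩
  else if k < 2 * n + 1 then 0
  else if k = 2 * n + 1 then t
  else if k < oL n L then cst (k - oA n)
  else if k < oF n L then la (k - oL n L)
  else if k < oY n L then (if k - oF n L ≤ r then 1 else 0)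
  else if k < oB n L then
    (if h : (k - oY n L) % n < n then Yf ((k - oY n L) / n) ⟨(k - oY n L) % n, h⟩ else 0)
  else if (w ((k - oB n L) / g)).testBit ((k - oB n L) % g) then 1 else 0

theorem V0_x (j : Fin n) : V0 n L g x t r la Yf w j = x j := by
  unfold V0
  rw [dif_pos j.2]

theorem V0_z {k : ℕ} (h1 : n ≤ k) (h2 : k < 2 * n + 1) : V0 n L g x t r la Yf w k = 0 := by
  unfold V0
  rw [dif_neg (by omega), if_pos h2]

theorem V0_t : V0 n L g x t r la Yf w (2 * n + 1) = t := by
  unfold V0
  rw [dif_neg (by omega), if_neg (by omega), if_pos rfl]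

theorem V0_A {i : ℕ} (hi : i < 3 * L + 5) : V0 n L g x t r la Yf w (oA n + i) = cst i := by
  have l1 := lay1 n
  have l2 := lay2 n L
  unfold V0
  rw [dif_neg (by omega), if_neg (by omega), if_neg (by omega), if_pos (by omega),
    Nat.add_sub_cancel_left]

theorem V0_L {i : ℕ} (hi : i < n + 1) : V0 n L g x t r la Yf w (oL n L + i) = la i := by
  have l1 := lay1 n
  have l2 := lay2 n L
  have l3 := lay3 n L
  unfold V0
  rw [dif_neg (by omega), if_neg (by omega), if_neg (by omega), if_neg (by omega),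
    if_pos (by omega), Nat.add_sub_cancel_left]

theorem V0_F {i : ℕ} (hi : i < n + 1) :
    V0 n L g x t r la Yf w (oF n L + i) = if i ≤ r then 1 else 0 := by
  have l1 := lay1 n
  have l2 := lay2 n L
  have l3 := lay3 n L
  have l4 := lay4 n L
  unfold V0
  rw [dif_neg (by omega), if_neg (by omega), if_neg (by omega), if_neg (by omega),
    if_neg (by omega), if_pos (by omega), Nat.add_sub_cancel_left]

theorem V0_Y {i : ℕ} (hi : i < n + 1) (j : Fin n) :
    V0 n L g x t r la Yf w (oY n L + i * n + j) = Yf i j := by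
  have l1 := lay1 n
  have l2 := lay2 n L
  have l3 := lay3 n L
  have l4 := lay4 n L
  have l5 := lay5 n L
  have h1 := idx_lt hi j.2
  unfold V0
  rw [dif_neg (by omega), if_neg (by omega), if_neg (by omega), if_neg (by omega),
    if_neg (by omega), if_neg (by omega), if_pos (by omega), add_assoc, Nat.add_sub_cancel_left]
  have h2 : (i * n + j) / n = i := by
    rw [mul_comm, Nat.mul_add_div (by have := j.2; omega), Nat.div_eq_of_lt j.2, add_zero]
  have h3 : (i * n + j) % n = j := by
    rw [mul_comm, Nat.mul_add_mod, Nat.mod_eq_of_lt j.2]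
  rw [dif_pos (by rw [h3]; exact j.2), h2]
  congr 1
  exact Fin.ext h3

theorem V0_B (b : ℕ) : V0 n L g x t r la Yf w (oB n L + b) =
    if (w (b / g)).testBit (b % g) then 1 else 0 := by
  have l1 := lay1 n
  have l2 := lay2 n L
  have l3 := lay3 n L
  have l4 := lay4 n L
  have l5 := lay5 n L
  unfold V0
  rw [dif_neg (by omega), if_neg (by omega), if_neg (by omega), if_neg (by omega),
    if_neg (by omega), if_neg (by omega), if_neg (by omega), Nat.add_sub_cancel_left]

theorem wV_V0 {a : ℕ} (ha : w a < 2 ^ g) : wV n g L (V0 n L g x t r la Yf w) a = w a := by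
  unfold wV
  rw [← Nat.mod_eq_of_lt ha, ← sum_testBit]
  refine Finset.sum_congr rfl fun i _ => ?_
  rw [add_assoc, V0_B]
  have hi := i.2
  have h2 : (a * g + i) / g = a := by
    rw [mul_comm, Nat.mul_add_div (by omega), Nat.div_eq_of_lt hi, add_zero]
  have h3 : (a * g + i) % g = i := by
    rw [mul_comm, Nat.mul_add_mod, Nat.mod_eq_of_lt hi]
  rw [h2, h3]

end v0

theorem sum_ext_zero {n r : ℕ} (hr : r ≤ n) (f : ℕ → ℝ) (hf : ∀ i < n + 1, r < i → f i = 0) :
    ∑ i : Fin (n + 1), f i = ∑ i : Fin (r + 1), f i := by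
  rw [← Finset.sum_range, ← Finset.sum_range]
  symm
  apply Finset.sum_subset
  · intro i hi
    rw [Finset.mem_range] at hi ⊢
    omega
  · intro i hi hi2
    rw [Finset.mem_range] at hi hi2
    exact hf i hi (by omega)

section complete

variable {n U k M : ℕ} {S : Sys}

/-- Existence of an isolated point, if the sentence is true. -/
theorem complete_iso (h : Hyp n U k M S) (hX : HX n S) :
    IsoP (NT n U (M ^ 11) (M ^ 12)) (isoF n U k (M ^ 11) (M ^ 12) S) := by
  classical
  obtain ⟨w, hw, r, u, x, Y, la, t, hx1, hmin, hc, hd, hrel⟩ := complete h hX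
  obtain ⟨ε1, hε1, hiso⟩ := isolated hc hd hrel
  set g := M ^ 11 with hg
  set L := M ^ 12 with hL
  have l1 := lay1 n
  have l2 := lay2 n L
  have l3 := lay3 n L
  have l4 := lay4 n L
  have l5 := lay5 n L
  have l6 := lay6 n U g L
  have hk3 : 3 ≤ k := by have := h.hk; omega
  have hr := r.2
  -- extensions
  let wN : ℕ → ℕ := fun a => if h : ∃ a' : AA n U, aid a' = a then w (Sum.inl h.choose)
    else if h : a - cA n U < n then w (Sum.inr ⟨a - cA n U, h⟩) else 0
  have hwN1 : ∀ a, wN (aid a) = w (Sum.inl a) := by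
    intro a
    have hex : ∃ a' : AA n U, aid a' = aid a := ⟨a, rfl⟩
    simp only [wN]
    rw [dif_pos hex, aid_inj hex.choose_spec]
  have hwN2 : ∀ j : Fin n, wN (cA n U + j) = w (Sum.inr j) := by
    intro j
    have hex : ¬ ∃ a' : AA n U, aid a' = cA n U + j := by
      rintro ⟨a', ha'⟩
      have := aidx_lt a'
      omega
    simp only [wN]
    rw [dif_neg hex, dif_pos (by rw [Nat.add_sub_cancel_left]; exact j.2)]
    congr 2
    exact Fin.ext (Nat.add_sub_cancel_left _ _)
  have hwN3 : ∀ a, wN a < 2 ^ g := by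
    intro a
    simp only [wN]
    split_ifs
    · exact hw _
    · exact hw _
    · exact Nat.pow_pos (by norm_num)
  let laN : ℕ → ℝ := fun i => if h : i < (r : ℕ) + 1 then la ⟨i, h⟩ else 0
  let YN : ℕ → Fin n → ℝ := fun i => if h : i < (r : ℕ) + 1 then Y ⟨i, h⟩ else 0
  have hlaN : ∀ i : Fin ((r : ℕ) + 1), laN i = la i := fun i => dif_pos i.2
  have hYN : ∀ i : Fin ((r : ℕ) + 1), YN i = Y i := fun i => dif_pos i.2
  have hlaN0 : ∀ i, (r : ℕ) < i → laN i = 0 := fun i hi => dif_neg (by omega)
  have hYN0 : ∀ i, (r : ℕ) < i → YN i = 0 := fun i hi => dif_neg (by omega)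
  set v := V0 n L g x t r laN YN wN with hv
  have vx : xV n v = x := funext fun j => V0_x n L g x t r laN YN wN j
  have vY : ∀ i < n + 1, YV n L v i = YN i := fun i hi => funext fun j =>
    V0_Y n L g x t r laN YN wN hi j
  have vw : ∀ a, wV n g L v a = wN a := fun a => wV_V0 n L g x t r laN YN wN (hwN3 a)
  have vA : ∀ i < 3 * L + 5, v (oA n + i) = cst i := fun i hi => V0_A n L g x t r laN YN wN hi
  have vL : ∀ i < n + 1, v (oL n L + i) = laN i := fun i hi => V0_L n L g x t r laN YN wN hi
  have vF : ∀ i < n + 1, v (oF n L + i) = if i ≤ (r : ℕ) then 1 else 0 := fun i hi =>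
    V0_F n L g x t r laN YN wN hi
  have vt : v (2 * n + 1) = t := V0_t n L g x t r laN YN wN
  have vB : ∀ b, v (oB n L + b) = if (wN (b / g)).testBit (b % g) then 1 else 0 := fun b =>
    V0_B n L g x t r laN YN wN b
  have vθ : ∀ a : AA n U, θV n g L v (aid a) = cst (3 * L + 4) * w (Sum.inl a) := by
    intro a
    unfold θV
    rw [vA _ (by omega), vw, hwN1]
  have vc : ∀ j : Fin n, θV n g L v (cA n U + j) = cst (3 * L + 4) * w (Sum.inr j) := by
    intro j
    unfold θV
    rw [vA _ (by omega), vw, hwN2]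
  have hD : SemD n U k g L S v := by
    refine ⟨fun b _ => ?_, fun i hi => ?_, ?_, fun i hi => ?_, ?_, fun i hi j hj => ?_,
      fun i hi => ?_, fun i hi => ?_, fun i hi q => ?_, fun j => ?_, ?_⟩
    · rw [vB]
      split_ifs <;> norm_num
    · rw [vF i hi]
      split_ifs <;> norm_num
    · rw [vA 0 (by omega), cst_eq]
      norm_num
    · rw [vA i (by omega), vA (i + 1) (by omega), cst_succ]
      ring
    · rw [vx]
      exact hx1
    · rw [vF i hi]
      split_ifs with h1
      · rw [sub_self, zero_mul]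
      · have h2 := congrFun (vY i hi) ⟨j, hj⟩
        rw [hYN0 i (by omega)] at h2
        have h3 : v (oY n L + i * n + j) = 0 := h2
        rw [h3, mul_zero]
    · rw [vF i hi]
      split_ifs with h1
      · rw [sub_self, zero_mul]
      · rw [vL i hi, hlaN0 i (by omega), mul_zero]
    · rw [vF i hi]
      split_ifs with h1
      · have h2 := hc.val ⟨i, by omega⟩
        rw [vx, vY i hi, vA _ (by omega), vt, one_mul]
        have h3 : YN i = Y ⟨i, by omega⟩ := hYN ⟨i, by omega⟩
        rw [h3]
        simp only [vθ, vc]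
        linarith
      · rw [zero_mul]
    · rw [vF i hi]
      split_ifs with h1
      · have h2 := hc.dy ⟨i, by omega⟩ q
        rw [vx, vY i hi, vA _ (by omega), one_mul]
        have h3 : YN i = Y ⟨i, by omega⟩ := hYN ⟨i, by omega⟩
        rw [h3]
        simp only [vθ]
        exact h2
      · rw [zero_mul]
    · have h1 := hc.dx j
      rw [vc j, vx]
      have h2 : ∑ i : Fin (n + 1), v (oL n L + i) * dxP S x (YV n L v i) j =
          ∑ i : Fin (n + 1), laN i * dxP S x (YN i) j :=
        Finset.sum_congr rfl fun i _ => by rw [vL i i.2, vY i i.2]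
      rw [h2, sum_ext_zero (r := r) (by omega) (fun i => laN i * dxP S x (YN i) j)
        (fun i _ hi => by rw [hlaN0 i hi, zero_mul])]
      simp only [hlaN, hYN]
      exact h1
    · rw [← hc.one]
      have h2 : ∑ i : Fin (n + 1), v (oL n L + i) = ∑ i : Fin (n + 1), laN i :=
        Finset.sum_congr rfl fun i _ => vL i i.2
      rw [h2, sum_ext_zero (r := r) (by omega) laN (fun i _ hi => hlaN0 i hi)]
      simp only [hlaN]
  let z : Fin (NT n U g L) → ℝ := fun i => v i
  have hz : ∀ i < NT n U g L, ex0 z i = v i := fun i hi => ex0_lt z hi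
  refine ⟨z, ?_, min ε1 (1 / 2), lt_min hε1 (by norm_num), fun z' hz' hcl => ?_⟩
  · change (isoF n U k g L S).Holds (ex0 z)
    unfold isoF
    rw [Fm.Holds, holds_dF, holds_cF hk3]
    refine ⟨hD.congr fun i hi _ => (hz i hi).symm, Or.inl ⟨?_, fun j hj => ?_⟩⟩
    · rw [hz _ (by omega)]
      exact V0_z n L g x t r laN YN wN (by omega) (by omega)
    · rw [hz _ (by omega)]
      exact V0_z n L g x t r laN YN wN (by omega) (by omega)
  -- uniqueness
  have hz'' : (isoF n U k g L S).Holds (ex0 z') := hz'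
  unfold isoF at hz''
  rw [Fm.Holds, holds_dF, holds_cF hk3] at hz''
  obtain ⟨hD', hC'⟩ := hz''
  set v' := ex0 z' with hv'
  have hch := hD'.chain
  have hcl' : ∀ i < NT n U g L, |v' i - v i| < min ε1 (1 / 2) := by
    intro i hi
    rw [hv', ex0_lt z' hi]
    exact hcl ⟨i, hi⟩
  have hcl1 : ∀ i < NT n U g L, |v' i - v i| < ε1 := fun i hi =>
    (hcl' i hi).trans_le (min_le_left _ _)
  have hbit : ∀ a b : ℝ, a * a = a → b * b = b → |a - b| < 1 / 2 → a = b := by
    intro a b ha hb hab
    have h1 : a = 0 ∨ a = 1 := by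
      rcases mul_eq_zero.1 (show a * (a - 1) = 0 by linarith) with h | h
      · exact Or.inl h
      · exact Or.inr (by linarith)
    have h2 : b = 0 ∨ b = 1 := by
      rcases mul_eq_zero.1 (show b * (b - 1) = 0 by linarith) with h | h
      · exact Or.inl h
      · exact Or.inr (by linarith)
    rcases h1 with rfl | rfl <;> rcases h2 with rfl | rfl
    · rfl
    · norm_num at hab
    · norm_num at hab
    · rfl
  have eB : ∀ b < (cA n U + n) * g, v' (oB n L + b) = v (oB n L + b) := fun b hb =>
    hbit _ _ (hD'.bits b hb) (hD.bits b hb) ((hcl' _ (by omega)).trans_le (min_le_right _ _))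
  have eF : ∀ i < n + 1, v' (oF n L + i) = v (oF n L + i) := fun i hi =>
    hbit _ _ (hD'.flags i hi) (hD.flags i hi) ((hcl' _ (by omega)).trans_le (min_le_right _ _))
  have eA : ∀ i < 3 * L + 5, v' (oA n + i) = v (oA n + i) := fun i hi => by
    rw [hch i (by omega), vA i hi]
  have ew : ∀ a < cA n U + n, wV n g L v' a = wV n g L v a := by
    intro a ha
    apply wV_congr
    intro i hi
    rw [add_assoc]
    exact eB _ (idx_lt ha hi)
  have eθ : ∀ a < cA n U + n, θV n g L v' a = θV n g L v a := by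
    intro a ha
    unfold θV
    rw [eA _ (by omega), ew a ha]
  have eθ1 : (fun a : AA n U => θV n g L v' (aid a)) = fun a =>
      cst (3 * L + 4) * (w (Sum.inl a) : ℝ) :=
    funext fun a => by rw [eθ _ (by have := aidx_lt a; omega), vθ]
  have hf1 : ∀ i ≤ (r : ℕ), v' (oF n L + i) = 1 := by
    intro i hi
    rw [eF i (by omega), vF i (by omega), if_pos hi]
  have hf0 : ∀ i < n + 1, (r : ℕ) < i → v' (oF n L + i) = 0 := by
    intro i hi hi2
    rw [eF i hi, vF i hi, if_neg (by omega)]
  have hla0 : ∀ i < n + 1, (r : ℕ) < i → v' (oL n L + i) = 0 := by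
    intro i hi hi2
    have := hD'.lz i hi
    rw [hf0 i hi hi2] at this
    linarith
  have hY0 : ∀ i < n + 1, (r : ℕ) < i → ∀ j < n, v' (oY n L + i * n + j) = 0 := by
    intro i hi hi2 j hj
    have := hD'.yz i hi j hj
    rw [hf0 i hi hi2] at this
    linarith
  have hcrit : Crit S k r (fun a => cst (3 * L + 4) * (w (Sum.inl a) : ℝ))
      (fun j => cst (3 * L + 4) * (w (Sum.inr j) : ℝ)) (cst (2 * L + 2)) (xV n v')
      (fun i => YV n L v' i) (fun i => v' (oL n L + i)) (v' (2 * n + 1)) := by
    refine ⟨fun i => ?_, fun i q => ?_, fun j => ?_, ?_⟩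
    · have hi := i.2
      have h1 := hD'.val i (by omega)
      rw [hf1 i (by omega), one_mul, hch _ (by omega), eθ1] at h1
      have h2 : ∑ j : Fin n, θV n g L v' (cA n U + j) * xV n v' j =
          ∑ j : Fin n, cst (3 * L + 4) * (w (Sum.inr j) : ℝ) * xV n v' j :=
        Finset.sum_congr rfl fun j _ => by rw [eθ _ (by have := j.2; omega), vc]
      rw [h2] at h1
      linarith
    · have hi := i.2
      have h1 := hD'.dy i (by omega) q
      rw [hf1 i (by omega), one_mul, hch _ (by omega), eθ1] at h1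
      exact h1
    · have h1 := hD'.dx j
      rw [eθ _ (by have := j.2; omega), vc, sum_ext_zero (r := r) (by omega)
        (fun i => v' (oL n L + i) * dxP S (xV n v') (YV n L v' i) j)
        (fun i hi hi2 => by rw [hla0 i hi hi2, zero_mul])] at h1
      exact h1
    · have h1 := hD'.one
      rw [sum_ext_zero (r := r) (by omega) (fun i => v' (oL n L + i))
        (fun i hi hi2 => hla0 i hi hi2)] at h1
      exact h1
  obtain ⟨ex, eY, el, et⟩ := hiso _ _ _ _ hcrit
    (fun j => by
      have := hcl1 j (by have := j.2; omega)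
      rwa [show v j = x j from congrFun vx j] at this)
    (fun i q => by
      have hi := i.2
      have h1 := idx_lt (show (i : ℕ) < n + 1 by omega) q.2
      have := hcl1 (oY n L + i * n + q) (by omega)
      rwa [show v (oY n L + i * n + q) = Y i q from by
        rw [← hYN i]
        exact congrFun (vY i (by omega)) q] at this)
    (fun i => by
      have hi := i.2
      have := hcl1 (oL n L + i) (by omega)
      rwa [vL i (by omega), hlaN] at this)
    (by
      have := hcl1 (2 * n + 1) (by omega)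
      rwa [vt] at this)
  have hs0 : v' (2 * n) = 0 ∧ ∀ j < n, v' (n + j) = 0 := by
    rcases hC' with h1 | ⟨-, h1⟩
    · exact h1
    · exfalso
      rw [hch _ (by omega), hch _ (by omega), ex] at h1
      have := hmin (fun j => vV n v' j / v' (2 * n))
      linarith
  funext i
  have hi := i.2
  have hzi : z i = v i := rfl
  have hz'i : z' i = v' i := (ex0_lt z' i.2).symm
  rw [hzi, hz'i]
  rcases lt_or_ge (i : ℕ) n with c1 | c1
  · exact (congrFun ex ⟨i, c1⟩).trans (congrFun vx ⟨i, c1⟩).symm
  rcases lt_or_ge (i : ℕ) (2 * n + 1) with c2 | c2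
  · rw [show v i = 0 from V0_z n L g x t r laN YN wN c1 c2]
    rcases lt_or_ge (i : ℕ) (2 * n) with c3 | c3
    · have := hs0.2 (i - n) (by omega)
      rwa [Nat.add_sub_cancel' c1] at this
    · have : (i : ℕ) = 2 * n := by omega
      rw [this]
      exact hs0.1
  rcases lt_or_ge (i : ℕ) (oA n) with c3 | c3
  · have : (i : ℕ) = 2 * n + 1 := by omega
    rw [this, et, vt]
  rcases lt_or_ge (i : ℕ) (oL n L) with c4 | c4
  · have := eA (i - oA n) (by omega)
    rwa [Nat.add_sub_cancel' c3] at this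
  rcases lt_or_ge (i : ℕ) (oF n L) with c5 | c5
  · obtain ⟨m, hm⟩ : ∃ m, (i : ℕ) = oL n L + m := ⟨i - oL n L, by omega⟩
    rw [hm]
    rcases lt_or_ge (r : ℕ) m with c6 | c6
    · rw [hla0 m (by omega) c6, vL m (by omega), hlaN0 m c6]
    · have h1 := congrFun el ⟨m, by omega⟩
      simp only at h1
      rw [h1, vL m (by omega)]
      exact (hlaN ⟨m, by omega⟩).symm
  rcases lt_or_ge (i : ℕ) (oY n L) with c6 | c6
  · have := eF (i - oF n L) (by omega)
    rwa [Nat.add_sub_cancel' c5] at this
  rcases lt_or_ge (i : ℕ) (oB n L) with c7 | c7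
  · obtain ⟨m, hm⟩ : ∃ m, (i : ℕ) = oY n L + m := ⟨i - oY n L, by omega⟩
    have hn := h.hn
    have hm1 : m / n < n + 1 := by
      rw [Nat.div_lt_iff_lt_mul hn]
      omega
    have hm2 : m % n < n := Nat.mod_lt _ hn
    have hm3 : m / n * n + m % n = m := by
      rw [mul_comm]
      exact Nat.div_add_mod m n
    have hm4 : oY n L + m = oY n L + (m / n) * n + (m % n) := by omega
    rw [hm, hm4]
    rcases lt_or_ge (r : ℕ) (m / n) with c8 | c8
    · rw [hY0 _ hm1 c8 _ hm2]
      have h1 := congrFun (vY _ hm1) ⟨m % n, hm2⟩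
      rw [hYN0 _ c8] at h1
      exact h1.symm
    · have h1 := congrFun (congrFun eY ⟨m / n, by omega⟩) ⟨m % n, hm2⟩
      have h2 := congrFun (vY _ hm1) ⟨m % n, hm2⟩
      rw [show YN (m / n) = Y ⟨m / n, by omega⟩ from hYN ⟨m / n, by omega⟩] at h2
      exact h1.trans h2.symm
  · have := eB (i - oB n L) (by omega)
    rwa [Nat.add_sub_cancel' c7] at this

end complete

end Pool.Agent.TH662.IP
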