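import Mathlib
import Pool.Agent.TH662.IP.Form

/-!
# Polynomial-time construction of the terms
-/

namespace Pool.Agent.NPC.TH662

open Pool.Agent.TH662.IP Pool.Agent.NPC.ER Pool.Agent.NPC.H612

variable {α β γ : Type} [TEnc α] [TEnc β] [TEnc γ]

/-- Families computable in polynomial time. -/
abbrev PF (F : α → ℕ → β) : Prop := Poly (fun p : α × ℕ => F p.1 p.2)

theorem PF.app {F : α → ℕ → β} (hF : PF F) {k : α → ℕ} (hk : Poly k) :
    Poly (fun a => F a (k a)) := Poly.comp hF (Poly.pair Poly.id hk)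

theorem PF.lift {F : α → ℕ → β} (hF : PF F) {g : γ → α} (hg : Poly g) :
    PF (fun c => F (g c)) :=
  Poly.comp hF (Poly.pair (hg.comp (Poly.fst Poly.id)) (Poly.snd Poly.id))

/-- First projection. -/
theorem p1 : Poly (fun p : α × β => p.1) := Poly.fst Poly.id

/-- Second projection. -/
theorem p2 : Poly (fun p : α × β => p.2) := Poly.snd Poly.id

theorem upoly_pow {n : α → ℕ} (hn : UPoly n) (k : ℕ) : UPoly (fun a => n a ^ k) := by
  induction k with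
  | zero => simpa using UPoly.const 1
  | succ k ih => simpa only [pow_succ] using UPoly.mul ih hn

theorem poly_sumR {n : α → ℕ} {F : α → ℕ → Tm} (hn : UPoly n) (hF : PF F) :
    Poly (fun a => sumR (n a) (F a)) :=
  poly_sumT (Poly.map (F := F) hn.range hF)

theorem poly_powT {B e : α → ℕ} {t : α → Tm} (hB : UPoly B) (he : Poly e) (ht : Poly t) :
    Poly (fun a => powT (B a) (e a) (t a)) :=
  poly_prodT (Poly.map (F := fun a _ => t a)
    (UPoly.of_le (Poly.min he hB.toPoly) hB fun _ => min_le_right _ _).range (ht.comp p1))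

theorem poly_nT {m : α → ℕ} (hm : Poly m) : Poly (fun a => nT (m a)) :=
  poly_natT (Poly.natBits hm)

theorem poly_subT {s t : α → Tm} (hs : Poly s) (ht : Poly t) :
    Poly (fun a => subT (s a) (t a)) := poly_tadd hs (poly_tneg ht)

theorem poly_sgT {b : α → Bool} (hb : Poly b) : Poly (fun a => sgT (b a)) :=
  Poly.ite (Poly.decide_bool hb) (Poly.const _) (Poly.const _)

theorem poly_yatT {n k : α → ℕ} {yT : α → ℕ → Tm} (hn : Poly n) (hy : PF yT) (hk : Poly k) :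
    Poly (fun a => yatT (n a) (yT a) (k a)) :=
  Poly.ite (Poly.decide_lt hk hn) (hy.app hk) (Poly.const _)

theorem poly_vgT {n k : α → ℕ} {aT : α → Tm} {xT yT : α → ℕ → Tm} (hn : Poly n) (ha : Poly aT)
    (hx : PF xT) (hy : PF yT) (hk : Poly k) :
    Poly (fun a => vgT (n a) (aT a) (xT a) (yT a) (k a)) :=
  Poly.ite (Poly.decide_eq hk (Poly.const 0)) ha
    (Poly.ite (Poly.decide_lt (Poly.sub hk (Poly.const 1)) hn)
      (poly_yatT hn hx (Poly.sub hk (Poly.const 1)))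
      (poly_yatT hn hy (Poly.sub (Poly.sub hk (Poly.const 1)) hn)))

theorem pf_vgT {n : α → ℕ} {aT : α → Tm} {xT yT : α → ℕ → Tm} (hn : Poly n) (ha : Poly aT)
    (hx : PF xT) (hy : PF yT) : PF (fun a => vgT (n a) (aT a) (xT a) (yT a)) :=
  poly_vgT (hn.comp p1) (ha.comp p1) (hx.lift p1) (hy.lift p1) p2

theorem poly_EET {l : α → List (Bool × ℕ × ℕ × ℕ)} {V : α → ℕ → Tm} (hl : Poly l) (hV : PF V) :
    Poly (fun a => EET (l a) (V a)) := by
  refine poly_sumT (Poly.map (F := fun a q => Tm.mul (sgT q.1)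
    (Tm.mul (Tm.mul (V a q.2.1) (V a q.2.2.1)) (V a q.2.2.2))) hl ?_)
  have h1 := Poly.snd (p2 (α := α) (β := Bool × ℕ × ℕ × ℕ))
  exact poly_tmul (poly_sgT (Poly.fst p2)) (poly_tmul (poly_tmul
    ((hV.lift p1).app (Poly.fst h1)) ((hV.lift p1).app (Poly.fst (Poly.snd h1))))
    ((hV.lift p1).app (Poly.snd (Poly.snd h1))))

theorem poly_dEET {l : α → List (Bool × ℕ × ℕ × ℕ)} {V dV : α → ℕ → Tm} (hl : Poly l)
    (hV : PF V) (hdV : PF dV) : Poly (fun a => dEET (l a) (V a) (dV a)) := by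
  refine poly_sumT (Poly.map (F := fun a q => Tm.mul (sgT q.1) (Tm.add (Tm.add
    (Tm.mul (Tm.mul (dV a q.2.1) (V a q.2.2.1)) (V a q.2.2.2))
    (Tm.mul (Tm.mul (V a q.2.1) (dV a q.2.2.1)) (V a q.2.2.2)))
    (Tm.mul (Tm.mul (V a q.2.1) (V a q.2.2.1)) (dV a q.2.2.2)))) hl ?_)
  have h1 := Poly.snd (p2 (α := α) (β := Bool × ℕ × ℕ × ℕ))
  have i1 := Poly.fst h1
  have i2 := Poly.fst (Poly.snd h1)
  have i3 := Poly.snd (Poly.snd h1)
  have V1 := (hV.lift (p1 (α := α) (β := Bool × ℕ × ℕ × ℕ)))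
  have V2 := (hdV.lift (p1 (α := α) (β := Bool × ℕ × ℕ × ℕ)))
  exact poly_tmul (poly_sgT (Poly.fst p2)) (poly_tadd (poly_tadd
    (poly_tmul (poly_tmul (V2.app i1) (V1.app i2)) (V1.app i3))
    (poly_tmul (poly_tmul (V1.app i1) (V2.app i2)) (V1.app i3)))
    (poly_tmul (poly_tmul (V1.app i1) (V1.app i2)) (V2.app i3)))

theorem poly_FFT {S : α → Sys} {V : α → ℕ → Tm} (hS : Poly S) (hV : PF V) :
    Poly (fun a => FFT (S a) (V a)) := by
  refine poly_sumT (Poly.map (F := fun a l => Tm.mul (EET l (V a)) (EET l (V a))) hS ?_)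
  have h1 : Poly (fun p : α × List (Bool × ℕ × ℕ × ℕ) => EET p.2 (V p.1)) :=
    poly_EET p2 (hV.lift p1)
  exact poly_tmul h1 h1

theorem poly_dFFT {S : α → Sys} {V dV : α → ℕ → Tm} (hS : Poly S) (hV : PF V) (hdV : PF dV) :
    Poly (fun a => dFFT (S a) (V a) (dV a)) := by
  refine poly_sumT (Poly.map (F := fun a l => Tm.mul (Tm.mul twoT (EET l (V a)))
    (dEET l (V a) (dV a))) hS ?_)
  have h1 : Poly (fun p : α × List (Bool × ℕ × ℕ × ℕ) => EET p.2 (V p.1)) :=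
    poly_EET p2 (hV.lift p1)
  have h2 : Poly (fun p : α × List (Bool × ℕ × ℕ × ℕ) => dEET p.2 (V p.1) (dV p.1)) :=
    poly_dEET p2 (hV.lift p1) (hdV.lift p1)
  exact poly_tmul (poly_tmul (Poly.const _) h1) h2

theorem pf_uvT {j : α → ℕ} (hj : Poly j) : PF (fun a => uvT (j a)) :=
  Poly.ite (Poly.decide_eq p2 (hj.comp p1)) (Poly.const _) (Poly.const _)

theorem poly_sqT {n : α → ℕ} {xT : α → ℕ → Tm} (hn : UPoly n) (hx : PF xT) :
    Poly (fun a => sqT (n a) (xT a)) :=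
  poly_sumR hn (F := fun a j => Tm.mul (xT a j) (xT a j)) (poly_tmul hx hx)

theorem poly_WWT {n : α → ℕ} {yT : α → ℕ → Tm} (hn : UPoly n) (hy : PF yT) :
    Poly (fun a => WWT (n a) (yT a)) := poly_tadd (Poly.const _) (poly_sqT hn hy)

theorem poly_hhT {n : α → ℕ} {xT : α → ℕ → Tm} (hn : UPoly n) (hx : PF xT) :
    Poly (fun a => hhT (n a) (xT a)) := by
  have h1 : Poly (fun a => yatT (n a) (xT a) 0) := poly_yatT hn.toPoly hx (Poly.const 0)
  exact poly_tmul (poly_tmul h1 h1) (poly_subT (Poly.const _) (poly_sqT hn hx))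

theorem poly_dhhT {n j : α → ℕ} {xT : α → ℕ → Tm} (hn : UPoly n) (hx : PF xT) (hj : Poly j) :
    Poly (fun a => dhhT (n a) (xT a) (j a)) := by
  have h1 : Poly (fun a => yatT (n a) (xT a) 0) := poly_yatT hn.toPoly hx (Poly.const 0)
  exact poly_subT (Poly.ite (Poly.decide_eq hj (Poly.const 0))
    (poly_tmul (poly_tmul (Poly.const _) h1) (poly_subT (Poly.const _) (poly_sqT hn hx)))
    (Poly.const _)) (poly_tmul (poly_tmul h1 h1) (poly_tmul (Poly.const _) (hx.app hj)))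

theorem poly_PsiT {n k : α → ℕ} {S : α → Sys} {xT yT : α → ℕ → Tm} {ρT : α → Tm}
    (hn : UPoly n) (hk : UPoly k) (hS : Poly S) (hx : PF xT) (hy : PF yT) (hρ : Poly ρT) :
    Poly (fun a => PsiT (n a) (k a) (S a) (xT a) (yT a) (ρT a)) :=
  poly_tadd (poly_tmul (poly_hhT hn hx)
    (poly_FFT hS (pf_vgT hn.toPoly (Poly.const _) hx hy)))
    (poly_tmul hρ (poly_powT hk hk.toPoly (poly_WWT hn hy)))

theorem poly_dxPT {n j : α → ℕ} {S : α → Sys} {xT yT : α → ℕ → Tm}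
    (hn : UPoly n) (hS : Poly S) (hx : PF xT) (hy : PF yT) (hj : Poly j) :
    Poly (fun a => dxPT (n a) (S a) (xT a) (yT a) (j a)) := by
  have h1 : PF (fun a => vgT (n a) Tm.one (xT a) (yT a)) :=
    pf_vgT hn.toPoly (Poly.const _) hx hy
  exact poly_tadd (poly_tmul (poly_dhhT hn hx hj) (poly_FFT hS h1))
    (poly_tmul (poly_hhT hn hx) (poly_dFFT hS h1 (pf_uvT (Poly.add (Poly.const 1) hj))))

theorem poly_dyPT {n k q : α → ℕ} {S : α → Sys} {xT yT : α → ℕ → Tm} {ρT : α → Tm}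
    (hn : UPoly n) (hk : UPoly k) (hS : Poly S) (hx : PF xT) (hy : PF yT) (hρ : Poly ρT)
    (hq : Poly q) :
    Poly (fun a => dyPT (n a) (k a) (S a) (xT a) (yT a) (ρT a) (q a)) := by
  have h1 : PF (fun a => vgT (n a) Tm.one (xT a) (yT a)) :=
    pf_vgT hn.toPoly (Poly.const _) hx hy
  exact poly_tadd (poly_tmul (poly_hhT hn hx) (poly_dFFT hS h1
    (pf_uvT (Poly.add (Poly.add (Poly.const 1) hn.toPoly) hq))))
    (poly_tmul hρ (poly_tmul (poly_tmul (poly_nT hk.toPoly)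
      (poly_powT hk (Poly.sub hk.toPoly (Poly.const 1)) (poly_WWT hn hy)))
      (poly_tmul (Poly.const _) (hy.app hq))))

theorem poly_ellT {n u : α → ℕ} {yT : α → ℕ → Tm} (hn : UPoly n) (hu : Poly u) (hy : PF yT) :
    Poly (fun a => ellT (n a) (u a) (yT a)) :=
  poly_sumR hn (F := fun a j => Tm.mul (powT (n a) j (nT (u a))) (yT a j))
    (poly_tmul (poly_powT (hn.comp p1) p2 (poly_nT (hu.comp p1))) hy)

/-- The bound of the exponents. -/
theorem upoly_two {n : α → ℕ} (hn : UPoly n) : UPoly (fun a => 2 * n a + 1) :=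
  UPoly.add (UPoly.mul (UPoly.const 2) hn) (UPoly.const 1)

theorem poly_bfT {n r u e j : α → ℕ} {yT : α → ℕ → Tm} (hn : UPoly n) (hr : Poly r)
    (hu : Poly u) (he : Poly e) (hj : Poly j) (hy : PF yT) :
    Poly (fun a => bfT (n a) (r a) (u a) (e a) (j a) (yT a)) := by
  have hl := poly_ellT hn hu hy
  exact Poly.ite (Poly.decide_eq hj (Poly.const 0)) (poly_powT (upoly_two hn) he hl)
    (Poly.ite (Poly.decide_eq hj (Poly.const 1))
      (poly_powT (upoly_two hn) (Poly.add (Poly.add hr (Poly.const 1)) he) hl)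
      (poly_tmul (poly_yatT hn.toPoly hy (Poly.sub hj (Poly.const 1)))
        (poly_powT (upoly_two hn) he hl)))

theorem poly_bdT {n r u e j q : α → ℕ} {yT : α → ℕ → Tm} (hn : UPoly n) (hr : Poly r)
    (hu : Poly u) (he : Poly e) (hj : Poly j) (hy : PF yT) (hq : Poly q) :
    Poly (fun a => bdT (n a) (r a) (u a) (e a) (j a) (yT a) (q a)) := by
  have hl := poly_ellT hn hu hy
  have hU := poly_powT hn hq (poly_nT hu)
  have he1 : Poly (fun a => e a - 1) := Poly.sub he (Poly.const 1)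
  exact Poly.ite (Poly.decide_eq hj (Poly.const 0))
    (poly_tmul (poly_tmul (poly_nT he) (poly_powT (upoly_two hn) he1 hl)) hU)
    (Poly.ite (Poly.decide_eq hj (Poly.const 1))
      (poly_tmul (poly_tmul (poly_nT (Poly.add (Poly.add hr (Poly.const 1)) he))
        (poly_powT (upoly_two hn) (Poly.add hr he) hl)) hU)
      (poly_tadd (Poly.ite (Poly.decide_eq hq (Poly.sub hj (Poly.const 1)))
        (poly_powT (upoly_two hn) he hl) (Poly.const _))
        (poly_tmul (poly_yatT hn.toPoly hy (Poly.sub hj (Poly.const 1)))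
          (poly_tmul (poly_tmul (poly_nT he) (poly_powT (upoly_two hn) he1 hl)) hU))))

theorem poly_aidx {n U r u e j : α → ℕ} (hn : Poly n) (hU : Poly U) (hr : Poly r)
    (hu : Poly u) (he : Poly e) (hj : Poly j) :
    Poly (fun a => aidx (n a) (U a) (r a) (u a) (e a) (j a)) := by
  have hn1 : Poly (fun a => n a + 1) := Poly.add hn (Poly.const 1)
  exact Poly.add (Poly.mul (Poly.add (Poly.mul (Poly.add (Poly.mul hr hU) hu) hn1) he) hn1) hj

/-- `n + 1`. -/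
theorem upoly_succ {n : α → ℕ} (hn : UPoly n) : UPoly (fun a => n a + 1) :=
  UPoly.add hn (UPoly.const 1)

theorem poly_qthT {n U : α → ℕ} {θT yT : α → ℕ → Tm} (hn : UPoly n) (hU : UPoly U)
    (hθ : PF θT) (hy : PF yT) : Poly (fun a => qthT (n a) (U a) (θT a) (yT a)) := by
  have q1 : Poly (fun p : (((α × ℕ) × ℕ) × ℕ) × ℕ => p.1.1.1.1) :=
    Poly.fst (Poly.fst (Poly.fst p1))
  have q2 : Poly (fun p : (((α × ℕ) × ℕ) × ℕ) × ℕ => p.1.1.1.2) :=
    Poly.snd (Poly.fst (Poly.fst p1))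
  have q3 : Poly (fun p : (((α × ℕ) × ℕ) × ℕ) × ℕ => p.1.1.2) := Poly.snd (Poly.fst p1)
  have q4 : Poly (fun p : (((α × ℕ) × ℕ) × ℕ) × ℕ => p.1.2) := Poly.snd p1
  have h : Poly (fun p : (((α × ℕ) × ℕ) × ℕ) × ℕ =>
      Tm.mul (θT p.1.1.1.1 (aidx (n p.1.1.1.1) (U p.1.1.1.1) p.1.1.1.2 p.1.1.2 p.1.2 p.2))
        (bfT (n p.1.1.1.1) p.1.1.1.2 p.1.1.2 p.1.2 p.2 (yT p.1.1.1.1))) :=
    poly_tmul ((hθ.lift q1).app (poly_aidx (hn.toPoly.comp q1) (hU.toPoly.comp q1) q2 q3 q4 p2))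
      (poly_bfT (hn.comp q1) q2 q3 q4 p2 (hy.lift q1))
  refine poly_sumR (upoly_succ hn) (F := fun a r => sumR (U a) fun u => sumR (n a + 1) fun e =>
    sumR (n a + 1) fun j => Tm.mul (θT a (aidx (n a) (U a) r u e j)) (bfT (n a) r u e j (yT a))) ?_
  refine poly_sumR (α := α × ℕ) (hU.comp p1) (F := fun p u => sumR (n p.1 + 1) fun e =>
    sumR (n p.1 + 1) fun j => Tm.mul (θT p.1 (aidx (n p.1) (U p.1) p.2 u e j))
      (bfT (n p.1) p.2 u e j (yT p.1))) ?_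
  refine poly_sumR (α := (α × ℕ) × ℕ) ((upoly_succ hn).comp (Poly.fst p1))
    (F := fun p e => sumR (n p.1.1 + 1) fun j =>
      Tm.mul (θT p.1.1 (aidx (n p.1.1) (U p.1.1) p.1.2 p.2 e j))
      (bfT (n p.1.1) p.1.2 p.2 e j (yT p.1.1))) ?_
  exact poly_sumR (α := ((α × ℕ) × ℕ) × ℕ) ((upoly_succ hn).comp (Poly.fst (Poly.fst p1)))
    (F := fun p j => Tm.mul (θT p.1.1.1 (aidx (n p.1.1.1) (U p.1.1.1) p.1.1.2 p.1.2 p.2 j))
      (bfT (n p.1.1.1) p.1.1.2 p.1.2 p.2 j (yT p.1.1.1))) h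

theorem poly_dqthT {n U q : α → ℕ} {θT yT : α → ℕ → Tm} (hn : UPoly n) (hU : UPoly U)
    (hθ : PF θT) (hy : PF yT) (hq : Poly q) :
    Poly (fun a => dqthT (n a) (U a) (θT a) (yT a) (q a)) := by
  have q1 : Poly (fun p : (((α × ℕ) × ℕ) × ℕ) × ℕ => p.1.1.1.1) :=
    Poly.fst (Poly.fst (Poly.fst p1))
  have q2 : Poly (fun p : (((α × ℕ) × ℕ) × ℕ) × ℕ => p.1.1.1.2) :=
    Poly.snd (Poly.fst (Poly.fst p1))
  have q3 : Poly (fun p : (((α × ℕ) × ℕ) × ℕ) × ℕ => p.1.1.2) := Poly.snd (Poly.fst p1)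
  have q4 : Poly (fun p : (((α × ℕ) × ℕ) × ℕ) × ℕ => p.1.2) := Poly.snd p1
  have h : Poly (fun p : (((α × ℕ) × ℕ) × ℕ) × ℕ =>
      Tm.mul (θT p.1.1.1.1 (aidx (n p.1.1.1.1) (U p.1.1.1.1) p.1.1.1.2 p.1.1.2 p.1.2 p.2))
        (bdT (n p.1.1.1.1) p.1.1.1.2 p.1.1.2 p.1.2 p.2 (yT p.1.1.1.1) (q p.1.1.1.1))) :=
    poly_tmul ((hθ.lift q1).app (poly_aidx (hn.toPoly.comp q1) (hU.toPoly.comp q1) q2 q3 q4 p2))
      (poly_bdT (hn.comp q1) q2 q3 q4 p2 (hy.lift q1) (hq.comp q1))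
  refine poly_sumR (upoly_succ hn) (F := fun a r => sumR (U a) fun u => sumR (n a + 1) fun e =>
    sumR (n a + 1) fun j => Tm.mul (θT a (aidx (n a) (U a) r u e j))
      (bdT (n a) r u e j (yT a) (q a))) ?_
  refine poly_sumR (α := α × ℕ) (hU.comp p1) (F := fun p u => sumR (n p.1 + 1) fun e =>
    sumR (n p.1 + 1) fun j => Tm.mul (θT p.1 (aidx (n p.1) (U p.1) p.2 u e j))
      (bdT (n p.1) p.2 u e j (yT p.1) (q p.1))) ?_
  refine poly_sumR (α := (α × ℕ) × ℕ) ((upoly_succ hn).comp (Poly.fst p1))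
    (F := fun p e => sumR (n p.1.1 + 1) fun j =>
      Tm.mul (θT p.1.1 (aidx (n p.1.1) (U p.1.1) p.1.2 p.2 e j))
      (bdT (n p.1.1) p.1.2 p.2 e j (yT p.1.1) (q p.1.1))) ?_
  exact poly_sumR (α := ((α × ℕ) × ℕ) × ℕ) ((upoly_succ hn).comp (Poly.fst (Poly.fst p1)))
    (F := fun p j => Tm.mul (θT p.1.1.1 (aidx (n p.1.1.1) (U p.1.1.1) p.1.1.2 p.1.2 p.2 j))
      (bdT (n p.1.1.1) p.1.1.2 p.1.2 p.2 j (yT p.1.1.1) (q p.1.1.1))) h

end Pool.Agent.NPC.TH662
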