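import Mathlib
import Pool.Agent.TH662.IP.TmsPoly

/-!
# Polynomial-time construction of the formula
-/

namespace Pool.Agent.NPC.TH662

open Pool.Agent.TH662.IP Pool.Agent.NPC.ER Pool.Agent.NPC.H612

variable {α β γ : Type} [TEnc α] [TEnc β] [TEnc γ]

theorem upoly_oA {n : α → ℕ} (hn : UPoly n) : UPoly (fun a => oA (n a)) :=
  UPoly.add (UPoly.mul (UPoly.const 2) hn) (UPoly.const 2)

theorem upoly_oL {n L : α → ℕ} (hn : UPoly n) (hL : UPoly L) :
    UPoly (fun a => oL (n a) (L a)) :=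
  UPoly.add (upoly_oA hn) (UPoly.add (UPoly.mul (UPoly.const 3) hL) (UPoly.const 5))

theorem upoly_oF {n L : α → ℕ} (hn : UPoly n) (hL : UPoly L) :
    UPoly (fun a => oF (n a) (L a)) :=
  UPoly.add (upoly_oL hn hL) (upoly_succ hn)

theorem upoly_oY {n L : α → ℕ} (hn : UPoly n) (hL : UPoly L) :
    UPoly (fun a => oY (n a) (L a)) :=
  UPoly.add (upoly_oF hn hL) (upoly_succ hn)

theorem upoly_oB {n L : α → ℕ} (hn : UPoly n) (hL : UPoly L) :
    UPoly (fun a => oB (n a) (L a)) :=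
  UPoly.add (upoly_oY hn hL) (UPoly.mul (upoly_succ hn) hn)

theorem upoly_cA {n U : α → ℕ} (hn : UPoly n) (hU : UPoly U) :
    UPoly (fun a => cA (n a) (U a)) :=
  UPoly.mul (UPoly.mul (UPoly.mul (upoly_succ hn) hU) (upoly_succ hn)) (upoly_succ hn)

theorem upoly_NT {n U g L : α → ℕ} (hn : UPoly n) (hU : UPoly U) (hg : UPoly g)
    (hL : UPoly L) : UPoly (fun a => NT (n a) (U a) (g a) (L a)) :=
  UPoly.add (upoly_oB hn hL) (UPoly.mul (UPoly.add (upoly_cA hn hU) hn) hg)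

theorem poly_tA {n i : α → ℕ} (hn : UPoly n) (hi : Poly i) :
    Poly (fun a => tA (n a) (i a)) :=
  poly_tvar (Poly.add (upoly_oA hn).toPoly hi)

theorem poly_tY {n L i j : α → ℕ} (hn : UPoly n) (hL : UPoly L) (hi : Poly i) (hj : Poly j) :
    Poly (fun a => tY (n a) (L a) (i a) (j a)) :=
  poly_tvar (Poly.add (Poly.add (upoly_oY hn hL).toPoly (Poly.mul hi hn.toPoly)) hj)

theorem pf_tY {n L i : α → ℕ} (hn : UPoly n) (hL : UPoly L) (hi : Poly i) :
    PF (fun a => tY (n a) (L a) (i a)) :=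
  poly_tY (hn.comp p1) (hL.comp p1) (hi.comp p1) p2

theorem poly_tF {n L i : α → ℕ} (hn : UPoly n) (hL : UPoly L) (hi : Poly i) :
    Poly (fun a => tF (n a) (L a) (i a)) :=
  poly_tvar (Poly.add (upoly_oF hn hL).toPoly hi)

theorem poly_tL {n L i : α → ℕ} (hn : UPoly n) (hL : UPoly L) (hi : Poly i) :
    Poly (fun a => tL (n a) (L a) (i a)) :=
  poly_tvar (Poly.add (upoly_oL hn hL).toPoly hi)

theorem poly_tW {n g L i : α → ℕ} (hn : UPoly n) (hg : UPoly g) (hL : UPoly L) (hi : Poly i) :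
    Poly (fun a => tW (n a) (g a) (L a) (i a)) := by
  refine poly_sumR hg (F := fun a j => Tm.mul (powT (g a) j twoT)
    (Tm.var (oB (n a) (L a) + i a * g a + j))) ?_
  exact poly_tmul (poly_powT (hg.comp p1) p2 (Poly.const _))
    (poly_tvar (Poly.add (Poly.add ((upoly_oB hn hL).toPoly.comp p1)
      (Poly.mul (hi.comp p1) (hg.toPoly.comp p1))) p2))

theorem poly_tθ {n g L i : α → ℕ} (hn : UPoly n) (hg : UPoly g) (hL : UPoly L) (hi : Poly i) :
    Poly (fun a => tθ (n a) (g a) (L a) (i a)) :=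
  poly_tmul (poly_tA hn (Poly.add (Poly.mul (Poly.const 3) hL.toPoly) (Poly.const 4)))
    (poly_tW hn hg hL hi)

theorem pf_tθ {n g L : α → ℕ} (hn : UPoly n) (hg : UPoly g) (hL : UPoly L) :
    PF (fun a => tθ (n a) (g a) (L a)) :=
  poly_tθ (hn.comp p1) (hg.comp p1) (hL.comp p1) p2

theorem poly_conjR {n : α → ℕ} {F : α → ℕ → Fm} (hn : UPoly n) (hF : PF F) :
    Poly (fun a => conj ((List.range (n a)).map (F a))) :=
  poly_conj (Poly.map (F := F) hn.range hF)

theorem pf_var : PF (fun (_ : α) => Tm.var) := poly_tvar p2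

section

variable {n U k g L : α → ℕ} {S : α → Sys} (hn : UPoly n) (hU : UPoly U) (hk : UPoly k)
  (hg : UPoly g) (hL : UPoly L) (hS : Poly S)

include hn hU hk hg hL hS

theorem poly_dF : Poly (fun a => dF (n a) (U a) (k a) (g a) (L a) (S a)) := by
  have hL2 : Poly (fun a => 2 * L a + 2) :=
    Poly.add (Poly.mul (Poly.const 2) hL.toPoly) (Poly.const 2)
  have hcA : UPoly (fun a => cA (n a) (U a)) := upoly_cA hn hU
  have hw : UPoly (fun a => (cA (n a) (U a) + n a) * g a) := UPoly.mul (UPoly.add hcA hn) hg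
  have hr : Poly (fun a => tA (n a) (2 * L a + 2)) := poly_tA hn hL2
  -- bits
  have t1 : Poly (fun a => conj ((List.range ((cA (n a) (U a) + n a) * g a)).map fun b =>
      Fm.eq (Tm.mul (Tm.var (oB (n a) (L a) + b)) (Tm.var (oB (n a) (L a) + b)))
        (Tm.var (oB (n a) (L a) + b)))) := by
    have h : PF (fun a b => Tm.var (oB (n a) (L a) + b)) :=
      poly_tvar (Poly.add ((upoly_oB hn hL).toPoly.comp p1) p2)
    exact poly_conjR (F := fun a b => Fm.eq (Tm.mul (Tm.var (oB (n a) (L a) + b))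
      (Tm.var (oB (n a) (L a) + b))) (Tm.var (oB (n a) (L a) + b))) hw
      (poly_feq (poly_tmul h h) h)
  have hF : PF (fun a => tF (n a) (L a)) := poly_tF (hn.comp p1) (hL.comp p1) p2
  have t2 : Poly (fun a => conj ((List.range (n a + 1)).map fun i =>
      Fm.eq (Tm.mul (tF (n a) (L a) i) (tF (n a) (L a) i)) (tF (n a) (L a) i))) :=
    poly_conjR (F := fun a i => Fm.eq (Tm.mul (tF (n a) (L a) i) (tF (n a) (L a) i))
      (tF (n a) (L a) i)) (upoly_succ hn) (poly_feq (poly_tmul hF hF) hF)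
  have t3 : Poly (fun a => Fm.eq (Tm.mul twoT (tA (n a) 0)) Tm.one) :=
    poly_feq (poly_tmul (Poly.const _) (poly_tA hn (Poly.const 0))) (Poly.const _)
  have t4 : Poly (fun a => conj ((List.range (3 * L a + 4)).map fun i =>
      Fm.eq (tA (n a) (i + 1)) (Tm.mul (tA (n a) i) (tA (n a) i)))) := by
    have h : PF (fun a i => tA (n a) i) := poly_tA (hn.comp p1) p2
    exact poly_conjR (F := fun a i => Fm.eq (tA (n a) (i + 1)) (Tm.mul (tA (n a) i) (tA (n a) i)))
      (UPoly.add (UPoly.mul (UPoly.const 3) hL) (UPoly.const 4))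
      (poly_feq (poly_tA (hn.comp p1) (Poly.add p2 (Poly.const 1))) (poly_tmul h h))
  have t5 : Poly (fun a => Fm.lt (sqT (n a) Tm.var) Tm.one) :=
    poly_flt (poly_sqT hn pf_var) (Poly.const _)
  -- contexts
  have c1 : UPoly (fun p : α × ℕ => n p.1) := hn.comp p1
  have cL : UPoly (fun p : α × ℕ => L p.1) := hL.comp p1
  have cU : UPoly (fun p : α × ℕ => U p.1) := hU.comp p1
  have ck : UPoly (fun p : α × ℕ => k p.1) := hk.comp p1
  have cg : UPoly (fun p : α × ℕ => g p.1) := hg.comp p1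
  have cS : Poly (fun p : α × ℕ => S p.1) := hS.comp p1
  have cr : Poly (fun p : α × ℕ => tA (n p.1) (2 * L p.1 + 2)) := hr.comp p1
  have cc : UPoly (fun p : α × ℕ => cA (n p.1) (U p.1)) := hcA.comp p1
  have d1 : UPoly (fun p : (α × ℕ) × ℕ => n p.1.1) := c1.comp p1
  have dL : UPoly (fun p : (α × ℕ) × ℕ => L p.1.1) := cL.comp p1
  have dU : UPoly (fun p : (α × ℕ) × ℕ => U p.1.1) := cU.comp p1
  have dk : UPoly (fun p : (α × ℕ) × ℕ => k p.1.1) := ck.comp p1
  have dg : UPoly (fun p : (α × ℕ) × ℕ => g p.1.1) := cg.comp p1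
  have dS : Poly (fun p : (α × ℕ) × ℕ => S p.1.1) := cS.comp p1
  have dr : Poly (fun p : (α × ℕ) × ℕ => tA (n p.1.1) (2 * L p.1.1 + 2)) := cr.comp p1
  have di : Poly (fun p : (α × ℕ) × ℕ => p.1.2) := Poly.snd p1
  have t6 : Poly (fun a => conj ((List.range (n a + 1)).map fun i => conj ((List.range (n a)).map
      fun j => Fm.eq (Tm.mul (subT Tm.one (tF (n a) (L a) i)) (tY (n a) (L a) i j)) Tm.zero))) := by
    refine poly_conjR (F := fun a i => conj ((List.range (n a)).map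
      fun j => Fm.eq (Tm.mul (subT Tm.one (tF (n a) (L a) i)) (tY (n a) (L a) i j)) Tm.zero))
      (upoly_succ hn) ?_
    refine poly_conjR (α := α × ℕ) (F := fun p j => Fm.eq (Tm.mul (subT Tm.one
      (tF (n p.1) (L p.1) p.2)) (tY (n p.1) (L p.1) p.2 j)) Tm.zero) c1 ?_
    exact poly_feq (poly_tmul (poly_subT (Poly.const _) (poly_tF d1 dL di))
      (poly_tY d1 dL di p2)) (Poly.const _)
  have t7 : Poly (fun a => conj ((List.range (n a + 1)).map fun i =>
      Fm.eq (Tm.mul (subT Tm.one (tF (n a) (L a) i)) (tL (n a) (L a) i)) Tm.zero)) := by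
    refine poly_conjR (F := fun a i => Fm.eq (Tm.mul (subT Tm.one (tF (n a) (L a) i))
      (tL (n a) (L a) i)) Tm.zero) (upoly_succ hn) ?_
    exact poly_feq (poly_tmul (poly_subT (Poly.const _) (poly_tF c1 cL p2))
      (poly_tL c1 cL p2)) (Poly.const _)
  have t8 : Poly (fun a => conj ((List.range (n a + 1)).map fun i => Fm.eq
      (Tm.mul (tF (n a) (L a) i) (subT (Tm.add (Tm.add
      (PsiT (n a) (k a) (S a) Tm.var (tY (n a) (L a) i) (tA (n a) (2 * L a + 2)))
      (qthT (n a) (U a) (tθ (n a) (g a) (L a)) (tY (n a) (L a) i)))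
      (sumR (n a) fun j => Tm.mul (tθ (n a) (g a) (L a) (cA (n a) (U a) + j)) (Tm.var j)))
      (Tm.var (2 * n a + 1)))) Tm.zero)) := by
    refine poly_conjR (F := fun a i => Fm.eq
      (Tm.mul (tF (n a) (L a) i) (subT (Tm.add (Tm.add
      (PsiT (n a) (k a) (S a) Tm.var (tY (n a) (L a) i) (tA (n a) (2 * L a + 2)))
      (qthT (n a) (U a) (tθ (n a) (g a) (L a)) (tY (n a) (L a) i)))
      (sumR (n a) fun j => Tm.mul (tθ (n a) (g a) (L a) (cA (n a) (U a) + j)) (Tm.var j)))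
      (Tm.var (2 * n a + 1)))) Tm.zero) (upoly_succ hn) ?_
    refine poly_feq (poly_tmul (poly_tF c1 cL p2) (poly_subT (poly_tadd (poly_tadd
      (poly_PsiT c1 ck cS pf_var (pf_tY c1 cL p2) cr)
      (poly_qthT c1 cU (pf_tθ c1 cg cL) (pf_tY c1 cL p2))) ?_)
      (poly_tvar (Poly.add (Poly.mul (Poly.const 2) c1.toPoly) (Poly.const 1))))) (Poly.const _)
    refine poly_sumR (α := α × ℕ) (F := fun p j => Tm.mul (tθ (n p.1) (g p.1) (L p.1)
      (cA (n p.1) (U p.1) + j)) (Tm.var j)) c1 ?_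
    exact poly_tmul (poly_tθ d1 dg dL (Poly.add (cc.toPoly.comp p1) p2)) (poly_tvar p2)
  have t9 : Poly (fun a => conj ((List.range (n a + 1)).map fun i => conj ((List.range (n a)).map
      fun q => Fm.eq (Tm.mul (tF (n a) (L a) i) (Tm.add
        (dyPT (n a) (k a) (S a) Tm.var (tY (n a) (L a) i) (tA (n a) (2 * L a + 2)) q)
        (dqthT (n a) (U a) (tθ (n a) (g a) (L a)) (tY (n a) (L a) i) q))) Tm.zero))) := by
    refine poly_conjR (F := fun a i => conj ((List.range (n a)).map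
      fun q => Fm.eq (Tm.mul (tF (n a) (L a) i) (Tm.add
        (dyPT (n a) (k a) (S a) Tm.var (tY (n a) (L a) i) (tA (n a) (2 * L a + 2)) q)
        (dqthT (n a) (U a) (tθ (n a) (g a) (L a)) (tY (n a) (L a) i) q))) Tm.zero))
      (upoly_succ hn) ?_
    refine poly_conjR (α := α × ℕ) (F := fun p q => Fm.eq (Tm.mul (tF (n p.1) (L p.1) p.2) (Tm.add
        (dyPT (n p.1) (k p.1) (S p.1) Tm.var (tY (n p.1) (L p.1) p.2)
          (tA (n p.1) (2 * L p.1 + 2)) q)
        (dqthT (n p.1) (U p.1) (tθ (n p.1) (g p.1) (L p.1)) (tY (n p.1) (L p.1) p.2) q)))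
        Tm.zero) c1 ?_
    exact poly_feq (poly_tmul (poly_tF d1 dL di) (poly_tadd
      (poly_dyPT d1 dk dS pf_var (pf_tY d1 dL di) dr p2)
      (poly_dqthT d1 dU (pf_tθ d1 dg dL) (pf_tY d1 dL di) p2))) (Poly.const _)
  have t10 : Poly (fun a => conj ((List.range (n a)).map fun j => Fm.eq (Tm.add
      (sumR (n a + 1) fun i => Tm.mul (tL (n a) (L a) i)
        (dxPT (n a) (S a) Tm.var (tY (n a) (L a) i) j))
      (tθ (n a) (g a) (L a) (cA (n a) (U a) + j))) Tm.zero)) := by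
    refine poly_conjR (F := fun a j => Fm.eq (Tm.add
      (sumR (n a + 1) fun i => Tm.mul (tL (n a) (L a) i)
        (dxPT (n a) (S a) Tm.var (tY (n a) (L a) i) j))
      (tθ (n a) (g a) (L a) (cA (n a) (U a) + j))) Tm.zero) hn ?_
    refine poly_feq (poly_tadd ?_ (poly_tθ c1 cg cL (Poly.add cc.toPoly p2))) (Poly.const _)
    refine poly_sumR (α := α × ℕ) (F := fun p i => Tm.mul (tL (n p.1) (L p.1) i)
        (dxPT (n p.1) (S p.1) Tm.var (tY (n p.1) (L p.1) i) p.2)) (upoly_succ c1) ?_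
    exact poly_tmul (poly_tL d1 dL p2) (poly_dxPT d1 dS pf_var (pf_tY d1 dL p2) di)
  have t11 : Poly (fun a => Fm.eq (sumR (n a + 1) (tL (n a) (L a))) Tm.one) :=
    poly_feq (poly_sumR (F := fun a => tL (n a) (L a)) (upoly_succ hn)
      (poly_tL c1 cL p2)) (Poly.const _)
  exact poly_conj (Poly.cons t1 (Poly.cons t2 (Poly.cons t3 (Poly.cons t4 (Poly.cons t5
    (Poly.cons t6 (Poly.cons t7 (Poly.cons t8 (Poly.cons t9 (Poly.cons t10 (Poly.cons t11
    (Poly.const [])))))))))))) 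

omit hU hg in
theorem poly_cF : Poly (fun a => cF (n a) (k a) (L a) (S a)) := by
  have h2n : Poly (fun a => 2 * n a) := Poly.mul (Poly.const 2) hn.toPoly
  have vs : Poly (fun a => Tm.var (2 * n a)) := poly_tvar h2n
  have hL2 : Poly (fun a => 2 * L a + 2) :=
    Poly.add (Poly.mul (Poly.const 2) hL.toPoly) (Poly.const 2)
  have hr : Poly (fun a => tA (n a) (2 * L a + 2)) := poly_tA hn hL2
  have hv : PF (fun a j => Tm.var (n a + j)) := poly_tvar (Poly.add (hn.toPoly.comp p1) p2)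
  have hk2 : UPoly (fun a => 2 * k a) := UPoly.mul (UPoly.const 2) hk
  refine poly_for (poly_conj (Poly.cons (poly_feq vs (Poly.const _))
    (Poly.map (F := fun a j => Fm.eq (Tm.var (n a + j)) Tm.zero) hn.range
      (poly_feq hv (Poly.const _)))))
    (poly_fand (poly_flt (Poly.const _) vs) (poly_flt (poly_tadd (poly_tmul (poly_tmul
      (poly_powT hk2 (Poly.sub hk2.toPoly (Poly.const 6)) vs) (poly_hhT hn pf_var))
      (poly_FFT hS (pf_vgT hn.toPoly vs ?_ hv))) (poly_tmul hr (poly_powT hk hk.toPoly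
        (poly_tadd (poly_tmul vs vs) (poly_sqT hn hv))))) (poly_tmul
        (poly_tA hn (Poly.add hL.toPoly (Poly.const 1))) (poly_powT hk2 hk2.toPoly vs))))
  exact poly_tmul (vs.comp p1) (poly_tvar p2)

theorem poly_isoF : Poly (fun a => isoF (n a) (U a) (k a) (g a) (L a) (S a)) :=
  poly_fand (poly_dF hn hU hk hg hL hS) (poly_cF hn hk hL hS)

end

end Pool.Agent.NPC.TH662
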