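import Mathlib
import Pool.Agent.H612.Limit
import Pool.Agent.TH662.IP.Sys

/-!
# A lower bound for positive polynomials of degree four
-/

namespace Pool.Agent.TH662.IP

open Finset Filter Topology Pool.Agent.H612

/-- Growth of algebraic functions with a monic equation. -/
theorem alg_growth (χ : Polynomial (Polynomial ℝ)) (hχ : χ.Monic) (D : ℕ)
    (hD : χ.natDegree = D) (hD1 : 1 ≤ D) : ∃ C > 0, ∃ B ≥ (1 : ℝ), ∀ a ≥ (1 : ℝ), ∀ u ≥ B,
      χ.eval₂ (Polynomial.evalRingHom a) u = 0 → a ≤ C * u ^ D := by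
  classical
  set K : ℕ := (range (D + 1)).sup (fun j => (χ.coeff j).natDegree) with hK
  have hle : ∀ j ≤ D, (χ.coeff j).natDegree ≤ K := fun j hj =>
    Finset.le_sup (f := fun j => (χ.coeff j).natDegree) (by rw [mem_range]; omega)
  -- the coefficients with respect to `a`
  let q : ℕ → Polynomial ℝ := fun i =>
    ∑ j ∈ range (D + 1), Polynomial.monomial j ((χ.coeff j).coeff i)
  have hqc : ∀ i j, j ≤ D → (q i).coeff j = (χ.coeff j).coeff i := by
    intro i j hj
    simp only [q]
    rw [Polynomial.finsetSum_coeff]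
    simp only [Polynomial.coeff_monomial]
    rw [Finset.sum_ite_eq', if_pos (by rw [mem_range]; omega)]
  have hqd : ∀ i, (q i).natDegree ≤ D := by
    intro i
    apply Polynomial.natDegree_sum_le_of_forall_le
    intro j hj
    rw [mem_range] at hj
    exact (Polynomial.natDegree_monomial_le _).trans (by omega)
  have hexp : ∀ a u : ℝ, χ.eval₂ (Polynomial.evalRingHom a) u =
      ∑ i ∈ range (K + 1), a ^ i * (q i).eval u := by
    intro a u
    rw [Polynomial.eval₂_eq_sum_range, hD]
    have h1 : ∀ j ∈ range (D + 1), (Polynomial.evalRingHom a) (χ.coeff j) * u ^ j =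
        ∑ i ∈ range (K + 1), a ^ i * ((χ.coeff j).coeff i * u ^ j) := by
      intro j hj
      rw [mem_range] at hj
      rw [Polynomial.coe_evalRingHom, Polynomial.eval_eq_sum_range' (n := K + 1)
        (by have := hle j (by omega); omega), Finset.sum_mul]
      exact Finset.sum_congr rfl fun i _ => by ring
    rw [Finset.sum_congr rfl h1, Finset.sum_comm]
    refine Finset.sum_congr rfl fun i _ => ?_
    rw [Polynomial.eval_eq_sum_range' (n := D + 1) (by have := hqd i; omega), Finset.mul_sum]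
    refine Finset.sum_congr rfl fun j hj => ?_
    rw [mem_range] at hj
    rw [hqc i j (by omega)]
  -- the leading one is not zero
  have hqK : q K ≠ 0 := by
    obtain ⟨j, hj, hjK⟩ := Finset.exists_mem_eq_sup (range (D + 1)) ⟨0, by simp⟩
      (fun j => (χ.coeff j).natDegree)
    rw [mem_range] at hj
    intro h0
    have h1 := hqc K j (by omega)
    rw [h0, Polynomial.coeff_zero] at h1
    rw [← hK] at hjK
    have h2 : (χ.coeff j).leadingCoeff = 0 := by
      rw [Polynomial.leadingCoeff, ← hjK]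
      exact h1.symm
    rw [Polynomial.leadingCoeff_eq_zero] at h2
    have h3 : K = 0 := by rw [hjK, h2]; simp
    have h4 := hqc K D le_rfl
    rw [h0, Polynomial.coeff_zero, h3] at h4
    have h5 : χ.coeff D = 1 := by rw [← hD]; exact hχ
    rw [h5] at h4
    simp at h4
  have hlim := tendsto_eval₂_div (RingHom.id ℝ) (q K) (q K).natDegree le_rfl
  set ℓ := (q K).leadingCoeff with hℓ
  have hℓ0 : ℓ ≠ 0 := Polynomial.leadingCoeff_ne_zero.2 hqK
  have hlim2 : Tendsto (fun a : ℝ => |(q K).eval₂ (RingHom.id ℝ) a / a ^ (q K).natDegree|) atTop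
      (𝓝 |ℓ|) := hlim.abs
  have hev := hlim2.eventually (lt_mem_nhds (show |ℓ| / 2 < |ℓ| by
    have := abs_pos.2 hℓ0
    linarith))
  obtain ⟨B, hB⟩ := (hev.and (eventually_ge_atTop (1 : ℝ))).exists_forall_of_atTop
  have hℓ2 : 0 < |ℓ| / 2 := by
    have := abs_pos.2 hℓ0
    linarith
  set A : ℝ := ∑ i ∈ range (K + 1), ∑ j ∈ range (D + 1), |(q i).coeff j| with hA
  have hA0 : 0 ≤ A := Finset.sum_nonneg fun i _ => Finset.sum_nonneg fun j _ => abs_nonneg _
  have hqb : ∀ i ∈ range K, ∀ u ≥ (1 : ℝ), |(q i).eval u| ≤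
      (∑ j ∈ range (D + 1), |(q i).coeff j|) * u ^ D := by
    intro i _ u hu
    rw [Polynomial.eval_eq_sum_range' (n := D + 1) (by have := hqd i; omega), Finset.sum_mul]
    refine (Finset.abs_sum_le_sum_abs _ _).trans (Finset.sum_le_sum fun j hj => ?_)
    rw [mem_range] at hj
    rw [abs_mul, abs_of_pos (pow_pos (lt_of_lt_of_le one_pos hu) j)]
    apply mul_le_mul_of_nonneg_left _ (abs_nonneg _)
    exact pow_le_pow_right₀ hu (by omega)
  refine ⟨(A + 1) / (|ℓ| / 2), by positivity, max B 1, le_max_right _ _, fun a ha u hu h0 => ?_⟩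
  have hu1 : 1 ≤ u := (le_max_right _ _).trans hu
  obtain ⟨h1, -⟩ := hB u ((le_max_left _ _).trans hu)
  have hup : 0 < u := by linarith
  have h2 : |ℓ| / 2 ≤ |(q K).eval u| := by
    rw [abs_div, abs_of_pos (pow_pos hup _), lt_div_iff₀ (pow_pos hup _)] at h1
    have h3 : 1 ≤ u ^ (q K).natDegree := one_le_pow₀ hu1
    have h4 : (q K).eval₂ (RingHom.id ℝ) u = (q K).eval u := rfl
    rw [h4] at h1
    nlinarith
  rw [hexp, Finset.sum_range_succ] at h0
  have hap : 0 < a := by linarith
  have h5 : a ^ K * (|ℓ| / 2) ≤ |∑ i ∈ range K, a ^ i * (q i).eval u| := by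
    have h6 : a ^ K * (q K).eval u = -∑ i ∈ range K, a ^ i * (q i).eval u := by linarith
    calc a ^ K * (|ℓ| / 2) ≤ a ^ K * |(q K).eval u| :=
          mul_le_mul_of_nonneg_left h2 (by positivity)
      _ = |a ^ K * (q K).eval u| := by rw [abs_mul, abs_of_pos (pow_pos hap K)]
      _ = _ := by rw [h6, abs_neg]
  rcases Nat.eq_zero_or_pos K with hK0 | hK0
  · rw [hK0] at h5
    simp only [pow_zero, one_mul, range_zero, Finset.sum_empty, abs_zero] at h5
    linarith
  · have h6 : |∑ i ∈ range K, a ^ i * (q i).eval u| ≤ a ^ (K - 1) * (A * u ^ D) := by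
      calc |∑ i ∈ range K, a ^ i * (q i).eval u| ≤ ∑ i ∈ range K, |a ^ i * (q i).eval u| :=
            Finset.abs_sum_le_sum_abs _ _
        _ ≤ ∑ i ∈ range K, a ^ (K - 1) * ((∑ j ∈ range (D + 1), |(q i).coeff j|) * u ^ D) := by
          apply Finset.sum_le_sum
          intro i hi
          rw [abs_mul, abs_of_pos (pow_pos hap i)]
          apply mul_le_mul _ (hqb i hi u hu1) (abs_nonneg _) (by positivity)
          rw [mem_range] at hi
          exact pow_le_pow_right₀ ha (by omega)
        _ = a ^ (K - 1) * ((∑ i ∈ range K, ∑ j ∈ range (D + 1), |(q i).coeff j|) * u ^ D) := by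
          rw [← Finset.mul_sum, Finset.sum_mul]
        _ ≤ a ^ (K - 1) * (A * u ^ D) := by
          apply mul_le_mul_of_nonneg_left _ (by positivity)
          apply mul_le_mul_of_nonneg_right _ (by positivity)
          rw [hA, Finset.sum_range_succ]
          have : 0 ≤ ∑ j ∈ range (D + 1), |(q K).coeff j| :=
            Finset.sum_nonneg fun j _ => abs_nonneg _
          linarith
    have h7 : a ^ K = a ^ (K - 1) * a := by
      rw [← pow_succ]
      congr 1
      omega
    have h8 : a ^ (K - 1) * (a * (|ℓ| / 2)) ≤ a ^ (K - 1) * (A * u ^ D) := by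
      rw [← mul_assoc, ← h7]
      exact h5.trans h6
    have h9 : a * (|ℓ| / 2) ≤ A * u ^ D := le_of_mul_le_mul_left h8 (by positivity)
    rw [div_mul_eq_mul_div, le_div_iff₀ hℓ2]
    have : 0 ≤ u ^ D := by positivity
    nlinarith

/-- The zero norm. -/
def nr0 (R : Type) [CommRing R] : RNorm R where
  ν := fun _ => 0
  zero := rfl
  one := Nat.zero_le _
  neg := fun _ => le_rfl
  add := fun _ _ => le_rfl
  mul := fun _ _ => le_rfl

theorem S6_le_WW {m : ℕ} (y : Fin m → ℝ) : S6 y ≤ WW y ^ 3 := by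
  have h1 : ∀ j, y j ^ 2 ≤ WW y := by
    intro j
    unfold WW
    have := Finset.single_le_sum (f := fun j => y j ^ 2) (fun j _ => sq_nonneg _)
      (Finset.mem_univ j)
    linarith
  have hW : 0 ≤ WW y := by
    unfold WW
    have : 0 ≤ ∑ j, y j ^ 2 := Finset.sum_nonneg fun j _ => sq_nonneg _
    linarith
  have h2 : S6 y ≤ ∑ j, y j ^ 2 * WW y ^ 2 := by
    unfold S6
    apply Finset.sum_le_sum
    intro j _
    have h3 : y j ^ 6 = y j ^ 2 * (y j ^ 2) ^ 2 := by ring
    rw [h3]
    exact mul_le_mul_of_nonneg_left (pow_le_pow_left₀ (sq_nonneg _) (h1 j) _) (sq_nonneg _)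
  rw [← Finset.sum_mul] at h2
  have h4 : ∑ j, y j ^ 2 ≤ WW y := by
    unfold WW
    linarith
  calc S6 y ≤ (∑ j, y j ^ 2) * WW y ^ 2 := h2
    _ ≤ WW y * WW y ^ 2 := mul_le_mul_of_nonneg_right h4 (by positivity)
    _ = WW y ^ 3 := by ring

/-- A positive polynomial of degree at most four is bounded from below by a negative power of
the weight. -/
theorem loj {m : ℕ} (p : MvPolynomial (Fin m) ℝ) (hp : DegLE p 4)
    (hpos : ∀ y, 0 < p.eval₂ (RingHom.id ℝ) y) :
    ∃ c > 0, ∀ y, c ≤ p.eval₂ (RingHom.id ℝ) y * WW y ^ (3 * 5 ^ m) := by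
  classical
  set f : (Fin m → ℝ) → ℝ := fun y => p.eval₂ (RingHom.id ℝ) y with hf
  have hfc : Continuous f := eval₂_cont _ p
  -- the polynomials with parameter
  let P : MvPolynomial (Fin m) (Polynomial ℝ) := MvPolynomial.map Polynomial.C p
  have hP : ∀ (a : ℝ) z, P.eval₂ (Polynomial.evalRingHom a) z = f z := by
    intro a z
    simp only [P, hf]
    rw [MvPolynomial.eval₂_map]
    congr 1
    ext c
    simp
  have hPd : ∀ (a : ℝ) z i, (MvPolynomial.pderiv i P).eval₂ (Polynomial.evalRingHom a) z =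
      (MvPolynomial.pderiv i p).eval₂ (RingHom.id ℝ) z := by
    intro a z i
    simp only [P]
    rw [MvPolynomial.pderiv_map, MvPolynomial.eval₂_map]
    congr 1
    ext c
    simp
  let Vp : Fin m → MvPolynomial (Fin m) (Polynomial ℝ) := fun i =>
    -(MvPolynomial.C Polynomial.X * MvPolynomial.pderiv i P)
  let Wp : MvPolynomial (Fin m) (Polynomial ℝ) :=
    MvPolynomial.C (6 * Polynomial.X) * P -
      MvPolynomial.C Polynomial.X * ∑ i, MvPolynomial.X i * MvPolynomial.pderiv i P
  have hPdeg : DegLE P 4 := hp.map _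
  have hVdeg : ∀ i, DegLE (Vp i) 4 := fun i =>
    ((hPdeg.pderiv i).C_mul _).neg.mono (by norm_num)
  have hWdeg : DegLE Wp 4 := by
    refine (hPdeg.C_mul _).sub ((DegLE.sum _ _ _ fun i _ => ?_).C_mul _)
    exact ((degLE_X i).mul (hPdeg.pderiv i)).mono (by norm_num)
  obtain ⟨Λ, -, hΛ⟩ := mulMatrix_exists (nr0 (Polynomial ℝ)) Vp 1 le_rfl hVdeg
    (fun i => by simp [RNorm.mν, nr0]) Wp 4 hWdeg
  set χ := Λ.charpoly with hχ
  have hmon : χ.Monic := Matrix.charpoly_monic Λ
  have hdeg : χ.natDegree = 5 ^ m := by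
    rw [hχ, Matrix.charpoly_natDegree_eq_dim]
    simp
  obtain ⟨C, hC, B, hB, hgrow⟩ := alg_growth χ hmon (5 ^ m) hdeg (Nat.one_le_pow _ _ (by norm_num))
  -- minimizers
  obtain ⟨c4, hc4, hb4⟩ := eval₂_quartic (RingHom.id ℝ) p hp
  have hmin : ∀ a : ℝ, 0 < a → ∃ z, ∀ y, f z + S6 z / (6 * a) ≤ f y + S6 y / (6 * a) := by
    intro a ha
    have h1 := coercive f c4 hb4 hc4 a ha
    have h2 : Continuous fun z : Fin m → ℝ => f z + S6 z / (6 * a) := hfc.add (S6_cont.div_const _)
    exact h2.exists_forall_le h1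
  -- the value is a root
  have hroot : ∀ a : ℝ, 0 < a → ∀ z, (∀ y, f z + S6 z / (6 * a) ≤ f y + S6 y / (6 * a)) →
      χ.eval₂ (Polynomial.evalRingHom a) (6 * a * f z + S6 z) = 0 := by
    intro a ha z hz
    have key : ∀ i, z i ^ 5 = -(a * (MvPolynomial.pderiv i p).eval₂ (RingHom.id ℝ) z) := by
      intro i
      have hd1 := hasDerivAt_eval₂ (RingHom.id ℝ) z i p
      have hd2 : HasDerivAt (fun t : ℝ => S6 (Function.update z i t)) (6 * z i ^ 5) (z i) := by
        have h1 : ∀ t : ℝ, S6 (Function.update z i t) = t ^ 6 + ∑ j ∈ univ.erase i, z j ^ 6 := by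
          intro t
          unfold S6
          rw [← Finset.add_sum_erase univ _ (mem_univ i), Function.update_self]
          congr 1
          apply Finset.sum_congr rfl
          intro j hj
          rw [Function.update_of_ne (Finset.ne_of_mem_erase hj)]
        have h2 : (fun t : ℝ => S6 (Function.update z i t)) =
            fun t : ℝ => t ^ 6 + ∑ j ∈ univ.erase i, z j ^ 6 := funext h1
        rw [h2]
        have h3 := (hasDerivAt_pow 6 (z i)).add_const (∑ j ∈ univ.erase i, z j ^ 6)
        simpa using h3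
      have hd := hd1.add (hd2.div_const (6 * a))
      have hloc : IsLocalMin ((fun t : ℝ => p.eval₂ (RingHom.id ℝ) (Function.update z i t))
          + fun t : ℝ => S6 (Function.update z i t) / (6 * a)) (z i) := by
        apply Filter.Eventually.of_forall
        intro t
        simp only [Pi.add_apply, Function.update_eq_self]
        exact hz _
      have h0 := hloc.hasDerivAt_eq_zero hd
      have he' : a ≠ 0 := ne_of_gt ha
      field_simp at h0
      linarith
    have hcrit : IsCrit Vp (Polynomial.evalRingHom a) z := by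
      intro i
      simp only [Vp]
      rw [MvPolynomial.eval₂_neg, MvPolynomial.eval₂_mul, MvPolynomial.eval₂_C, hPd, key i]
      simp
    have hW : Wp.eval₂ (Polynomial.evalRingHom a) z = 6 * a * f z + S6 z := by
      simp only [Wp]
      rw [MvPolynomial.eval₂_sub, MvPolynomial.eval₂_mul, MvPolynomial.eval₂_mul,
        MvPolynomial.eval₂_C, MvPolynomial.eval₂_C, MvPolynomial.eval₂_sum, hP]
      have h1 : ∑ i, MvPolynomial.eval₂ (Polynomial.evalRingHom a) z
          (MvPolynomial.X i * MvPolynomial.pderiv i P) =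
          ∑ i, z i * (MvPolynomial.pderiv i p).eval₂ (RingHom.id ℝ) z :=
        Finset.sum_congr rfl fun i _ => by
          rw [MvPolynomial.eval₂_mul, MvPolynomial.eval₂_X, hPd]
      rw [h1]
      have h2 : S6 z = -(a * ∑ i, z i * (MvPolynomial.pderiv i p).eval₂ (RingHom.id ℝ) z) := by
        unfold S6
        rw [Finset.mul_sum, ← Finset.sum_neg_distrib]
        refine Finset.sum_congr rfl fun i _ => ?_
        have h3 : z i ^ 6 = z i * z i ^ 5 := by ring
        rw [h3, key i]
        ring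
      rw [h2]
      simp only [Polynomial.coe_evalRingHom, Polynomial.eval_mul, Polynomial.eval_X,
        Polynomial.eval_ofNat]
      ring
    rw [← hW, Polynomial.eval₂_eq_eval_map, hχ, ← Matrix.charpoly_map, Matrix.eval_charpoly,
      ← Matrix.exists_mulVec_eq_zero_iff]
    refine ⟨fun β => ∏ j, z j ^ (β j : ℕ), ?_, ?_⟩
    · intro h
      have := congrFun h (fun _ => 0)
      simp at this
    · ext α
      rw [Matrix.sub_mulVec]
      simp only [Matrix.scalar_apply, Pi.sub_apply, Pi.zero_apply]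
      rw [Matrix.mulVec_diagonal]
      rw [hΛ _ z hcrit α]
      simp [Matrix.mulVec, dotProduct]
  -- the values tend to infinity
  have hinf : ∀ B' : ℝ, ∃ a0 > 0, ∀ a ≥ a0, ∀ y, B' ≤ 6 * a * f y + S6 y := by
    intro B'
    have hKc : IsCompact {y : Fin m → ℝ | S6 y ≤ max B' 1} := by
      apply Metric.isCompact_of_isClosed_isBounded
      · exact isClosed_le S6_cont continuous_const
      · rw [isBounded_iff_forall_norm_le]
        refine ⟨max B' 1, fun y hy => ?_⟩
        have h1 : ‖y‖ ^ 6 ≤ max B' 1 := (norm_pow_le_S6 y).trans hy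
        by_contra hcon
        push Not at hcon
        have h2 : 1 ≤ max B' 1 := le_max_right _ _
        have h3 : 1 < ‖y‖ := lt_of_le_of_lt h2 hcon
        have h4 : ‖y‖ ≤ ‖y‖ ^ 6 := by
          calc ‖y‖ = ‖y‖ ^ 1 := (pow_one _).symm
            _ ≤ ‖y‖ ^ 6 := pow_le_pow_right₀ h3.le (by norm_num)
        linarith
    have hKne : {y : Fin m → ℝ | S6 y ≤ max B' 1}.Nonempty := ⟨0, by
      simp [S6]⟩
    obtain ⟨y0, -, hy0⟩ := hKc.exists_isMinOn hKne hfc.continuousOn
    refine ⟨max 1 (B' / (6 * f y0)), lt_of_lt_of_le one_pos (le_max_left _ _), fun a ha y => ?_⟩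
    have ha1 : 1 ≤ a := (le_max_left _ _).trans ha
    have ha2 : B' / (6 * f y0) ≤ a := (le_max_right _ _).trans ha
    have hf0 : 0 < f y0 := hpos y0
    have hfy : 0 < f y := hpos y
    have hS := S6_nonneg y
    by_cases hy : S6 y ≤ max B' 1
    · have h1 : f y0 ≤ f y := hy0 hy
      rw [div_le_iff₀ (by positivity)] at ha2
      nlinarith
    · push Not at hy
      have h1 : B' ≤ S6 y := (le_max_left _ _).trans hy.le
      nlinarith [mul_pos (mul_pos (by norm_num : (0 : ℝ) < 6) (lt_of_lt_of_le one_pos ha1)) hfy]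
  obtain ⟨a0, ha0, hinf0⟩ := hinf B
  have hmain : ∀ a ≥ max a0 1, ∀ y, a ≤ C * (6 * a * f y + S6 y) ^ (5 ^ m) := by
    intro a ha y
    have h1 : a0 ≤ a := (le_max_left _ _).trans ha
    have h2 : 1 ≤ a := (le_max_right _ _).trans ha
    have hap : 0 < a := by linarith
    obtain ⟨z, hz⟩ := hmin a hap
    have h3 := hgrow a h2 _ (hinf0 a h1 z) (hroot a hap z hz)
    refine h3.trans ?_
    apply mul_le_mul_of_nonneg_left _ hC.le
    apply pow_le_pow_left₀
    · have := hinf0 a h1 z
      linarith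
    · have h4 := hz y
      have e1 : ∀ y, 6 * a * f y + S6 y = 6 * a * (f y + S6 y / (6 * a)) := by
        intro y
        field_simp
      rw [e1 z, e1 y]
      exact mul_le_mul_of_nonneg_left h4 (by positivity)
  -- conclusion
  set A := max (max a0 1) C with hA
  have hA1 : 1 ≤ A := (le_max_right _ _).trans (le_max_left _ _)
  have hKc : IsCompact {y : Fin m → ℝ | S6 y ≤ A} := by
    apply Metric.isCompact_of_isClosed_isBounded
    · exact isClosed_le S6_cont continuous_const
    · rw [isBounded_iff_forall_norm_le]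
      refine ⟨A, fun y hy => ?_⟩
      have h1 : ‖y‖ ^ 6 ≤ A := (norm_pow_le_S6 y).trans hy
      by_contra hcon
      push Not at hcon
      have h3 : 1 < ‖y‖ := lt_of_le_of_lt hA1 hcon
      have h4 : ‖y‖ ≤ ‖y‖ ^ 6 := by
        calc ‖y‖ = ‖y‖ ^ 1 := (pow_one _).symm
          _ ≤ ‖y‖ ^ 6 := pow_le_pow_right₀ h3.le (by norm_num)
      linarith
  have hKne : {y : Fin m → ℝ | S6 y ≤ A}.Nonempty := ⟨0, by
    simp only [Set.mem_ofPred_eq, S6]
    simp
    linarith⟩
  obtain ⟨y0, -, hy0⟩ := hKc.exists_isMinOn hKne hfc.continuousOn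
  have hf0 : 0 < f y0 := hpos y0
  have hA0 : 0 < A := by linarith
  set D := 5 ^ m with hD
  have hD1 : 1 ≤ D := Nat.one_le_pow _ _ (by norm_num)
  refine ⟨min (f y0) (1 / (6 * (A * 2 ^ D))), lt_min hf0 (by positivity), fun y => ?_⟩
  have hW1 : 1 ≤ WW y := by
    unfold WW
    have : 0 ≤ ∑ j, y j ^ 2 := Finset.sum_nonneg fun j _ => sq_nonneg _
    linarith
  have hWk : 1 ≤ WW y ^ (3 * D) := one_le_pow₀ hW1
  have hfy : 0 < f y := hpos y
  by_cases hy : S6 y ≤ A
  · refine (min_le_left _ _).trans ?_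
    have h1 : f y0 ≤ f y := hy0 hy
    change f y0 ≤ f y * WW y ^ (3 * D)
    nlinarith
  · push Not at hy
    refine (min_le_right _ _).trans ?_
    have hS : 1 ≤ S6 y := by linarith
    -- choose the parameter
    set a := A * (2 * S6 y) ^ D with ha
    have h2S : 1 ≤ (2 * S6 y) ^ D := one_le_pow₀ (by linarith)
    have haA : A ≤ a := by
      rw [ha]
      nlinarith
    have h1 := hmain a ((le_max_left _ _).trans haA) y
    have hap : 0 < a := by linarith
    have h2 : 2 * S6 y ≤ 6 * a * f y + S6 y := by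
      by_contra hcon
      push Not at hcon
      have h3 : 0 ≤ 6 * a * f y + S6 y := by positivity
      have h4 : (6 * a * f y + S6 y) ^ D < (2 * S6 y) ^ D :=
        pow_lt_pow_left₀ hcon h3 (by omega)
      have h5 : C * (6 * a * f y + S6 y) ^ D < a := by
        calc C * (6 * a * f y + S6 y) ^ D < C * (2 * S6 y) ^ D :=
              mul_lt_mul_of_pos_left h4 hC
          _ ≤ A * (2 * S6 y) ^ D := mul_le_mul_of_nonneg_right (le_max_right _ _) (by positivity)
          _ = a := rfl
      linarith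
    have h3 : S6 y ≤ 6 * a * f y := by linarith
    have h4 : S6 y ^ D ≤ WW y ^ (3 * D) := by
      rw [pow_mul]
      exact pow_le_pow_left₀ (S6_nonneg y) (S6_le_WW y) _
    change 1 / (6 * (A * 2 ^ D)) ≤ f y * WW y ^ (3 * D)
    rw [div_le_iff₀ (by positivity)]
    have h5 : 1 ≤ 6 * a * f y := by linarith
    calc (1 : ℝ) ≤ 6 * a * f y := h5
      _ = f y * S6 y ^ D * (6 * (A * 2 ^ D)) := by rw [ha, mul_pow]; ring
      _ ≤ f y * WW y ^ (3 * D) * (6 * (A * 2 ^ D)) := by
        apply mul_le_mul_of_nonneg_right _ (by positivity)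
        exact mul_le_mul_of_nonneg_left h4 hfy.le

end Pool.Agent.TH662.IP
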