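import Mathlib
import Pool.Agent.H612.GalHard
import Pool.Agent.TH662.IP.Loj
import Pool.Agent.TH662.IP.Eqv

/-!
# The systems of the reduction
-/

namespace Pool.Agent.TH662.IP

open Finset Pool.Agent.H612 Pool.Agent.NPC Pool.Agent.NPC.ER Pool.Agent.NPC.H612

/-- Constraints, multiplied by the variable `P`. -/
def cE (n P : ℕ) (Vs : List ℕ) : Con → List (Bool × ℕ × ℕ × ℕ)
  | .one i => [(true, P, 1 + n + Vs.idxOf i, 0), (false, P, 0, 0)]
  | .add i j k => [(true, P, 1 + n + Vs.idxOf i, 0), (true, P, 1 + n + Vs.idxOf j, 0),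
      (false, P, 1 + n + Vs.idxOf k, 0)]
  | .mul i j k => [(true, P, 1 + n + Vs.idxOf i, 1 + n + Vs.idxOf j),
      (false, P, 1 + n + Vs.idxOf k, 0)]

/-- The last coordinate is the inverse of the first parameter. -/
def zE (n P nv : ℕ) : List (Bool × ℕ × ℕ × ℕ) :=
  [(true, P, 1 + n + nv, 1), (false, P, 0, 0)]

/-- The existential variables are the quotients of the parameters. -/
def xE (n P nv j : ℕ) : List (Bool × ℕ × ℕ × ℕ) :=
  [(true, P, 1 + n + j, 0), (false, P, 1 + n + nv, 2 + j)]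

/-- The base system. -/
def baseS (n P : ℕ) (E Vs : List ℕ) (S0 : List Con) : Sys :=
  S0.map (cE n P Vs) ++ zE n P Vs.length :: (List.range Vs.length).map fun j =>
    if isE E (Vs.getD j 0) = true then xE n P Vs.length j else []

/-- The start of the chain. -/
def startE (n m : ℕ) : List (Bool × ℕ × ℕ × ℕ) :=
  (true, 1 + n + m, 0, 0) :: (false, 0, 0, 0) ::
    (List.range m).map fun j => (false, 1 + n + j, 1 + n + j, 0)

/-- The chain. -/
def chainS (n m : ℕ) : Sys := (List.range (3 * m)).map fun i =>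
  [(true, 1 + n + (m + (i + 1)), 0, 0), (false, 1 + n + (m + i), 1 + n + (m + i), 0)]

/-- The dimension. -/
def nI (Vs : List ℕ) : ℕ := 4 * (Vs.length + 1) + 1

/-- The whole system. -/
def instS (E Vs : List ℕ) (S0 : List Con) : Sys :=
  baseS (nI Vs) (1 + nI Vs + (Vs.length + 1 + 3 * (Vs.length + 1))) E Vs S0 ++
    startE (nI Vs) (Vs.length + 1) :: chainS (nI Vs) (Vs.length + 1)

section ring

variable {R : Type} [CommRing R] {n : ℕ}

theorem vg_zero (a : R) (x y : Fin n → R) : vg a x y 0 = a := rfl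

theorem vg_x (a : R) (x y : Fin n → R) {k : ℕ} (hk : k < n) :
    vg a x y (1 + k) = yat x k := by
  unfold vg
  rw [if_neg (by omega), if_pos (by omega)]
  congr 1
  omega

theorem vg_y (a : R) (x y : Fin n → R) (k : ℕ) : vg a x y (1 + n + k) = yat y k := by
  unfold vg
  rw [if_neg (by omega), if_neg (by omega)]
  congr 1
  omega

theorem yat_lt (y : Fin n → R) {k : ℕ} (hk : k < n) : yat y k = y ⟨k, hk⟩ := dif_pos hk

theorem EE_nil (V : ℕ → R) : EE [] V = 0 := rfl

theorem EE_cons (q : Bool × ℕ × ℕ × ℕ) (l : List (Bool × ℕ × ℕ × ℕ)) (V : ℕ → R) :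
    EE (q :: l) V = sg q.1 * (V q.2.1 * V q.2.2.1 * V q.2.2.2) + EE l V := rfl

theorem FF_nil (V : ℕ → R) : FF [] V = 0 := rfl

theorem FF_cons (l : List (Bool × ℕ × ℕ × ℕ)) (S : Sys) (V : ℕ → R) :
    FF (l :: S) V = EE l V ^ 2 + FF S V := rfl

theorem FF_append (S S' : Sys) (V : ℕ → R) : FF (S ++ S') V = FF S V + FF S' V := by
  unfold FF
  rw [List.map_append, List.sum_append]

theorem sg_true : (sg true : R) = 1 := rfl

theorem sg_false : (sg false : R) = -1 := rfl

theorem EE_cE (P : ℕ) (Vs : List ℕ) (c : Con) (V : ℕ → R) (h0 : V 0 = 1) :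
    EE (cE n P Vs c) V = V P * EE (cE n 0 Vs c) V := by
  cases c <;> simp only [cE, EE_cons, EE_nil, h0, sg_true, sg_false] <;> ring

theorem EE_zE (P nv : ℕ) (V : ℕ → R) (h0 : V 0 = 1) :
    EE (zE n P nv) V = V P * EE (zE n 0 nv) V := by
  simp only [zE, EE_cons, EE_nil, h0, sg_true, sg_false]
  ring

theorem EE_xE (P nv j : ℕ) (V : ℕ → R) (h0 : V 0 = 1) :
    EE (xE n P nv j) V = V P * EE (xE n 0 nv j) V := by
  simp only [xE, EE_cons, EE_nil, h0, sg_true, sg_false]
  ring

theorem FF_base (P : ℕ) (E Vs : List ℕ) (S0 : List Con) (V : ℕ → R) (h0 : V 0 = 1) :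
    FF (baseS n P E Vs S0) V = V P ^ 2 * FF (baseS n 0 E Vs S0) V := by
  unfold baseS
  rw [FF_append, FF_append, FF_cons, FF_cons, EE_zE P _ V h0]
  have h1 : FF (S0.map (cE n P Vs)) V = V P ^ 2 * FF (S0.map (cE n 0 Vs)) V := by
    unfold FF
    rw [List.map_map, List.map_map, ← List.sum_map_mul_left]
    congr 1
    refine List.map_congr_left fun c _ => ?_
    simp only [Function.comp]
    rw [EE_cE P Vs c V h0]
    ring
  have h2 : FF ((List.range Vs.length).map fun j =>
      if isE E (Vs.getD j 0) = true then xE n P Vs.length j else []) V =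
      V P ^ 2 * FF ((List.range Vs.length).map fun j =>
      if isE E (Vs.getD j 0) = true then xE n 0 Vs.length j else []) V := by
    unfold FF
    rw [List.map_map, List.map_map, ← List.sum_map_mul_left]
    congr 1
    refine List.map_congr_left fun j _ => ?_
    simp only [Function.comp]
    split_ifs
    · rw [EE_xE P _ j V h0]
      ring
    · rw [EE_nil]
      ring
  rw [h1, h2]
  ring

theorem EE_congr {l : List (Bool × ℕ × ℕ × ℕ)} {V V' : ℕ → R}
    (h : ∀ q ∈ l, V q.2.1 = V' q.2.1 ∧ V q.2.2.1 = V' q.2.2.1 ∧ V q.2.2.2 = V' q.2.2.2) :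
    EE l V = EE l V' := by
  unfold EE
  congr 1
  refine List.map_congr_left fun q hq => ?_
  obtain ⟨h1, h2, h3⟩ := h q hq
  rw [h1, h2, h3]

theorem FF_congr {S : Sys} {V V' : ℕ → R}
    (h : ∀ l ∈ S, EE l V = EE l V') : FF S V = FF S V' := by
  unfold FF
  congr 1
  exact List.map_congr_left fun l hl => by rw [h l hl]

/-- The base system only depends on some of the variables. -/
theorem FF_base_congr (E : List ℕ) (S0 : List Con) {V V' : ℕ → R} (h0 : V 0 = V' 0)
    (h1 : V 1 = V' 1) (hx : ∀ j < (varsOf S0).length, V (2 + j) = V' (2 + j))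
    (hy : ∀ j < (varsOf S0).length + 1, V (1 + n + j) = V' (1 + n + j)) :
    FF (baseS n 0 E (varsOf S0) S0) V = FF (baseS n 0 E (varsOf S0) S0) V' := by
  refine FF_congr fun l hl => EE_congr fun q hq => ?_
  unfold baseS at hl
  rw [List.mem_append, List.mem_cons, List.mem_map, List.mem_map] at hl
  rcases hl with ⟨c, hc, rfl⟩ | rfl | ⟨j, hj, rfl⟩
  · have hi : ∀ i ∈ c.vars, V (1 + n + (varsOf S0).idxOf i) = V' (1 + n + (varsOf S0).idxOf i) := by
      intro i hi
      refine hy _ ((List.idxOf_lt_length_iff.2 ?_).trans (Nat.lt_succ_self _))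
      exact List.mem_flatMap.2 ⟨c, hc, hi⟩
    cases c <;> simp [Con.vars] at hi <;> simp [cE] at hq <;> aesop
  · simp only [zE, List.mem_cons, List.not_mem_nil, or_false] at hq
    rcases hq with rfl | rfl
    · exact ⟨h0, hy _ (Nat.lt_succ_self _), h1⟩
    · exact ⟨h0, h0, h0⟩
  · rw [List.mem_range] at hj
    split_ifs at hq
    · simp only [xE, List.mem_cons, List.not_mem_nil, or_false] at hq
      rcases hq with rfl | rfl
      · exact ⟨h0, hy _ (by omega), h0⟩
      · exact ⟨h0, hy _ (Nat.lt_succ_self _), hx j hj⟩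
    · simp at hq

end ring

theorem FF_eq_zero {S : Sys} {V : ℕ → ℝ} : FF S V = 0 ↔ ∀ l ∈ S, EE l V = 0 := by
  induction S with
  | nil => simp [FF_nil]
  | cons l S ih =>
    rw [FF_cons]
    have h1 : 0 ≤ FF S V := by
      unfold FF
      refine List.sum_nonneg fun a ha => ?_
      obtain ⟨l, _, rfl⟩ := List.mem_map.1 ha
      positivity
    simp only [List.mem_cons, forall_eq_or_imp, ← ih]
    constructor
    · intro h
      have h2 : EE l V ^ 2 = 0 := by nlinarith [sq_nonneg (EE l V)]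
      exact ⟨by simpa using h2, by nlinarith⟩
    · rintro ⟨h2, h3⟩
      rw [h2, h3]
      ring

theorem FF_nonneg' (S : Sys) (V : ℕ → ℝ) : 0 ≤ FF S V := by
  unfold FF
  refine List.sum_nonneg fun a ha => ?_
  obtain ⟨l, _, rfl⟩ := List.mem_map.1 ha
  positivity

theorem EE_sq_le {S : Sys} {V : ℕ → ℝ} {l : List (Bool × ℕ × ℕ × ℕ)} (hl : l ∈ S) :
    EE l V ^ 2 ≤ FF S V := by
  induction S with
  | nil => simp at hl
  | cons l' S ih =>
    rw [FF_cons]
    rcases List.mem_cons.1 hl with rfl | h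
    · linarith [FF_nonneg' S V]
    · have := ih h
      nlinarith [sq_nonneg (EE l' V)]

/-- Meaning of the base system. -/
theorem base_iff {n : ℕ} (E Vs : List ℕ) (S0 : List Con) (V : ℕ → ℝ) (h0 : V 0 = 1) :
    FF (baseS n 0 E Vs S0) V = 0 ↔ SysHolds (fun w => V (1 + n + Vs.idxOf w)) S0 ∧
      V (1 + n + Vs.length) * V 1 = 1 ∧ ∀ j < Vs.length, isE E (Vs.getD j 0) = true →
        V (1 + n + j) = V (1 + n + Vs.length) * V (2 + j) := by
  rw [FF_eq_zero]
  unfold baseS SysHolds
  simp only [List.mem_append, List.mem_cons, List.mem_map, List.mem_range, or_imp, forall_and,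
    forall_exists_index, and_imp, forall_apply_eq_imp_iff₂, forall_eq]
  refine and_congr ?_ (and_congr ?_ ?_)
  · refine forall₂_congr fun c _ => ?_
    cases c <;> simp only [cE, EE_cons, EE_nil, h0, sg_true, sg_false, Con.Holds] <;>
      constructor <;> intro h <;> linarith
  · simp only [zE, EE_cons, EE_nil, h0, sg_true, sg_false]
    constructor <;> intro h <;> linarith
  · refine forall₂_congr fun j _ => ?_
    by_cases hj : isE E (Vs.getD j 0) = true
    · rw [if_pos hj]
      simp only [hj, forall_true_left, xE, EE_cons, EE_nil, h0, sg_true, sg_false]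
      constructor <;> intro h <;> linarith
    · rw [if_neg hj]
      exact ⟨fun _ h => absurd h hj, fun _ => EE_nil V⟩

theorem EE_chain {n m i : ℕ} (V : ℕ → ℝ) (h0 : V 0 = 1) :
    EE [(true, 1 + n + (m + (i + 1)), 0, 0), (false, 1 + n + (m + i), 1 + n + (m + i), 0)] V =
      V (1 + n + (m + (i + 1))) - V (1 + n + (m + i)) ^ 2 := by
  simp only [EE_cons, EE_nil, h0, sg_true, sg_false]
  ring

theorem EE_start {n m : ℕ} (V : ℕ → ℝ) (h0 : V 0 = 1) :
    EE (startE n m) V = V (1 + n + m) - (1 + ∑ j : Fin m, V (1 + n + j) ^ 2) := by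
  unfold startE
  rw [EE_cons, EE_cons]
  simp only [h0, sg_true, sg_false]
  have h : EE ((List.range m).map fun j => (false, 1 + n + j, 1 + n + j, 0)) V =
      - ∑ j : Fin m, V (1 + n + j) ^ 2 := by
    unfold EE
    rw [List.map_map, list_sum_range, ← Finset.sum_neg_distrib]
    refine Finset.sum_congr rfl fun j _ => ?_
    simp only [Function.comp, h0, sg_false]
    ring
  rw [h]
  ring

/-- Lower bounds along the chain. -/
theorem chain_lb (L : ℕ) : ∃ η : ℝ, 0 < η ∧ ∃ b : ℝ, 0 < b ∧ ∀ (p : ℕ → ℝ) (W : ℝ), 1 ≤ W →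
    |p 0 - W| ≤ η → (∀ i < L, |p (i + 1) - p i ^ 2| ≤ η) → b * W ^ 2 ^ L ≤ p L := by
  induction L with
  | zero =>
    refine ⟨1 / 2, by norm_num, 1 / 2, by norm_num, fun p W hW h0 _ => ?_⟩
    rw [abs_le] at h0
    rw [pow_zero, pow_one]
    linarith
  | succ L ih =>
    obtain ⟨η, hη, b, hb, h⟩ := ih
    refine ⟨min η (b ^ 2 / 2), by positivity, b ^ 2 / 2, by positivity, fun p W hW h0 h1 => ?_⟩
    have h2 := h p W hW (h0.trans (min_le_left _ _)) fun i hi =>
      (h1 i (by omega)).trans (min_le_left _ _)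
    have h3 := (h1 L (by omega)).trans (min_le_right _ _)
    rw [abs_le] at h3
    have h4 : 0 ≤ b * W ^ 2 ^ L := by positivity
    have h5 : (b * W ^ 2 ^ L) ^ 2 ≤ p L ^ 2 := pow_le_pow_left₀ h4 h2 2
    have h6 : (b * W ^ 2 ^ L) ^ 2 = b ^ 2 * W ^ 2 ^ (L + 1) := by
      rw [mul_pow, ← pow_mul, pow_succ 2 L]
    have h7 : 1 ≤ W ^ 2 ^ (L + 1) := one_le_pow₀ hW
    rw [h6] at h5
    nlinarith [h3.1, sq_nonneg b]

/-- The truth of the sentence in terms of vectors. -/
theorem ear_iff_v (p : List ℕ × Fm) :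
    EAR p ↔ ∃ u : Fin (varsOf (sysOf (Fm.not p.2))).length → ℝ,
      ∀ v : Fin (varsOf (sysOf (Fm.not p.2))).length → ℝ,
        (∀ j : Fin (varsOf (sysOf (Fm.not p.2))).length,
          isE p.1 ((varsOf (sysOf (Fm.not p.2))).getD j 0) = true → v j = u j) →
        ¬ SysHolds (fun w => xt v ((varsOf (sysOf (Fm.not p.2))).idxOf w))
          (sysOf (Fm.not p.2)) := by
  rw [ear_iff_sys, ear_iff_pts]
  generalize sysOf (Fm.not p.2) = S
  classical
  constructor
  · rintro ⟨u, hu, h⟩
    refine ⟨u, fun v hv => ?_⟩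
    have h1 := h (fun j => if exC p.1 (varsOf S) j then 0 else v j) fun j hj => if_pos hj
    have h2 : (fun j => u j + if exC p.1 (varsOf S) j then 0 else v j) = v := by
      funext j
      by_cases hj : exC p.1 (varsOf S) j
      · rw [if_pos hj, add_zero, hv j hj]
      · rw [if_neg hj, hu j hj, zero_add]
    rw [h2] at h1
    exact h1
  · rintro ⟨u, h⟩
    refine ⟨fun j => if exC p.1 (varsOf S) j then u j else 0, fun j hj => if_neg hj,
      fun w hw => ?_⟩
    refine h _ fun j hj => ?_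
    have hj' : exC p.1 (varsOf S) j := hj
    change (if exC p.1 (varsOf S) j then u j else 0) + w j = u j
    rw [if_pos hj', hw j hj', add_zero]

end Pool.Agent.TH662.IP
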