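import Mathlib
import Pool.Agent.TH662.IP.Inst

/-!
# Correctness of the systems
-/

namespace Pool.Agent.TH662.IP

open Finset Pool.Agent.H612 Pool.Agent.NPC Pool.Agent.NPC.ER Pool.Agent.NPC.H612

section deg

variable {N : ℕ} {V : ℕ → MvPolynomial (Fin N) ℝ}

theorem degLE_one (m : ℕ) : DegLE (1 : MvPolynomial (Fin N) ℝ) m := by
  have := degLE_C (N := N) (1 : ℝ) m
  rwa [MvPolynomial.C_1] at this

theorem DegLE.sg_mul {p : MvPolynomial (Fin N) ℝ} {m : ℕ} (b : Bool) (hp : DegLE p m) :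
    DegLE (sg b * p) m := by
  cases b
  · rw [sg_false, neg_one_mul]
    exact hp.neg
  · rw [sg_true, one_mul]
    exact hp

theorem EE_deg {l : List (Bool × ℕ × ℕ × ℕ)} (h0 : V 0 = 1) (hV : ∀ k, DegLE (V k) 1)
    (hl : ∀ q ∈ l, q.2.1 = 0) : DegLE (EE l V) 2 := by
  induction l with
  | nil => exact degLE_zero 2
  | cons q l ih =>
    rw [EE_cons]
    refine DegLE.add (DegLE.sg_mul _ ?_) (ih fun q hq => hl q (List.mem_cons_of_mem _ hq))
    rw [hl q List.mem_cons_self, h0, one_mul]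
    exact (hV _).mul (hV _)

theorem FF_deg {S : Sys} (h : ∀ l ∈ S, DegLE (EE l V) 2) : DegLE (FF S V) 4 := by
  induction S with
  | nil => exact degLE_zero 4
  | cons l S ih =>
    rw [FF_cons, pow_two]
    exact ((h l List.mem_cons_self).mul (h l List.mem_cons_self)).add
      (ih fun l hl => h l (List.mem_cons_of_mem _ hl))

theorem base_deg (n : ℕ) (E Vs : List ℕ) (S0 : List Con) (h0 : V 0 = 1)
    (hV : ∀ k, DegLE (V k) 1) : DegLE (FF (baseS n 0 E Vs S0) V) 4 := by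
  refine FF_deg fun l hl => EE_deg h0 hV fun q hq => ?_
  unfold baseS at hl
  rw [List.mem_append, List.mem_cons, List.mem_map, List.mem_map] at hl
  rcases hl with ⟨c, hc, rfl⟩ | rfl | ⟨j, hj, rfl⟩
  · cases c <;> simp [cE] at hq <;> aesop
  · simp only [zE, List.mem_cons, List.not_mem_nil, or_false] at hq
    rcases hq with rfl | rfl <;> rfl
  · split_ifs at hq
    · simp only [xE, List.mem_cons, List.not_mem_nil, or_false] at hq
      rcases hq with rfl | rfl <;> rfl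
    · simp at hq

end deg

theorem pow_cmp {m : ℕ} (hm : 1 ≤ m) : 3 * 5 ^ m ≤ 2 ^ (3 * m) * 2 := by
  rw [pow_mul]
  induction m, hm using Nat.le_induction with
  | base => norm_num
  | succ m _ ih =>
    rw [pow_succ, pow_succ]
    omega

theorem hx_of (E : List ℕ) (S0 : List Con) (u : Fin (varsOf S0).length → ℝ)
    (h : ∀ v : Fin (varsOf S0).length → ℝ,
      (∀ j : Fin (varsOf S0).length, isE E ((varsOf S0).getD j 0) = true → v j = u j) →
      ¬ SysHolds (fun w => xt v ((varsOf S0).idxOf w)) S0) :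
    HX (nI (varsOf S0)) (instS E (varsOf S0) S0) := by
  classical
  have hcong : ∀ V V' : ℕ → ℝ, V 0 = V' 0 → V 1 = V' 1 →
      (∀ j < (varsOf S0).length, V (2 + j) = V' (2 + j)) →
      (∀ j < (varsOf S0).length + 1, V (1 + nI (varsOf S0) + j) = V' (1 + nI (varsOf S0) + j)) →
      FF (baseS (nI (varsOf S0)) 0 E (varsOf S0) S0) V =
        FF (baseS (nI (varsOf S0)) 0 E (varsOf S0) S0) V' := fun V V' h0 h1 hx hy =>
    FF_base_congr E S0 h0 h1 hx hy
  have hmem : ∀ c ∈ S0, ∀ i ∈ c.vars, i ∈ varsOf S0 := fun c hc i hi =>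
    List.mem_flatMap.2 ⟨c, hc, hi⟩
  generalize hVs : varsOf S0 = Vs at u h hcong hmem ⊢
  obtain ⟨m, hm⟩ : ∃ m, m = Vs.length + 1 := ⟨_, rfl⟩
  obtain ⟨n, hn⟩ : ∃ n, n = nI Vs := ⟨_, rfl⟩
  have hnm : n = 4 * m + 1 := by rw [hn, nI, hm]
  unfold instS
  rw [← hn, ← hm]
  rw [← hn] at hcong
  -- the point
  set X : Fin n → ℝ := fun i => if (i : ℕ) = 0 then 1 else xt u (i - 1) with hX
  set T : ℝ := 1 + ∑ i, X i ^ 2 with hT
  have hT1 : 1 ≤ T := by
    have : 0 ≤ ∑ i, X i ^ 2 := Finset.sum_nonneg fun i _ => sq_nonneg _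
    linarith
  have hT0 : 0 < T := by linarith
  set t : ℝ := T⁻¹ with ht
  have ht0 : 0 < t := inv_pos.2 hT0
  have htT : t * T = 1 := inv_mul_cancel₀ hT0.ne'
  set x : Fin n → ℝ := fun i => t * X i with hx
  have hxs : ∑ i, x i ^ 2 = t ^ 2 * (T - 1) := by
    rw [hT, add_sub_cancel_left, Finset.mul_sum]
    exact Finset.sum_congr rfl fun i _ => by rw [hx]; ring
  have hxlt : ∑ i, x i ^ 2 < 1 := by
    rw [hxs]
    have h1 : t ≤ 1 := by nlinarith
    nlinarith
  have hyx : ∀ j, yat x j = if h : j < n then t * X ⟨j, h⟩ else 0 := fun j => rfl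
  have hx0 : yat x 0 = t := by
    rw [hyx, dif_pos (by omega)]
    simp [hX]
  have hxj : ∀ j (hj : j < Vs.length), yat x (1 + j) = t * u ⟨j, hj⟩ := by
    intro j hj
    rw [hyx, dif_pos (by omega)]
    simp only [hX]
    rw [if_neg (by omega)]
    congr 1
    unfold xt
    have h1 : 1 + j - 1 < Vs.length := by omega
    rw [dif_pos h1]
    congr 1
    exact Fin.ext (by simp)
  have hV2 : ∀ (y : Fin n → ℝ) j (hj : j < Vs.length), vg 1 x y (2 + j) = t * u ⟨j, hj⟩ := by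
    intro y j hj
    have : 2 + j = 1 + (1 + j) := by ring
    rw [this, vg_x _ _ _ (by omega), hxj j hj]
  have hV1 : ∀ (y : Fin n → ℝ), vg 1 x y 1 = t := by
    intro y
    have := vg_x (1 : ℝ) x y (k := 0) (by omega)
    rw [hx0] at this
    exact this
  refine ⟨x, hxlt.le, ?_, ?_⟩
  · unfold hh
    rw [hx0]
    have : 0 < 1 - ∑ i, x i ^ 2 := by linarith
    positivity
  -- the polynomial
  let Y : Fin n → MvPolynomial (Fin m) ℝ := fun i =>
    if h : (i : ℕ) < m then MvPolynomial.X ⟨i, h⟩ else 0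
  let Vp : ℕ → MvPolynomial (Fin m) ℝ := vg 1 (fun i => MvPolynomial.C (x i)) Y
  let pB : MvPolynomial (Fin m) ℝ := FF (baseS n 0 E Vs S0) Vp
  let ey : (Fin m → ℝ) → Fin n → ℝ := fun y' i => if h : (i : ℕ) < m then y' ⟨i, h⟩ else 0
  have hey : ∀ (y' : Fin m → ℝ) j (hj : j < m), yat (ey y') j = y' ⟨j, hj⟩ := by
    intro y' j hj
    rw [yat_lt _ (by omega)]
    simp only [ey]
    rw [dif_pos hj]
  have hp0 : Vp 0 = 1 := vg_zero _ _ _
  have hp1 : ∀ k, DegLE (Vp k) 1 := by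
    intro k
    simp only [Vp]
    unfold vg yat
    split_ifs
    · exact degLE_one 1
    · exact degLE_C _ 1
    · simp only [Y]
      split_ifs
      · exact degLE_X _
      · exact degLE_zero 1
    · exact degLE_zero 1
  have hpd : DegLE pB 4 := base_deg n E Vs S0 hp0 hp1
  have hpe : ∀ y' : Fin m → ℝ, pB.eval₂ (RingHom.id ℝ) y' =
      FF (baseS n 0 E Vs S0) (vg 1 x (ey y')) := by
    intro y'
    have h1 := map_FF (MvPolynomial.eval₂Hom (RingHom.id ℝ) y') (baseS n 0 E Vs S0) Vp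
    have h2 : (fun k => MvPolynomial.eval₂Hom (RingHom.id ℝ) y' (Vp k)) = vg 1 x (ey y') := by
      funext k
      simp only [Vp]
      rw [map_vg]
      congr 1
      · exact map_one _
      · funext i
        simp
      · funext i
        simp only [Y, ey]
        split_ifs
        · simp
        · exact map_zero _
    rw [h2] at h1
    exact h1
  have hpos : ∀ y', 0 < pB.eval₂ (RingHom.id ℝ) y' := by
    intro y'
    rw [hpe]
    refine lt_of_le_of_ne (FF_nonneg' _ _) fun h0 => ?_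
    rw [eq_comm, base_iff E Vs S0 _ (vg_zero _ _ _)] at h0
    obtain ⟨h1, h2, h3⟩ := h0
    rw [hV1, vg_y] at h2
    refine h (fun j => y' ⟨j, by omega⟩) (fun j hj => ?_) fun c hc => ?_
    · have h4 := h3 j j.2 hj
      rw [vg_y, vg_y, hV2 _ _ j.2, hey _ _ (by omega : (j : ℕ) < m)] at h4
      rw [h4, ← mul_assoc, h2, one_mul]
    · refine (Con.holds_congr fun i hi => ?_).1 (h1 c hc)
      have h4 : Vs.idxOf i < Vs.length := List.idxOf_lt_length_iff.2 (hmem c hc i hi)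
      rw [vg_y, hey _ _ (by omega)]
      unfold xt
      rw [dif_pos h4]
  obtain ⟨c0, hc0, hlj⟩ := loj pB hpd hpos
  obtain ⟨η, hη, b, hb, hch⟩ := chain_lb (3 * m)
  refine ⟨min (η ^ 2) (b ^ 2 * c0), by positivity, fun y => ?_⟩
  by_contra hlt
  rw [not_le] at hlt
  have hlt1 := hlt.trans_le (min_le_left _ _)
  have hlt2 := hlt.trans_le (min_le_right _ _)
  set V : ℕ → ℝ := vg 1 x y with hV
  have hV0 : V 0 = 1 := vg_zero _ _ _
  have hab : ∀ l ∈ baseS n (1 + n + (m + 3 * m)) E Vs S0 ++ startE n m :: chainS n m,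
      |EE l V| ≤ η := by
    intro l hl
    exact abs_le_of_sq_le_sq ((EE_sq_le hl).trans hlt1.le) hη.le
  have hs := hab (startE n m) (by simp)
  rw [EE_start V hV0] at hs
  set y' : Fin m → ℝ := fun i => y ⟨i, by omega⟩ with hy'
  have hW : (1 + ∑ j : Fin m, V (1 + n + j) ^ 2) = WW y' := by
    unfold WW
    congr 1
    refine Finset.sum_congr rfl fun j _ => ?_
    rw [hV, vg_y, yat_lt _ (by omega)]
  rw [hW] at hs
  have hW1 : 1 ≤ WW y' := by
    unfold WW
    have : 0 ≤ ∑ j, y' j ^ 2 := Finset.sum_nonneg fun i _ => sq_nonneg _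
    linarith
  have h1 := hch (fun i => V (1 + n + (m + i))) (WW y') hW1 hs fun i hi => by
    have := hab _ (List.mem_append.2 (Or.inr (List.mem_cons_of_mem _
      (List.mem_map.2 ⟨i, List.mem_range.2 hi, rfl⟩))))
    rw [EE_chain V hV0] at this
    exact this
  have h2 : FF (baseS n 0 E Vs S0) V = pB.eval₂ (RingHom.id ℝ) y' := by
    rw [hpe]
    refine hcong _ _ ?_ ?_ ?_ ?_
    · rw [hV0, vg_zero]
    · rw [hV, hV1, hV1]
    · intro j hj
      rw [hV, hV2 _ j hj, hV2 _ j hj]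
    · intro j hj
      rw [hV, vg_y, vg_y, hey _ _ (by omega), yat_lt _ (by omega)]
  have h3 : V (1 + n + (m + 3 * m)) ^ 2 * pB.eval₂ (RingHom.id ℝ) y' ≤
      FF (baseS n (1 + n + (m + 3 * m)) E Vs S0 ++ startE n m :: chainS n m) V := by
    rw [FF_append, FF_base _ _ _ _ _ hV0, h2]
    linarith [FF_nonneg' (startE n m :: chainS n m) V]
  have h4 : b ^ 2 * WW y' ^ (3 * 5 ^ m) ≤ V (1 + n + (m + 3 * m)) ^ 2 := by
    have h5 : 0 ≤ b * WW y' ^ 2 ^ (3 * m) := by positivity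
    have h6 := pow_le_pow_left₀ h5 h1 2
    refine le_trans ?_ h6
    rw [mul_pow, ← pow_mul]
    exact mul_le_mul_of_nonneg_left (pow_le_pow_right₀ hW1 (pow_cmp (by omega))) (by positivity)
  have h5 := hlj y'
  have h6 : b ^ 2 * c0 ≤ V (1 + n + (m + 3 * m)) ^ 2 * pB.eval₂ (RingHom.id ℝ) y' := by
    calc b ^ 2 * c0 ≤ b ^ 2 * (pB.eval₂ (RingHom.id ℝ) y' * WW y' ^ (3 * 5 ^ m)) :=
          mul_le_mul_of_nonneg_left h5 (by positivity)
      _ = (b ^ 2 * WW y' ^ (3 * 5 ^ m)) * pB.eval₂ (RingHom.id ℝ) y' := by ring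
      _ ≤ _ := mul_le_mul_of_nonneg_right h4 (hpos y').le
  linarith

theorem hn_of (E : List ℕ) (S0 : List Con)
    (h : ∀ u : Fin (varsOf S0).length → ℝ, ∃ v : Fin (varsOf S0).length → ℝ,
      (∀ j : Fin (varsOf S0).length, isE E ((varsOf S0).getD j 0) = true → v j = u j) ∧
      SysHolds (fun w => xt v ((varsOf S0).idxOf w)) S0) :
    HN (nI (varsOf S0)) (instS E (varsOf S0) S0) := by
  classical
  have hmem : ∀ c ∈ S0, ∀ i ∈ c.vars, i ∈ varsOf S0 := fun c hc i hi =>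
    List.mem_flatMap.2 ⟨c, hc, hi⟩
  generalize hVs : varsOf S0 = Vs at h hmem ⊢
  obtain ⟨m, hm⟩ : ∃ m, m = Vs.length + 1 := ⟨_, rfl⟩
  obtain ⟨n, hn⟩ : ∃ n, n = nI Vs := ⟨_, rfl⟩
  have hnm : n = 4 * m + 1 := by rw [hn, nI, hm]
  unfold instS
  rw [← hn, ← hm]
  intro x _ hpos
  have hx0 : yat x 0 ≠ 0 := by
    intro h0
    unfold hh at hpos
    rw [h0] at hpos
    norm_num at hpos
  obtain ⟨v, hv, hs⟩ := h fun j => yat x (1 + j) / yat x 0
  set yb : ℕ → ℝ := fun i => if i < Vs.length then xt v i else (yat x 0)⁻¹ with hyb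
  set W : ℝ := 1 + ∑ j : Fin m, yb j ^ 2 with hW
  set Y : ℕ → ℝ := fun i => if i < m then yb i else W ^ 2 ^ (i - m) with hY
  set V : ℕ → ℝ := vg 1 x fun i : Fin n => Y i with hV
  have hV0 : V 0 = 1 := vg_zero _ _ _
  have hV1 : V 1 = yat x 0 := vg_x (1 : ℝ) x _ (k := 0) (by omega)
  have hV2 : ∀ j < Vs.length, V (2 + j) = yat x (1 + j) := by
    intro j hj
    have : 2 + j = 1 + (1 + j) := by ring
    rw [this, hV, vg_x _ _ _ (by omega)]
  have hVy : ∀ k < n, V (1 + n + k) = Y k := by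
    intro k hk
    rw [hV, vg_y, yat_lt _ hk]
  have hYz : Y Vs.length = (yat x 0)⁻¹ := by
    simp only [hY, hyb]
    rw [if_pos (by omega), if_neg (by omega)]
  have hYj : ∀ j < Vs.length, Y j = xt v j := by
    intro j hj
    simp only [hY, hyb]
    rw [if_pos (by omega), if_pos hj]
  have hYc : ∀ i, Y (m + i) = W ^ 2 ^ i := by
    intro i
    simp only [hY]
    rw [if_neg (by omega)]
    congr 2
    omega
  refine ⟨fun i => Y i, ?_⟩
  rw [← hV, FF_append, FF_base _ _ _ _ _ hV0, FF_cons, EE_start V hV0]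
  have hbase : FF (baseS n 0 E Vs S0) V = 0 := by
    rw [base_iff E Vs S0 V hV0]
    refine ⟨fun c hc => ?_, ?_, fun j hj hE => ?_⟩
    · refine (Con.holds_congr fun i hi => ?_).1 (hs c hc)
      have h4 : Vs.idxOf i < Vs.length := List.idxOf_lt_length_iff.2 (hmem c hc i hi)
      rw [hVy _ (by omega), hYj _ h4]
    · rw [hVy _ (by omega), hYz, hV1, inv_mul_cancel₀ hx0]
    · rw [hVy _ (by omega), hVy _ (by omega), hYz, hYj j hj, hV2 j hj]
      have h5 := hv ⟨j, hj⟩ hE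
      simp only at h5
      unfold xt
      rw [dif_pos hj, h5, div_eq_mul_inv, mul_comm]
  have hst : V (1 + n + m) - (1 + ∑ j : Fin m, V (1 + n + j) ^ 2) = 0 := by
    have h1 : V (1 + n + m) = W := by
      have h3 := hYc 0
      rw [add_zero, pow_zero, pow_one] at h3
      rw [hVy _ (by omega), h3]
    have h2 : ∑ j : Fin m, V (1 + n + j) ^ 2 = ∑ j : Fin m, yb j ^ 2 := by
      refine Finset.sum_congr rfl fun j _ => ?_
      rw [hVy _ (by omega)]
      simp only [hY]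
      rw [if_pos j.2]
    rw [h1, h2, hW, sub_self]
  have hchn : FF (chainS n m) V = 0 := by
    rw [FF_eq_zero]
    intro l hl
    obtain ⟨i, hi, rfl⟩ := List.mem_map.1 hl
    rw [List.mem_range] at hi
    rw [EE_chain V hV0, hVy _ (by omega), hVy _ (by omega), hYc, hYc, ← pow_mul, pow_succ 2 i,
      sub_self]
  rw [hbase, hst, hchn]
  ring

/-- The system of the instance. -/
theorem inst_pos (p : List ℕ × Fm) (h : EAR p) :
    HX (nI (varsOf (sysOf (Fm.not p.2))))
      (instS p.1 (varsOf (sysOf (Fm.not p.2))) (sysOf (Fm.not p.2))) := by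
  rw [ear_iff_v] at h
  obtain ⟨u, hu⟩ := h
  exact hx_of _ _ u hu

theorem inst_neg (p : List ℕ × Fm) (h : ¬ EAR p) :
    HN (nI (varsOf (sysOf (Fm.not p.2))))
      (instS p.1 (varsOf (sysOf (Fm.not p.2))) (sysOf (Fm.not p.2))) := by
  rw [ear_iff_v] at h
  push Not at h
  exact hn_of _ _ h

end Pool.Agent.TH662.IP
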