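import Mathlib
import Pool.Agent.TH662.IP.FormPoly
import Pool.Agent.TH662.IP.Inst2

/-!
# The reduction
-/

namespace Pool.Agent.NPC.TH662

open Pool.Agent.TH662.IP Pool.Agent.NPC.ER Pool.Agent.NPC.H612

/-- The parameter `U`. -/
def parU (n : ℕ) : ℕ := (n + 1) * (n + 1) * n + 1

/-- The parameter `k`. -/
def parK (n : ℕ) : ℕ := 2 * n + 3

/-- The bound of all parameters. -/
def parM (n : ℕ) (S : Sys) : ℕ :=
  64 + (n + 1) + parU n + parK n + S.length + S.flatten.length

theorem length_le_flatten {α : Type} {l : List α} {S : List (List α)} (h : l ∈ S) :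
    l.length ≤ S.flatten.length := by
  induction S with
  | nil => simp at h
  | cons a S ih =>
    rw [List.flatten_cons, List.length_append]
    rcases List.mem_cons.1 h with rfl | h
    · omega
    · have := ih h
      omega

theorem hyp_par {n : ℕ} (hn : 0 < n) (S : Sys) :
    Hyp n (parU n) (parK n) (parM n S) S where
  hB := by
    refine ⟨?_, ?_, ?_, ?_, ?_, fun l hl => ?_⟩
    all_goals unfold parM
    on_goal 6 => have := length_le_flatten hl
    all_goals omega
  hn := hn
  hU := Nat.lt_succ_self _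
  hk := le_rfl

/-- The formula of the reduction. -/
def redF (n : ℕ) (S : Sys) : List Unit × Fm :=
  (List.replicate (NT n (parU n) (parM n S ^ 11) (parM n S ^ 12)) (),
    isoF n (parU n) (parK n) (parM n S ^ 11) (parM n S ^ 12) S)

/-- The reduction. -/
def redI (p : List ℕ × Fm) : List Unit × Fm :=
  redF (nI (varsOf (sysOf (Fm.not p.2))))
    (instS p.1 (varsOf (sysOf (Fm.not p.2))) (sysOf (Fm.not p.2)))

theorem redI_iff (p : List ℕ × Fm) : EAR p ↔ IsoP (redI p).1.length (redI p).2 := by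
  unfold redI redF
  simp only [List.length_replicate]
  have hn : 0 < nI (varsOf (sysOf (Fm.not p.2))) := by unfold nI; omega
  have h := hyp_par hn (instS p.1 (varsOf (sysOf (Fm.not p.2))) (sysOf (Fm.not p.2)))
  constructor
  · intro h1
    exact complete_iso h (inst_pos p h1)
  · intro h1
    by_contra h2
    exact sound_iso h h1 (inst_neg p h2)

section poly

variable {α : Type} [TEnc α]

theorem cE_eq (n P : ℕ) (Vs : List ℕ) (c : Con) : cE n P Vs c =
    if c.code.1 = 0 then [(true, P, 1 + n + Vs.idxOf c.code.2.1, 0), (false, P, 0, 0)]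
    else if c.code.1 = 1 then [(true, P, 1 + n + Vs.idxOf c.code.2.1, 0),
      (true, P, 1 + n + Vs.idxOf c.code.2.2.1, 0), (false, P, 1 + n + Vs.idxOf c.code.2.2.2, 0)]
    else [(true, P, 1 + n + Vs.idxOf c.code.2.1, 1 + n + Vs.idxOf c.code.2.2.1),
      (false, P, 1 + n + Vs.idxOf c.code.2.2.2, 0)] := by
  cases c <;> rfl

theorem poly_q4 {b : Bool} {i j k : α → ℕ} (hi : Poly i) (hj : Poly j) (hk : Poly k) :
    Poly (fun a => (b, i a, j a, k a)) :=
  Poly.pair (Poly.const b) (Poly.pair hi (Poly.pair hj hk))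

theorem poly_cE {n P : α → ℕ} {Vs : α → List ℕ} {c : α → Con} (hn : Poly n) (hP : Poly P)
    (hV : Poly Vs) (hc : Poly c) : Poly (fun a => cE (n a) (P a) (Vs a) (c a)) := by
  simp only [cE_eq]
  have h0 := poly_con_code hc
  have hn1 : Poly (fun a => 1 + n a) := Poly.add (Poly.const 1) hn
  have i1 := Poly.add hn1 (poly_idxOf hV (Poly.fst (Poly.snd h0)))
  have i2 := Poly.add hn1 (poly_idxOf hV (Poly.fst (Poly.snd (Poly.snd h0))))
  have i3 := Poly.add hn1 (poly_idxOf hV (Poly.snd (Poly.snd (Poly.snd h0))))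
  have z := Poly.const (α := α) (0 : ℕ)
  refine Poly.ite (Poly.decide_eq (Poly.fst h0) (Poly.const 0))
    (Poly.cons (poly_q4 hP i1 z) (Poly.cons (poly_q4 hP z z) (Poly.const [])))
    (Poly.ite (Poly.decide_eq (Poly.fst h0) (Poly.const 1))
      (Poly.cons (poly_q4 hP i1 z) (Poly.cons (poly_q4 hP i2 z)
        (Poly.cons (poly_q4 hP i3 z) (Poly.const []))))
      (Poly.cons (poly_q4 hP i1 i2) (Poly.cons (poly_q4 hP i3 z) (Poly.const []))))

theorem poly_zE {n P v : α → ℕ} (hn : Poly n) (hP : Poly P) (hv : Poly v) :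
    Poly (fun a => zE (n a) (P a) (v a)) := by
  have hn1 : Poly (fun a => 1 + n a) := Poly.add (Poly.const 1) hn
  exact Poly.cons (poly_q4 hP (Poly.add hn1 hv) (Poly.const 1))
    (Poly.cons (poly_q4 hP (Poly.const 0) (Poly.const 0)) (Poly.const []))

theorem poly_xE {n P v j : α → ℕ} (hn : Poly n) (hP : Poly P) (hv : Poly v) (hj : Poly j) :
    Poly (fun a => xE (n a) (P a) (v a) (j a)) := by
  have hn1 : Poly (fun a => 1 + n a) := Poly.add (Poly.const 1) hn
  exact Poly.cons (poly_q4 hP (Poly.add hn1 hj) (Poly.const 0))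
    (Poly.cons (poly_q4 hP (Poly.add hn1 hv) (Poly.add (Poly.const 2) hj)) (Poly.const []))

theorem poly_baseS {n P : α → ℕ} {E Vs : α → List ℕ} {S : α → List Con} (hn : Poly n)
    (hP : Poly P) (hE : Poly E) (hV : Poly Vs) (hS : Poly S) :
    Poly (fun a => baseS (n a) (P a) (E a) (Vs a) (S a)) := by
  refine Poly.append (Poly.map (F := fun a c => cE (n a) (P a) (Vs a) c) hS
    (poly_cE (hn.comp p1) (hP.comp p1) (hV.comp p1) p2)) (Poly.cons
    (poly_zE hn hP (Poly.length hV)) (Poly.map (F := fun a j =>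
    if isE (E a) ((Vs a).getD j 0) = true then xE (n a) (P a) (Vs a).length j else [])
    (UPoly.length hV).range ?_))
  exact Poly.ite (Poly.decide_bool (poly_isE (hE.comp p1)
    (Poly.getD (hV.comp p1) p2 (Poly.const 0))))
    (poly_xE (hn.comp p1) (hP.comp p1) (Poly.length (hV.comp p1)) p2) (Poly.const [])

theorem poly_startE {n m : α → ℕ} (hn : Poly n) (hm : UPoly m) :
    Poly (fun a => startE (n a) (m a)) := by
  have hn1 : Poly (fun a => 1 + n a) := Poly.add (Poly.const 1) hn
  refine Poly.cons (poly_q4 (Poly.add hn1 hm.toPoly) (Poly.const 0) (Poly.const 0))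
    (Poly.cons (Poly.const _) (Poly.map (F := fun a j => (false, 1 + n a + j, 1 + n a + j, 0))
      hm.range ?_))
  have h : Poly (fun p : α × ℕ => 1 + n p.1 + p.2) := Poly.add (hn1.comp p1) p2
  exact poly_q4 h h (Poly.const 0)

theorem poly_chainS {n m : α → ℕ} (hn : Poly n) (hm : UPoly m) :
    Poly (fun a => chainS (n a) (m a)) := by
  have hn1 : Poly (fun a => 1 + n a) := Poly.add (Poly.const 1) hn
  refine Poly.map (F := fun a i => [(true, 1 + n a + (m a + (i + 1)), 0, 0),
    (false, 1 + n a + (m a + i), 1 + n a + (m a + i), 0)])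
    (UPoly.mul (UPoly.const 3) hm).range ?_
  have h1 : Poly (fun p : α × ℕ => 1 + n p.1 + (m p.1 + (p.2 + 1))) :=
    Poly.add (hn1.comp p1) (Poly.add (hm.toPoly.comp p1) (Poly.add p2 (Poly.const 1)))
  have h2 : Poly (fun p : α × ℕ => 1 + n p.1 + (m p.1 + p.2)) :=
    Poly.add (hn1.comp p1) (Poly.add (hm.toPoly.comp p1) p2)
  exact Poly.cons (poly_q4 h1 (Poly.const 0) (Poly.const 0))
    (Poly.cons (poly_q4 h2 h2 (Poly.const 0)) (Poly.const []))

theorem upoly_nI {Vs : α → List ℕ} (hV : Poly Vs) : UPoly (fun a => nI (Vs a)) :=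
  UPoly.add (UPoly.mul (UPoly.const 4) (upoly_succ (UPoly.length hV))) (UPoly.const 1)

theorem poly_instS {E Vs : α → List ℕ} {S : α → List Con} (hE : Poly E) (hV : Poly Vs)
    (hS : Poly S) : Poly (fun a => instS (E a) (Vs a) (S a)) := by
  have hn := upoly_nI hV
  have hm : UPoly (fun a => (Vs a).length + 1) := upoly_succ (UPoly.length hV)
  refine Poly.append (poly_baseS hn.toPoly (Poly.add (Poly.add (Poly.const 1) hn.toPoly)
    (Poly.add hm.toPoly (Poly.mul (Poly.const 3) hm.toPoly))) hE hV hS)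
    (Poly.cons (poly_startE hn.toPoly hm) (poly_chainS hn.toPoly hm))

theorem upoly_parU {n : α → ℕ} (hn : UPoly n) : UPoly (fun a => parU (n a)) :=
  UPoly.add (UPoly.mul (UPoly.mul (upoly_succ hn) (upoly_succ hn)) hn) (UPoly.const 1)

theorem upoly_parK {n : α → ℕ} (hn : UPoly n) : UPoly (fun a => parK (n a)) :=
  UPoly.add (UPoly.mul (UPoly.const 2) hn) (UPoly.const 3)

theorem upoly_parM {n : α → ℕ} {S : α → Sys} (hn : UPoly n) (hS : Poly S) :
    UPoly (fun a => parM (n a) (S a)) :=
  UPoly.add (UPoly.add (UPoly.add (UPoly.add (UPoly.add (UPoly.const 64) (upoly_succ hn))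
    (upoly_parU hn)) (upoly_parK hn)) (UPoly.length hS)) (UPoly.length (Poly.flatten hS))

theorem poly_redF {n : α → ℕ} {S : α → Sys} (hn : UPoly n) (hS : Poly S) :
    Poly (fun a => redF (n a) (S a)) := by
  have hU := upoly_parU hn
  have hk := upoly_parK hn
  have hM := upoly_parM hn hS
  have hg := upoly_pow hM 11
  have hL := upoly_pow hM 12
  exact Poly.pair (upoly_NT hn hU hg hL) (poly_isoF hn hU hk hg hL hS)

end poly

theorem poly_redI : Poly redI := by
  have hS : Poly (fun p : List ℕ × Fm => sysOf (Fm.not p.2)) :=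
    poly_sysOf (poly_fnot (Poly.snd Poly.id))
  have hV : Poly (fun p : List ℕ × Fm => varsOf (sysOf (Fm.not p.2))) := poly_varsOf hS
  exact poly_redF (upoly_nI hV) (poly_instS (Poly.fst Poly.id) hV hS)

/-- Existence of an isolated point in terms of coordinates. -/
def IsoC (p : List Unit × Fm) : Prop := IsoP p.1.length p.2

/-- Existence of an isolated point is `∃∀ℝ`-hard. -/
theorem isoC_hard : EARHard (lang IsoC) := EARHard.of_poly poly_redI redI_iff

end Pool.Agent.NPC.TH662
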