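import Mathlib
import Pool.Agent.TH662.IP.Red

/-!
# Existence of an isolated point: the problem and its membership in `∃∀ℝ`
-/

namespace Pool.Agent.NPC.TH662

open Pool.Agent.TH662.IP Pool.Agent.NPC.ER Pool.Agent.NPC.H612

/-! ### The problem -/

/-- All variables of the term have index less than `n`. -/
def TmIn (n : ℕ) : Tm → Prop
  | .var i => i < n
  | .zero => True
  | .one => True
  | .add s t => TmIn n s ∧ TmIn n t
  | .neg t => TmIn n t
  | .mul s t => TmIn n s ∧ TmIn n t

/-- The formula is a Boolean combination of equations `s = t` and strict inequalities `s < t`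
between polynomials in the variables `x₀, …, xₙ₋₁`. -/
def FmIn (n : ℕ) : Fm → Prop
  | .eq s t => TmIn n s ∧ TmIn n t
  | .lt s t => TmIn n s ∧ TmIn n t
  | .le _ _ => False
  | .not φ => FmIn n φ
  | .and φ ψ => FmIn n φ ∧ FmIn n ψ
  | .or φ ψ => FmIn n φ ∧ FmIn n ψ

/-- The subset of `ℝⁿ` defined by the formula `φ` in the variables `x₀, …, xₙ₋₁`. -/
def semiSet (n : ℕ) (φ : Fm) : Set (EuclideanSpace ℝ (Fin n)) :=
  {x | φ.Holds fun i => if h : i < n then x ⟨i, h⟩ else 0}

/-- The set has an isolated point. -/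
def HasIsolatedPoint {n : ℕ} (S : Set (EuclideanSpace ℝ (Fin n))) : Prop :=
  ∃ x ∈ S, ∃ ε > 0, Metric.ball x ε ∩ S = {x}

/-- The decision problem: the input is a dimension `n` in unary and a formula in the variables
`x₀, …, xₙ₋₁`, the question is whether the subset of `ℝⁿ` defined by the formula has an isolated
point. -/
def IsolatedPointExistence (p : List Unit × Fm) : Prop :=
  FmIn p.1.length p.2 ∧ HasIsolatedPoint (semiSet p.1.length p.2)

/-! ### Reformulations -/

/-- Existence of an isolated point, with the euclidean norm. -/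
def IsoE (n : ℕ) (φ : Fm) : Prop :=
  ∃ z : Fin n → ℝ, φ.Holds (ex0 z) ∧ ∃ ε > 0, ∀ z' : Fin n → ℝ, φ.Holds (ex0 z') →
    ∑ i, (z' i - z i) ^ 2 < ε ^ 2 → z' = z

theorem hasIsolatedPoint_iff (n : ℕ) (φ : Fm) : HasIsolatedPoint (semiSet n φ) ↔ IsoE n φ := by
  have hd : ∀ (x y : EuclideanSpace ℝ (Fin n)) {ε : ℝ}, 0 < ε →
      (dist y x < ε ↔ ∑ i, (y i - x i) ^ 2 < ε ^ 2) := by
    intro x y ε hε
    rw [EuclideanSpace.dist_eq, Real.sqrt_lt' hε]
    simp only [Real.dist_eq, sq_abs]
  constructor
  · rintro ⟨x, hx, ε, hε, h⟩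
    refine ⟨fun i => x i, hx, ε, hε, fun z' hz' hlt => ?_⟩
    have h1 : (WithLp.toLp 2 z' : EuclideanSpace ℝ (Fin n)) ∈ Metric.ball x ε ∩ semiSet n φ := by
      refine ⟨?_, hz'⟩
      rw [Metric.mem_ball, hd _ _ hε]
      exact hlt
    rw [h, Set.mem_singleton_iff] at h1
    funext i
    rw [← h1]
  · rintro ⟨z, hz, ε, hε, h⟩
    refine ⟨WithLp.toLp 2 z, hz, ε, hε, ?_⟩
    ext y
    rw [Set.mem_inter_iff, Metric.mem_ball, Set.mem_singleton_iff, hd _ _ hε]
    constructor
    · rintro ⟨h1, h2⟩
      have h3 := h (fun i => y i) h2 h1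
      ext i
      exact congrFun h3 i
    · rintro rfl
      refine ⟨?_, hz⟩
      simp only [sub_self, ne_eq, OfNat.ofNat_ne_zero, not_false_eq_true, zero_pow,
        Finset.sum_const_zero]
      positivity

theorem isoE_iff (n : ℕ) (φ : Fm) : IsoE n φ ↔ IsoP n φ := by
  constructor
  · rintro ⟨z, hz, ε, hε, h⟩
    refine ⟨z, hz, ε / (n + 1), by positivity, fun z' hz' hk => h z' hz' ?_⟩
    have h1 : ∑ i, (z' i - z i) ^ 2 ≤ ∑ _i : Fin n, (ε / (n + 1)) ^ 2 := by
      refine Finset.sum_le_sum fun i _ => ?_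
      rw [← sq_abs (z' i - z i)]
      exact pow_le_pow_left₀ (abs_nonneg _) (hk i).le 2
    rw [Finset.sum_const, Finset.card_univ, Fintype.card_fin, nsmul_eq_mul] at h1
    refine h1.trans_lt ?_
    have hn : (0 : ℝ) < (n : ℝ) + 1 := by positivity
    rw [div_pow, ← mul_div_assoc, div_lt_iff₀ (by positivity)]
    have h2 : (n : ℝ) < ((n : ℝ) + 1) ^ 2 := by nlinarith [Nat.cast_nonneg (α := ℝ) n]
    have h3 : 0 < ε ^ 2 := by positivity
    nlinarith
  · rintro ⟨z, hz, ε, hε, h⟩
    refine ⟨z, hz, ε, hε, fun z' hz' hs => h z' hz' fun k => ?_⟩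
    have h1 : (z' k - z k) ^ 2 ≤ ∑ i, (z' i - z i) ^ 2 :=
      Finset.single_le_sum (f := fun i => (z' i - z i) ^ 2) (fun i _ => sq_nonneg _)
        (Finset.mem_univ k)
    exact abs_lt_of_sq_lt_sq (h1.trans_lt hs) hε.le

/-! ### Renaming -/

/-- Renaming of the variables with index less than `n`; the other variables are replaced by
zero. -/
def renT (n s : ℕ) : Tm → Tm
  | .var i => if i < n then Tm.var (s + i) else Tm.zero
  | .zero => .zero
  | .one => .one
  | .add a b => .add (renT n s a) (renT n s b)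
  | .neg a => .neg (renT n s a)
  | .mul a b => .mul (renT n s a) (renT n s b)

/-- Renaming in formulas. -/
def renF (n s : ℕ) : Fm → Fm
  | .eq a b => .eq (renT n s a) (renT n s b)
  | .lt a b => .lt (renT n s a) (renT n s b)
  | .le a b => .not (.lt (.neg (.add (renT n s a) (.neg (renT n s b)))) .zero)
  | .not φ => .not (renF n s φ)
  | .and φ ψ => .and (renF n s φ) (renF n s ψ)
  | .or φ ψ => .or (renF n s φ) (renF n s ψ)

theorem eval_renT (n s : ℕ) (v : ℕ → ℝ) (t : Tm) :
    (renT n s t).eval v = t.eval (fun i => if i < n then v (s + i) else 0) := by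
  induction t with
  | var i =>
    simp only [renT, Tm.eval]
    split_ifs <;> rfl
  | zero => rfl
  | one => rfl
  | add a b iha ihb => simp only [renT, Tm.eval, iha, ihb]
  | neg a iha => simp only [renT, Tm.eval, iha]
  | mul a b iha ihb => simp only [renT, Tm.eval, iha, ihb]

theorem holds_renF (n s : ℕ) (v : ℕ → ℝ) (φ : Fm) :
    (renF n s φ).Holds v ↔ φ.Holds (fun i => if i < n then v (s + i) else 0) := by
  induction φ with
  | eq a b => simp only [renF, Fm.Holds, eval_renT]
  | lt a b => simp only [renF, Fm.Holds, eval_renT]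
  | le a b =>
    simp only [renF, Fm.Holds, eval_renT, Tm.eval]
    constructor <;> intro h <;> linarith
  | not φ ih => simp only [renF, Fm.Holds, ih]
  | and φ ψ ih1 ih2 => simp only [renF, Fm.Holds, ih1, ih2]
  | or φ ψ ih1 ih2 => simp only [renF, Fm.Holds, ih1, ih2]

theorem tmIn_renT (n : ℕ) (t : Tm) : TmIn n (renT n 0 t) := by
  induction t with
  | var i =>
    simp only [renT]
    split_ifs with h
    · simpa [TmIn] using h
    · trivial
  | zero => trivial
  | one => trivial
  | add a b iha ihb => exact ⟨iha, ihb⟩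
  | neg a iha => exact iha
  | mul a b iha ihb => exact ⟨iha, ihb⟩

theorem fmIn_renF (n : ℕ) (φ : Fm) : FmIn n (renF n 0 φ) := by
  induction φ with
  | eq a b => exact ⟨tmIn_renT n a, tmIn_renT n b⟩
  | lt a b => exact ⟨tmIn_renT n a, tmIn_renT n b⟩
  | le a b => exact ⟨⟨tmIn_renT n a, tmIn_renT n b⟩, trivial⟩
  | not φ ih => exact ih
  | and φ ψ ih1 ih2 => exact ⟨ih1, ih2⟩
  | or φ ψ ih1 ih2 => exact ⟨ih1, ih2⟩

/-- Renaming of symbols. -/
def rtok (n s : ℕ) (t : Tok) : List Tok :=
  if t.code.1 = 0 then [if t.code.2 < n then Tok.var (s + t.code.2) else Tok.zero]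
  else if t.code.1 = 8 then [Tok.neg, Tok.add, Tok.neg, Tok.zero, Tok.lt, Tok.not]
  else [t]

theorem toks_renT (n s : ℕ) (t : Tm) : (renT n s t).toks = t.toks.flatMap (rtok n s) := by
  induction t with
  | var i =>
    simp only [renT, Tm.toks, List.flatMap_cons, List.flatMap_nil, List.append_nil]
    have h0 : rtok n s (Tok.var i) = [if i < n then Tok.var (s + i) else Tok.zero] := rfl
    rw [h0]
    by_cases h : i < n
    · rw [if_pos h, if_pos h]
      rfl
    · rw [if_neg h, if_neg h]
      rfl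
  | zero => rfl
  | one => rfl
  | add a b iha ihb => simp [renT, Tm.toks, iha, ihb, rtok, Tok.code]
  | neg a iha => simp [renT, Tm.toks, iha, rtok, Tok.code]
  | mul a b iha ihb => simp [renT, Tm.toks, iha, ihb, rtok, Tok.code]

theorem toks_renF (n s : ℕ) (φ : Fm) : (renF n s φ).toks = φ.toks.flatMap (rtok n s) := by
  induction φ with
  | eq a b => simp [renF, Fm.toks, toks_renT, rtok, Tok.code]
  | lt a b => simp [renF, Fm.toks, toks_renT, rtok, Tok.code]
  | le a b => simp [renF, Fm.toks, Tm.toks, toks_renT, rtok, Tok.code]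
  | not φ ih => simp [renF, Fm.toks, ih, rtok, Tok.code]
  | and φ ψ ih1 ih2 => simp [renF, Fm.toks, ih1, ih2, rtok, Tok.code]
  | or φ ψ ih1 ih2 => simp [renF, Fm.toks, ih1, ih2, rtok, Tok.code]

/-- Admissible symbols. -/
def okTok (n : ℕ) (t : Tok) : Bool :=
  (!decide (t.code.1 = 0) || decide (t.code.2 < n)) && !decide (t.code.1 = 8)

theorem tmIn_iff (n : ℕ) (t : Tm) : TmIn n t ↔ t.toks.all (okTok n) = true := by
  induction t with
  | var i =>
    have h0 : (Tm.var i).toks.all (okTok n) = ((false || decide (i < n)) && true && true) := rfl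
    rw [h0, Bool.false_or, Bool.and_true, Bool.and_true]
    exact (decide_eq_true_iff (p := i < n)).symm
  | zero => simp [TmIn, Tm.toks, okTok, Tok.code]
  | one => simp [TmIn, Tm.toks, okTok, Tok.code]
  | add a b iha ihb => simp [TmIn, Tm.toks, okTok, Tok.code, iha, ihb]
  | neg a iha => simp [TmIn, Tm.toks, okTok, Tok.code, iha]
  | mul a b iha ihb => simp [TmIn, Tm.toks, okTok, Tok.code, iha, ihb]

theorem fmIn_iff (n : ℕ) (φ : Fm) : FmIn n φ ↔ φ.toks.all (okTok n) = true := by
  induction φ with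
  | eq a b => simp [FmIn, Fm.toks, okTok, Tok.code, tmIn_iff]
  | lt a b => simp [FmIn, Fm.toks, okTok, Tok.code, tmIn_iff]
  | le a b => simp [FmIn, Fm.toks, okTok, Tok.code]
  | not φ ih => simp [FmIn, Fm.toks, okTok, Tok.code, ih]
  | and φ ψ ih1 ih2 => simp [FmIn, Fm.toks, okTok, Tok.code, ih1, ih2]
  | or φ ψ ih1 ih2 => simp [FmIn, Fm.toks, okTok, Tok.code, ih1, ih2]

/-! ### Hardness -/

/-- The reduction, with formulas without superfluous variables. -/
def redJ (p : List ℕ × Fm) : List Unit × Fm :=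
  ((redI p).1, renF (redI p).1.length 0 (redI p).2)

theorem isoP_renF (n : ℕ) (φ : Fm) : IsoP n (renF n 0 φ) ↔ IsoP n φ := by
  have h : SP n (renF n 0 φ) = SP n φ := by
    ext z
    change (renF n 0 φ).Holds (ex0 z) ↔ φ.Holds (ex0 z)
    rw [holds_renF]
    have : (fun i => if i < n then ex0 z (0 + i) else 0) = ex0 z := by
      funext i
      unfold ex0
      split_ifs with h1 h2
      · congr 1
        exact Fin.ext (by simp)
      · omega
      · rfl
    rw [this]
  unfold IsoP
  rw [h]

theorem redJ_iff (p : List ℕ × Fm) : EAR p ↔ IsolatedPointExistence (redJ p) := by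
  unfold IsolatedPointExistence redJ
  simp only
  rw [hasIsolatedPoint_iff, isoE_iff, isoP_renF, ← redI_iff]
  exact ⟨fun h => ⟨fmIn_renF _ _, h⟩, fun h => h.2⟩

section poly

variable {α : Type} [TEnc α]

theorem poly_tok_code {f : α → Tok} (hf : Poly f) : Poly (fun a => (f a).code) := hf

theorem poly_renF {n s : α → ℕ} {φ : α → Fm} (hn : Poly n) (hs : Poly s) (hφ : Poly φ) :
    Poly (fun a => renF (n a) (s a) (φ a)) := by
  refine fm_of_toks (Poly.congr (f := fun a => (φ a).toks.flatMap (rtok (n a) (s a))) ?_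
    fun a => (toks_renF _ _ _).symm)
  refine Poly.flatMap (F := fun a => rtok (n a) (s a)) (fm_toks hφ) ?_
  have hc := poly_tok_code (p2 (α := α) (β := Tok))
  exact Poly.ite (Poly.decide_eq (Poly.fst hc) (Poly.const 0))
    (Poly.cons (Poly.ite (Poly.decide_lt (Poly.snd hc) (hn.comp p1))
      (poly_tok_var' (Poly.add (hs.comp p1) (Poly.snd hc))) (Poly.const _)) (Poly.const []))
    (Poly.ite (Poly.decide_eq (Poly.fst hc) (Poly.const 8)) (Poly.const _)
      (Poly.cons p2 (Poly.const [])))

theorem poly_ok {n : α → ℕ} {φ : α → Fm} (hn : Poly n) (hφ : Poly φ) :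
    Poly (fun a => (φ a).toks.all (okTok (n a))) := by
  refine Poly.all (p := fun a => okTok (n a)) (fm_toks hφ) ?_
  have hc := poly_tok_code (p2 (α := α) (β := Tok))
  exact Poly.and (Poly.or (Poly.not (Poly.decide_eq (Poly.fst hc) (Poly.const 0)))
    (Poly.decide_lt (Poly.snd hc) (hn.comp p1)))
    (Poly.not (Poly.decide_eq (Poly.fst hc) (Poly.const 8)))

end poly

theorem poly_redJ : Poly redJ :=
  Poly.pair (Poly.fst poly_redI) (poly_renF (Poly.length (Poly.fst poly_redI)) (Poly.const 0)
    (Poly.snd poly_redI))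

theorem isolatedPoint_hard : EARHard (lang IsolatedPointExistence) :=
  EARHard.of_poly poly_redJ redJ_iff

/-! ### Membership -/

/-- The sentence: `x` satisfies the formula, the radius is positive, and every `y` closer to `x`
which satisfies the formula is equal to `x`. -/
def memF (n : ℕ) (φ : Fm) : Fm :=
  Fm.and (Fm.and (renF n 0 φ) (Fm.lt Tm.zero (Tm.var n)))
    (Fm.or (Fm.not (Fm.and (renF n (n + 1) φ) (Fm.lt
      (sumR n fun i => Tm.mul (subT (Tm.var (n + 1 + i)) (Tm.var i))
        (subT (Tm.var (n + 1 + i)) (Tm.var i))) (Tm.mul (Tm.var n) (Tm.var n)))))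
      (conj ((List.range n).map fun i => Fm.eq (Tm.var (n + 1 + i)) (Tm.var i))))

/-- The instance. -/
def memI (p : List Unit × Fm) : List ℕ × Fm :=
  if p.2.toks.all (okTok p.1.length) = true then
    (List.range (p.1.length + 1), memF p.1.length p.2)
  else ([], Fm.lt Tm.zero Tm.zero)

theorem holds_memF (n : ℕ) (φ : Fm) (v : ℕ → ℝ) : (memF n φ).Holds v ↔
    (φ.Holds (ex0 fun i : Fin n => v i) ∧ 0 < v n) ∧
      (φ.Holds (ex0 fun i : Fin n => v (n + 1 + i)) →
        ∑ i : Fin n, (v (n + 1 + i) - v i) ^ 2 < v n ^ 2 →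
        (fun i : Fin n => v (n + 1 + i)) = fun i : Fin n => v i) := by
  have e1 : ∀ s, (fun i => if i < n then v (s + i) else 0) = ex0 fun i : Fin n => v (s + i) := by
    intro s
    funext i
    unfold ex0
    split_ifs <;> rfl
  have e2 : (ex0 fun i : Fin n => v (0 + i)) = ex0 fun i : Fin n => v i := by
    simp only [zero_add]
  have e3 : (sumR n fun i => Tm.mul (subT (Tm.var (n + 1 + i)) (Tm.var i))
        (subT (Tm.var (n + 1 + i)) (Tm.var i))).eval v =
      ∑ i : Fin n, (v (n + 1 + i) - v i) ^ 2 := by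
    rw [eval_sumR]
    refine Finset.sum_congr rfl fun i _ => ?_
    simp only [Tm.eval, eval_subT]
    ring
  unfold memF
  simp only [Fm.Holds, holds_renF, e1, e2, e3, Tm.eval, holds_conj_range]
  refine and_congr Iff.rfl ?_
  rw [← imp_iff_not_or, and_imp, ← pow_two]
  refine imp_congr_right fun _ => imp_congr_right fun _ => ?_
  constructor
  · intro h
    funext i
    exact h i i.2
  · intro h i hi
    exact congrFun h ⟨i, hi⟩

theorem memI_iff (p : List Unit × Fm) : IsolatedPointExistence p ↔ EAR (memI p) := by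
  obtain ⟨l, φ⟩ := p
  unfold IsolatedPointExistence memI
  simp only
  generalize l.length = n
  rw [hasIsolatedPoint_iff, fmIn_iff]
  by_cases hok : φ.toks.all (okTok n) = true
  · rw [if_pos hok]
    simp only [hok, true_and]
    unfold EAR
    simp only [holds_memF]
    have m1 : ∀ (x y : ℕ → ℝ) (i : Fin n), mixv (List.range (n + 1)) x y i = x i := by
      intro x y i
      unfold mixv
      rw [if_pos (List.mem_range.2 (by omega))]
    have m2 : ∀ (x y : ℕ → ℝ), mixv (List.range (n + 1)) x y n = x n := by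
      intro x y
      unfold mixv
      rw [if_pos (List.mem_range.2 (by omega))]
    have m3 : ∀ (x y : ℕ → ℝ) (i : Fin n), mixv (List.range (n + 1)) x y (n + 1 + i) =
        y (n + 1 + i) := by
      intro x y i
      unfold mixv
      rw [if_neg (by rw [List.mem_range]; omega)]
    simp only [m1, m2, m3]
    constructor
    · rintro ⟨z, hz, ε, hε, h⟩
      refine ⟨fun i => if h : i < n then z ⟨i, h⟩ else ε, fun y => ?_⟩
      have e1 : (fun i : Fin n => if h : (i : ℕ) < n then z ⟨i, h⟩ else ε) = z := by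
        funext i
        rw [dif_pos i.2]
      have e2 : (if h : n < n then z ⟨n, h⟩ else ε) = ε := dif_neg (lt_irrefl _)
      have e3 : ∀ i : Fin n, (if h : (i : ℕ) < n then z ⟨i, h⟩ else ε) = z i :=
        fun i => dif_pos i.2
      simp only [e2, e3]
      exact ⟨⟨hz, hε⟩, fun h1 h2 => h _ h1 h2⟩
    · rintro ⟨x, h⟩
      refine ⟨fun i => x i, (h fun _ => 0).1.1, x n, (h fun _ => 0).1.2, fun z' h1 h2 => ?_⟩
      have h3 := h fun i => if h : i - (n + 1) < n then z' ⟨i - (n + 1), h⟩ else 0
      have e3 : ∀ i : Fin n, (if h : n + 1 + (i : ℕ) - (n + 1) < n then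
          z' ⟨n + 1 + i - (n + 1), h⟩ else 0) = z' i := by
        intro i
        have h5 : n + 1 + (i : ℕ) - (n + 1) < n := by omega
        rw [dif_pos h5]
        congr 1
        exact Fin.ext (by simp)
      simp only [e3] at h3
      exact h3.2 h1 h2
  · rw [if_neg hok]
    constructor
    · rintro ⟨h, -⟩
      exact absurd h hok
    · rintro ⟨x, h⟩
      exact absurd (h x) (lt_irrefl _)

theorem poly_memI : Poly memI := by
  have hn : UPoly (fun p : List Unit × Fm => p.1.length) := UPoly.length p1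
  have hφ : Poly (fun p : List Unit × Fm => p.2) := p2
  have hn1 : UPoly (fun p : List Unit × Fm => p.1.length + 1) := upoly_succ hn
  have cn : Poly (fun p : (List Unit × Fm) × ℕ => Tm.var (p.1.1.length + 1 + p.2)) :=
    poly_tvar (Poly.add (hn1.toPoly.comp p1) p2)
  have ci : Poly (fun p : (List Unit × Fm) × ℕ => Tm.var p.2) := poly_tvar p2
  refine Poly.ite (Poly.decide_bool (poly_ok hn.toPoly hφ)) (Poly.pair hn1.range
    (poly_fand (poly_fand (poly_renF hn.toPoly (Poly.const 0) hφ)
      (poly_flt (Poly.const _) (poly_tvar hn.toPoly)))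
      (poly_for (poly_fnot (poly_fand (poly_renF hn.toPoly hn1.toPoly hφ)
        (poly_flt ?_ (poly_tmul (poly_tvar hn.toPoly) (poly_tvar hn.toPoly))))) ?_)))
    (Poly.const _)
  · exact poly_sumR (F := fun (p : List Unit × Fm) i => Tm.mul
      (subT (Tm.var (p.1.length + 1 + i)) (Tm.var i))
      (subT (Tm.var (p.1.length + 1 + i)) (Tm.var i))) hn
      (poly_tmul (poly_subT cn ci) (poly_subT cn ci))
  · exact poly_conjR (F := fun (p : List Unit × Fm) i =>
      Fm.eq (Tm.var (p.1.length + 1 + i)) (Tm.var i)) hn (poly_feq cn ci)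

theorem isolatedPoint_mem : InEAR (lang IsolatedPointExistence) :=
  InEAR.of_poly poly_memI memI_iff

/-- Existence of an isolated point is `∃∀ℝ`-complete. -/
theorem isolatedPoint_complete : EARComplete (lang IsolatedPointExistence) :=
  ⟨isolatedPoint_mem, isolatedPoint_hard⟩

end Pool.Agent.NPC.TH662
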